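import Pool.Agent.H8.VM.A2_Gen
import Pool.Agent.H28.StableCount

/-! MODULE A3a (part of A3) (about 300 lines; may be split). Counting stable families.

`stables_lower` (Graham-Sloane): colour an `r`-set `S` by the sum of its elements mod `n`; two
adjacent sets have different colours (they differ by exchanging two different elements of
`Fin n`), so every colour class is stable; some class has at least `N/n` members and all its
subsets are stable: `2^(N/n) <= s`.

`few_small`, `few_large`: from `gen_indep` with `R = floor((1+δ) N / (n-r+1))`,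
`β = δ r (n-r+1) / ((1+δ) N)` (`Pool.Agent.H28.Johnson.deg_large`), `q = ceil(log n / β)`; as in
the proof of `Pool.Agent.H28.StableCount.log_stables_le` one has
`sum_(j<=q) C(N, j) <= (e N / q)^q <= exp (2 q log n)` and `q <= 2 (log n) / β`, so
`q log n = o(N/n)` uniformly for `n <= 14 r`.
* small: `x = κ < 1`: number of `I` with `|I| <= k` is at most
  `x^(-k) * exp(2 q log n) * (1+x)^R`; with `k = κ N/n` and `R <= 3 N/n` this is at most
  `exp ((κ log (1/κ) + 3 κ + o(1)) N/n)`.
* large: `x = 1/ε > 1`: number of `I` with `|I| >= k` is at most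
  `x^(-k) * x^q exp(2 q log n) * (1+x)^R`; with `k = (1-ε) N/(n-r+1)`, `R <= (1+δ) N/(n-r+1)`,
  `δ = ε`: exponent `((1+ε) log(1+1/ε) - (1-ε) log(1/ε)) N/(n-r+1) + o(N/n)`
  `= ((1+ε) log(1+ε) + 2 ε log(1/ε)) N/(n-r+1) + o(N/n)`, and `N/(n-r+1) <= 3 N/n`. -/

open scoped BigOperators
open Filter

namespace Pool.Agent.H8.VM

open Pool.Agent.H28.Johnson Pool.Agent.H28.KW Pool.Agent.H28.Windows

/-- two adjacent `r`-sets differ by exchanging two different elements -/
lemma adj_exchange {n r : ℕ} {S T : Finset (Fin n)} (hS : S.card = r) (hT : T.card = r)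
    (h : adj r S T) : ∃ a ∈ S, ∃ b ∈ T, a ≠ b ∧ S.erase a = T.erase b := by
  obtain ⟨hne, hc⟩ := h
  have h1 : (S \ T).card + (S ∩ T).card = S.card := Finset.card_sdiff_add_card_inter S T
  have h2 : (T \ S).card + (T ∩ S).card = T.card := Finset.card_sdiff_add_card_inter T S
  rw [Finset.inter_comm] at h2
  have h3 : (S \ T).card ≠ 0 := by
    intro h0
    have h4 : S ⊆ T := Finset.sdiff_eq_empty_iff_subset.mp (Finset.card_eq_zero.mp h0)
    exact hne (Finset.eq_of_subset_of_card_le h4 (by omega))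
  obtain ⟨a, ha⟩ := Finset.card_eq_one.mp (show (S \ T).card = 1 by omega)
  obtain ⟨b, hb⟩ := Finset.card_eq_one.mp (show (T \ S).card = 1 by omega)
  have ha' : a ∈ S \ T := by rw [ha]; exact Finset.mem_singleton_self a
  have hb' : b ∈ T \ S := by rw [hb]; exact Finset.mem_singleton_self b
  rw [Finset.mem_sdiff] at ha' hb'
  refine ⟨a, ha'.1, b, hb'.1, fun hab => ha'.2 (hab ▸ hb'.1), ?_⟩
  have e1 : S.erase a = S ∩ T := by
    rw [← Finset.sdiff_singleton_eq_erase, ← ha]
    ext x
    simp only [Finset.mem_sdiff, Finset.mem_inter]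
    tauto
  have e2 : T.erase b = S ∩ T := by
    rw [← Finset.sdiff_singleton_eq_erase, ← hb]
    ext x
    simp only [Finset.mem_sdiff, Finset.mem_inter]
    tauto
  rw [e1, e2]

/-- adjacent `r`-sets have different sums modulo `n` -/
lemma sum_ne_of_adj {n r : ℕ} {S T : Finset (Fin n)} (hS : S.card = r) (hT : T.card = r)
    (h : adj r S T) :
    ∑ x ∈ S, ((x : ℕ) : ZMod n) ≠ ∑ x ∈ T, ((x : ℕ) : ZMod n) := by
  obtain ⟨a, ha, b, hb, hab, he⟩ := adj_exchange hS hT h
  intro hs
  rw [← Finset.sum_erase_add _ _ ha, ← Finset.sum_erase_add _ _ hb, he] at hs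
  have h1 : ((a : ℕ) : ZMod n) = ((b : ℕ) : ZMod n) := add_left_cancel hs
  rw [ZMod.natCast_eq_natCast_iff'] at h1
  rw [Nat.mod_eq_of_lt a.2, Nat.mod_eq_of_lt b.2] at h1
  exact hab (Fin.ext h1)

theorem stables_lower {n r : ℕ} (hn : 1 ≤ n) (hrn : r ≤ n) :
    (n.choose r : ℝ) / n * Real.log 2 ≤ Real.log (stables n r).card := by
  classical
  haveI : NeZero n := ⟨by omega⟩
  set f : Finset (Fin n) → ZMod n := fun S => ∑ x ∈ S, ((x : ℕ) : ZMod n) with hf
  obtain ⟨c, -, hc⟩ : ∃ c ∈ (Finset.univ : Finset (ZMod n)),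
      (n.choose r : ℝ) / n ≤ (((Base n r).filter fun S => f S = c).card : ℝ) := by
    have hn0 : (0 : ℝ) < n := by exact_mod_cast hn
    by_contra hcon
    push Not at hcon
    have h1 : ((Base n r).card : ℝ) =
        ∑ c ∈ (Finset.univ : Finset (ZMod n)), (((Base n r).filter fun S => f S = c).card : ℝ) := by
      rw [← Nat.cast_sum]
      congr 1
      exact Finset.card_eq_sum_card_fiberwise (fun _ _ => Finset.mem_univ _)
    have h2 : ∑ c ∈ (Finset.univ : Finset (ZMod n)),
        (((Base n r).filter fun S => f S = c).card : ℝ) <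
        ∑ c ∈ (Finset.univ : Finset (ZMod n)), (n.choose r : ℝ) / n :=
      Finset.sum_lt_sum_of_nonempty ⟨0, Finset.mem_univ _⟩ hcon
    rw [← h1, Finset.sum_const, Finset.card_univ, ZMod.card, card_Base, nsmul_eq_mul,
      mul_div_cancel₀ _ hn0.ne'] at h2
    exact lt_irrefl _ h2
  set K := (Base n r).filter fun S => f S = c with hK
  have hsub : K.powerset ⊆ stables n r := by
    intro H hH
    rw [Finset.mem_powerset] at hH
    rw [mem_stables]
    refine ⟨hH.trans (Finset.filter_subset _ _), ?_⟩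
    intro S hS T hT hadj
    have hS' := Finset.mem_filter.mp (hH hS)
    have hT' := Finset.mem_filter.mp (hH hT)
    exact sum_ne_of_adj (mem_Base.mp hS'.1) (mem_Base.mp hT'.1) hadj (hS'.2.trans hT'.2.symm)
  have hcard : (2 : ℝ) ^ K.card ≤ ((stables n r).card : ℝ) := by
    have := Finset.card_le_card hsub
    rw [Finset.card_powerset] at this
    exact_mod_cast this
  calc (n.choose r : ℝ) / n * Real.log 2 ≤ (K.card : ℝ) * Real.log 2 :=
        mul_le_mul_of_nonneg_right hc (Real.log_nonneg (by norm_num))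
    _ = Real.log ((2 : ℝ) ^ K.card) := by rw [Real.log_pow]
    _ ≤ _ := Real.log_le_log (by positivity) hcard

end Pool.Agent.H8.VM
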