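import Pool.Agent.H8.VM.Defs

/-! MODULE A1 (about 150 lines). The Kleitman-Winston algorithm, in the form needed for exact
identities.

Definition of the run. Fix a choice `v(U)` of a vertex of `U` with
`β * U.card <= deg_U (v(U))` for every `U` contained in `B` with more than `θ` elements. Define
`run U I` by recursion on `U.card`:
* if `U.card <= θ`: `run U I = (empty, U)`;
* otherwise let `v = v(U)`; if `v` is not in `I`: `run U I = run (U.erase v) I`;
  if `v` is in `I`: `run U I = (insert v F', U')` with
  `(F', U') = run (U minus v minus its neighbours) I`.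
`F I` and `U I` are the two components of `run B I`.

Facts, all by induction on `U.card` for general `U` contained in `B`:
(1) `F` is contained in `I` and in `U`; `U'` is contained in `U`, has at most `θ` elements;
    `F.card <= q` as soon as `(1-β)^q * U.card <= θ` (each selected vertex removes at least
    `β * U.card` elements, so the bound is passed on with `q - 1`; if `q = 0` then
    `U.card <= θ` and nothing is selected).
(2) for `z` in `U`, `z` not in `I`, `z` without neighbours in `I`:
    `z` is in `F (insert z I)` iff `z` is not in `U' (I)`. Indeed both runs take the same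
    decisions until the selected vertex is `z`: a selected vertex `v <> z` is in `I` iff it is in
    `insert z I`, and then `z` is not a neighbour of `v` so it stays in the set; when `v = z` the
    run for `insert z I` puts `z` into `F`, and the run for `I` erases `z` (so `z` is not in
    `U' I`, which is contained in the current set). If `z` is never selected it stays until the
    end: then `z` is in `U' I` and not in `F (insert z I)` (`F` consists of selected vertices).
(3) for `u` in `I`, if `u` is not in `F I` then `run U (I.erase u) = run U I`: a selected vertex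
    `v` of `I` is in `F I`, hence `v <> u`, hence the decisions agree. -/

open scoped BigOperators

namespace Pool.Agent.H8.VM

open Pool.Agent.H28.Johnson Pool.Agent.H28.KW Pool.Agent.H28.Windows

open Classical in
private theorem A1_KW_gen {V : Type*} [DecidableEq V] (adj : V → V → Prop)
    (hirr : ∀ a, ¬ adj a a) (hsymm : ∀ a b, adj a b → adj b a) (B : Finset V) (θ : ℕ) (β : ℝ)
    (hβ0 : 0 < β) (hβ1 : β ≤ 1)
    (hdeg : ∀ U ⊆ B, θ < U.card →
      ∃ v ∈ U, β * (U.card : ℝ) ≤ ((U.filter fun u => adj v u).card : ℝ)) :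
    ∀ (m : ℕ) (U : Finset V), U.card = m → U ⊆ B → ∀ q : ℕ, (1 - β) ^ q * (U.card : ℝ) ≤ θ →
      ∃ F W : Finset V → Finset V,
        (∀ I, F I ⊆ I ∧ F I ⊆ U ∧ (F I).card ≤ q ∧ W I ⊆ U ∧ (W I).card ≤ θ) ∧
        (∀ I, ∀ z ∈ U, z ∉ I → (∀ w ∈ I, ¬ adj z w) → (z ∈ F (insert z I) ↔ z ∉ W I)) ∧
        (∀ I, ∀ u ∈ I, u ∉ F I → W (I.erase u) = W I) := by
  intro m
  induction m using Nat.strong_induction_on with
  | _ m ih =>
  intro U hUm hUB q hq
  by_cases hR : U.card ≤ θ
  · refine ⟨fun _ => ∅, fun _ => U, fun I => ⟨Finset.empty_subset _, Finset.empty_subset _, ?_,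
      subset_rfl, hR⟩, fun I z hz _ _ => ?_, fun I u _ _ => rfl⟩
    · simp
    · simp [hz]
  · push Not at hR
    have hq0 : q ≠ 0 := by
      rintro rfl
      rw [pow_zero, one_mul] at hq
      have h2 : U.card ≤ θ := by exact_mod_cast hq
      omega
    obtain ⟨p, rfl⟩ : ∃ p, q = p + 1 := ⟨q - 1, by omega⟩
    obtain ⟨v, hv, hdv⟩ := hdeg U hUB hR
    set N := U.filter (fun u => adj v u) with hN
    set U1 := U.erase v with hU1
    set U2 := U1 \ N with hU2
    have hU1c : U1.card = m - 1 := by rw [hU1, Finset.card_erase_of_mem hv, hUm]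
    have hmpos : 0 < m := by rw [← hUm]; exact Finset.card_pos.mpr ⟨v, hv⟩
    have h1β : 0 ≤ 1 - β := by linarith
    have hvN : v ∉ N := by
      rw [hN, Finset.mem_filter]
      rintro ⟨_, h⟩
      exact hirr v h
    have hNU1 : N ⊆ U1 := by
      intro x hx
      rw [hU1, Finset.mem_erase]
      refine ⟨?_, (Finset.mem_filter.mp hx).1⟩
      rintro rfl
      exact hvN hx
    have hU2c : U2.card + N.card + 1 = m := by
      have := Finset.card_sdiff_add_card_eq_card hNU1
      rw [← hU2] at this
      omega
    have hU1U : U1 ⊆ U := Finset.erase_subset _ _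
    have hU2U : U2 ⊆ U := Finset.sdiff_subset.trans hU1U
    obtain ⟨F1, W1, a1, b1, c1⟩ := ih (m - 1) (by omega) U1 hU1c (hU1U.trans hUB) (p + 1) (by
        refine le_trans ?_ hq
        apply mul_le_mul_of_nonneg_left _ (pow_nonneg h1β _)
        have : U1.card ≤ U.card := Finset.card_le_card hU1U
        exact_mod_cast this)
    obtain ⟨F2, W2, a2, b2, c2⟩ := ih U2.card (by omega) U2 rfl (hU2U.trans hUB) p (by
        have h1 : (U2.card : ℝ) ≤ (1 - β) * U.card := by
          have h2 : (U2.card : ℝ) + N.card + 1 = U.card := by rw [hUm]; exact_mod_cast hU2c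
          linarith
        calc (1 - β) ^ p * (U2.card : ℝ) ≤ (1 - β) ^ p * ((1 - β) * U.card) :=
              mul_le_mul_of_nonneg_left h1 (pow_nonneg h1β _)
          _ = (1 - β) ^ (p + 1) * U.card := by ring
          _ ≤ θ := hq)
    refine ⟨fun I => if v ∈ I then insert v (F2 I) else F1 I,
      fun I => if v ∈ I then W2 I else W1 I, fun I => ?_, fun I z hz hzI hzw => ?_,
      fun I u hu huF => ?_⟩
    · by_cases hvI : v ∈ I
      · simp only [if_pos hvI]
        obtain ⟨h1, h2, h3, h4, h5⟩ := a2 I
        refine ⟨Finset.insert_subset hvI h1, Finset.insert_subset hv (h2.trans hU2U), ?_,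
          h4.trans hU2U, h5⟩
        exact (Finset.card_insert_le _ _).trans (by omega)
      · simp only [if_neg hvI]
        obtain ⟨h1, h2, h3, h4, h5⟩ := a1 I
        exact ⟨h1, h2.trans hU1U, h3, h4.trans hU1U, h5⟩
    · by_cases hvz : v = z
      · subst hvz
        simp only [if_neg hzI, Finset.mem_insert_self, if_true, true_iff]
        intro h
        have := (a1 I).2.2.2.1 h
        rw [hU1] at this
        exact (Finset.notMem_erase v U) this
      · have hzU1 : z ∈ U1 := by
          rw [hU1, Finset.mem_erase]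
          exact ⟨fun h => hvz h.symm, hz⟩
        by_cases hvI : v ∈ I
        · have hvI' : v ∈ insert z I := Finset.mem_insert_of_mem hvI
          simp only [if_pos hvI, if_pos hvI']
          have hzU2 : z ∈ U2 := by
            rw [hU2, Finset.mem_sdiff]
            refine ⟨hzU1, ?_⟩
            rw [hN, Finset.mem_filter]
            rintro ⟨_, h⟩
            exact hzw v hvI (hsymm v z h)
          rw [Finset.mem_insert, ← b2 I z hzU2 hzI hzw]
          constructor
          · rintro (h | h)
            · exact absurd h.symm hvz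
            · exact h
          · exact Or.inr
        · have hvI' : v ∉ insert z I := by
            rw [Finset.mem_insert]
            rintro (h | h)
            · exact hvz h
            · exact hvI h
          simp only [if_neg hvI, if_neg hvI']
          exact b1 I z hzU1 hzI hzw
    · by_cases hvI : v ∈ I
      · simp only [if_pos hvI] at huF ⊢
        have hvu : v ≠ u := by
          rintro rfl
          exact huF (Finset.mem_insert_self _ _)
        have hvI' : v ∈ I.erase u := Finset.mem_erase.2 ⟨hvu, hvI⟩
        rw [if_pos hvI']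
        exact c2 I u hu fun h => huF (Finset.mem_insert_of_mem h)
      · simp only [if_neg hvI] at huF ⊢
        have hvI' : v ∉ I.erase u := fun h => hvI (Finset.mem_of_mem_erase h)
        rw [if_neg hvI']
        exact c1 I u hu huF

open Classical in
theorem kw_run {V : Type*} [DecidableEq V] (adj : V → V → Prop) (hirr : ∀ a, ¬ adj a a)
    (hsymm : ∀ a b, adj a b → adj b a) (B : Finset V) (θ : ℕ) (β : ℝ) (hβ0 : 0 < β) (hβ1 : β ≤ 1)
    (hdeg : ∀ U ⊆ B, θ < U.card →
      ∃ v ∈ U, β * (U.card : ℝ) ≤ ((U.filter fun u => adj v u).card : ℝ))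
    (q : ℕ) (hq : (1 - β) ^ q * (B.card : ℝ) ≤ θ) :
    ∃ F U : Finset V → Finset V,
      (∀ I ⊆ B, Indep adj I → F I ⊆ I ∧ (F I).card ≤ q ∧ U I ⊆ B ∧ (U I).card ≤ θ) ∧
      (∀ I ⊆ B, Indep adj I → ∀ z ∈ B, z ∉ I → (∀ w ∈ I, ¬ adj z w) →
        (z ∈ F (insert z I) ↔ z ∉ U I)) ∧
      (∀ I ⊆ B, Indep adj I → ∀ u ∈ I, u ∉ F I → U (I.erase u) = U I) := by
  obtain ⟨F, W, a, b, c⟩ := A1_KW_gen adj hirr hsymm B θ β hβ0 hβ1 hdeg B.card B rfl subset_rfl q hq
  exact ⟨F, W, fun I _ _ => ⟨(a I).1, (a I).2.2.1, (a I).2.2.2.1, (a I).2.2.2.2⟩,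
    fun I _ _ z hz hzI hzw => b I z hz hzI hzw, fun I _ _ u hu huF => c I u hu huF⟩

end Pool.Agent.H8.VM
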