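import Pool.Agent.H8.VM.GDefs

/-! MODULE G6 (about 200 lines). Invariant families with many moved members are rare.

Let `rep S` be a canonical representative of the class of `S` for
`Equiv.Perm.SameCycle (act π)` (e.g. `Quotient.out` for `Equiv.Perm.SameCycle.setoid (act π)`,
`act π` is a permutation of `Finset (Fin n)`). For an invariant `I` let
`R = {S in moved : rep S = S}`. An invariant `I` is closed under `act π` and its inverse, so under
`SameCycle`. For `S` in `R` the set `act π S` is moved, in `I`, and not in `R`
(`rep (act π S) = rep S = S <> act π S`); so `act π` embeds `R` into `moved minus R` and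
`2 |moved minus R| >= |moved| >= 2 t`.
To `(I, X)`, `X` contained in `moved minus R`, associate the stable family `I minus X`. It
determines `I`: `I = {T : some S in I minus X is in the same cycle as T}` (if `T` in `I` is fixed
it is in `I minus X`; if it is moved, `rep T` is moved, in `I`, in `R`, so in `I minus X`). So the
map is injective, and there are at least `2^t` sets `X` for each `I`. -/

open scoped BigOperators

namespace Pool.Agent.H8.VM

open Pool.Agent.H28.Johnson Pool.Agent.H28.KW Pool.Agent.H28.Windows

private lemma g6_zpow {n : ℕ} {π : Equiv.Perm (Fin n)} {I : Finset (Finset (Fin n))}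
    (hI : wnd I π = I) (i : ℤ) (S : Finset (Fin n)) :
    (((act π : Equiv.Perm (Finset (Fin n))) ^ i) S ∈ I) ↔ S ∈ I := by
  have h1 : ∀ T, act π T ∈ I ↔ T ∈ I := by
    intro T
    have := act_mem_wnd (X := I) (π := π) (t := T)
    rwa [hI] at this
  induction i using Int.induction_on generalizing S with
  | zero => simp
  | succ i ih =>
    rw [zpow_add_one, Equiv.Perm.mul_apply]
    exact (ih _).trans (h1 S)
  | pred i ih =>
    rw [zpow_sub_one, Equiv.Perm.mul_apply]
    refine (ih _).trans ?_
    have := h1 (((act π : Equiv.Perm (Finset (Fin n))))⁻¹ S)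
    rw [← this]
    have h2 : act π (((act π : Equiv.Perm (Finset (Fin n))))⁻¹ S) = S :=
      Equiv.apply_symm_apply _ S
    rw [h2]

open Classical in
theorem moved_small {n r t : ℕ} (π : Equiv.Perm (Fin n)) :
    ((inv r π).filter fun I => 2 * t ≤ (moved π I).card).card * 2 ^ t ≤
      (stables n r).card := by
  let g : Equiv.Perm (Finset (Fin n)) := act π
  let rep : Finset (Fin n) → Finset (Fin n) :=
    fun S => Quotient.out (Quotient.mk (Equiv.Perm.SameCycle.setoid g) S)
  have hrep : ∀ S, g.SameCycle (rep S) S := by
    intro S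
    exact Quotient.exact (s := Equiv.Perm.SameCycle.setoid g) (Quotient.out_eq _)
  have hrep2 : ∀ S T, g.SameCycle S T → rep S = rep T := by
    intro S T h
    have : (Quotient.mk (Equiv.Perm.SameCycle.setoid g) S) =
        Quotient.mk (Equiv.Perm.SameCycle.setoid g) T := Quotient.sound h
    simp only [rep, this]
  have hcl : ∀ I, wnd I π = I → ∀ S T, g.SameCycle S T → (S ∈ I ↔ T ∈ I) := by
    intro I hI S T h
    obtain ⟨i, hi⟩ := h
    rw [← hi]
    exact (g6_zpow hI i S).symm
  have hmv : ∀ S T, g.SameCycle S T → (g S ≠ S ↔ g T ≠ T) := by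
    intro S T h
    exact not_congr h.apply_eq_self_iff
  let NR : Finset (Finset (Fin n)) → Finset (Finset (Fin n)) :=
    fun I => (moved π I).filter fun S => rep S ≠ S
  have hNR : ∀ I ∈ (inv r π).filter (fun I => 2 * t ≤ (moved π I).card), t ≤ (NR I).card := by
    intro I hI
    rw [Finset.mem_filter, mem_inv] at hI
    obtain ⟨⟨hst, hinv⟩, hcard⟩ := hI
    let R := (moved π I).filter fun S => ¬ (rep S ≠ S)
    have hsum : (NR I).card + R.card = (moved π I).card :=
      Finset.card_filter_add_card_filter_not _
    have hle : R.card ≤ (NR I).card := by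
      apply Finset.card_le_card_of_injOn (fun S => g S)
      · intro S hS
        have hS' : S ∈ R := hS
        rw [Finset.mem_filter, mem_moved, not_not] at hS'
        obtain ⟨⟨hSI, hSm⟩, hSr⟩ := hS'
        have hsc : g.SameCycle S (g S) := ⟨1, by simp⟩
        show g S ∈ NR I
        rw [Finset.mem_filter, mem_moved]
        refine ⟨⟨(hcl I hinv S (g S) hsc).mp hSI, (hmv S (g S) hsc).mp hSm⟩, ?_⟩
        rw [← hrep2 S (g S) hsc, hSr]
        exact fun h => hSm h.symm
      · intro a _ b _ h
        exact g.injective h
    omega
  have hinj : Set.InjOn (fun p : (Σ _ : Finset (Finset (Fin n)), Finset (Finset (Fin n))) =>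
      p.1 \ p.2) (((inv r π).filter (fun I => 2 * t ≤ (moved π I).card)).sigma
        fun I => (NR I).powerset : Finset (Σ _ : Finset (Finset (Fin n)), Finset (Finset (Fin n)))) := by
    rintro ⟨I, X⟩ h1 ⟨J, Y⟩ h2 h
    rw [Finset.mem_coe, Finset.mem_sigma, Finset.mem_filter, mem_inv, Finset.mem_powerset] at h1 h2
    simp only at h1 h2 h
    have key : ∀ I X, wnd I π = I → X ⊆ NR I → ∀ T, T ∈ I ↔ ∃ S ∈ I \ X, g.SameCycle S T := by
      intro I X hI hX T
      constructor
      · intro hT
        by_cases hm : g T = T
        · refine ⟨T, ?_, Equiv.Perm.SameCycle.refl _ _⟩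
          rw [Finset.mem_sdiff]
          refine ⟨hT, fun hTX => ?_⟩
          have := hX hTX
          rw [Finset.mem_filter, mem_moved] at this
          exact this.1.2 hm
        · refine ⟨rep T, ?_, hrep T⟩
          rw [Finset.mem_sdiff]
          refine ⟨(hcl I hI (rep T) T (hrep T)).mpr hT, fun hTX => ?_⟩
          have := hX hTX
          rw [Finset.mem_filter] at this
          exact this.2 (hrep2 (rep T) T (hrep T))
      · rintro ⟨S, hS, hST⟩
        rw [Finset.mem_sdiff] at hS
        exact (hcl I hI S T hST).mp hS.1
    have hIJ : I = J := by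
      ext T
      rw [key I X h1.1.1.2 h1.2 T, key J Y h2.1.1.2 h2.2 T, h]
    subst hIJ
    have hXI : X ⊆ I := fun S hS => by
      have := h1.2 hS
      rw [Finset.mem_filter, mem_moved] at this
      exact this.1.1
    have hYI : Y ⊆ I := fun S hS => by
      have := h2.2 hS
      rw [Finset.mem_filter, mem_moved] at this
      exact this.1.1
    have hXY : X = Y := by
      have e1 : I \ (I \ X) = X := Finset.sdiff_sdiff_eq_self hXI
      have e2 : I \ (I \ Y) = Y := Finset.sdiff_sdiff_eq_self hYI
      rw [← e1, ← e2, h]
    rw [hXY]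
  calc ((inv r π).filter fun I => 2 * t ≤ (moved π I).card).card * 2 ^ t
      = ∑ I ∈ (inv r π).filter (fun I => 2 * t ≤ (moved π I).card), 2 ^ t := by
        rw [Finset.sum_const, smul_eq_mul]
    _ ≤ ∑ I ∈ (inv r π).filter (fun I => 2 * t ≤ (moved π I).card), ((NR I).powerset).card := by
        apply Finset.sum_le_sum
        intro I hI
        rw [Finset.card_powerset]
        exact Nat.pow_le_pow_right (by norm_num) (hNR I hI)
    _ = (((inv r π).filter (fun I => 2 * t ≤ (moved π I).card)).sigma
          fun I => (NR I).powerset).card := by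
        rw [Finset.card_sigma]
    _ ≤ (stables n r).card := by
        apply Finset.card_le_card_of_injOn _ _ hinj
        rintro ⟨I, X⟩ h1
        rw [Finset.mem_coe, Finset.mem_sigma, Finset.mem_filter, mem_inv] at h1
        exact stable_subset h1.1.1.1 Finset.sdiff_subset

end Pool.Agent.H8.VM
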