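import Pool.Agent.H8.VM.G5_Twin
import Pool.Agent.H8.VM.G6_Moved

/-! MODULE G7 (about 150 lines). Stable families with a symmetry are rare.

Let `π <> 1`, `π a <> a`, `b = π a`. Let `c` be the constant of `twin_small` and `κ` the one of
`few_small (c/2)`, `t = floor (κ N/(2 n))`.
(1) invariant `I` with at least `2 t` moved members: `<= 2^(-t) s <= 2 * 2^(-κ N/(2n)) s`
(`moved_small`).
(2) invariant `I` with less than `2 t <= κ N/n` moved members: `I` is the union of the stable
family `moved π I` with at most `κ N/n` members (at most `exp((c/2) N/n)` possibilities by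
`few_small (c/2)`) and of the family of fixed members, which is a twin family for `a, b`:
`act π S = S` and `a` in `S` imply `b = π a` in `S`, and conversely (`twin_small`). So there are at
most `exp(-(c/2) N/n) s`.
Sum: `<= exp(-c' N/n) s` with `c' = min (κ/4, c/4)`, for large `n`. -/

open scoped BigOperators
open Filter

namespace Pool.Agent.H8.VM

open Pool.Agent.H28.Johnson Pool.Agent.H28.KW Pool.Agent.H28.Windows

lemma G7_fixed_mem {n : ℕ} {π : Equiv.Perm (Fin n)} {S : Finset (Fin n)} (h : act π S = S)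
    (a : Fin n) : a ∈ S ↔ π a ∈ S := by
  constructor
  · intro ha
    rw [← h, act_apply, Finset.mem_map]
    exact ⟨a, ha, rfl⟩
  · intro hb
    rw [← h, act_apply, Finset.mem_map] at hb
    obtain ⟨x, hx, hxe⟩ := hb
    have : x = a := π.injective hxe
    rwa [← this]

open Classical in
/-- invariant families with few moved members -/
lemma G7_few {n r : ℕ} {π : Equiv.Perm (Fin n)} (a : Fin n) {y : ℝ} :
    ((inv r π).filter fun I => ((moved π I).card : ℝ) ≤ y).card ≤
      ((stables n r).filter fun I => (I.card : ℝ) ≤ y).card * (twin r a (π a)).card := by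
  rw [← Finset.card_product]
  refine Finset.card_le_card_of_injOn
    (fun I => (moved π I, I.filter fun S => act π S = S)) ?_ ?_
  · intro I hI
    rw [Finset.mem_coe, Finset.mem_filter] at hI
    have hst := (mem_inv.mp hI.1).1
    rw [Finset.mem_coe, Finset.mem_product, Finset.mem_filter]
    refine ⟨⟨stable_subset hst ?_, hI.2⟩, ?_⟩
    · exact fun S hS => (mem_moved.mp hS).1
    · rw [mem_twin]
      refine ⟨stable_subset hst (Finset.filter_subset _ _), ?_⟩
      intro S hS
      exact G7_fixed_mem (Finset.mem_filter.mp hS).2 a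
  · intro I _ J _ hIJ
    have h1 : moved π I = moved π J := congrArg Prod.fst hIJ
    have h2 : (I.filter fun S => act π S = S) = J.filter fun S => act π S = S :=
      congrArg Prod.snd hIJ
    ext S
    by_cases hS : act π S = S
    · have := Finset.ext_iff.mp h2 S
      rw [Finset.mem_filter, Finset.mem_filter] at this
      constructor
      · intro h; exact (this.mp ⟨h, hS⟩).1
      · intro h; exact (this.mpr ⟨h, hS⟩).1
    · have := Finset.ext_iff.mp h1 S
      rw [mem_moved, mem_moved] at this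
      constructor
      · intro h; exact (this.mp ⟨h, hS⟩).1
      · intro h; exact (this.mpr ⟨h, hS⟩).1

theorem sym_small : ∃ c : ℝ, 0 < c ∧ ∀ᶠ n : ℕ in atTop, ∀ r : ℕ, n ≤ 13 * r → 2 * r ≤ n →
    ∀ π : Equiv.Perm (Fin n), π ≠ 1 → ((inv r π).card : ℝ) ≤
      Real.exp (-(c * ((n.choose r : ℝ) / n))) * ((stables n r).card : ℝ) := by
  classical
  obtain ⟨c, hc, htwin⟩ := twin_small
  obtain ⟨κ, hκ, hfew⟩ := few_small (c / 2) (by linarith)
  set c1 : ℝ := Real.log 2 * (κ / 2) with hc1def
  have hc1 : 0 < c1 := by rw [hc1def]; have := Real.log_pos (by norm_num : (1:ℝ) < 2); positivity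
  have hc2 : 0 < c / 2 := by linarith
  refine ⟨min (c / 2) c1 / 2, by have := lt_min hc2 hc1; linarith, ?_⟩
  obtain ⟨n1, hn1⟩ := exists_nat_ge (2 * (Real.log (1 + 2) / (min (c / 2) c1 / 2)) + 1)
  filter_upwards [htwin, hfew, eventually_ge_atTop n1, eventually_ge_atTop 27] with n htw hfw
    hnn1 hn27
  intro r h13 h2 π hπ
  obtain ⟨a, ha⟩ : ∃ a, π a ≠ a := by
    by_contra hcon
    push Not at hcon
    exact hπ (Equiv.ext hcon)
  set s : ℝ := ((stables n r).card : ℝ) with hs
  have hs0 : 0 ≤ s := by rw [hs]; positivity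
  set x : ℝ := (n.choose r : ℝ) / n with hxdef
  have hx : Real.log (1 + 2) / (min (c / 2) c1 / 2) ≤ x := by
    refine le_trans ?_ (G5_x_large (by omega) h2)
    have : (n1 : ℝ) ≤ (n : ℝ) := by exact_mod_cast hnn1
    linarith
  have hx0 : 0 ≤ x := by rw [hxdef]; positivity
  have hT := htw r h13 h2 a (π a) (Ne.symm ha)
  have hF := hfw r (by omega) (by omega)
  set t : ℕ := ⌊κ / 2 * x⌋₊ with ht
  have hM := moved_small (n := n) (r := r) (t := t) π
  set Mv := (inv r π).filter fun I => 2 * t ≤ (moved π I).card with hMv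
  set Fw := (inv r π).filter fun I => ((moved π I).card : ℝ) ≤ κ * x with hFw
  have hsplit : (inv r π).card ≤ Fw.card + Mv.card := by
    have : inv r π ⊆ Fw ∪ Mv := by
      intro I hI
      rw [Finset.mem_union, hFw, hMv, Finset.mem_filter, Finset.mem_filter]
      by_cases h : 2 * t ≤ (moved π I).card
      · exact Or.inr ⟨hI, h⟩
      · left
        refine ⟨hI, ?_⟩
        push Not at h
        have h1 : ((moved π I).card : ℝ) ≤ ((2 * t : ℕ) : ℝ) := by exact_mod_cast h.le
        have h3 : (t : ℝ) ≤ κ / 2 * x := Nat.floor_le (by positivity)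
        push_cast at h1
        linarith
    exact (Finset.card_le_card this).trans (Finset.card_union_le _ _)
  have hFb : (Fw.card : ℝ) ≤ Real.exp (-(c / 2 * x)) * s := by
    have h1 : (Fw.card : ℝ) ≤
        (((stables n r).filter fun I => (I.card : ℝ) ≤ κ * x).card : ℝ) *
          ((twin r a (π a)).card : ℝ) := by
      exact_mod_cast G7_few (n := n) (r := r) (π := π) a (y := κ * x)
    calc (Fw.card : ℝ) ≤ _ := h1
      _ ≤ Real.exp (c / 2 * x) * (Real.exp (-(c * x)) * s) :=
          mul_le_mul hF hT (Nat.cast_nonneg _) (Real.exp_pos _).le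
      _ = Real.exp (-(c / 2 * x)) * s := by
          rw [← mul_assoc, ← Real.exp_add]; congr 2; ring
  have hMb : (Mv.card : ℝ) ≤ 2 * Real.exp (-(c1 * x)) * s := by
    have h2pow : ((Mv.card : ℕ) : ℝ) * 2 ^ t ≤ s := by
      rw [hs]; exact_mod_cast hM
    have hfl : κ / 2 * x - 1 ≤ (t : ℝ) := by
      have := Nat.lt_floor_add_one (κ / 2 * x)
      rw [← ht] at this
      linarith
    have hpow : Real.exp (c1 * x) / 2 ≤ (2 : ℝ) ^ t := by
      have : (2 : ℝ) ^ t = Real.exp (Real.log 2 * (t : ℝ)) := by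
        rw [Real.exp_mul, Real.exp_log (by norm_num), Real.rpow_natCast]
      rw [this]
      have h2e : Real.exp (c1 * x) / 2 = Real.exp (Real.log 2 * (κ / 2 * x - 1)) := by
        rw [mul_sub, mul_one, Real.exp_sub, Real.exp_log (by norm_num), hc1def]
        congr 2; ring
      rw [h2e]
      exact Real.exp_le_exp.mpr (mul_le_mul_of_nonneg_left hfl
        (Real.log_pos (by norm_num)).le)
    have h8 : (Mv.card : ℝ) * (Real.exp (c1 * x) / 2) ≤ s :=
      le_trans (mul_le_mul_of_nonneg_left hpow (Nat.cast_nonneg _)) h2pow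
    have hE : Real.exp (c1 * x) * Real.exp (-(c1 * x)) = 1 := by
      rw [← Real.exp_add, add_neg_cancel, Real.exp_zero]
    have h9 := mul_le_mul_of_nonneg_right h8 (show (0:ℝ) ≤ 2 * Real.exp (-(c1 * x)) by positivity)
    have h10 : (Mv.card : ℝ) * (Real.exp (c1 * x) / 2) * (2 * Real.exp (-(c1 * x))) = Mv.card := by
      calc (Mv.card : ℝ) * (Real.exp (c1 * x) / 2) * (2 * Real.exp (-(c1 * x)))
          = Mv.card * (Real.exp (c1 * x) * Real.exp (-(c1 * x))) := by ring
        _ = Mv.card := by rw [hE, mul_one]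
    rw [h10] at h9
    linarith
  have hsp : ((inv r π).card : ℝ) ≤ (Fw.card : ℝ) + (Mv.card : ℝ) := by exact_mod_cast hsplit
  calc ((inv r π).card : ℝ) ≤ (Fw.card : ℝ) + (Mv.card : ℝ) := hsp
    _ ≤ Real.exp (-(c / 2 * x)) * s + 2 * Real.exp (-(c1 * x)) * s := add_le_add hFb hMb
    _ = (Real.exp (-(c / 2 * x)) + 2 * Real.exp (-(c1 * x))) * s := by ring
    _ ≤ Real.exp (-(min (c / 2) c1 / 2 * x)) * s :=
        mul_le_mul_of_nonneg_right (G5_absorb (by norm_num) hc2 hc1 hx) hs0

end Pool.Agent.H8.VM
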