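import Pool.Agent.H8.VM.A2_Gen
import Pool.Agent.H28.StableCount

/-! MODULE A3c (part of A3) (about 300 lines; may be split). Counting stable families.

`stables_lower` (Graham-Sloane): colour an `r`-set `S` by the sum of its elements mod `n`; two
adjacent sets have different colours (they differ by exchanging two different elements of
`Fin n`), so every colour class is stable; some class has at least `N/n` members and all its
subsets are stable: `2^(N/n) <= s`.

`few_small`, `few_large`: from `gen_indep` with `R = floor((1+δ) N / (n-r+1))`,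
`β = δ r (n-r+1) / ((1+δ) N)` (`Pool.Agent.H28.Johnson.deg_large`), `q = ceil(log n / β)`; as in
the proof of `Pool.Agent.H28.StableCount.log_stables_le` one has
`sum_(j<=q) C(N, j) <= (e N / q)^q <= exp (2 q log n)` and `q <= 2 (log n) / β`, so
`q log n = o(N/n)` uniformly for `n <= 14 r`.
* small: `x = κ < 1`: number of `I` with `|I| <= k` is at most
  `x^(-k) * exp(2 q log n) * (1+x)^R`; with `k = κ N/n` and `R <= 3 N/n` this is at most
  `exp ((κ log (1/κ) + 3 κ + o(1)) N/n)`.
* large: `x = 1/ε > 1`: number of `I` with `|I| >= k` is at most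
  `x^(-k) * x^q exp(2 q log n) * (1+x)^R`; with `k = (1-ε) N/(n-r+1)`, `R <= (1+δ) N/(n-r+1)`,
  `δ = ε`: exponent `((1+ε) log(1+1/ε) - (1-ε) log(1/ε)) N/(n-r+1) + o(N/n)`
  `= ((1+ε) log(1+ε) + 2 ε log(1/ε)) N/(n-r+1) + o(N/n)`, and `N/(n-r+1) <= 3 N/n`. -/

open scoped BigOperators
open Filter

namespace Pool.Agent.H8.VM

open Pool.Agent.H28.Johnson Pool.Agent.H28.KW Pool.Agent.H28.Windows

/-- generating function form of `log_stables_le` -/
theorem A3c_core {n r : ℕ} (hr : 1 ≤ r) (hrn : r ≤ n) (δ : ℝ) (hδ : 0 < δ) (hδ1 : δ ≤ 1)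
    (hL : 3 / 2 ≤ Real.log n) (hD : (n - r + 1 : ℝ) ≤ δ * n.choose r)
    (hrD : (r : ℝ) * (n - r + 1) ≤ n.choose r)
    (hbig : 2 * Real.log n * (1 + δ) ≤ δ * (r * (n - r + 1))) (x : ℝ) (hx : 0 < x) :
    Real.log (∑ I ∈ stables n r, x ^ I.card) ≤
      (1 + δ) * (n.choose r / (n - r + 1)) * (Real.log (1 + x) +
        (4 * Real.log n ^ 2 + 2 * Real.log n * Real.log (max 1 x)) / (δ * r)) := by
  classical
  set N := n.choose r with hN
  have hNpos : 0 < N := Nat.choose_pos hrn
  have hNr : (0 : ℝ) < N := by exact_mod_cast hNpos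
  have hrn' : (r : ℝ) ≤ n := by exact_mod_cast hrn
  have hr0 : (0 : ℝ) < r := by exact_mod_cast hr
  have hr1 : (1 : ℝ) ≤ r := by exact_mod_cast hr
  set D : ℝ := n - r + 1 with hDdef
  have hD1 : 1 ≤ D := by rw [hDdef]; linarith
  have hD0 : 0 < D := by linarith
  set L := Real.log n with hLdef
  have hL0 : 0 < L := by linarith
  have hn0 : (0 : ℝ) < n := by linarith
  have hDn : D ≤ n := by rw [hDdef]; linarith
  set M : ℝ := max 1 x with hM
  have hM1 : 1 ≤ M := le_max_left _ _
  have hxM : x ≤ M := le_max_right _ _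
  have hlM : 0 ≤ Real.log M := Real.log_nonneg hM1
  set β : ℝ := δ * r * D / ((1 + δ) * N) with hβ
  have hβ0 : 0 < β := by rw [hβ]; positivity
  have hβ1 : β ≤ 1 := by
    rw [hβ, div_le_one (by positivity)]
    nlinarith
  set R := ⌊(1 + δ) * N / D⌋₊ with hR
  have hRup : (R : ℝ) ≤ (1 + δ) * N / D := Nat.floor_le (by positivity)
  have hRlow : (N : ℝ) / D ≤ R := by
    have h1 : (1 + δ) * N / D < R + 1 := Nat.lt_floor_add_one _
    have h2 : (1 + δ) * N / D = N / D + δ * N / D := by ring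
    have h3 : 1 ≤ δ * N / D := by rw [le_div_iff₀ hD0]; linarith
    linarith
  set q := ⌈L / β⌉₊ with hq
  have hqlow : L / β ≤ q := Nat.le_ceil _
  have hLβ : 1 ≤ L / β := by rw [le_div_iff₀ hβ0]; linarith
  have hqup : (q : ℝ) ≤ 2 * (L / β) := by
    have := (Nat.ceil_lt_add_one (show 0 ≤ L / β by positivity)).le
    linarith
  have hq1 : 1 ≤ q := by
    have : (1 : ℝ) ≤ q := hLβ.trans hqlow
    exact_mod_cast this
  have hq0 : (0 : ℝ) < q := by exact_mod_cast hq1
  have hqN : q ≤ N := by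
    have h1 : 2 * (L / β) = 2 * L * (1 + δ) * N / (δ * (r * D)) := by
      rw [hβ]; field_simp
    have h2 : 2 * L * (1 + δ) * N / (δ * (r * D)) ≤ N := by
      rw [div_le_iff₀ (by positivity)]
      nlinarith
    have : (q : ℝ) ≤ N := hqup.trans (h1.le.trans h2)
    exact_mod_cast this
  -- Kleitman-Winston
  have hkw := gen_indep (adj r) (adj_irrefl (n := n)) (Base n r) R β hβ0 hβ1
    (by
      intro U hU hRU
      have h1 : (1 + δ) * N / D < U.card := by
        have h1 : (1 + δ) * N / D < R + 1 := Nat.lt_floor_add_one _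
        have h2 : (R : ℝ) + 1 ≤ U.card := by exact_mod_cast hRU
        linarith
      have h2 : (1 + δ) * (n.choose r : ℝ) ≤ U.card * (n - r + 1 : ℝ) := by
        rw [div_lt_iff₀ hD0] at h1
        exact h1.le
      obtain ⟨v, hv, h⟩ := deg_large hr hrn δ hδ U hU h2
      refine ⟨v, hv, ?_⟩
      convert h using 4) x hx
    N (Base n r) (card_Base n r) (Finset.Subset.refl _) q
    (by
      rw [card_Base]
      have h1 : (1 - β) ^ q ≤ 1 / n := by
        calc (1 - β) ^ q ≤ (Real.exp (-β)) ^ q := by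
              apply pow_le_pow_left₀ (by linarith)
              have := Real.add_one_le_exp (-β)
              linarith
          _ = Real.exp (-(β * q)) := by rw [← Real.exp_nat_mul]; ring_nf
          _ ≤ Real.exp (-L) := by
              apply Real.exp_le_exp.mpr
              have : L ≤ β * q := by
                rw [div_le_iff₀ hβ0] at hqlow
                linarith
              linarith
          _ = 1 / n := by rw [Real.exp_neg, hLdef, Real.exp_log hn0, one_div]
      calc (1 - β) ^ q * (N : ℝ) ≤ 1 / n * N := mul_le_mul_of_nonneg_right h1 hNr.le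
        _ = N / n := by ring
        _ ≤ N / D := div_le_div_of_nonneg_left hNr.le hD0 hDn
        _ ≤ R := hRlow)
  have hst : ∑ I ∈ stables n r, x ^ I.card ≤
      (∑ j ∈ Finset.range (q + 1), (N.choose j : ℝ) * x ^ j) * (1 + x) ^ R := by
    refine le_trans (le_of_eq ?_) hkw
    rw [stables]
  have hsum := sum_choose_le N q hq1 hqN
  have hsum' : ∑ j ∈ Finset.range (q + 1), (N.choose j : ℝ) * x ^ j ≤
      (Real.exp 1 * N / q) ^ q * M ^ q := by
    calc ∑ j ∈ Finset.range (q + 1), (N.choose j : ℝ) * x ^ j ≤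
          ∑ j ∈ Finset.range (q + 1), (N.choose j : ℝ) * M ^ q := by
          refine Finset.sum_le_sum fun j hj => ?_
          have hj' : j ≤ q := by
            rw [Finset.mem_range] at hj
            omega
          have h1 : x ^ j ≤ M ^ q :=
            (pow_le_pow_left₀ hx.le hxM j).trans (pow_le_pow_right₀ hM1 hj')
          exact mul_le_mul_of_nonneg_left h1 (by positivity)
      _ = ((∑ j ∈ Finset.range (q + 1), N.choose j : ℕ) : ℝ) * M ^ q := by
          rw [← Finset.sum_mul]
          push_cast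
          rfl
      _ ≤ _ := mul_le_mul_of_nonneg_right hsum (by positivity)
  have hempty : (∅ : Finset (Finset (Fin n))) ∈ stables n r :=
    mem_stables.mpr ⟨Finset.empty_subset _, fun a ha => by simp at ha⟩
  have hpos : 0 < ∑ I ∈ stables n r, x ^ I.card :=
    Finset.sum_pos (fun _ _ => by positivity) ⟨∅, hempty⟩
  have h1 : ∑ I ∈ stables n r, x ^ I.card ≤
      ((Real.exp 1 * N / q) ^ q * M ^ q) * (1 + x) ^ R :=
    hst.trans (mul_le_mul_of_nonneg_right hsum' (by positivity))
  have h2 : Real.log (∑ I ∈ stables n r, x ^ I.card) ≤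
      q * Real.log (Real.exp 1 * N / q) + q * Real.log M + R * Real.log (1 + x) := by
    have h3 := Real.log_le_log hpos h1
    rw [Real.log_mul (by positivity) (by positivity), Real.log_mul (by positivity) (by positivity),
      Real.log_pow, Real.log_pow, Real.log_pow] at h3
    exact h3
  have h3 : Real.log (Real.exp 1 * N / q) ≤ 2 * L := by
    have h4 : Real.exp 1 * N / q ≤ n ^ 2 := by
      rw [div_le_iff₀ hq0]
      have h5 : Real.exp 1 * N ≤ n ^ 2 * (L / β) := by
        have h6 : (n : ℝ) ^ 2 * (L / β) = n ^ 2 * L * ((1 + δ) * N) / (δ * r * D) := by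
          rw [hβ]; field_simp
        rw [h6, le_div_iff₀ (by positivity)]
        have h7 : Real.exp 1 ≤ 3 := Real.exp_one_lt_d9.le.trans (by norm_num)
        have h8 : (r : ℝ) * D ≤ n ^ 2 := by
          rw [sq]; exact mul_le_mul hrn' hDn hD0.le hn0.le
        calc Real.exp 1 * N * (δ * r * D) = (Real.exp 1 * δ) * (r * D) * N := by ring
          _ ≤ (3 * δ) * n ^ 2 * N := by
              apply mul_le_mul_of_nonneg_right _ hNr.le
              apply mul_le_mul _ h8 (by positivity) (by positivity)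
              exact mul_le_mul_of_nonneg_right h7 hδ.le
          _ ≤ (L * (1 + δ)) * n ^ 2 * N := by
              apply mul_le_mul_of_nonneg_right _ hNr.le
              apply mul_le_mul_of_nonneg_right _ (by positivity)
              nlinarith
          _ = n ^ 2 * L * ((1 + δ) * N) := by ring
      exact h5.trans (mul_le_mul_of_nonneg_left hqlow (by positivity))
    calc Real.log (Real.exp 1 * N / q) ≤ Real.log (n ^ 2) := Real.log_le_log (by positivity) h4
      _ = 2 * L := by rw [Real.log_pow, hLdef]; norm_num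
  have hln2 : 0 ≤ Real.log (1 + x) := Real.log_nonneg (by linarith)
  calc Real.log (∑ I ∈ stables n r, x ^ I.card) ≤
        q * Real.log (Real.exp 1 * N / q) + q * Real.log M + R * Real.log (1 + x) := h2
    _ ≤ q * (2 * L) + q * Real.log M + ((1 + δ) * N / D) * Real.log (1 + x) :=
        add_le_add (add_le_add (mul_le_mul_of_nonneg_left h3 hq0.le) le_rfl)
          (mul_le_mul_of_nonneg_right hRup hln2)
    _ = q * (2 * L + Real.log M) + ((1 + δ) * N / D) * Real.log (1 + x) := by ring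
    _ ≤ (2 * (L / β)) * (2 * L + Real.log M) + ((1 + δ) * N / D) * Real.log (1 + x) := by
        apply add_le_add _ le_rfl
        exact mul_le_mul_of_nonneg_right hqup (by positivity)
    _ = (1 + δ) * (N / D) * (Real.log (1 + x) +
          (4 * L ^ 2 + 2 * L * Real.log M) / (δ * r)) := by
        rw [hβ]; field_simp; ring

/-- crude lower bound for the binomial coefficients that occur -/
lemma A3c_choose {n r : ℕ} (h14 : n ≤ 14 * r) (h2 : 2 * r ≤ n + 2) (hn : 10 ≤ n) :
    (n : ℝ) ^ 3 ≤ 16464 * n.choose r := by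
  have h3 : r + 3 ≤ n := by omega
  have h4 : (r + 3).choose r ≤ n.choose r := Nat.choose_le_choose r h3
  have h5 : (r + 3).choose r * 6 = (r + 3) * (r + 2) * (r + 1) := by
    have e1 : (r + 3).choose r = (r + 3).choose 3 := by
      rw [← Nat.choose_symm (show 3 ≤ r + 3 by omega)]
      congr 1
    rw [e1]
    have a1 := Nat.add_one_mul_choose_eq (r + 2) 2
    have a2 := Nat.add_one_mul_choose_eq (r + 1) 1
    simp only [Nat.choose_one_right] at a1 a2
    have e2 : (r + 3).choose 3 * 3 = (r + 3) * (r + 2).choose 2 := by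
      have : r + 2 + 1 = r + 3 := rfl
      rw [this] at a1
      linarith
    have e3 : (r + 2).choose 2 * 2 = (r + 2) * (r + 1) := by
      have : r + 1 + 1 = r + 2 := rfl
      rw [this] at a2
      linarith
    nlinarith
  have h6 : r ^ 3 ≤ 6 * n.choose r := by
    calc r ^ 3 = r * r * r := by ring
      _ ≤ (r + 3) * (r + 2) * (r + 1) := by
          apply Nat.mul_le_mul (Nat.mul_le_mul (by omega) (by omega)) (by omega)
      _ = (r + 3).choose r * 6 := h5.symm
      _ ≤ n.choose r * 6 := Nat.mul_le_mul_right _ h4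
      _ = 6 * n.choose r := by ring
  have h7 : n ^ 3 ≤ (14 * r) ^ 3 := Nat.pow_le_pow_left h14 3
  have h8 : n ^ 3 ≤ 16464 * n.choose r := by
    calc n ^ 3 ≤ (14 * r) ^ 3 := h7
      _ = 2744 * r ^ 3 := by ring
      _ ≤ 2744 * (6 * n.choose r) := Nat.mul_le_mul_left _ h6
      _ = 16464 * n.choose r := by ring
  exact_mod_cast h8

/-- the error term, and the conditions of `A3c_core`, for large `n` -/
theorem A3c_ev (δ : ℝ) (hδ : 0 < δ) (hδ1 : δ ≤ 1) (x : ℝ) (hx : 0 < x) (ζ : ℝ) (hζ : 0 < ζ) :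
    ∀ᶠ n : ℕ in atTop, ∀ r : ℕ, n ≤ 14 * r → 2 * r ≤ n + 2 →
      Real.log (∑ I ∈ stables n r, x ^ I.card) ≤
        (1 + δ) * (n.choose r / (n - r + 1)) * (Real.log (1 + x) + ζ) := by
  have hlog : Tendsto (fun n : ℕ => Real.log (n : ℝ)) atTop atTop :=
    Real.tendsto_log_atTop.comp tendsto_natCast_atTop_atTop
  have hlo : ∀ c : ℝ, 0 < c → ∀ k : ℕ, ∀ᶠ n : ℕ in atTop, Real.log (n : ℝ) ^ k ≤ c * n := by
    intro c hc k
    have h1 := (Real.isLittleO_pow_log_id_atTop (n := k)).comp_tendsto tendsto_natCast_atTop_atTop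
    have h2 := h1.bound hc
    filter_upwards [h2, eventually_ge_atTop 1] with n hn hn1
    simp only [Function.comp_apply, id_eq, Real.norm_natCast] at hn
    exact (le_abs_self _).trans hn
  have hM0 : 0 ≤ Real.log (max 1 x) := Real.log_nonneg (le_max_left _ _)
  set lM := Real.log (max 1 x) with hlM
  have hc1 : 0 < ζ * δ / (14 * (4 + 2 * lM)) := by positivity
  filter_upwards [hlog.eventually_ge_atTop (3 / 2), hlo _ hc1 2, hlo 1 one_pos 1,
    eventually_ge_atTop 16464, eventually_ge_atTop ⌈112 / δ⌉₊,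
    eventually_ge_atTop ⌈16464 / δ⌉₊] with n hL hL2 hLn hn hnδ hnδ' r h14 h2
  have hnr : (16464 : ℝ) ≤ n := by exact_mod_cast hn
  have hn0 : (0 : ℝ) < n := by linarith
  have hnδ1 : 112 / δ ≤ (n : ℝ) := (Nat.le_ceil _).trans (by exact_mod_cast hnδ)
  have hnδ2 : 16464 / δ ≤ (n : ℝ) := (Nat.le_ceil _).trans (by exact_mod_cast hnδ')
  have hr : 1 ≤ r := by omega
  have hrn : r ≤ n := by omega
  have hr0 : (0 : ℝ) < r := by exact_mod_cast hr
  have hrn' : (r : ℝ) ≤ n := by exact_mod_cast hrn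
  have hN := A3c_choose h14 h2 (by omega)
  have h14' : (n : ℝ) ≤ 14 * r := by exact_mod_cast h14
  have h2' : 2 * (r : ℝ) ≤ n + 2 := by exact_mod_cast h2
  set N : ℝ := (n.choose r : ℝ) with hNd
  have hN0 : 0 < N := by
    rw [hNd]
    exact_mod_cast Nat.choose_pos hrn
  rw [pow_one] at hLn
  rw [div_le_iff₀ hδ] at hnδ1 hnδ2
  have hr1 : (1 : ℝ) ≤ r := by exact_mod_cast hr
  have hDn : (n - r + 1 : ℝ) ≤ n := by linarith
  have hD2 : (n : ℝ) / 2 ≤ (n - r + 1 : ℝ) := by linarith
  have hD0 : 0 < (n - r + 1 : ℝ) := by linarith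
  have hnn : (n : ℝ) * n ≤ N := by
    have : (n : ℝ) ^ 3 = n * n * n := by ring
    nlinarith [mul_nonneg hn0.le hn0.le]
  have hD : (n - r + 1 : ℝ) ≤ δ * N := by
    have h1 : δ * (n : ℝ) ^ 3 ≤ δ * (16464 * N) := mul_le_mul_of_nonneg_left hN hδ.le
    have h3 : (16464 : ℝ) * n ≤ δ * (n : ℝ) ^ 3 := by
      have e : δ * (n : ℝ) ^ 3 = (n * δ) * n * n := by ring
      rw [e]
      have h4 : (16464 : ℝ) * n ≤ (n * δ) * n := mul_le_mul_of_nonneg_right hnδ2 hn0.le
      nlinarith
    linarith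
  have hrD : (r : ℝ) * (n - r + 1) ≤ N := by
    calc (r : ℝ) * (n - r + 1) ≤ n * n := mul_le_mul hrn' hDn hD0.le hn0.le
      _ ≤ N := hnn
  have hbig : 2 * Real.log n * (1 + δ) ≤ δ * (r * (n - r + 1)) := by
    have h1 : (n : ℝ) / 14 * (n / 2) ≤ r * (n - r + 1) :=
      mul_le_mul (by linarith) hD2 (by positivity) hr0.le
    have h3 : 2 * Real.log n * (1 + δ) ≤ 4 * n := by nlinarith
    have h4 : 4 * (n : ℝ) ≤ δ * ((n : ℝ) / 14 * (n / 2)) := by
      have e : δ * ((n : ℝ) / 14 * (n / 2)) = (n * δ) * n / 28 := by ring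
      rw [e]
      nlinarith
    exact h3.trans (h4.trans (mul_le_mul_of_nonneg_left h1 hδ.le))
  have hcore := A3c_core hr hrn δ hδ hδ1 hL hD hrD hbig x hx
  refine hcore.trans ?_
  have herr : (4 * Real.log n ^ 2 + 2 * Real.log n * Real.log (max 1 x)) / (δ * r) ≤ ζ := by
    rw [← hlM, div_le_iff₀ (by positivity)]
    have h1 : Real.log n ≤ Real.log n ^ 2 := by nlinarith
    have h3 : 4 * Real.log n ^ 2 + 2 * Real.log n * lM ≤ (4 + 2 * lM) * Real.log n ^ 2 := by
      nlinarith [mul_le_mul_of_nonneg_right h1 hM0]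
    have h4 : (4 + 2 * lM) * Real.log n ^ 2 ≤ (4 + 2 * lM) *
        (ζ * δ / (14 * (4 + 2 * lM)) * n) := mul_le_mul_of_nonneg_left hL2 (by positivity)
    have h5 : (4 + 2 * lM) * (ζ * δ / (14 * (4 + 2 * lM)) * n) = ζ * δ * (n / 14) := by
      field_simp
    calc 4 * Real.log n ^ 2 + 2 * Real.log n * lM ≤ ζ * δ * (n / 14) := by linarith
      _ ≤ ζ * δ * r := mul_le_mul_of_nonneg_left (by linarith) (by positivity)
      _ = ζ * (δ * r) := by ring
  have hND : 0 ≤ N / (n - r + 1 : ℝ) := by positivity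
  apply mul_le_mul_of_nonneg_left _ (by positivity)
  linarith

/-- `t² log (1/t²) ≤ 2 t` -/
lemma A3c_tlog {t : ℝ} (ht : 0 < t) : t ^ 2 * Real.log (1 / t ^ 2) ≤ 2 * t := by
  have h1 : Real.log (1 / t ^ 2) = 2 * Real.log (1 / t) := by
    rw [← one_div_pow, Real.log_pow]
    norm_num
  have h2 : Real.log (1 / t) ≤ 1 / t := (Real.log_le_sub_one_of_pos (by positivity)).trans (by linarith)
  rw [h1]
  have h3 : t ^ 2 * (1 / t) = t := by field_simp
  calc t ^ 2 * (2 * Real.log (1 / t)) ≤ t ^ 2 * (2 * (1 / t)) := by gcongr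
    _ = 2 * (t ^ 2 * (1 / t)) := by ring
    _ = 2 * t := by rw [h3]

open Classical in
theorem few_small (ξ : ℝ) (hξ : 0 < ξ) : ∃ κ : ℝ, 0 < κ ∧ ∀ᶠ n : ℕ in atTop, ∀ r : ℕ,
    n ≤ 14 * r → 2 * r ≤ n + 2 →
    (((stables n r).filter fun I => (I.card : ℝ) ≤ κ * ((n.choose r : ℝ) / n)).card : ℝ) ≤
      Real.exp (ξ * ((n.choose r : ℝ) / n)) := by
  set t : ℝ := min 1 (ξ / 12) with ht
  have ht0 : 0 < t := lt_min one_pos (by positivity)
  have ht1 : t ≤ 1 := min_le_left _ _
  have htξ : t ≤ ξ / 12 := min_le_right _ _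
  refine ⟨t ^ 2, by positivity, ?_⟩
  filter_upwards [A3c_ev 1 one_pos le_rfl (t ^ 2) (by positivity) (ξ / 8) (by positivity),
    eventually_ge_atTop 10] with n hn hn10 r h14 h2
  have h := hn r h14 h2
  have hrn : r ≤ n := by omega
  have hn0 : (0 : ℝ) < n := by
    have : 0 < n := by omega
    exact_mod_cast this
  have h2' : 2 * (r : ℝ) ≤ n + 2 := by exact_mod_cast h2
  have hD2 : (n : ℝ) / 2 ≤ (n - r + 1 : ℝ) := by linarith
  have hD0 : 0 < (n - r + 1 : ℝ) := by linarith
  set N : ℝ := (n.choose r : ℝ) with hNd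
  have hN0 : 0 < N := by
    rw [hNd]
    exact_mod_cast Nat.choose_pos hrn
  set S := (stables n r).filter fun I => (I.card : ℝ) ≤ t ^ 2 * (N / n) with hS
  rcases Nat.eq_zero_or_pos S.card with h0 | hpos
  · rw [h0]
    simp only [Nat.cast_zero]
    positivity
  have hposr : (0 : ℝ) < S.card := by exact_mod_cast hpos
  have hND : N / (n - r + 1 : ℝ) ≤ 2 * (N / n) := by
    rw [div_le_iff₀ hD0]
    have : 2 * (N / n) * (n / 2) = N := by field_simp
    calc N = 2 * (N / n) * (n / 2) := this.symm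
      _ ≤ _ := mul_le_mul_of_nonneg_left hD2 (by positivity)
  set κ : ℝ := t ^ 2 with hκ
  have hκ0 : 0 < κ := by positivity
  have hκ1 : κ ≤ 1 := pow_le_one₀ ht0.le ht1
  have hκt : κ ≤ t := by
    rw [hκ]
    nlinarith
  -- compare
  have hcmp : (S.card : ℝ) * κ ^ (κ * (N / n) : ℝ) ≤ ∑ I ∈ stables n r, κ ^ I.card := by
    calc (S.card : ℝ) * κ ^ (κ * (N / n) : ℝ) = ∑ _I ∈ S, κ ^ (κ * (N / n) : ℝ) := by
          rw [Finset.sum_const, nsmul_eq_mul]
      _ ≤ ∑ I ∈ S, κ ^ I.card := by
          refine Finset.sum_le_sum fun I hI => ?_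
          have hI' : (I.card : ℝ) ≤ κ * (N / n) := (Finset.mem_filter.1 hI).2
          rw [← Real.rpow_natCast κ I.card]
          exact Real.rpow_le_rpow_of_exponent_ge hκ0 hκ1 hI'
      _ ≤ _ := Finset.sum_le_sum_of_subset_of_nonneg (Finset.filter_subset _ _)
          fun _ _ _ => by positivity
  have hlog := Real.log_le_log (by positivity) hcmp
  rw [Real.log_mul (by positivity) (by positivity), Real.log_rpow hκ0] at hlog
  have hlog1 : Real.log (1 + κ) ≤ κ := by
    have := Real.log_le_sub_one_of_pos (show 0 < 1 + κ by positivity)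
    linarith
  have htl := A3c_tlog ht0
  rw [← hκ] at htl
  have hinv : Real.log (1 / κ) = -Real.log κ := by rw [one_div, Real.log_inv]
  rw [hinv] at htl
  have hNn : 0 ≤ N / n := by positivity
  have hfin : Real.log S.card ≤ ξ * (N / n) := by
    have e1 : (1 + 1 : ℝ) * (N / (n - r + 1)) * (Real.log (1 + κ) + ξ / 8) ≤
        (1 + 1) * (2 * (N / n)) * (t + ξ / 8) := by
      have a1 : Real.log (1 + κ) + ξ / 8 ≤ t + ξ / 8 := by linarith
      have a2 : 0 ≤ Real.log (1 + κ) + ξ / 8 := by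
        have := Real.log_nonneg (show 1 ≤ 1 + κ by linarith)
        linarith
      gcongr
    have e2 : -(κ * (N / n) * Real.log κ) ≤ 2 * t * (N / n) := by
      calc -(κ * (N / n) * Real.log κ) = (κ * -Real.log κ) * (N / n) := by ring
        _ ≤ 2 * t * (N / n) := mul_le_mul_of_nonneg_right htl hNn
    have e3 : 2 * t * (N / n) + (1 + 1) * (2 * (N / n)) * (t + ξ / 8) ≤ ξ * (N / n) := by
      have : 2 * t * (N / n) + (1 + 1) * (2 * (N / n)) * (t + ξ / 8) =
          (6 * t + ξ / 2) * (N / n) := by ring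
      rw [this]
      exact mul_le_mul_of_nonneg_right (by linarith) hNn
    linarith
  calc (S.card : ℝ) = Real.exp (Real.log S.card) := (Real.exp_log hposr).symm
    _ ≤ _ := Real.exp_le_exp.2 hfin

end Pool.Agent.H8.VM
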