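import Pool.Agent.H8.VM.A2_Gen
import Pool.Agent.H28.StableCount
import Pool.Agent.H8.VM.A3c_Small

/-! MODULE A3d (part of A3) (about 300 lines; may be split). Counting stable families.

`stables_lower` (Graham-Sloane): colour an `r`-set `S` by the sum of its elements mod `n`; two
adjacent sets have different colours (they differ by exchanging two different elements of
`Fin n`), so every colour class is stable; some class has at least `N/n` members and all its
subsets are stable: `2^(N/n) <= s`.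

`few_small`, `few_large`: from `gen_indep` with `R = floor((1+δ) N / (n-r+1))`,
`β = δ r (n-r+1) / ((1+δ) N)` (`Pool.Agent.H28.Johnson.deg_large`), `q = ceil(log n / β)`; as in
the proof of `Pool.Agent.H28.StableCount.log_stables_le` one has
`sum_(j<=q) C(N, j) <= (e N / q)^q <= exp (2 q log n)` and `q <= 2 (log n) / β`, so
`q log n = o(N/n)` uniformly for `n <= 14 r`.
* small: `x = κ < 1`: number of `I` with `|I| <= k` is at most
  `x^(-k) * exp(2 q log n) * (1+x)^R`; with `k = κ N/n` and `R <= 3 N/n` this is at most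
  `exp ((κ log (1/κ) + 3 κ + o(1)) N/n)`.
* large: `x = 1/ε > 1`: number of `I` with `|I| >= k` is at most
  `x^(-k) * x^q exp(2 q log n) * (1+x)^R`; with `k = (1-ε) N/(n-r+1)`, `R <= (1+δ) N/(n-r+1)`,
  `δ = ε`: exponent `((1+ε) log(1+1/ε) - (1-ε) log(1/ε)) N/(n-r+1) + o(N/n)`
  `= ((1+ε) log(1+ε) + 2 ε log(1/ε)) N/(n-r+1) + o(N/n)`, and `N/(n-r+1) <= 3 N/n`. -/

open scoped BigOperators
open Filter

namespace Pool.Agent.H8.VM

open Pool.Agent.H28.Johnson Pool.Agent.H28.KW Pool.Agent.H28.Windows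

open Classical in
theorem few_large (ξ : ℝ) (hξ : 0 < ξ) : ∃ ε : ℝ, 0 < ε ∧ ε < 1 ∧ ∀ᶠ n : ℕ in atTop, ∀ r : ℕ,
    n ≤ 14 * r → 2 * r ≤ n + 2 →
    (((stables n r).filter fun I =>
      (1 - ε) * ((n.choose r : ℝ) / (n - r + 1)) ≤ (I.card : ℝ)).card : ℝ) ≤
      Real.exp (ξ * ((n.choose r : ℝ) / n)) := by
  set t : ℝ := min (1 / 2) (ξ / 32) with ht
  have ht0 : 0 < t := lt_min (by norm_num) (by positivity)
  have ht1 : t ≤ 1 / 2 := min_le_left _ _
  have htξ : t ≤ ξ / 32 := min_le_right _ _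
  have hε0 : 0 < t ^ 2 := by positivity
  have hεt : t ^ 2 ≤ t := by nlinarith
  have hε1 : t ^ 2 < 1 := by linarith
  refine ⟨t ^ 2, hε0, hε1, ?_⟩
  filter_upwards [A3c_ev (t ^ 2) hε0 hε1.le (1 / t ^ 2) (by positivity) (ξ / 16) (by positivity),
    eventually_ge_atTop 10] with n hn hn10 r h14 h2
  have h := hn r h14 h2
  have hrn : r ≤ n := by omega
  have hn0 : (0 : ℝ) < n := by
    have : 0 < n := by omega
    exact_mod_cast this
  have h2' : 2 * (r : ℝ) ≤ n + 2 := by exact_mod_cast h2
  have hD2 : (n : ℝ) / 2 ≤ (n - r + 1 : ℝ) := by linarith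
  have hD0 : 0 < (n - r + 1 : ℝ) := by linarith
  set N : ℝ := (n.choose r : ℝ) with hNd
  have hN0 : 0 < N := by
    rw [hNd]
    exact_mod_cast Nat.choose_pos hrn
  set S := (stables n r).filter fun I =>
    (1 - t ^ 2) * (N / (n - r + 1)) ≤ (I.card : ℝ) with hS
  rcases Nat.eq_zero_or_pos S.card with h0 | hpos
  · rw [h0]
    simp only [Nat.cast_zero]
    positivity
  have hposr : (0 : ℝ) < S.card := by exact_mod_cast hpos
  have hND : N / (n - r + 1 : ℝ) ≤ 2 * (N / n) := by
    rw [div_le_iff₀ hD0]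
    have : 2 * (N / n) * (n / 2) = N := by field_simp
    calc N = 2 * (N / n) * (n / 2) := this.symm
      _ ≤ _ := mul_le_mul_of_nonneg_left hD2 (by positivity)
  set ε : ℝ := t ^ 2 with hε
  have hx1 : 1 ≤ 1 / ε := by rw [le_div_iff₀ hε0]; linarith
  have hx0 : 0 < 1 / ε := by positivity
  set x : ℝ := 1 / ε with hx
  -- compare
  have hcmp : (S.card : ℝ) * x ^ ((1 - ε) * (N / (n - r + 1)) : ℝ) ≤
      ∑ I ∈ stables n r, x ^ I.card := by
    calc (S.card : ℝ) * x ^ ((1 - ε) * (N / (n - r + 1)) : ℝ) =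
          ∑ _I ∈ S, x ^ ((1 - ε) * (N / (n - r + 1)) : ℝ) := by
          rw [Finset.sum_const, nsmul_eq_mul]
      _ ≤ ∑ I ∈ S, x ^ I.card := by
          refine Finset.sum_le_sum fun I hI => ?_
          have hI' : (1 - ε) * (N / (n - r + 1)) ≤ (I.card : ℝ) := (Finset.mem_filter.1 hI).2
          rw [← Real.rpow_natCast x I.card]
          exact Real.rpow_le_rpow_of_exponent_le hx1 hI'
      _ ≤ _ := Finset.sum_le_sum_of_subset_of_nonneg (Finset.filter_subset _ _)
          fun _ _ _ => by positivity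
  have hlog := Real.log_le_log (by positivity) hcmp
  rw [Real.log_mul (by positivity) (by positivity), Real.log_rpow hx0] at hlog
  have hlx : 0 ≤ Real.log x := Real.log_nonneg hx1
  have htl := A3c_tlog ht0
  rw [← hε, ← hx] at htl
  have hl1 : Real.log (1 + x) ≤ Real.log x + ε := by
    have e : 1 + x = x * (1 + ε) := by
      rw [hx]
      field_simp
      ring
    rw [e, Real.log_mul (by positivity) (by positivity)]
    have := Real.log_le_sub_one_of_pos (show 0 < 1 + ε by positivity)
    linarith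
  set W : ℝ := N / (n - r + 1 : ℝ) with hW
  have hW0 : 0 ≤ W := by positivity
  have hNn : 0 ≤ N / n := by positivity
  have hfin : Real.log S.card ≤ ξ * (N / n) := by
    have e1 : (1 + ε) * W * (Real.log (1 + x) + ξ / 16) ≤
        (1 + ε) * W * (Real.log x + ε + ξ / 16) := by
      apply mul_le_mul_of_nonneg_left _ (by positivity)
      linarith
    have e2 : (1 + ε) * W * (Real.log x + ε + ξ / 16) - (1 - ε) * W * Real.log x ≤
        W * (8 * t + ξ / 4) := by
      have e3 : (1 + ε) * W * (Real.log x + ε + ξ / 16) - (1 - ε) * W * Real.log x =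
          W * (2 * (ε * Real.log x) + (1 + ε) * (ε + ξ / 16)) := by ring
      rw [e3]
      apply mul_le_mul_of_nonneg_left _ hW0
      have e4 : (1 + ε) * (ε + ξ / 16) ≤ 2 * (t + ξ / 16) := by
        have : 0 ≤ ε + ξ / 16 := by positivity
        nlinarith
      linarith
    have e5 : W * (8 * t + ξ / 4) ≤ 2 * (N / n) * (8 * t + ξ / 4) :=
      mul_le_mul_of_nonneg_right hND (by positivity)
    have e6 : 2 * (N / n) * (8 * t + ξ / 4) ≤ ξ * (N / n) := by
      have : 2 * (N / n) * (8 * t + ξ / 4) = (16 * t + ξ / 2) * (N / n) := by ring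
      rw [this]
      exact mul_le_mul_of_nonneg_right (by linarith) hNn
    linarith
  calc (S.card : ℝ) = Real.exp (Real.log S.card) := (Real.exp_log hposr).symm
    _ ≤ _ := Real.exp_le_exp.2 hfin

end Pool.Agent.H8.VM
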