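import Pool.Agent.H8.VM.Defs
import Pool.Agent.H28.SPMatroid
import Pool.Agent.H28.V8

/-! # Isomorphism classes: definitions -/

open scoped BigOperators

namespace Pool.Agent.H8.VM

open Pool.Agent.H28.Johnson Pool.Agent.H28.KW Pool.Agent.H28.Windows Pool.Agent.H28.SPMatroid
  Pool.Agent.H28.V8

variable {n : ℕ}

/-- the permutation `e` is an isomorphism from `M` to `N` -/
def Iso (e : Equiv.Perm (Fin n)) (M N : Matroid (Fin n)) : Prop :=
  ∀ I : Set (Fin n), M.Indep I ↔ N.Indep (e '' I)

/-- `M` has a nontrivial automorphism -/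
def Sym (M : Matroid (Fin n)) : Prop := ∃ e : Equiv.Perm (Fin n), e ≠ 1 ∧ Iso e M M

/-- the isomorphism class of `M` among the matroids with ground set `Fin n` -/
def isoClass (M : Matroid (Fin n)) : Set (Matroid (Fin n)) :=
  {N : Matroid (Fin n) | N.E = Set.univ ∧
    ∃ e : Equiv.Perm (Fin n), ∀ I : Set (Fin n), M.Indep I ↔ N.Indep (e '' I)}

/-- sparse paving matroids with ground set `Fin n`, all ranks -/
def AllSP (M : Matroid (Fin n)) : Prop := M.E = Set.univ ∧ SparsePaving M

end Pool.Agent.H8.VM
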