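import Pool.Agent.H8.VM.D1_Edges

/-! MODULE D4a (part of D4) (about 150 lines). Numbers of cells through a given set.

`path_fiber_bc`: `(P3, P1, P2, P4)` as in D2: `P3` in `S.offDiag` (`<= n^2`), `P1` with
`(P3, P1)` an edge (`<= n-r <= n`, edges2_row), `P2` with `(P2, P1)` an edge (`<= r <= n`), `P4`
with `(P3, P4)` an edge (`<= n`).
`path_fiber_ad`: relabel the cell by the permutation `0<->2, 1<->3, 4<->6, 5<->7` of `Fin 8`
(`a<->b`, `c<->d`): the sets `ab` are kept, `ac <-> bd`, `bc <-> ad`; so path cells go to path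
cells (bijectively) and the fibre over `ad = S` goes to the fibre over `bc = S`.
`cell_fiber`: `c = (Y, φ)` is determined by `φ` (at most `n^8` maps) because
`Y = (c.at Q) minus φ(Q)`. -/

open scoped BigOperators

namespace Pool.Agent.H8.VM

open Pool.Agent.H28.Johnson Pool.Agent.H28.KW Pool.Agent.H28.Windows

/-! ### membership in the sets of a cell -/

theorem D4a_mem {n : ℕ} (c : Cell n) (Q : Finset (Fin 8)) (x : Fin n) :
    x ∈ c.at Q ↔ x ∈ c.1 ∨ ∃ i ∈ Q, c.2 i = x := by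
  unfold Cell.at Pool.Agent.H28.V8.loc
  rw [Finset.mem_union, Finset.mem_map]

theorem D4a_mem_ab {n : ℕ} (c : Cell n) (x : Fin n) :
    x ∈ c.at Qab ↔ x ∈ c.1 ∨ x = c.2 0 ∨ x = c.2 1 ∨ x = c.2 2 ∨ x = c.2 3 := by
  rw [D4a_mem]
  simp only [Qab, Finset.mem_insert, Finset.mem_singleton, exists_eq_or_imp, exists_eq_left]
  simp only [eq_comm]

theorem D4a_mem_ac {n : ℕ} (c : Cell n) (x : Fin n) :
    x ∈ c.at Qac ↔ x ∈ c.1 ∨ x = c.2 0 ∨ x = c.2 1 ∨ x = c.2 4 ∨ x = c.2 5 := by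
  rw [D4a_mem]
  simp only [Qac, Finset.mem_insert, Finset.mem_singleton, exists_eq_or_imp, exists_eq_left]
  simp only [eq_comm]

theorem D4a_mem_bc {n : ℕ} (c : Cell n) (x : Fin n) :
    x ∈ c.at Qbc ↔ x ∈ c.1 ∨ x = c.2 2 ∨ x = c.2 3 ∨ x = c.2 4 ∨ x = c.2 5 := by
  rw [D4a_mem]
  simp only [Qbc, Finset.mem_insert, Finset.mem_singleton, exists_eq_or_imp, exists_eq_left]
  simp only [eq_comm]

theorem D4a_mem_bd {n : ℕ} (c : Cell n) (x : Fin n) :
    x ∈ c.at Qbd ↔ x ∈ c.1 ∨ x = c.2 2 ∨ x = c.2 3 ∨ x = c.2 6 ∨ x = c.2 7 := by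
  rw [D4a_mem]
  simp only [Qbd, Finset.mem_insert, Finset.mem_singleton, exists_eq_or_imp, exists_eq_left]
  simp only [eq_comm]

theorem D4a_ne {n : ℕ} (c : Cell n) {i j : Fin 8} (h : i ≠ j) : c.2 i ≠ c.2 j :=
  fun h' => h (c.2.injective h')

/-- `ab` is obtained from `bc` by exchanging `c` with `a` -/
theorem D4a_swp_ab {n r : ℕ} {c : Cell n} (hc : c ∈ cells n r) :
    swp (c.at Qbc) (c.2 4, c.2 5) (c.2 0, c.2 1) = c.at Qab := by
  have hY := (mem_cells.mp hc).2
  ext x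
  rw [swp, Finset.mem_union, Finset.mem_sdiff, D4a_mem_bc, D4a_mem_ab]
  simp only [Finset.mem_insert, Finset.mem_singleton]
  constructor
  · rintro (⟨h | h | h | h | h, h2⟩ | h | h)
    · exact Or.inl h
    · exact Or.inr (Or.inr (Or.inr (Or.inl h)))
    · exact Or.inr (Or.inr (Or.inr (Or.inr h)))
    · exact absurd (Or.inl h) h2
    · exact absurd (Or.inr h) h2
    · exact Or.inr (Or.inl h)
    · exact Or.inr (Or.inr (Or.inl h))
  · rintro (h | h | h | h | h)
    · refine Or.inl ⟨Or.inl h, ?_⟩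
      rintro (h2 | h2)
      · exact hY 4 (h2 ▸ h)
      · exact hY 5 (h2 ▸ h)
    · exact Or.inr (Or.inl h)
    · exact Or.inr (Or.inr h)
    · refine Or.inl ⟨Or.inr (Or.inl h), ?_⟩
      rintro (h2 | h2)
      · exact D4a_ne c (by decide : (2 : Fin 8) ≠ 4) (h.symm.trans h2)
      · exact D4a_ne c (by decide : (2 : Fin 8) ≠ 5) (h.symm.trans h2)
    · refine Or.inl ⟨Or.inr (Or.inr (Or.inl h)), ?_⟩
      rintro (h2 | h2)
      · exact D4a_ne c (by decide : (3 : Fin 8) ≠ 4) (h.symm.trans h2)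
      · exact D4a_ne c (by decide : (3 : Fin 8) ≠ 5) (h.symm.trans h2)

theorem D4a_swp_ac {n r : ℕ} {c : Cell n} (hc : c ∈ cells n r) :
    swp (c.at Qbc) (c.2 2, c.2 3) (c.2 0, c.2 1) = c.at Qac := by
  have hY := (mem_cells.mp hc).2
  ext x
  rw [swp, Finset.mem_union, Finset.mem_sdiff, D4a_mem_bc, D4a_mem_ac]
  simp only [Finset.mem_insert, Finset.mem_singleton]
  constructor
  · rintro (⟨h | h | h | h | h, h2⟩ | h | h)
    · exact Or.inl h
    · exact absurd (Or.inl h) h2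
    · exact absurd (Or.inr h) h2
    · exact Or.inr (Or.inr (Or.inr (Or.inl h)))
    · exact Or.inr (Or.inr (Or.inr (Or.inr h)))
    · exact Or.inr (Or.inl h)
    · exact Or.inr (Or.inr (Or.inl h))
  · rintro (h | h | h | h | h)
    · refine Or.inl ⟨Or.inl h, ?_⟩
      rintro (h2 | h2)
      · exact hY 2 (h2 ▸ h)
      · exact hY 3 (h2 ▸ h)
    · exact Or.inr (Or.inl h)
    · exact Or.inr (Or.inr h)
    · refine Or.inl ⟨Or.inr (Or.inr (Or.inr (Or.inl h))), ?_⟩
      rintro (h2 | h2)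
      · exact D4a_ne c (by decide : (4 : Fin 8) ≠ 2) (h.symm.trans h2)
      · exact D4a_ne c (by decide : (4 : Fin 8) ≠ 3) (h.symm.trans h2)
    · refine Or.inl ⟨Or.inr (Or.inr (Or.inr (Or.inr h))), ?_⟩
      rintro (h2 | h2)
      · exact D4a_ne c (by decide : (5 : Fin 8) ≠ 2) (h.symm.trans h2)
      · exact D4a_ne c (by decide : (5 : Fin 8) ≠ 3) (h.symm.trans h2)

theorem D4a_swp_bd {n r : ℕ} {c : Cell n} (hc : c ∈ cells n r) :
    swp (c.at Qbc) (c.2 4, c.2 5) (c.2 6, c.2 7) = c.at Qbd := by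
  have hY := (mem_cells.mp hc).2
  ext x
  rw [swp, Finset.mem_union, Finset.mem_sdiff, D4a_mem_bc, D4a_mem_bd]
  simp only [Finset.mem_insert, Finset.mem_singleton]
  constructor
  · rintro (⟨h | h | h | h | h, h2⟩ | h | h)
    · exact Or.inl h
    · exact Or.inr (Or.inl h)
    · exact Or.inr (Or.inr (Or.inl h))
    · exact absurd (Or.inl h) h2
    · exact absurd (Or.inr h) h2
    · exact Or.inr (Or.inr (Or.inr (Or.inl h)))
    · exact Or.inr (Or.inr (Or.inr (Or.inr h)))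
  · rintro (h | h | h | h | h)
    · refine Or.inl ⟨Or.inl h, ?_⟩
      rintro (h2 | h2)
      · exact hY 4 (h2 ▸ h)
      · exact hY 5 (h2 ▸ h)
    · refine Or.inl ⟨Or.inr (Or.inl h), ?_⟩
      rintro (h2 | h2)
      · exact D4a_ne c (by decide : (2 : Fin 8) ≠ 4) (h.symm.trans h2)
      · exact D4a_ne c (by decide : (2 : Fin 8) ≠ 5) (h.symm.trans h2)
    · refine Or.inl ⟨Or.inr (Or.inr (Or.inl h)), ?_⟩
      rintro (h2 | h2)
      · exact D4a_ne c (by decide : (3 : Fin 8) ≠ 4) (h.symm.trans h2)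
      · exact D4a_ne c (by decide : (3 : Fin 8) ≠ 5) (h.symm.trans h2)
    · exact Or.inr (Or.inl h)
    · exact Or.inr (Or.inr h)

/-- a pair of places inside `bc` -/
theorem D4a_inside {n : ℕ} (c : Cell n) {i j : Fin 8} (hij : i ≠ j) (hi : i ∈ Qbc) (hj : j ∈ Qbc) :
    (c.2 i, c.2 j) ∈ (c.at Qbc).offDiag := by
  rw [Finset.mem_offDiag]
  exact ⟨(D4a_mem c Qbc _).mpr (Or.inr ⟨i, hi, rfl⟩), (D4a_mem c Qbc _).mpr (Or.inr ⟨j, hj, rfl⟩),
    D4a_ne c hij⟩

/-- a pair of places outside `bc` -/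
theorem D4a_outside {n r : ℕ} {c : Cell n} (hc : c ∈ cells n r) {i j : Fin 8} (hij : i ≠ j)
    (hi : i ∉ Qbc) (hj : j ∉ Qbc) : (c.2 i, c.2 j) ∈ (c.at Qbc)ᶜ.offDiag := by
  have hY := (mem_cells.mp hc).2
  have key : ∀ k : Fin 8, k ∉ Qbc → c.2 k ∉ c.at Qbc := by
    intro k hk h
    rw [D4a_mem] at h
    rcases h with h | ⟨l, hl, h⟩
    · exact hY k h
    · exact hk (c.2.injective h ▸ hl)
  rw [Finset.mem_offDiag, Finset.mem_compl, Finset.mem_compl]
  exact ⟨key i hi, key j hj, D4a_ne c hij⟩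

/-- the three edges of a path cell -/
theorem D4a_edges {n r : ℕ} {I : Finset (Finset (Fin n))} {c : Cell n} (hc : c ∈ pth r I) :
    (((c.2 4, c.2 5), (c.2 0, c.2 1)) : (Fin n × Fin n) × (Fin n × Fin n)) ∈
      edges2 I (c.at Qbc) ∧
    (((c.2 2, c.2 3), (c.2 0, c.2 1)) : (Fin n × Fin n) × (Fin n × Fin n)) ∈
      edges2 I (c.at Qbc) ∧
    (((c.2 4, c.2 5), (c.2 6, c.2 7)) : (Fin n × Fin n) × (Fin n × Fin n)) ∈
      edges2 I (c.at Qbc) := by
  obtain ⟨h0, h1, h2, h3⟩ := mem_pth.mp hc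
  refine ⟨?_, ?_, ?_⟩
  · rw [mem_edges2]
    refine ⟨⟨D4a_inside c (by decide) (by decide) (by decide),
      D4a_outside h0 (by decide) (by decide) (by decide)⟩, ?_⟩
    rw [D4a_swp_ab h0]
    exact h1
  · rw [mem_edges2]
    refine ⟨⟨D4a_inside c (by decide) (by decide) (by decide),
      D4a_outside h0 (by decide) (by decide) (by decide)⟩, ?_⟩
    rw [D4a_swp_ac h0]
    exact h2
  · rw [mem_edges2]
    refine ⟨⟨D4a_inside c (by decide) (by decide) (by decide),
      D4a_outside h0 (by decide) (by decide) (by decide)⟩, ?_⟩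
    rw [D4a_swp_bd h0]
    exact h3

/-- a cell is determined by the set `bc` and the four pairs -/
theorem D4a_ext {n r : ℕ} {c c' : Cell n} (hc : c ∈ cells n r) (hc' : c' ∈ cells n r)
    (hS : c.at Qbc = c'.at Qbc) (h : ∀ i, c.2 i = c'.2 i) : c = c' := by
  have hφ : c.2 = c'.2 := DFunLike.ext _ _ h
  have hY := (mem_cells.mp hc).2
  have hY' := (mem_cells.mp hc').2
  have key : ∀ (d d' : Cell n), (∀ i, d.2 i ∉ d.1) → d.at Qbc = d'.at Qbc → d.2 = d'.2 →
      d.1 ⊆ d'.1 := by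
    intro d d' hd hS hφ x hx
    have h1 : x ∈ d'.at Qbc := by
      rw [← hS, D4a_mem]
      exact Or.inl hx
    rw [D4a_mem] at h1
    rcases h1 with h1 | ⟨i, _, h1⟩
    · exact h1
    · exfalso
      rw [← hφ] at h1
      exact hd i (h1 ▸ hx)
  exact Prod.ext (Finset.Subset.antisymm (key c c' hY hS hφ) (key c' c hY' hS.symm hφ.symm)) hφ

theorem D4a_row {n r : ℕ} {I : Finset (Finset (Fin n))} (hI : I ∈ stables n r)
    {S : Finset (Fin n)} (hS : S ∈ Base n r) (x : Fin n × Fin n) :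
    ((Finset.univ : Finset (Fin n × Fin n)).filter fun y => (x, y) ∈ edges2 I S).card ≤ n := by
  classical
  refine le_trans ?_ ((edges2_row hI hS x).trans (Nat.sub_le n r))
  refine Finset.card_le_card_of_injOn (fun y => (x, y)) ?_ ?_
  · intro y hy
    rw [Finset.mem_coe, Finset.mem_filter] at hy
    rw [Finset.mem_coe, Finset.mem_filter]
    exact ⟨hy.2, rfl⟩
  · intro y _ y' _ h
    exact (Prod.ext_iff.mp h).2

theorem D4a_col {n r : ℕ} {I : Finset (Finset (Fin n))} (hI : I ∈ stables n r)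
    {S : Finset (Fin n)} (hS : S ∈ Base n r) (y : Fin n × Fin n) :
    ((Finset.univ : Finset (Fin n × Fin n)).filter fun x => (x, y) ∈ edges2 I S).card ≤ n := by
  classical
  have hr : r ≤ n := by
    rw [mem_Base] at hS
    rw [← hS]
    exact (Finset.card_le_univ S).trans (by simp)
  refine le_trans ?_ ((edges2_col hI hS y).trans hr)
  refine Finset.card_le_card_of_injOn (fun x => (x, y)) ?_ ?_
  · intro x hx
    rw [Finset.mem_coe, Finset.mem_filter] at hx
    rw [Finset.mem_coe, Finset.mem_filter]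
    exact ⟨hx.2, rfl⟩
  · intro x _ x' _ h
    exact (Prod.ext_iff.mp h).1

open Classical in
theorem path_fiber_bc {n r : ℕ} {I : Finset (Finset (Fin n))} (hI : I ∈ stables n r)
    {S : Finset (Fin n)} (hS : S ∈ Base n r) :
    ((pth r I).filter fun c => c.at Qbc = S).card ≤ n ^ 5 := by
  set F := (pth r I).filter fun c => c.at Qbc = S with hF
  have hed : ∀ c ∈ F, c ∈ cells n r ∧ c.at Qbc = S ∧
      (((c.2 4, c.2 5), (c.2 0, c.2 1)) : (Fin n × Fin n) × (Fin n × Fin n)) ∈ edges2 I S ∧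
      (((c.2 2, c.2 3), (c.2 0, c.2 1)) : (Fin n × Fin n) × (Fin n × Fin n)) ∈ edges2 I S ∧
      (((c.2 4, c.2 5), (c.2 6, c.2 7)) : (Fin n × Fin n) × (Fin n × Fin n)) ∈ edges2 I S := by
    intro c hc
    rw [hF, Finset.mem_filter] at hc
    obtain ⟨h1, h2⟩ := hc
    have h3 := D4a_edges h1
    rw [h2] at h3
    exact ⟨(mem_pth.mp h1).1, h2, h3⟩
  -- last step
  have s4 : ∀ p3 p1 p2 : Fin n × Fin n,
      (F.filter fun c => (c.2 4, c.2 5) = p3 ∧ (c.2 0, c.2 1) = p1 ∧
        (c.2 2, c.2 3) = p2).card ≤ n := by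
    intro p3 p1 p2
    refine le_trans ?_ (D4a_row hI hS p3)
    refine Finset.card_le_card_of_injOn (fun c => (c.2 6, c.2 7)) ?_ ?_
    · intro c hc
      rw [Finset.mem_coe, Finset.mem_filter] at hc
      rw [Finset.mem_coe, Finset.mem_filter]
      refine ⟨Finset.mem_univ _, ?_⟩
      rw [← hc.2.1]
      exact (hed c hc.1).2.2.2.2
    · intro c hc c' hc' h
      rw [Finset.mem_coe, Finset.mem_filter] at hc hc'
      obtain ⟨hc0, hc3, hc1, hc2⟩ := hc
      obtain ⟨hc0', hc3', hc1', hc2'⟩ := hc'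
      have e3 := hc3.trans hc3'.symm
      have e1 := hc1.trans hc1'.symm
      have e2 := hc2.trans hc2'.symm
      refine D4a_ext (hed c hc0).1 (hed c' hc0').1 ((hed c hc0).2.1.trans (hed c' hc0').2.1.symm) ?_
      rw [Prod.ext_iff] at e1 e2 e3
      have h' := Prod.ext_iff.mp h
      intro i
      fin_cases i
      · exact e1.1
      · exact e1.2
      · exact e2.1
      · exact e2.2
      · exact e3.1
      · exact e3.2
      · exact h'.1
      · exact h'.2
  have s3 : ∀ p3 p1 : Fin n × Fin n,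
      (F.filter fun c => (c.2 4, c.2 5) = p3 ∧ (c.2 0, c.2 1) = p1).card ≤ n ^ 2 := by
    intro p3 p1
    have h := Finset.card_le_mul_card_image_of_maps_to
      (s := F.filter fun c => (c.2 4, c.2 5) = p3 ∧ (c.2 0, c.2 1) = p1)
      (t := (Finset.univ : Finset (Fin n × Fin n)).filter fun x => (x, p1) ∈ edges2 I S)
      (f := fun c => (c.2 2, c.2 3)) (by
        intro c hc
        rw [Finset.mem_filter] at hc
        rw [Finset.mem_filter]
        refine ⟨Finset.mem_univ _, ?_⟩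
        rw [← hc.2.2]
        exact (hed c hc.1).2.2.2.1) n (by
        intro p2 _
        refine le_trans (Finset.card_le_card ?_) (s4 p3 p1 p2)
        intro c hc
        rw [Finset.mem_filter, Finset.mem_filter] at hc
        rw [Finset.mem_filter]
        exact ⟨hc.1.1, hc.1.2.1, hc.1.2.2, hc.2⟩)
    refine h.trans ?_
    rw [sq]
    exact Nat.mul_le_mul_left _ (D4a_col hI hS p1)
  have s2 : ∀ p3 : Fin n × Fin n, (F.filter fun c => (c.2 4, c.2 5) = p3).card ≤ n ^ 3 := by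
    intro p3
    have h := Finset.card_le_mul_card_image_of_maps_to
      (s := F.filter fun c => (c.2 4, c.2 5) = p3)
      (t := (Finset.univ : Finset (Fin n × Fin n)).filter fun y => (p3, y) ∈ edges2 I S)
      (f := fun c => (c.2 0, c.2 1)) (by
        intro c hc
        rw [Finset.mem_filter] at hc
        rw [Finset.mem_filter]
        refine ⟨Finset.mem_univ _, ?_⟩
        rw [← hc.2]
        exact (hed c hc.1).2.2.1) (n ^ 2) (by
        intro p1 _
        refine le_trans (Finset.card_le_card ?_) (s3 p3 p1)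
        intro c hc
        rw [Finset.mem_filter, Finset.mem_filter] at hc
        rw [Finset.mem_filter]
        exact ⟨hc.1.1, hc.1.2, hc.2⟩)
    refine h.trans ?_
    calc n ^ 2 * _ ≤ n ^ 2 * n := Nat.mul_le_mul_left _ (D4a_row hI hS p3)
      _ = n ^ 3 := by ring
  have h := Finset.card_le_mul_card_image_of_maps_to
    (s := F) (t := (Finset.univ : Finset (Fin n × Fin n)))
    (f := fun c => (c.2 4, c.2 5)) (fun _ _ => Finset.mem_univ _) (n ^ 3) (fun p3 _ => s2 p3)
  refine h.trans ?_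
  rw [Finset.card_univ, Fintype.card_prod, Fintype.card_fin]
  exact le_of_eq (by ring)

end Pool.Agent.H8.VM
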