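import Pool.Agent.H8.VM.D1_Edges
import Pool.Agent.H8.VM.D4a_Bc

/-! MODULE D4b (part of D4) (about 150 lines). Numbers of cells through a given set.

`path_fiber_bc`: `(P3, P1, P2, P4)` as in D2: `P3` in `S.offDiag` (`<= n^2`), `P1` with
`(P3, P1)` an edge (`<= n-r <= n`, edges2_row), `P2` with `(P2, P1)` an edge (`<= r <= n`), `P4`
with `(P3, P4)` an edge (`<= n`).
`path_fiber_ad`: relabel the cell by the permutation `0<->2, 1<->3, 4<->6, 5<->7` of `Fin 8`
(`a<->b`, `c<->d`): the sets `ab` are kept, `ac <-> bd`, `bc <-> ad`; so path cells go to path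
cells (bijectively) and the fibre over `ad = S` goes to the fibre over `bc = S`.
`cell_fiber`: `c = (Y, φ)` is determined by `φ` (at most `n^8` maps) because
`Y = (c.at Q) minus φ(Q)`. -/

open scoped BigOperators

namespace Pool.Agent.H8.VM

open Pool.Agent.H28.Johnson Pool.Agent.H28.KW Pool.Agent.H28.Windows

/-- the relabelling `0 <-> 2, 1 <-> 3, 4 <-> 6, 5 <-> 7` -/
def D4b_perm : Equiv.Perm (Fin 8) :=
  Equiv.swap 0 2 * Equiv.swap 1 3 * Equiv.swap 4 6 * Equiv.swap 5 7

/-- the relabelled cell -/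
def D4b_map {n : ℕ} (c : Cell n) : Cell n := (c.1, D4b_perm.toEmbedding.trans c.2)

theorem D4b_at {n : ℕ} (c : Cell n) (Q : Finset (Fin 8)) :
    (D4b_map c).at Q = c.at (Q.map D4b_perm.toEmbedding) := by
  unfold Cell.at Pool.Agent.H28.V8.loc D4b_map
  rw [Finset.map_map]

theorem D4b_injective {n : ℕ} : Function.Injective (D4b_map : Cell n → Cell n) := by
  intro c c' h
  have h1 : c.1 = c'.1 := (Prod.ext_iff.mp h).1
  have h2 : D4b_perm.toEmbedding.trans c.2 = D4b_perm.toEmbedding.trans c'.2 :=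
    (Prod.ext_iff.mp h).2
  refine Prod.ext h1 ?_
  refine DFunLike.ext _ _ fun i => ?_
  have h3 := DFunLike.congr_fun h2 (D4b_perm.symm i)
  simpa using h3

set_option maxRecDepth 20000 in
theorem D4b_perm_ab : Qab.map D4b_perm.toEmbedding = Qab := by decide

set_option maxRecDepth 20000 in
theorem D4b_perm_ac : Qac.map D4b_perm.toEmbedding = Qbd := by decide

set_option maxRecDepth 20000 in
theorem D4b_perm_bd : Qbd.map D4b_perm.toEmbedding = Qac := by decide

set_option maxRecDepth 20000 in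
theorem D4b_perm_bc : Qbc.map D4b_perm.toEmbedding = Qad := by decide

open Classical in
theorem path_fiber_ad {n r : ℕ} {I : Finset (Finset (Fin n))} (hI : I ∈ stables n r)
    {S : Finset (Fin n)} (hS : S ∈ Base n r) :
    ((pth r I).filter fun c => c.at Qad = S).card ≤ n ^ 5 := by
  refine le_trans ?_ (path_fiber_bc hI hS)
  refine Finset.card_le_card_of_injOn D4b_map ?_ D4b_injective.injOn
  intro c hc
  rw [Finset.mem_coe, Finset.mem_filter, mem_pth, mem_cells] at hc
  obtain ⟨⟨⟨h0, h1⟩, h2, h3, h4⟩, h5⟩ := hc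
  rw [Finset.mem_coe, Finset.mem_filter, mem_pth, mem_cells, D4b_at, D4b_at, D4b_at, D4b_at,
    D4b_perm_ab, D4b_perm_ac, D4b_perm_bd, D4b_perm_bc]
  exact ⟨⟨⟨h0, fun i => h1 _⟩, h2, h4, h3⟩, h5⟩

end Pool.Agent.H8.VM
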