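import Pool.Agent.H8.VM.D1_Edges

/-! MODULE D4c (part of D4) (about 150 lines). Numbers of cells through a given set.

`path_fiber_bc`: `(P3, P1, P2, P4)` as in D2: `P3` in `S.offDiag` (`<= n^2`), `P1` with
`(P3, P1)` an edge (`<= n-r <= n`, edges2_row), `P2` with `(P2, P1)` an edge (`<= r <= n`), `P4`
with `(P3, P4)` an edge (`<= n`).
`path_fiber_ad`: relabel the cell by the permutation `0<->2, 1<->3, 4<->6, 5<->7` of `Fin 8`
(`a<->b`, `c<->d`): the sets `ab` are kept, `ac <-> bd`, `bc <-> ad`; so path cells go to path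
cells (bijectively) and the fibre over `ad = S` goes to the fibre over `bc = S`.
`cell_fiber`: `c = (Y, φ)` is determined by `φ` (at most `n^8` maps) because
`Y = (c.at Q) minus φ(Q)`. -/

open scoped BigOperators

namespace Pool.Agent.H8.VM

open Pool.Agent.H28.Johnson Pool.Agent.H28.KW Pool.Agent.H28.Windows

open Classical in
theorem cell_fiber {n r : ℕ} (Q : Finset (Fin 8)) (W : Finset (Fin n)) :
    ((cells n r).filter fun c => c.at Q = W).card ≤ n ^ 8 := by
  have hcard : (Finset.univ : Finset (Fin 8 → Fin n)).card = n ^ 8 := by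
    rw [Finset.card_univ, Fintype.card_fun, Fintype.card_fin, Fintype.card_fin]
  rw [← hcard]
  refine Finset.card_le_card_of_injOn (fun c => (c.2 : Fin 8 → Fin n))
    (fun _ _ => Finset.mem_coe.mpr (Finset.mem_univ _)) ?_
  intro c hc c' hc' h
  rw [Finset.mem_coe, Finset.mem_filter, mem_cells] at hc hc'
  have hφ : c.2 = c'.2 := DFunLike.coe_injective h
  have key : ∀ d : Cell n, (∀ i, d.2 i ∉ d.1) → d.at Q = W → d.1 = W \ Q.map d.2 := by
    intro d hd hQ
    rw [← hQ]
    unfold Cell.at Pool.Agent.H28.V8.loc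
    rw [Finset.union_sdiff_right, Finset.sdiff_eq_self_of_disjoint]
    exact Pool.Agent.H28.V8.loc_disj hd Q
  refine Prod.ext ?_ hφ
  rw [key c hc.1.2 hc.2, key c' hc'.1.2 hc'.2, hφ]

/-- the six pair unions and all other traces with four elements are `r`-sets -/
theorem at_mem_Base {n r : ℕ} {c : Cell n} (hc : c ∈ cells n r) {Q : Finset (Fin 8)}
    (hQ : Q.card = 4) : c.at Q ∈ Base n r := by
  rw [mem_cells] at hc
  rw [mem_Base, Cell.at, Pool.Agent.H28.V8.loc_card hc.2, hQ, hc.1]

end Pool.Agent.H8.VM
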