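import Pool.Agent.H8.VM.D4a_Bc
import Pool.Agent.H8.VM.D4b_Ad
import Pool.Agent.H8.VM.D4c_Cell

/-! Collects the parts of D4_Fibers. -/
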