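import Pool.Agent.H8.VM.Defs

/-! MODULE A2 (about 120 lines). Generating function version of the Kleitman-Winston count
(`Pool.Agent.H28.KW.count_indep` is the case `x = 1`; copy its proof).

Proof: induction on `U.card`. If `U.card <= R` the sum is at most the sum over all subsets of
`U`, i.e. `(1+x)^(U.card) <= (1+x)^R`, and the first factor is `>= 1` (term `j = 0`). Otherwise
take `v` of large degree, `U1 = U.erase v`, `U2 = U1` minus the neighbours of `v`:
`sum over U <= sum over U1 + x * sum over U2`, induction (with `q` for `U1` and `q - 1` for `U2`)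
and Pascal `C(m-1, j) x^j + x * C(m-1, j-1) x^(j-1) = C(m, j) x^j`. -/

open scoped BigOperators

namespace Pool.Agent.H8.VM

open Pool.Agent.H28.Johnson Pool.Agent.H28.KW Pool.Agent.H28.Windows

open Classical in
theorem gen_indep {V : Type*} [DecidableEq V] (adj : V → V → Prop) (hirr : ∀ a, ¬ adj a a)
    (B : Finset V) (R : ℕ) (β : ℝ) (hβ0 : 0 < β) (hβ1 : β ≤ 1)
    (hdeg : ∀ U ⊆ B, R < U.card →
      ∃ v ∈ U, β * (U.card : ℝ) ≤ ((U.filter fun u => adj v u).card : ℝ))
    (x : ℝ) (hx : 0 < x) :
    ∀ (m : ℕ) (U : Finset V), U.card = m → U ⊆ B → ∀ q : ℕ, (1 - β) ^ q * (U.card : ℝ) ≤ R →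
      ∑ I ∈ U.powerset.filter (fun I => Indep adj I), x ^ I.card ≤
        (∑ j ∈ Finset.range (q + 1), (m.choose j : ℝ) * x ^ j) * (1 + x) ^ R := by
  intro m
  induction m using Nat.strong_induction_on with
  | _ m ih =>
  intro U hUm hUB q hq
  have hx1 : (0 : ℝ) < 1 + x := by linarith
  by_cases hR : U.card ≤ R
  · have hS : 1 ≤ ∑ j ∈ Finset.range (q + 1), (m.choose j : ℝ) * x ^ j := by
      calc (1 : ℝ) = (m.choose 0 : ℝ) * x ^ 0 := by simp
        _ ≤ _ := Finset.single_le_sum (f := fun j => (m.choose j : ℝ) * x ^ j)
            (fun _ _ => by positivity) (Finset.mem_range.mpr (Nat.succ_pos q))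
    calc ∑ I ∈ U.powerset.filter (fun I => Indep adj I), x ^ I.card ≤
          ∑ I ∈ U.powerset, x ^ I.card :=
          Finset.sum_le_sum_of_subset_of_nonneg (Finset.filter_subset _ _)
            fun _ _ _ => by positivity
      _ = (x + 1) ^ U.card := by
          rw [← Finset.sum_pow_mul_eq_add_pow x 1 U]
          refine Finset.sum_congr rfl fun I _ => ?_
          rw [one_pow, mul_one]
      _ ≤ (x + 1) ^ R := pow_le_pow_right₀ (by linarith) hR
      _ = 1 * (1 + x) ^ R := by rw [one_mul, add_comm]
      _ ≤ _ := mul_le_mul_of_nonneg_right hS (by positivity)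
  · push Not at hR
    have hq0 : q ≠ 0 := by
      rintro rfl
      rw [pow_zero, one_mul] at hq
      have h2 : U.card ≤ R := by exact_mod_cast hq
      omega
    obtain ⟨p, rfl⟩ : ∃ p, q = p + 1 := ⟨q - 1, by omega⟩
    obtain ⟨v, hv, hdv⟩ := hdeg U hUB hR
    set N := U.filter (fun u => adj v u) with hN
    set U1 := U.erase v with hU1
    set U2 := U1 \ N with hU2
    have hU1c : U1.card = m - 1 := by rw [hU1, Finset.card_erase_of_mem hv, hUm]
    have hmpos : 0 < m := by rw [← hUm]; exact Finset.card_pos.mpr ⟨v, hv⟩
    have h1β : 0 ≤ 1 - β := by linarith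
    have hvN : v ∉ N := by
      rw [hN, Finset.mem_filter]
      rintro ⟨_, h⟩
      exact hirr v h
    have hNU1 : N ⊆ U1 := by
      intro y hy
      rw [hU1, Finset.mem_erase]
      refine ⟨?_, (Finset.mem_filter.mp hy).1⟩
      rintro rfl
      exact hvN hy
    have hU2c : U2.card + N.card + 1 = m := by
      have := Finset.card_sdiff_add_card_eq_card hNU1
      rw [← hU2] at this
      omega
    have hvU2 : v ∉ U2 := by
      intro h
      rw [hU2, Finset.mem_sdiff, hU1, Finset.mem_erase] at h
      exact h.1.1 rfl
    -- recursion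
    have hsplit : ∑ I ∈ U.powerset.filter (fun I => Indep adj I), x ^ I.card ≤
        ∑ I ∈ U1.powerset.filter (fun I => Indep adj I), x ^ I.card +
          x * ∑ I ∈ U2.powerset.filter (fun I => Indep adj I), x ^ I.card := by
      have hsub : (U.powerset.filter fun I => Indep adj I) ⊆
          (U1.powerset.filter fun I => Indep adj I) ∪
            (U2.powerset.filter fun I => Indep adj I).image (fun I => insert v I) := by
        intro I hI
        rw [Finset.mem_filter, Finset.mem_powerset] at hI
        rw [Finset.mem_union]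
        by_cases hvI : v ∈ I
        · right
          rw [Finset.mem_image]
          refine ⟨I.erase v, ?_, Finset.insert_erase hvI⟩
          rw [Finset.mem_filter, Finset.mem_powerset]
          refine ⟨?_, fun a ha b hb => hI.2 a (Finset.mem_of_mem_erase ha) b
            (Finset.mem_of_mem_erase hb)⟩
          intro y hy
          rw [Finset.mem_erase] at hy
          rw [hU2, Finset.mem_sdiff, hU1, Finset.mem_erase]
          refine ⟨⟨hy.1, hI.1 hy.2⟩, ?_⟩
          rw [hN, Finset.mem_filter]
          rintro ⟨_, h⟩
          exact hI.2 v hvI y hy.2 h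
        · left
          rw [Finset.mem_filter, Finset.mem_powerset]
          refine ⟨?_, hI.2⟩
          intro y hy
          rw [hU1, Finset.mem_erase]
          exact ⟨fun h => hvI (h ▸ hy), hI.1 hy⟩
      have himg : ∑ I ∈ (U2.powerset.filter fun I => Indep adj I).image (fun I => insert v I),
          x ^ I.card = x * ∑ I ∈ U2.powerset.filter (fun I => Indep adj I), x ^ I.card := by
        rw [Finset.sum_image, Finset.mul_sum]
        · refine Finset.sum_congr rfl fun I hI => ?_
          rw [Finset.mem_filter, Finset.mem_powerset] at hI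
          rw [Finset.card_insert_of_notMem fun h => hvU2 (hI.1 h), pow_succ]
          ring
        · intro I hI I' hI' h
          rw [Finset.mem_coe, Finset.mem_filter, Finset.mem_powerset] at hI hI'
          simp only at h
          have e1 : (insert v I).erase v = I := Finset.erase_insert fun h => hvU2 (hI.1 h)
          have e2 : (insert v I').erase v = I' := Finset.erase_insert fun h => hvU2 (hI'.1 h)
          rw [← e1, h, e2]
      rw [← himg]
      refine (Finset.sum_le_sum_of_subset_of_nonneg hsub fun _ _ _ => by positivity).trans ?_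
      rw [← Finset.sum_union_inter]
      exact le_add_of_nonneg_right (Finset.sum_nonneg fun _ _ => by positivity)
    have hih1 := ih (m - 1) (by omega) U1 hU1c
      ((Finset.erase_subset _ _).trans hUB) (p + 1) (by
        refine le_trans ?_ hq
        apply mul_le_mul_of_nonneg_left _ (pow_nonneg h1β _)
        have : U1.card ≤ U.card := Finset.card_le_card (Finset.erase_subset _ _)
        exact_mod_cast this)
    have hih2 := ih U2.card (by omega) U2 rfl
      ((Finset.sdiff_subset.trans (Finset.erase_subset _ _)).trans hUB) p (by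
        have h1 : (U2.card : ℝ) ≤ (1 - β) * U.card := by
          have h2 : (U2.card : ℝ) + N.card + 1 = U.card := by rw [hUm]; exact_mod_cast hU2c
          linarith
        calc (1 - β) ^ p * (U2.card : ℝ) ≤ (1 - β) ^ p * ((1 - β) * U.card) :=
              mul_le_mul_of_nonneg_left h1 (pow_nonneg h1β _)
          _ = (1 - β) ^ (p + 1) * U.card := by ring
          _ ≤ R := hq)
    have hmono : ∑ j ∈ Finset.range (p + 1), ((U2.card).choose j : ℝ) * x ^ j ≤
        ∑ j ∈ Finset.range (p + 1), ((m - 1).choose j : ℝ) * x ^ j := by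
      refine Finset.sum_le_sum fun j _ => ?_
      have : ((U2.card).choose j : ℝ) ≤ ((m - 1).choose j : ℝ) := by
        exact_mod_cast Nat.choose_le_choose j (by omega)
      exact mul_le_mul_of_nonneg_right this (by positivity)
    have hpascal : ∑ j ∈ Finset.range (p + 1 + 1), (m.choose j : ℝ) * x ^ j =
        ∑ j ∈ Finset.range (p + 1 + 1), ((m - 1).choose j : ℝ) * x ^ j +
          x * ∑ j ∈ Finset.range (p + 1), ((m - 1).choose j : ℝ) * x ^ j := by
      obtain ⟨m', rfl⟩ : ∃ m', m = m' + 1 := ⟨m - 1, by omega⟩
      simp only [Nat.add_sub_cancel]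
      rw [Finset.sum_range_succ' (fun j => ((m' + 1).choose j : ℝ) * x ^ j),
        Finset.sum_range_succ' (fun j => (m'.choose j : ℝ) * x ^ j), Finset.mul_sum]
      have : ∀ j, ((m' + 1).choose (j + 1) : ℝ) * x ^ (j + 1) =
          (m'.choose (j + 1) : ℝ) * x ^ (j + 1) + x * ((m'.choose j : ℝ) * x ^ j) := by
        intro j
        rw [Nat.choose_succ_succ]
        push_cast
        ring
      simp only [this, Finset.sum_add_distrib, Nat.choose_zero_right]
      ring
    calc ∑ I ∈ U.powerset.filter (fun I => Indep adj I), x ^ I.card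
        ≤ _ := hsplit
      _ ≤ (∑ j ∈ Finset.range (p + 1 + 1), ((m - 1).choose j : ℝ) * x ^ j) * (1 + x) ^ R +
          x * ((∑ j ∈ Finset.range (p + 1), ((m - 1).choose j : ℝ) * x ^ j) * (1 + x) ^ R) :=
          add_le_add hih1 (mul_le_mul_of_nonneg_left
            (hih2.trans (mul_le_mul_of_nonneg_right hmono (by positivity))) hx.le)
      _ = _ := by rw [hpascal]; ring

end Pool.Agent.H8.VM
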