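import Pool.Agent.H8.VM.A2_Gen
import Pool.Agent.H28.StableCount

/-! MODULE A3b (part of A3) (about 300 lines; may be split). Counting stable families.

`stables_lower` (Graham-Sloane): colour an `r`-set `S` by the sum of its elements mod `n`; two
adjacent sets have different colours (they differ by exchanging two different elements of
`Fin n`), so every colour class is stable; some class has at least `N/n` members and all its
subsets are stable: `2^(N/n) <= s`.

`few_small`, `few_large`: from `gen_indep` with `R = floor((1+δ) N / (n-r+1))`,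
`β = δ r (n-r+1) / ((1+δ) N)` (`Pool.Agent.H28.Johnson.deg_large`), `q = ceil(log n / β)`; as in
the proof of `Pool.Agent.H28.StableCount.log_stables_le` one has
`sum_(j<=q) C(N, j) <= (e N / q)^q <= exp (2 q log n)` and `q <= 2 (log n) / β`, so
`q log n = o(N/n)` uniformly for `n <= 14 r`.
* small: `x = κ < 1`: number of `I` with `|I| <= k` is at most
  `x^(-k) * exp(2 q log n) * (1+x)^R`; with `k = κ N/n` and `R <= 3 N/n` this is at most
  `exp ((κ log (1/κ) + 3 κ + o(1)) N/n)`.
* large: `x = 1/ε > 1`: number of `I` with `|I| >= k` is at most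
  `x^(-k) * x^q exp(2 q log n) * (1+x)^R`; with `k = (1-ε) N/(n-r+1)`, `R <= (1+δ) N/(n-r+1)`,
  `δ = ε`: exponent `((1+ε) log(1+1/ε) - (1-ε) log(1/ε)) N/(n-r+1) + o(N/n)`
  `= ((1+ε) log(1+ε) + 2 ε log(1/ε)) N/(n-r+1) + o(N/n)`, and `N/(n-r+1) <= 3 N/n`. -/

open scoped BigOperators
open Filter

namespace Pool.Agent.H8.VM

open Pool.Agent.H28.Johnson Pool.Agent.H28.KW Pool.Agent.H28.Windows

private lemma A3b_choose3 {n r : ℕ} (h3 : 3 ≤ r) (h : 2 * r ≤ n) : n.choose 3 ≤ n.choose r := by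
  induction r, h3 using Nat.le_induction with
  | base => exact le_rfl
  | succ r hr ih =>
    exact (ih (by omega)).trans (Nat.choose_le_succ_of_lt_half_left (by omega))

private lemma A3b_choose3' {n r : ℕ} (hn : 14 * 3 ≤ n) (h1 : n ≤ 14 * r) (h2 : 2 * r ≤ n + 2) :
    n.choose 3 ≤ n.choose r := by
  rcases le_or_gt (2 * r) n with h | h
  · exact A3b_choose3 (by omega) h
  · rw [← Nat.choose_symm (show r ≤ n by omega)]
    exact A3b_choose3 (by omega) (by omega)

private lemma A3b_sq {n : ℕ} (hn : 9 ≤ n) : n ^ 2 ≤ n.choose 3 := by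
  obtain ⟨k, rfl⟩ : ∃ k, n = k + 9 := ⟨n - 9, by omega⟩
  have h1 : (k + 9).choose 3 * 6 = (k + 9) * (k + 8) * (k + 7) := by
    have e : (k + 9) * (k + 8).choose 2 = (k + 9).choose 3 * 3 := Nat.add_one_mul_choose_eq (k + 8) 2
    have e2 : (k + 8) * (k + 7).choose 1 = (k + 8).choose 2 * 2 :=
      Nat.add_one_mul_choose_eq (k + 7) 1
    rw [Nat.choose_one_right] at e2
    calc (k + 9).choose 3 * 6 = ((k + 9).choose 3 * 3) * 2 := by ring
      _ = (k + 9) * ((k + 8).choose 2 * 2) := by rw [← e]; ring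
      _ = (k + 9) * ((k + 8) * (k + 7)) := by rw [← e2]
      _ = _ := by ring
  nlinarith

theorem log_stables_upper (δ : ℝ) (hδ : 0 < δ) : ∀ᶠ n : ℕ in atTop, ∀ r : ℕ, n ≤ 14 * r →
    2 * r ≤ n + 2 → Real.log (stables n r).card ≤
      (1 + δ) * Real.log 2 * ((n.choose r : ℝ) / (n - r + 1)) := by
  set d : ℝ := min δ 1 / 4 with hd
  have hm0 : 0 < min δ 1 := lt_min hδ one_pos
  have hd0 : 0 < d := by rw [hd]; positivity
  have hd1 : d ≤ 1 := by
    have : min δ 1 ≤ 1 := min_le_right _ _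
    rw [hd]; linarith
  have hdδ : 4 * d ≤ δ := by
    have : min δ 1 ≤ δ := min_le_left _ _
    rw [hd]; linarith
  have hln2 : 0 < Real.log 2 := Real.log_pos (by norm_num)
  have hlim : ∀ᶠ x : ℝ in atTop, ‖Real.log x ^ 2‖ ≤ (d ^ 2 * Real.log 2 / 56) * ‖x‖ :=
    (Real.isLittleO_pow_log_id_atTop (n := 2)).bound (by positivity)
  have hlim2 := tendsto_natCast_atTop_atTop (R := ℝ) |>.eventually hlim
  have hlog : ∀ᶠ n : ℕ in atTop, (3 / 2 : ℝ) ≤ Real.log n :=
    (Real.tendsto_log_atTop.comp tendsto_natCast_atTop_atTop).eventually_ge_atTop _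
  filter_upwards [hlim2, hlog, eventually_ge_atTop 42, eventually_ge_atTop ⌈112 / d⌉₊]
    with n h1 h2 h3 h4 r hr hr2
  have hn0 : (0 : ℝ) < n := by exact_mod_cast (show 0 < n by omega)
  have hnd : 112 / d ≤ n := (Nat.le_ceil _).trans (by exact_mod_cast h4)
  rw [div_le_iff₀ hd0] at hnd
  have hr1 : 1 ≤ r := by omega
  have hrn : r ≤ n := by omega
  have hrr : (n : ℝ) ≤ 14 * r := by exact_mod_cast hr
  have hrr2 : 2 * (r : ℝ) ≤ n + 2 := by exact_mod_cast hr2
  have hr0 : (0 : ℝ) < r := by exact_mod_cast hr1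
  have hrr3 : (1 : ℝ) ≤ r := by exact_mod_cast hr1
  have hn42 : (42 : ℝ) ≤ n := by exact_mod_cast h3
  have hN : (n : ℝ) ^ 2 ≤ n.choose r := by
    have := (A3b_sq (n := n) (by omega)).trans (A3b_choose3' (by omega) hr hr2)
    exact_mod_cast this
  have hlogn : Real.log n ≤ n := (Real.log_le_sub_one_of_pos hn0).trans (by linarith)
  have hlog0 : 0 ≤ Real.log n := by linarith
  have hrn' : (r : ℝ) ≤ n := by exact_mod_cast hrn
  have hprod : (r : ℝ) * (n - r + 1) ≤ n ^ 2 := by nlinarith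
  have hprod2 : (n : ℝ) ^ 2 ≤ 28 * (r * (n - r + 1)) := by
    have ha : (n : ℝ) ≤ 2 * (n - r + 1) := by linarith
    nlinarith
  have key := Pool.Agent.H28.StableCount.log_stables_le hr1 hrn d hd0 hd1 h2
    (by
      have : (n - r + 1 : ℝ) ≤ n := by linarith
      have h5 : (n : ℝ) ≤ d * n ^ 2 := by nlinarith
      exact this.trans (h5.trans (mul_le_mul_of_nonneg_left hN hd0.le)))
    (hprod.trans hN)
    (by
      have h5 : 2 * Real.log n * (1 + d) ≤ 4 * n := by nlinarith
      have h6 : 112 * n ≤ d * n ^ 2 := by nlinarith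
      nlinarith)
  refine key.trans ?_
  have hDpos : (0 : ℝ) < n - r + 1 := by linarith
  have hq0 : 0 ≤ (n.choose r : ℝ) / (n - r + 1) := by positivity
  have hsmall : 4 * Real.log n ^ 2 / (d * r) ≤ d * Real.log 2 := by
    rw [div_le_iff₀ (by positivity)]
    rw [Real.norm_of_nonneg (by positivity), Real.norm_of_nonneg hn0.le] at h1
    have h7 : d ^ 2 * Real.log 2 / 56 * n ≤ d ^ 2 * Real.log 2 / 56 * (14 * r) :=
      mul_le_mul_of_nonneg_left hrr (by positivity)
    nlinarith
  have hfin : (1 + d) * (Real.log 2 + 4 * Real.log n ^ 2 / (d * r)) ≤ (1 + δ) * Real.log 2 := by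
    have h8 : (1 + d) * (Real.log 2 + 4 * Real.log n ^ 2 / (d * r)) ≤
        (1 + d) * (Real.log 2 + d * Real.log 2) :=
      mul_le_mul_of_nonneg_left (by linarith) (by linarith)
    refine h8.trans ?_
    have h9 : (1 + d) * (Real.log 2 + d * Real.log 2) = (1 + d) ^ 2 * Real.log 2 := by ring
    rw [h9]
    exact mul_le_mul_of_nonneg_right (by nlinarith) hln2.le
  calc (1 + d) * (n.choose r / (n - r + 1)) * (Real.log 2 + 4 * Real.log n ^ 2 / (d * r))
      = ((1 + d) * (Real.log 2 + 4 * Real.log n ^ 2 / (d * r))) *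
        ((n.choose r : ℝ) / (n - r + 1)) := by ring
    _ ≤ ((1 + δ) * Real.log 2) * ((n.choose r : ℝ) / (n - r + 1)) :=
        mul_le_mul_of_nonneg_right hfin hq0
    _ = _ := by ring

end Pool.Agent.H8.VM
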