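import Pool.Agent.H8.VM.A3a_Lower
import Pool.Agent.H8.VM.A3b_Upper
import Pool.Agent.H8.VM.A3c_Small
import Pool.Agent.H8.VM.A3d_Large

/-! Collects the parts of A3_Counts. -/
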