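import Pool.Agent.H8.VM.Defs

/-! MODULE B1 (about 80 lines). Two-step exchange identity.

Proof: a triple `(I, z, (p, p'))` on the left gives `I' = insert p (insert p' I)`, a stable family
(`p`, `p'` addable and nonadjacent), and `z` in `Base n r` whose `I'`-neighbours are exactly
`p` and `p'` (`z` has none in `I`, and `adj r z p`, `adj r z p'`). The triple is recovered from
`(I', z)` and the order of the two neighbours: at most 2 triples per pair `(I', z)`, and there are
`N * s` pairs. -/

open scoped BigOperators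

namespace Pool.Agent.H8.VM

open Pool.Agent.H28.Johnson Pool.Agent.H28.KW Pool.Agent.H28.Windows

private lemma two_facts {n r : ℕ} {I : Finset (Finset (Fin n))} {z p q : Finset (Fin n)}
    (hI : I ∈ stables n r) (hz : z ∈ addable r I)
    (hp : (p, q) ∈ apairs r (addable r I ∩ nbh r z)) :
    insert p (insert q I) ∈ stables n r ∧ z ∈ Base n r ∧
      nbr r (insert p (insert q I)) z = {p, q} ∧ p ≠ q ∧
      I = ((insert p (insert q I)).erase p).erase q := by
  classical
  rw [mem_apairs] at hp
  obtain ⟨⟨hp1, hq1⟩, hne, hnadj⟩ := hp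
  simp only at hp1 hq1 hne hnadj
  rw [Finset.mem_inter] at hp1 hq1
  obtain ⟨hpa, hpz⟩ := hp1
  obtain ⟨hqa, hqz⟩ := hq1
  have hst : insert q I ∈ stables n r := stable_insert hI hqa
  have hpad : p ∈ addable r (insert q I) := by
    rw [mem_addable] at hpa ⊢
    refine ⟨hpa.1, ?_, ?_⟩
    · rw [Finset.mem_insert]
      rintro (h | h)
      · exact hne h
      · exact hpa.2.1 h
    · intro u hu
      rw [Finset.mem_insert] at hu
      rcases hu with rfl | hu
      · exact hnadj
      · exact hpa.2.2 u hu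
  rw [mem_addable] at hz hpa hqa
  rw [mem_nbh] at hpz hqz
  refine ⟨stable_insert hst hpad, hz.1, ?_, hne, ?_⟩
  · ext u
    rw [mem_nbr, Finset.mem_insert, Finset.mem_insert, Finset.mem_insert, Finset.mem_singleton]
    constructor
    · rintro ⟨rfl | rfl | hu, hadj⟩
      · exact Or.inl rfl
      · exact Or.inr rfl
      · exact absurd hadj (hz.2.2 u hu)
    · rintro (rfl | rfl)
      · exact ⟨Or.inl rfl, hpz.2⟩
      · exact ⟨Or.inr (Or.inl rfl), hqz.2⟩
  · have h1 : p ∉ insert q I := by
      rw [mem_addable] at hpad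
      exact hpad.2.1
    rw [Finset.erase_insert h1, Finset.erase_insert hqa.2.1]

theorem two_bound (n r : ℕ) :
    ∑ I ∈ stables n r, ∑ z ∈ addable r I, (apairs r (addable r I ∩ nbh r z)).card ≤
      2 * (n.choose r * (stables n r).card) := by
  classical
  set S : Finset (Σ _ : Finset (Finset (Fin n)), Σ _ : Finset (Fin n),
      Finset (Fin n) × Finset (Fin n)) :=
    (stables n r).sigma (fun I => (addable r I).sigma (fun z => apairs r (addable r I ∩ nbh r z)))
    with hS
  have hcard : ∑ I ∈ stables n r, ∑ z ∈ addable r I, (apairs r (addable r I ∩ nbh r z)).card =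
      S.card := by
    rw [hS, Finset.card_sigma]
    refine Finset.sum_congr rfl fun I _ => ?_
    rw [Finset.card_sigma]
  rw [hcard, ← card_Base n r, mul_comm (Base n r).card, ← Finset.card_product]
  have hmem : ∀ t ∈ S, t.1 ∈ stables n r ∧ t.2.1 ∈ addable r t.1 ∧
      (t.2.2.1, t.2.2.2) ∈ apairs r (addable r t.1 ∩ nbh r t.2.1) := by
    intro t ht
    rw [hS, Finset.mem_sigma, Finset.mem_sigma] at ht
    exact ⟨ht.1, ht.2.1, ht.2.2⟩
  refine Finset.card_le_mul_card_image_of_maps_to
    (f := fun t => (insert t.2.2.1 (insert t.2.2.2 t.1), t.2.1)) ?_ 2 ?_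
  · intro t ht
    obtain ⟨h1, h2, h3⟩ := hmem t ht
    have h := two_facts h1 h2 h3
    rw [Finset.mem_product]
    exact ⟨h.1, h.2.1⟩
  · rintro ⟨J, z⟩ _
    have hinj : Set.InjOn (fun t : (Σ _ : Finset (Finset (Fin n)), Σ _ : Finset (Fin n),
        Finset (Fin n) × Finset (Fin n)) => t.2.2.1)
        (S.filter fun t => (insert t.2.2.1 (insert t.2.2.2 t.1), t.2.1) = (J, z)) := by
      rintro ⟨I, z1, p, q⟩ ht ⟨I', z1', p', q'⟩ ht' heq
      rw [Finset.mem_coe, Finset.mem_filter] at ht ht'
      obtain ⟨htS, hte⟩ := ht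
      obtain ⟨htS', hte'⟩ := ht'
      obtain ⟨a1, a2, a3⟩ := hmem _ htS
      obtain ⟨b1, b2, b3⟩ := hmem _ htS'
      simp only at a1 a2 a3 b1 b2 b3 hte hte' heq
      obtain ⟨-, -, a4, a5, a6⟩ := two_facts a1 a2 a3
      obtain ⟨-, -, b4, b5, b6⟩ := two_facts b1 b2 b3
      rw [Prod.mk.injEq] at hte hte'
      obtain ⟨e1, rfl⟩ := hte
      obtain ⟨e1', rfl⟩ := hte'
      subst heq
      rw [e1] at a4 a6
      rw [e1'] at b4 b6
      have hq : q = q' := by
        have h1 : q ∈ ({p, q'} : Finset (Finset (Fin n))) := by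
          rw [← b4, a4]
          simp
        rw [Finset.mem_insert, Finset.mem_singleton] at h1
        rcases h1 with h1 | h1
        · exact absurd h1.symm a5
        · exact h1
      subst hq
      rw [← b6] at a6
      subst a6
      rfl
    by_cases hne : (S.filter fun t =>
        (insert t.2.2.1 (insert t.2.2.2 t.1), t.2.1) = (J, z)).Nonempty
    · obtain ⟨t0, ht0⟩ := hne
      have hle : (S.filter fun t =>
          (insert t.2.2.1 (insert t.2.2.2 t.1), t.2.1) = (J, z)).card ≤ (nbr r J z).card := by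
        refine Finset.card_le_card_of_injOn _ ?_ hinj
        rintro ⟨I, z1, p, q⟩ ht
        rw [Finset.mem_coe, Finset.mem_filter] at ht
        obtain ⟨htS, hte⟩ := ht
        obtain ⟨a1, a2, a3⟩ := hmem _ htS
        simp only at a1 a2 a3 hte
        obtain ⟨-, -, a4, -, -⟩ := two_facts a1 a2 a3
        rw [Prod.mk.injEq] at hte
        obtain ⟨e1, rfl⟩ := hte
        rw [e1] at a4
        rw [Finset.mem_coe, a4]
        simp
      refine hle.trans ?_
      rw [Finset.mem_filter] at ht0
      obtain ⟨htS, hte⟩ := ht0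
      obtain ⟨a1, a2, a3⟩ := hmem _ htS
      obtain ⟨-, -, a4, -, -⟩ := two_facts a1 a2 a3
      rw [Prod.mk.injEq] at hte
      obtain ⟨e1, rfl⟩ := hte
      rw [e1] at a4
      rw [a4]
      exact Finset.card_le_two
    · rw [Finset.not_nonempty_iff_eq_empty] at hne
      rw [hne]
      simp

end Pool.Agent.H8.VM
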