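import Pool.Agent.H8.VM.B1_Two

/-! MODULE B2 (about 250 lines). Elements lying in two heavy lines are rare.

Write `t_T(I) = (allowL r I T).card`. Facts: (a) `allowL r I T` depends only on the members of `I`
not containing `T`; (b) if `y` is allowed then `put T y I` is stable, contains `g = T + y`, and
`allowL r (put T y I) T = allowL r I T`.
Bad triples `(I, T, y)` (`T` heavy, `y` allowed, not `Good`) are mapped to `(I+, g, T)`,
`I+ = put T y I`: `g` is in `I+`, `T` is contained in `g`, `T` is heavy for `I+` and some other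
`T3` contained in `g` is heavy for `I+`. Given `(I+, g, T)` the family `I` is obtained by changing
the state of the line `T` (empty, or `T + y'` with `y'` allowed): at most `t_T(I+) + 1` choices.
So (number of bad triples) `<= sum_(I+) sum_(g in I+, at least two heavy T below g)
sum_(T heavy below g) (t_T(I+) + 1)`.
For `g` in `I+` let `P = addable r (I+ - g) cap N(g)`. For a line `T` below `g` the sets `T + y'`,
`y'` allowed, `T + y' <> g`, belong to `P` (their only `I+`-neighbour is `g`); there are
`a_T = t_T - 1 >= M - 1 >= 3` of them. Two elements of different lines `g - x + y`, `g - x3 + y3`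
are adjacent iff `y = y3`. Hence the number of ordered nonadjacent pairs of `P` is at least
`sum_(T <> T3 heavy) (a_T a_T3 - min) >= (2/3) sum_(T <> T3) a_T a_T3
>= (2/3) (M-1) sum_T a_T` (at least two heavy lines), while
`sum_T (t_T + 1) = sum_T (a_T + 2) <= (5/3) sum_T a_T`. So
`(M-1) * sum_T (t_T + 1) <= (5/2) * (apairs r P).card`.
Finally `sum_(I+) sum_(g in I+) (apairs r (addable r (I+ - g) cap N(g))).card
= sum_(I0) sum_(g addable) (...) <= 2 N s` by `two_bound` (reindex `(I+, g) <-> (I+ - g, g)`). -/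

open scoped BigOperators

namespace Pool.Agent.H8.VM

open Pool.Agent.H28.Johnson Pool.Agent.H28.KW Pool.Agent.H28.Windows

section B2

variable {n r M : ℕ} {I : Finset (Finset (Fin n))} {T g : Finset (Fin n)} {y : Fin n}

private lemma b2_allow_congr {I I' : Finset (Finset (Fin n))}
    (h : ∀ w, ¬ T ⊆ w → (w ∈ I ↔ w ∈ I')) : allowL r I T = allowL r I' T := by
  ext y
  rw [mem_allowL, mem_allowL]
  constructor
  · rintro ⟨h1, h2⟩
    refine ⟨h1, fun w hw ha => ?_⟩
    by_contra hc
    exact hc (h2 w ((h w hc).2 hw) ha)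
  · rintro ⟨h1, h2⟩
    refine ⟨h1, fun w hw ha => ?_⟩
    by_contra hc
    exact hc (h2 w ((h w hc).1 hw) ha)

private lemma b2_allow_put (T : Finset (Fin n)) (y : Fin n) (I : Finset (Finset (Fin n))) :
    allowL r (put T y I) T = allowL r I T := by
  apply b2_allow_congr
  intro w hw
  rw [mem_put]
  constructor
  · rintro (h | h)
    · exact absurd (h ▸ Finset.subset_insert y T) hw
    · exact h.1
  · intro h
    exact Or.inr ⟨h, hw⟩

private lemma b2_put_stable (hr : 1 ≤ r) (hI : I ∈ stables n r) (hT : T.card = r - 1)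
    (hy : y ∈ allowL r I T) : put T y I ∈ stables n r := by
  rw [mem_allowL] at hy
  rw [mem_stables] at hI ⊢
  refine ⟨?_, ?_⟩
  · intro w hw
    rw [mem_put] at hw
    rcases hw with rfl | hw
    · rw [mem_Base, Finset.card_insert_of_notMem hy.1, hT]
      omega
    · exact hI.1 hw.1
  · intro a ha b hb
    rw [mem_put] at ha hb
    rcases ha with rfl | ha <;> rcases hb with rfl | hb
    · exact adj_irrefl _
    · exact fun h => hb.2 (hy.2 b hb.1 h)
    · exact fun h => ha.2 (hy.2 a ha.1 (adj_symm h))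
    · exact hI.2 a ha.1 b hb.1

private lemma b2_adj_of_line (hr : 1 ≤ r) {u v : Finset (Fin n)} (hT : T.card = r - 1)
    (hu : T ⊆ u) (hv : T ⊆ v) (huv : u ≠ v) : adj r u v := by
  refine ⟨huv, ?_⟩
  have := Finset.card_le_card (Finset.subset_inter hu hv)
  omega

private lemma b2_P (hr : 1 ≤ r) (hI : I ∈ stables n r) (hg : g ∈ I) (hT : T.card = r - 1)
    (hTg : T ⊆ g) (hy : y ∈ allowL r I T) (hyg : y ∉ g) :
    insert y T ∈ addable r (I.erase g) ∩ nbh r g := by
  rw [mem_allowL] at hy
  rw [mem_stables] at hI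
  have hne : g ≠ insert y T := by
    rintro rfl
    exact hyg (Finset.mem_insert_self _ _)
  have hadj : adj r g (insert y T) := b2_adj_of_line hr hT hTg (Finset.subset_insert _ _) hne
  have hB : insert y T ∈ Base n r := by
    rw [mem_Base, Finset.card_insert_of_notMem hy.1, hT]
    omega
  rw [Finset.mem_inter, mem_addable, mem_nbh]
  refine ⟨⟨hB, ?_, ?_⟩, hB, hadj⟩
  · intro h
    exact hI.2 g hg _ (Finset.mem_of_mem_erase h) hadj
  · intro u hu h
    have h1 := hy.2 u (Finset.mem_of_mem_erase hu) h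
    exact hI.2 u (Finset.mem_of_mem_erase hu) g hg
      (b2_adj_of_line hr hT h1 hTg (Finset.ne_of_mem_erase hu))

private lemma b2_recover (hTg : T ⊆ g) (hyg : y ∉ g) : insert y T ∩ g = T := by
  rw [Finset.insert_inter_of_notMem hyg]
  exact Finset.inter_eq_left.2 hTg

private lemma b2_recover_y {T' : Finset (Fin n)} {y' : Fin n} (hTg : T ⊆ g) (hyg : y ∉ g)
    (hTg' : T' ⊆ g) (hyg' : y' ∉ g) (h : insert y T = insert y' T') : T = T' ∧ y = y' := by
  have h1 : T = T' := by
    rw [← b2_recover hTg hyg, h, b2_recover hTg' hyg']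
  refine ⟨h1, ?_⟩
  have h2 : y ∈ insert y' T' := h ▸ Finset.mem_insert_self y T
  rw [Finset.mem_insert] at h2
  rcases h2 with h2 | h2
  · exact h2
  · exact absurd (hTg' h2) hyg

open Classical in
private lemma b2_key (hr : 1 ≤ r) (hM : 4 ≤ M) (hI : I ∈ stables n r) (hg : g ∈ I)
    (h2 : 2 ≤ ((heavyL r M I).filter (· ⊆ g)).card) :
    2 * ((M - 1) * ∑ T ∈ (heavyL r M I).filter (· ⊆ g), ((allowL r I T).card + 1)) ≤
      5 * (apairs r (addable r (I.erase g) ∩ nbh r g)).card := by
  set HB := (heavyL r M I).filter (· ⊆ g) with hHB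
  set A : Finset (Fin n) → Finset (Fin n) := fun T => (allowL r I T).filter (· ∉ g) with hA
  have hgc : g.card = r := mem_Base.1 ((mem_stables.1 hI).1 hg)
  have hHBm : ∀ T ∈ HB, T.card = r - 1 ∧ T ⊆ g ∧ M ≤ (allowL r I T).card := by
    intro T hT
    rw [hHB, Finset.mem_filter, mem_heavyL, mem_Base] at hT
    exact ⟨hT.1.1, hT.2, hT.1.2⟩
  -- the size of A T
  have hAc : ∀ T ∈ HB, (allowL r I T).card ≤ (A T).card + 1 := by
    intro T hT
    obtain ⟨h3, h4, h5⟩ := hHBm T hT
    have h6 : allowL r I T ⊆ A T ∪ (g \ T) := by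
      intro z hz
      rw [Finset.mem_union]
      by_cases hzg : z ∈ g
      · right
        rw [Finset.mem_sdiff]
        exact ⟨hzg, (mem_allowL.1 hz).1⟩
      · left
        rw [hA, Finset.mem_filter]
        exact ⟨hz, hzg⟩
    have h7 := (Finset.card_le_card h6).trans (Finset.card_union_le _ _)
    have h8 : (g \ T).card = 1 := by
      rw [Finset.card_sdiff_of_subset h4, hgc, h3]
      omega
    omega
  -- choice of another line
  have hf : ∀ T ∈ HB, ∃ T3 ∈ HB, T3 ≠ T := by
    intro T hT
    obtain ⟨T3, h3, h4⟩ := Finset.exists_mem_ne (by omega : 1 < HB.card) T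
    exact ⟨T3, h3, h4⟩
  choose! f hf1 hf2 using hf
  set E : Finset (Σ _ : Finset (Fin n), Fin n × Fin n) :=
    HB.sigma fun T => (A T ×ˢ A (f T)).filter fun p => p.2 ≠ p.1 with hE
  have hEcard : (M - 2) * ∑ T ∈ HB, (A T).card ≤ E.card := by
    rw [hE, Finset.card_sigma, Finset.mul_sum]
    refine Finset.sum_le_sum fun T hT => ?_
    have h3 : ((A T ×ˢ A (f T)).filter fun p => p.2 ≠ p.1).card =
        ∑ y ∈ A T, ((A (f T)).filter fun z => z ≠ y).card := by
      rw [Finset.card_filter, Finset.sum_product]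
      refine Finset.sum_congr rfl fun y _ => ?_
      rw [Finset.card_filter]
    rw [h3, mul_comm, ← smul_eq_mul, ← Finset.sum_const]
    refine Finset.sum_le_sum fun y _ => ?_
    have h4 := hAc _ (hf1 T hT)
    have h5 := (hHBm _ (hf1 T hT)).2.2
    have h6 : (A (f T)).card ≤ ((A (f T)).filter fun z => z ≠ y).card + 1 := by
      have h7 : A (f T) ⊆ ((A (f T)).filter fun z => z ≠ y) ∪ {y} := by
        intro z hz
        rw [Finset.mem_union, Finset.mem_filter, Finset.mem_singleton]
        by_cases h : z = y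
        · exact Or.inr h
        · exact Or.inl ⟨hz, h⟩
      have h8 := (Finset.card_le_card h7).trans (Finset.card_union_le _ _)
      simpa using h8
    omega
  have hEm : ∀ (T : Finset (Fin n)) (y z : Fin n), (⟨T, (y, z)⟩ : Σ _ : Finset (Fin n),
      Fin n × Fin n) ∈ E ↔ T ∈ HB ∧ (y ∈ A T ∧ z ∈ A (f T)) ∧ z ≠ y := by
    intro T y z
    simp only [hE, Finset.mem_sigma]
    apply and_congr_right
    intro _
    exact Finset.mem_filter.trans (and_congr_left fun _ => Finset.mem_product)
  have hAm : ∀ (T : Finset (Fin n)) (y : Fin n), y ∈ A T ↔ y ∈ allowL r I T ∧ y ∉ g := by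
    intro T y
    exact Finset.mem_filter
  have hEle : E.card ≤ (apairs r (addable r (I.erase g) ∩ nbh r g)).card := by
    refine Finset.card_le_card_of_injOn
      (fun e => (insert e.2.1 e.1, insert e.2.2 (f e.1))) ?_ ?_
    · rintro ⟨T, y, z⟩ he
      rw [Finset.mem_coe, hEm] at he
      obtain ⟨hT, ⟨hy, hz⟩, hzy⟩ := he
      rw [hAm] at hy hz
      obtain ⟨h3, h4, -⟩ := hHBm T hT
      obtain ⟨h3', h4', -⟩ := hHBm _ (hf1 T hT)
      have h5 := b2_P hr hI hg h3 h4 hy.1 hy.2
      have h6 := b2_P hr hI hg h3' h4' hz.1 hz.2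
      have hTne := hf2 T hT
      rw [Finset.mem_coe, mem_apairs]
      refine ⟨⟨h5, h6⟩, ?_, ?_⟩
      · intro h
        exact hzy (b2_recover_y h4 hy.2 h4' hz.2 h).2.symm
      · intro h
        have h7 : insert y T ∩ insert z (f T) ⊆ T ∩ f T := by
          intro a ha
          rw [Finset.mem_inter, Finset.mem_insert, Finset.mem_insert] at ha
          rw [Finset.mem_inter]
          obtain ⟨h8 | h8, h9 | h9⟩ := ha
          · exact absurd (h9.symm.trans h8) hzy
          · exact absurd (h4' h9) (h8 ▸ hy.2)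
          · exact absurd (h4 h8) (h9 ▸ hz.2)
          · exact ⟨h8, h9⟩
        have h8 := Finset.card_le_card h7
        have h9 : (T ∩ f T).card < T.card := by
          apply Finset.card_lt_card
          rw [Finset.ssubset_iff_subset_ne]
          refine ⟨Finset.inter_subset_left, fun h => ?_⟩
          have h10 : T ⊆ f T := Finset.inter_eq_left.1 h
          exact hTne (Finset.eq_of_subset_of_card_le h10 (by omega)).symm
        have h10 := h.2
        simp only at h10
        omega
    · rintro ⟨T, y, z⟩ he ⟨T', y', z'⟩ he' heq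
      rw [Finset.mem_coe, hEm] at he he'
      obtain ⟨hT, ⟨hy, hz⟩, hzy⟩ := he
      obtain ⟨hT', ⟨hy', hz'⟩, hzy'⟩ := he'
      rw [hAm] at hy hz hy' hz'
      simp only [Prod.mk.injEq] at heq
      obtain ⟨h3, h4, -⟩ := hHBm T hT
      obtain ⟨h3', h4', -⟩ := hHBm T' hT'
      obtain ⟨rfl, rfl⟩ := b2_recover_y h4 hy.2 h4' hy'.2 heq.1
      obtain ⟨-, h5, -⟩ := hHBm _ (hf1 T hT)
      obtain ⟨-, rfl⟩ := b2_recover_y h5 hz.2 h5 hz'.2 heq.2
      rfl
  have hsum : 3 * ∑ T ∈ HB, ((allowL r I T).card + 1) ≤ 5 * ∑ T ∈ HB, (A T).card := by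
    rw [Finset.mul_sum, Finset.mul_sum]
    refine Finset.sum_le_sum fun T hT => ?_
    have h4 := hAc _ hT
    have h5 := (hHBm _ hT).2.2
    omega
  obtain ⟨m, rfl⟩ : ∃ m, M = m + 4 := ⟨M - 4, by omega⟩
  have e1 : m + 4 - 1 = m + 3 := by omega
  have e2 : m + 4 - 2 = m + 2 := by omega
  rw [e2] at hEcard
  rw [e1]
  nlinarith [hEcard.trans hEle, hsum, Nat.zero_le (m * ∑ T ∈ HB, (A T).card),
    Nat.mul_le_mul_left (m + 3) hsum]

open Classical in
/-- the state of the line `T` -/
private noncomputable def b2_state (I : Finset (Finset (Fin n))) (T : Finset (Fin n)) :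
    Option (Fin n) :=
  if h : ∃ z, z ∉ T ∧ insert z T ∈ I then some h.choose else none

private lemma b2_state_spec (hr : 1 ≤ r) (hI : I ∈ stables n r) (hT : T.card = r - 1)
    (w : Finset (Fin n)) :
    w ∈ I ↔ (w ∈ put T y I ∧ ¬ T ⊆ w) ∨ (∃ z, b2_state I T = some z ∧ w = insert z T) := by
  classical
  rw [mem_stables] at hI
  constructor
  · intro hw
    by_cases hTw : T ⊆ w
    · right
      have hwc := mem_Base.1 (hI.1 hw)
      have hd : (w \ T).card = 1 := by
        rw [Finset.card_sdiff_of_subset hTw, hwc, hT]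
        omega
      obtain ⟨a, ha⟩ := Finset.card_eq_one.1 hd
      have haT : a ∉ T := by
        have : a ∈ w \ T := ha ▸ Finset.mem_singleton_self a
        exact (Finset.mem_sdiff.1 this).2
      have hwa : w = insert a T := by
        rw [← Finset.sdiff_union_of_subset hTw, ha]
        rfl
      have hex : ∃ z, z ∉ T ∧ insert z T ∈ I := ⟨a, haT, hwa ▸ hw⟩
      refine ⟨hex.choose, ?_, ?_⟩
      · rw [b2_state, dif_pos hex]
      · by_contra hne
        exact hI.2 w hw _ hex.choose_spec.2
          (b2_adj_of_line hr hT hTw (Finset.subset_insert _ _) hne)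
    · left
      exact ⟨mem_put.2 (Or.inr ⟨hw, hTw⟩), hTw⟩
  · rintro (⟨h1, h2⟩ | ⟨z, h1, rfl⟩)
    · rw [mem_put] at h1
      rcases h1 with rfl | h1
      · exact absurd (Finset.subset_insert _ _) h2
      · exact h1.1
    · rw [b2_state] at h1
      split_ifs at h1 with hex
      · rw [← Option.some_injective _ h1]
        exact hex.choose_spec.2

private lemma b2_state_allowed (hI : I ∈ stables n r) {z : Fin n}
    (h : b2_state I T = some z) : z ∈ allowL r I T := by
  classical
  rw [b2_state] at h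
  split_ifs at h with hex
  rw [← Option.some_injective _ h, mem_allowL]
  refine ⟨hex.choose_spec.1, fun w hw ha => ?_⟩
  exact absurd ha ((mem_stables.1 hI).2 _ hex.choose_spec.2 w hw)

end B2

open Classical in
theorem heavy_bad {n r M : ℕ} (hr : 1 ≤ r) (hM : 4 ≤ M) :
    (M - 1) * ∑ I ∈ stables n r, ∑ T ∈ heavyL r M I,
      ((allowL r I T).filter fun y => ¬ Good r M I T y).card ≤
      5 * (n.choose r * (stables n r).card) := by
  -- the sources
  set src : Finset (Σ _ : Finset (Finset (Fin n)), Σ _ : Finset (Fin n), Fin n) :=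
    (stables n r).sigma fun I => (heavyL r M I).sigma fun T =>
      (allowL r I T).filter fun y => ¬ Good r M I T y with hsrc
  set B : Finset (Finset (Fin n)) → Finset (Fin n) → Finset (Finset (Fin n)) := fun I g =>
    if 2 ≤ ((heavyL r M I).filter (· ⊆ g)).card then (heavyL r M I).filter (· ⊆ g) else ∅ with hB
  set tgt : Finset (Σ _ : Finset (Finset (Fin n)), Σ _ : Finset (Fin n), Σ _ : Finset (Fin n),
      Option (Fin n)) :=
    (stables n r).sigma fun I => I.sigma fun g => (B I g).sigma fun T =>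
      Finset.insertNone (allowL r I T) with htgt
  have hsrc_card : src.card = ∑ I ∈ stables n r, ∑ T ∈ heavyL r M I,
      ((allowL r I T).filter fun y => ¬ Good r M I T y).card := by
    rw [hsrc, Finset.card_sigma]
    refine Finset.sum_congr rfl fun I _ => ?_
    rw [Finset.card_sigma]
  have htgt_card : tgt.card = ∑ I ∈ stables n r, ∑ g ∈ I, ∑ T ∈ B I g,
      ((allowL r I T).card + 1) := by
    rw [htgt, Finset.card_sigma]
    refine Finset.sum_congr rfl fun I _ => ?_
    rw [Finset.card_sigma]
    refine Finset.sum_congr rfl fun g _ => ?_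
    rw [Finset.card_sigma]
    refine Finset.sum_congr rfl fun T _ => ?_
    rw [Finset.card_insertNone]
  have hsrc_mem : ∀ (I : Finset (Finset (Fin n))) (T : Finset (Fin n)) (y : Fin n),
      (⟨I, ⟨T, y⟩⟩ : Σ _ : Finset (Finset (Fin n)), Σ _ : Finset (Fin n), Fin n) ∈ src ↔
        I ∈ stables n r ∧ T ∈ heavyL r M I ∧ y ∈ allowL r I T ∧ ¬ Good r M I T y := by
    intro I T y
    simp only [hsrc, Finset.mem_sigma, Finset.mem_filter]
  have hle : src.card ≤ tgt.card := by
    refine Finset.card_le_card_of_injOn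
      (fun e => ⟨put e.2.1 e.2.2 e.1, ⟨insert e.2.2 e.2.1, ⟨e.2.1, b2_state e.1 e.2.1⟩⟩⟩) ?_ ?_
    · rintro ⟨I, T, y⟩ he
      rw [Finset.mem_coe, hsrc_mem] at he
      obtain ⟨hI, hT, hy, hbad⟩ := he
      have hTc : T.card = r - 1 := mem_Base.1 (mem_heavyL.1 hT).1
      have hTM := (mem_heavyL.1 hT).2
      rw [Finset.mem_coe]
      simp only [htgt, Finset.mem_sigma]
      have hT' : T ∈ heavyL r M (put T y I) := by
        rw [mem_heavyL, b2_allow_put]
        exact ⟨(mem_heavyL.1 hT).1, hTM⟩
      refine ⟨b2_put_stable hr hI hTc hy, mem_put.2 (Or.inl rfl), ?_, ?_⟩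
      · simp only [Good, not_forall] at hbad
        obtain ⟨T3, h3, h4, h5⟩ := hbad
        have h6 : 2 ≤ ((heavyL r M (put T y I)).filter (· ⊆ insert y T)).card := by
          have h7 : ({T3, T} : Finset (Finset (Fin n))) ⊆
              (heavyL r M (put T y I)).filter (· ⊆ insert y T) := by
            intro a ha
            rw [Finset.mem_insert, Finset.mem_singleton] at ha
            rw [Finset.mem_filter]
            rcases ha with rfl | rfl
            · exact ⟨h3, h4⟩
            · exact ⟨hT', Finset.subset_insert _ _⟩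
          have h8 := Finset.card_le_card h7
          rwa [Finset.card_pair h5] at h8
        simp only [hB]
        rw [if_pos h6, Finset.mem_filter]
        exact ⟨hT', Finset.subset_insert _ _⟩
      · rw [b2_allow_put]
        cases hs : b2_state I T with
        | none => exact Finset.none_mem_insertNone
        | some z => exact Finset.some_mem_insertNone.2 (b2_state_allowed hI hs)
    · rintro ⟨I, T, y⟩ he ⟨I', T', y'⟩ he' heq
      rw [Finset.mem_coe, hsrc_mem] at he he'
      obtain ⟨hI, hT, hy, -⟩ := he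
      obtain ⟨hI', hT', hy', -⟩ := he'
      have hTc : T.card = r - 1 := mem_Base.1 (mem_heavyL.1 hT).1
      simp only [Sigma.mk.injEq, heq_eq_eq] at heq
      obtain ⟨h1, h2, h3, h4⟩ := heq
      subst h3
      have hyy : y = y' := by
        have h5 : y ∈ insert y' T := h2 ▸ Finset.mem_insert_self y T
        rw [Finset.mem_insert] at h5
        rcases h5 with h5 | h5
        · exact h5
        · exact absurd h5 (mem_allowL.1 hy).1
      subst hyy
      have hII : I = I' := by
        ext w
        rw [b2_state_spec (y := y) hr hI hTc w, b2_state_spec (y := y) hr hI' hTc w, h1, h4]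
      subst hII
      rfl
  -- the local inequality
  have hloc : ∀ I ∈ stables n r, ∀ g ∈ I, 2 * ((M - 1) * ∑ T ∈ B I g, ((allowL r I T).card + 1)) ≤
      5 * (apairs r (addable r (I.erase g) ∩ nbh r g)).card := by
    intro I hI g hg
    simp only [hB]
    split_ifs with h
    · exact b2_key hr hM hI hg h
    · simp
  -- reindexing
  have hre : ∑ I ∈ stables n r, ∑ g ∈ I, (apairs r (addable r (I.erase g) ∩ nbh r g)).card =
      ∑ I ∈ stables n r, ∑ z ∈ addable r I, (apairs r (addable r I ∩ nbh r z)).card := by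
    rw [Finset.sum_sigma', Finset.sum_sigma']
    refine Finset.sum_bij' (fun p _ => ⟨p.1.erase p.2, p.2⟩) (fun p _ => ⟨insert p.2 p.1, p.2⟩)
      ?_ ?_ ?_ ?_ ?_
    · rintro ⟨I, g⟩ h
      simp only [Finset.mem_sigma] at h ⊢
      exact ⟨stable_erase h.1 g, mem_addable_erase h.1 h.2⟩
    · rintro ⟨I, z⟩ h
      simp only [Finset.mem_sigma] at h ⊢
      exact ⟨stable_insert h.1 h.2, Finset.mem_insert_self _ _⟩
    · rintro ⟨I, g⟩ h
      simp only [Finset.mem_sigma] at h
      simp only
      rw [Finset.insert_erase h.2]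
    · rintro ⟨I, z⟩ h
      simp only [Finset.mem_sigma] at h
      simp only
      rw [Finset.erase_insert (mem_addable.1 h.2).2.1]
    · rintro ⟨I, g⟩ h
      rfl
  have htwo := two_bound n r
  rw [← hre] at htwo
  have h5 : 2 * ((M - 1) * tgt.card) ≤ 5 * ∑ I ∈ stables n r, ∑ g ∈ I,
      (apairs r (addable r (I.erase g) ∩ nbh r g)).card := by
    rw [htgt_card, Finset.mul_sum, Finset.mul_sum, Finset.mul_sum]
    refine Finset.sum_le_sum fun I hI => ?_
    rw [Finset.mul_sum, Finset.mul_sum, Finset.mul_sum]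
    exact Finset.sum_le_sum fun g hg => hloc I hI g hg
  rw [← hsrc_card]
  have h6 : (M - 1) * src.card ≤ (M - 1) * tgt.card := Nat.mul_le_mul_left _ hle
  omega

end Pool.Agent.H8.VM
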