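import Pool.Agent.H8.VM.Defs

/-! MODULE B3 (about 250 lines). Pairs of good triples at the same `T'`.

For `I` stable and an `(r-1)`-set `T'` call `(a, y)` admissible if it is counted by
`hcount r M I T'`: `a` not in `T'`, `y` in `T'`, `g = T' + a`, `T = g - y` heavy for `I`, `y`
allowed for `T` (so `T + y = g`), `(T, y)` good.
(1) `a` determines `y`: if `(a, y1)`, `(a, y2)` are admissible, `y1 <> y2`, then
`T1 = g - y1 <> T2 = g - y2`; `I+ = put T1 y1 I`; members of `I+` not containing `T2` are members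
of `I` (the new one is `g`, which contains `T2`), so `allowL r I T2` is contained in
`allowL r I+ T2` and `T2` is heavy for `I+`, contained in `g = insert y1 T1`: contradiction to
`Good` at `(T1, y1)`.
(2) For an ordered pair of different admissible `(a1, y1)`, `(a2, y2)` (so `a1 <> a2`) put
`g1 = T' + a1`, `g2 = T' + a2`, `I+ = put T1 y1 I` (stable). Then
 (i) `T2` is in `heavyL r (M-2) I+`: every `y` in `allowL r I T2` with `y <> y2`, `y <> a1` is in
 `allowL r I+ T2`, because a member `w` of `I+` adjacent to `T2 + y` is in `I` (then it contains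
 `T2`) or is `g1`; but `g1 = T' + a1` and `T2 + y = T' + a2 - y2 + y` meet only in `T' - y2`
 (`r - 2` elements), so they are not adjacent.
 (ii) `g1` is the unique `w` in `I+` adjacent to `g2 = insert y2 T2` and not containing `T2`
 (`y2` is allowed for `T2` in `I`, so members of `I` adjacent to `g2` contain `T2`; `a2` is in
 `T2` and not in `g1`).
 Hence `(I+, T2, y2)` determines `g1`, then `T' = g1 cap g2`, `a1`, `a2`, `T1` (the only heavy
 line of `I+` below `g1`, by goodness; `T1` is heavy for `I+`), `y1`. Given these, `I` is `I+`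
 with the state of the line `T1` changed: at most `t_(T1) + 1 <= n - r + 2` possibilities.
 For fixed `I+` and `T2` there are at most `n - r + 1` values of `y2` (elements outside `T2`).
By (1), `hcount * (hcount - 1)` is the number of ordered pairs of different admissible pairs, all
with `a1 <> a2`. -/

open scoped BigOperators

namespace Pool.Agent.H8.VM

open Pool.Agent.H28.Johnson Pool.Agent.H28.KW Pool.Agent.H28.Windows

namespace B3

variable {n : ℕ}

/-- the line of an admissible pair -/
def ln (T' : Finset (Fin n)) (p : Fin n × Fin n) : Finset (Fin n) := (insert p.1 T').erase p.2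

open Classical in
/-- admissible pairs -/
noncomputable def Adm (r M : ℕ) (I : Finset (Finset (Fin n))) (T' : Finset (Fin n)) :
    Finset (Fin n × Fin n) :=
  (T'ᶜ ×ˢ T').filter fun p => ((insert p.1 T').erase p.2) ∈ heavyL r M I ∧
    p.2 ∈ allowL r I ((insert p.1 T').erase p.2) ∧
    Good r M I ((insert p.1 T').erase p.2) p.2

lemma mem_Adm {r M : ℕ} {I : Finset (Finset (Fin n))} {T' : Finset (Fin n)} {p : Fin n × Fin n} :
    p ∈ Adm r M I T' ↔ (p.1 ∉ T' ∧ p.2 ∈ T') ∧ ln T' p ∈ heavyL r M I ∧
      p.2 ∈ allowL r I (ln T' p) ∧ Good r M I (ln T' p) p.2 := by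
  classical
  rw [Adm, Finset.mem_filter, Finset.mem_product, Finset.mem_compl]
  rfl

lemma insert_ln {T' : Finset (Fin n)} {p : Fin n × Fin n} (h2 : p.2 ∈ T') :
    insert p.2 (ln T' p) = insert p.1 T' := by
  unfold ln
  exact Finset.insert_erase (Finset.mem_insert_of_mem h2)

lemma notMem_ln (T' : Finset (Fin n)) (p : Fin n × Fin n) : p.2 ∉ ln T' p :=
  Finset.notMem_erase _ _

/-- changing the state of a line to an allowed one keeps stability -/
lemma put_stable {r : ℕ} (hr : 1 ≤ r) {I : Finset (Finset (Fin n))} (hI : I ∈ stables n r)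
    {T : Finset (Fin n)} (hT : T ∈ Base n (r - 1)) {y : Fin n} (hy : y ∈ allowL r I T) :
    put T y I ∈ stables n r := by
  rw [mem_allowL] at hy
  rw [mem_stables] at hI ⊢
  have hTc := mem_Base.mp hT
  refine ⟨?_, ?_⟩
  · intro w hw
    rw [mem_put] at hw
    rcases hw with rfl | hw
    · rw [mem_Base, Finset.card_insert_of_notMem hy.1, hTc]
      omega
    · exact hI.1 hw.1
  · intro a ha b hb
    rw [mem_put] at ha hb
    rcases ha with rfl | ha <;> rcases hb with rfl | hb
    · exact adj_irrefl _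
    · exact fun h => hb.2 (hy.2 b hb.1 h)
    · exact fun h => ha.2 (hy.2 a ha.1 (adj_symm h))
    · exact hI.2 a ha.1 b hb.1

/-- a line contained in the new member stays heavy -/
lemma heavy_put {r M : ℕ} {I : Finset (Finset (Fin n))} {T T2 : Finset (Fin n)} {y : Fin n}
    (hT2 : T2 ∈ heavyL r M I) (hsub : T2 ⊆ insert y T) : T2 ∈ heavyL r M (put T y I) := by
  rw [mem_heavyL] at hT2 ⊢
  refine ⟨hT2.1, hT2.2.trans (Finset.card_le_card ?_)⟩
  intro z hz
  rw [mem_allowL] at hz ⊢
  refine ⟨hz.1, fun w hw hadj => ?_⟩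
  rw [mem_put] at hw
  rcases hw with rfl | hw
  · exact hsub
  · exact hz.2 w hw.1 hadj

/-- `a` determines `y` -/
lemma snd_unique {r M : ℕ} {I : Finset (Finset (Fin n))} {T' : Finset (Fin n)}
    {p q : Fin n × Fin n} (hp : p ∈ Adm r M I T') (hq : q ∈ Adm r M I T') (h : p.1 = q.1) :
    p = q := by
  rw [mem_Adm] at hp hq
  have hsub : ln T' q ⊆ insert p.2 (ln T' p) := by
    rw [insert_ln hp.1.2, h]
    exact Finset.erase_subset _ _
  have h1 := hp.2.2.2 (ln T' q) (heavy_put hq.2.1 hsub) hsub
  have h2 : p.2 = q.2 := by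
    by_contra hne
    have h3 : p.2 ∈ ln T' q := by
      unfold ln
      rw [Finset.mem_erase]
      exact ⟨hne, Finset.mem_insert_of_mem hp.1.2⟩
    rw [h1] at h3
    exact notMem_ln _ _ h3
  exact Prod.ext h h2

/-- data of a pair of different admissible pairs -/
structure Pr (r M : ℕ) (I : Finset (Finset (Fin n))) (T' : Finset (Fin n))
    (p q : Fin n × Fin n) : Prop where
  hI : I ∈ stables n r
  hT : T' ∈ Base n (r - 1)
  hp : p ∈ Adm r M I T'
  hq : q ∈ Adm r M I T'
  hne : p.1 ≠ q.1

section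
variable {r M : ℕ} {I : Finset (Finset (Fin n))} {T' : Finset (Fin n)} {p q : Fin n × Fin n}

lemma Pr.put_stable (hr : 1 ≤ r) (h : Pr r M I T' p q) : put (ln T' p) p.2 I ∈ stables n r := by
  have hp := mem_Adm.mp h.hp
  exact B3.put_stable hr h.hI (mem_heavyL.mp hp.2.1).1 hp.2.2.1

lemma Pr.heavy (hr : 2 ≤ r) (h : Pr r M I T' p q) :
    ln T' q ∈ heavyL r (M - 2) (put (ln T' p) p.2 I) := by
  classical
  have hp := mem_Adm.mp h.hp
  have hq := mem_Adm.mp h.hq
  have hTc := mem_Base.mp h.hT
  have hH := mem_heavyL.mp hq.2.1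
  rw [mem_heavyL]
  refine ⟨hH.1, ?_⟩
  have hsub : ((allowL r I (ln T' q)).erase q.2).erase p.1 ⊆
      allowL r (put (ln T' p) p.2 I) (ln T' q) := by
    intro y hy
    rw [Finset.mem_erase, Finset.mem_erase] at hy
    obtain ⟨hy1, hy2, hy3⟩ := hy
    rw [mem_allowL] at hy3 ⊢
    refine ⟨hy3.1, fun w hw hadj => ?_⟩
    rw [mem_put] at hw
    rcases hw with rfl | hw
    · exfalso
      rw [insert_ln hp.1.2] at hadj
      have hcard := hadj.2
      have h1 : insert y (ln T' q) ∩ insert p.1 T' ⊆ T'.erase q.2 := by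
        intro z hz
        rw [Finset.mem_inter, Finset.mem_insert, Finset.mem_insert] at hz
        obtain ⟨hz1, hz2⟩ := hz
        have hyT : y ∉ T' := by
          intro hyT
          apply hy3.1
          unfold ln
          rw [Finset.mem_erase]
          exact ⟨hy2, Finset.mem_insert_of_mem hyT⟩
        rcases hz1 with rfl | hz1
        · rcases hz2 with hz2 | hz2
          · exact absurd hz2 hy1
          · exact absurd hz2 hyT
        · unfold ln at hz1
          rw [Finset.mem_erase, Finset.mem_insert] at hz1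
          rw [Finset.mem_erase]
          refine ⟨hz1.1, ?_⟩
          rcases hz1.2 with hz3 | hz3
          · rcases hz2 with hz2 | hz2
            · exact absurd (hz2.symm.trans hz3) h.hne
            · exact hz2
          · exact hz3
      have h2 := Finset.card_le_card h1
      rw [Finset.card_erase_of_mem hq.1.2, hTc] at h2
      omega
    · exact hy3.2 w hw.1 hadj
  have h1 := Finset.card_le_card hsub
  have h2 := Finset.pred_card_le_card_erase (s := (allowL r I (ln T' q)).erase q.2) (a := p.1)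
  have h3 := Finset.pred_card_le_card_erase (s := allowL r I (ln T' q)) (a := q.2)
  have h4 := hH.2
  omega

lemma Pr.mem_g1 (h : Pr r M I T' p q) : insert p.1 T' ∈ put (ln T' p) p.2 I := by
  have hp := mem_Adm.mp h.hp
  rw [mem_put, insert_ln hp.1.2]
  exact Or.inl rfl

lemma Pr.adj_g1 (hr : 1 ≤ r) (h : Pr r M I T' p q) :
    adj r (insert q.2 (ln T' q)) (insert p.1 T') := by
  have hp := mem_Adm.mp h.hp
  have hq := mem_Adm.mp h.hq
  rw [insert_ln hq.1.2]
  exact adj_insert (by rw [mem_Base.mp h.hT]; omega) hq.1.1 hp.1.1 h.hne.symm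

lemma Pr.not_sub (h : Pr r M I T' p q) : ¬ ln T' q ⊆ insert p.1 T' := by
  have hq := mem_Adm.mp h.hq
  intro hsub
  have h1 : q.1 ∈ ln T' q := by
    unfold ln
    rw [Finset.mem_erase]
    refine ⟨?_, Finset.mem_insert_self _ _⟩
    intro he
    exact hq.1.1 (he ▸ hq.1.2)
  have h2 := hsub h1
  rw [Finset.mem_insert] at h2
  rcases h2 with h2 | h2
  · exact h.hne h2.symm
  · exact hq.1.1 h2

lemma Pr.unique (h : Pr r M I T' p q) {w : Finset (Fin n)} (hw : w ∈ put (ln T' p) p.2 I)
    (hadj : adj r (insert q.2 (ln T' q)) w) (hsub : ¬ ln T' q ⊆ w) : w = insert p.1 T' := by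
  have hp := mem_Adm.mp h.hp
  have hq := mem_Adm.mp h.hq
  rw [mem_put, insert_ln hp.1.2] at hw
  rcases hw with hw | hw
  · exact hw
  · exact absurd ((mem_allowL.mp hq.2.2.1).2 w hw.1 hadj) hsub

lemma Pr.line_heavy (h : Pr r M I T' p q) : ln T' p ∈ heavyL r M (put (ln T' p) p.2 I) :=
  heavy_put (mem_Adm.mp h.hp).2.1 (Finset.subset_insert _ _)

end

/-- everything is determined by `(J, T2, y2)` except the state of the line -/
lemma Pr.determined {r M : ℕ} (hr : 1 ≤ r) {I I' : Finset (Finset (Fin n))}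
    {T' T'' : Finset (Fin n)} {p q p' q' : Fin n × Fin n}
    (h : Pr r M I T' p q) (h' : Pr r M I' T'' p' q')
    (hJ : put (ln T'' p') p'.2 I' = put (ln T' p) p.2 I) (hT : ln T'' q' = ln T' q)
    (hy : q'.2 = q.2) : T'' = T' ∧ p' = p ∧ q' = q := by
  have hp := mem_Adm.mp h.hp
  have hq := mem_Adm.mp h.hq
  have hp' := mem_Adm.mp h'.hp
  have hq' := mem_Adm.mp h'.hq
  -- the set `g1`
  have hg1 : insert p'.1 T'' = insert p.1 T' := by
    refine h.unique (hJ ▸ h'.mem_g1) ?_ ?_
    · rw [← hT, ← hy]; exact h'.adj_g1 hr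
    · rw [← hT]; exact h'.not_sub
  have hg2 : insert q'.1 T'' = insert q.1 T' := by
    rw [← insert_ln hq'.1.2, ← insert_ln hq.1.2, hT, hy]
  have hT' : T'' = T' := by
    have e1 : insert p.1 T' ∩ insert q.1 T' = T' := by
      ext z
      simp only [Finset.mem_inter, Finset.mem_insert]
      constructor
      · rintro ⟨h1 | h1, h2 | h2⟩
        · exact absurd (h1.symm.trans h2) h.hne
        · exact h2
        · exact h1
        · exact h1
      · intro h1; exact ⟨Or.inr h1, Or.inr h1⟩
    have e2 : insert p'.1 T'' ∩ insert q'.1 T'' = T'' := by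
      ext z
      simp only [Finset.mem_inter, Finset.mem_insert]
      constructor
      · rintro ⟨h1 | h1, h2 | h2⟩
        · exact absurd (h1.symm.trans h2) h'.hne
        · exact h2
        · exact h1
        · exact h1
      · intro h1; exact ⟨Or.inr h1, Or.inr h1⟩
    rw [← e1, ← e2, hg1, hg2]
  subst hT'
  have hp1 : p'.1 = p.1 := by
    have : p'.1 ∈ insert p.1 T'' := hg1 ▸ Finset.mem_insert_self _ _
    rw [Finset.mem_insert] at this
    rcases this with h1 | h1
    · exact h1
    · exact absurd h1 hp'.1.1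
  have hq1 : q'.1 = q.1 := by
    have : q'.1 ∈ insert q.1 T'' := hg2 ▸ Finset.mem_insert_self _ _
    rw [Finset.mem_insert] at this
    rcases this with h1 | h1
    · exact h1
    · exact absurd h1 hq'.1.1
  -- the line `T1`
  have hT1 : ln T'' p' = ln T'' p := by
    have h1 : ln T'' p' ∈ heavyL r M (put (ln T'' p) p.2 I) := hJ ▸ h'.line_heavy
    refine hp.2.2.2 _ h1 ?_
    rw [insert_ln hp.1.2, ← hp1]
    exact Finset.erase_subset _ _
  have hp2 : p'.2 = p.2 := by
    by_contra hne
    have h3 : p'.2 ∈ ln T'' p := by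
      unfold ln
      rw [Finset.mem_erase]
      exact ⟨hne, Finset.mem_insert_of_mem hp'.1.2⟩
    rw [← hT1] at h3
    exact notMem_ln _ _ h3
  exact ⟨rfl, Prod.ext hp1 hp2, Prod.ext hq1 hy⟩

open Classical in
/-- the possible states of a line -/
noncomputable def states (T : Finset (Fin n)) : Finset (Finset (Finset (Fin n))) :=
  insert ∅ (Tᶜ.image fun y => {insert y T})

lemma card_states {r : ℕ} {T : Finset (Fin n)} (hT : T ∈ Base n (r - 1)) (hr : 1 ≤ r)
    (hrn : r ≤ n) : (states T).card ≤ n - r + 2 := by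
  classical
  unfold states
  refine (Finset.card_insert_le _ _).trans ?_
  have h1 := Finset.card_image_le (s := Tᶜ) (f := fun y => ({insert y T} : Finset (Finset (Fin n))))
  rw [Finset.card_compl, mem_Base.mp hT, Fintype.card_fin] at h1
  omega

open Classical in
lemma state_mem {r : ℕ} (hr : 1 ≤ r) {T : Finset (Fin n)} (hT : T ∈ Base n (r - 1))
    {I : Finset (Finset (Fin n))} (hI : I ∈ stables n r) :
    I.filter (fun w => T ⊆ w) ∈ states T := by
  rw [mem_stables] at hI
  unfold states
  rw [Finset.mem_insert, Finset.mem_image]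
  by_cases hem : I.filter (fun w => T ⊆ w) = ∅
  · exact Or.inl hem
  · right
    obtain ⟨w, hw⟩ := Finset.nonempty_iff_ne_empty.mpr hem
    rw [Finset.mem_filter] at hw
    have hTc := mem_Base.mp hT
    have key : ∀ v ∈ I, T ⊆ v → ∃ y, y ∉ T ∧ v = insert y T := by
      intro v hv hTv
      have hvc := mem_Base.mp (hI.1 hv)
      have h1 : (v \ T).card = 1 := by
        rw [Finset.card_sdiff_of_subset hTv]; omega
      obtain ⟨y, hy⟩ := Finset.card_eq_one.mp h1
      refine ⟨y, ?_, ?_⟩
      · have : y ∈ v \ T := hy ▸ Finset.mem_singleton_self y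
        exact (Finset.mem_sdiff.mp this).2
      · rw [← Finset.sdiff_union_of_subset hTv, hy]
        rfl
    obtain ⟨y, hy, hwy⟩ := key w hw.1 hw.2
    refine ⟨y, Finset.mem_compl.mpr hy, ?_⟩
    rw [← hwy]
    symm
    rw [Finset.eq_singleton_iff_unique_mem]
    refine ⟨Finset.mem_filter.mpr hw, fun v hv => ?_⟩
    rw [Finset.mem_filter] at hv
    obtain ⟨z, hz, hvz⟩ := key v hv.1 hv.2
    by_contra hne
    have hyz : y ≠ z := by
      rintro rfl
      exact hne (hvz.trans hwy.symm)
    have := adj_insert (r := r) (by omega) hy hz hyz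
    rw [← hwy, ← hvz] at this
    exact hI.2 w hw.1 v hv.1 this

end B3

theorem heavy_pairs {n r M : ℕ} (hr : 2 ≤ r) (hrn : r ≤ n) (hM : 2 ≤ M) :
    ∑ I ∈ stables n r, ∑ T' ∈ Base n (r - 1), hcount r M I T' * (hcount r M I T' - 1) ≤
      (n - r + 1) * (n - r + 2) * ∑ I ∈ stables n r, (heavyL r (M - 2) I).card := by
  classical
  set X : Finset (Σ _ : Finset (Finset (Fin n)), Σ _ : Finset (Fin n),
      (Fin n × Fin n) × (Fin n × Fin n)) :=
    (stables n r).sigma fun I => (Base n (r - 1)).sigma fun T' => (B3.Adm r M I T').offDiag with hX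
  set Y : Finset (Σ _ : Finset (Finset (Fin n)), Σ _ : Finset (Fin n), Fin n) :=
    (stables n r).sigma fun J => (heavyL r (M - 2) J).sigma fun T2 => T2ᶜ with hY
  have hXcard : X.card =
      ∑ I ∈ stables n r, ∑ T' ∈ Base n (r - 1), hcount r M I T' * (hcount r M I T' - 1) := by
    rw [hX, Finset.card_sigma]
    refine Finset.sum_congr rfl fun I _ => ?_
    rw [Finset.card_sigma]
    refine Finset.sum_congr rfl fun T' _ => ?_
    rw [Finset.offDiag_card, Nat.mul_sub_one]
    rfl
  have hYcard : Y.card ≤ (n - r + 1) * ∑ I ∈ stables n r, (heavyL r (M - 2) I).card := by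
    rw [hY, Finset.card_sigma, Finset.mul_sum]
    refine Finset.sum_le_sum fun J _ => ?_
    rw [Finset.card_sigma]
    rw [mul_comm, ← smul_eq_mul]
    refine Finset.sum_le_card_nsmul _ _ _ fun T2 hT2 => ?_
    rw [Finset.card_compl, mem_Base.mp (mem_heavyL.mp hT2).1, Fintype.card_fin]
    omega
  have hPr : ∀ x ∈ X, B3.Pr r M x.1 x.2.1 x.2.2.1 x.2.2.2 := by
    intro x hx
    rw [hX, Finset.mem_sigma, Finset.mem_sigma, Finset.mem_offDiag] at hx
    exact ⟨hx.1, hx.2.1, hx.2.2.1, hx.2.2.2.1,
      fun h => hx.2.2.2.2 (B3.snd_unique hx.2.2.1 hx.2.2.2.1 h)⟩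
  let f : (Σ _ : Finset (Finset (Fin n)), Σ _ : Finset (Fin n),
      (Fin n × Fin n) × (Fin n × Fin n)) →
      (Σ _ : Finset (Finset (Fin n)), Σ _ : Finset (Fin n), Fin n) := fun x =>
    ⟨put (B3.ln x.2.1 x.2.2.1) x.2.2.1.2 x.1, B3.ln x.2.1 x.2.2.2, x.2.2.2.2⟩
  have hmap : ∀ x ∈ X, f x ∈ Y := by
    intro x hx
    have h := hPr x hx
    rw [hY, Finset.mem_sigma, Finset.mem_sigma, Finset.mem_compl]
    exact ⟨h.put_stable (by omega), h.heavy hr, B3.notMem_ln _ _⟩
  have hfib : ∀ b ∈ Y, (X.filter fun x => f x = b).card ≤ n - r + 2 := by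
    intro b _
    rcases Finset.eq_empty_or_nonempty (X.filter fun x => f x = b) with he | ⟨x₀, hx₀⟩
    · rw [he]; simp
    · rw [Finset.mem_filter] at hx₀
      have h₀ := hPr x₀ hx₀.1
      have hp₀ := B3.mem_Adm.mp h₀.hp
      set T1 := B3.ln x₀.2.1 x₀.2.2.1 with hT1
      have hT1B : T1 ∈ Base n (r - 1) := (mem_heavyL.mp hp₀.2.1).1
      have hdet : ∀ x ∈ X.filter (fun x => f x = b), x.2 = x₀.2 ∧
          put T1 x₀.2.2.1.2 x.1 = put T1 x₀.2.2.1.2 x₀.1 := by
        intro x hx
        rw [Finset.mem_filter] at hx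
        have h := hPr x hx.1
        have hff : f x = f x₀ := hx.2.trans hx₀.2.symm
        have e1 : put (B3.ln x.2.1 x.2.2.1) x.2.2.1.2 x.1 =
            put (B3.ln x₀.2.1 x₀.2.2.1) x₀.2.2.1.2 x₀.1 := congrArg Sigma.fst hff
        have e2 : B3.ln x.2.1 x.2.2.2 = B3.ln x₀.2.1 x₀.2.2.2 :=
          congrArg (fun z => z.2.1) hff
        have e3 : x.2.2.2.2 = x₀.2.2.2.2 := congrArg (fun z => z.2.2) hff
        obtain ⟨d1, d2, d3⟩ := B3.Pr.determined (by omega) h₀ h e1 e2 e3
        have hx2 : x.2 = x₀.2 := by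
          obtain ⟨xI, xT, xp, xq⟩ := x
          obtain ⟨yI, yT, yp, yq⟩ := x₀
          simp only at d1 d2 d3 ⊢
          subst d1 d2 d3
          rfl
        refine ⟨hx2, ?_⟩
        rw [hx2] at e1
        exact e1
      refine (Finset.card_le_card_of_injOn (fun x => x.1.filter fun w => T1 ⊆ w) ?_ ?_).trans
        (B3.card_states hT1B (by omega) hrn)
      · intro x hx
        have hx' := Finset.mem_filter.mp (Finset.mem_coe.mp hx)
        exact B3.state_mem (by omega) hT1B (hPr x hx'.1).hI
      · intro x hx x' hx' hxx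
        obtain ⟨a1, a2⟩ := hdet x (Finset.mem_coe.mp hx)
        obtain ⟨b1, b2⟩ := hdet x' (Finset.mem_coe.mp hx')
        have hI : x.1 = x'.1 := by
          ext w
          by_cases hw : T1 ⊆ w
          · have h1 := Finset.ext_iff.mp hxx w
            simp only [Finset.mem_filter, hw, and_true] at h1
            exact h1
          · have h1 := Finset.ext_iff.mp (a2.trans b2.symm) w
            rw [mem_put, mem_put] at h1
            have h2 : w ≠ insert x₀.2.2.1.2 T1 := by
              rintro rfl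
              exact hw (Finset.subset_insert _ _)
            simp only [h2, false_or, hw, not_false_eq_true, and_true] at h1
            exact h1
        have h2 : x.2 = x'.2 := a1.trans b1.symm
        obtain ⟨xI, xr⟩ := x
        obtain ⟨yI, yr⟩ := x'
        simp only at hI h2
        subst hI h2
        rfl
  rw [← hXcard]
  calc X.card ≤ (n - r + 2) * Y.card := Finset.card_le_mul_card_image_of_maps_to hmap _ hfib
    _ ≤ (n - r + 2) * ((n - r + 1) * ∑ I ∈ stables n r, (heavyL r (M - 2) I).card) :=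
        Nat.mul_le_mul_left _ hYcard
    _ = (n - r + 1) * (n - r + 2) * ∑ I ∈ stables n r, (heavyL r (M - 2) I).card := by ring

end Pool.Agent.H8.VM
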