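import Pool.Agent.H8.VM.Defs

/-! MODULE B4 (about 70 lines). Double counting: `(T, y, a)` with `T` heavy, `y` allowed and good,
`a` in `T` corresponds to `T' = (insert y T).erase a` and the pair `(a, y)` of `hcount`
(inverse: `T = (insert a T').erase y`). Each `T` has `r - 1` elements `a`. -/

open scoped BigOperators

namespace Pool.Agent.H8.VM

open Pool.Agent.H28.Johnson Pool.Agent.H28.KW Pool.Agent.H28.Windows

private lemma hf_swap {n : ℕ} {T' : Finset (Fin n)} {a y : Fin n} (ha : a ∉ T') (hy : y ∈ T') :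
    (insert y ((insert a T').erase y)).erase a = T' := by
  have h1 : insert y ((insert a T').erase y) = insert a T' :=
    Finset.insert_erase (Finset.mem_insert_of_mem hy)
  rw [h1, Finset.erase_insert ha]

open Classical in
theorem heavy_first {n r M : ℕ} (hr : 1 ≤ r) (I : Finset (Finset (Fin n))) :
    ∑ T' ∈ Base n (r - 1), hcount r M I T' =
      (r - 1) * ∑ T ∈ heavyL r M I, ((allowL r I T).filter fun y => Good r M I T y).card := by
  have hR : (r - 1) * ∑ T ∈ heavyL r M I, ((allowL r I T).filter fun y => Good r M I T y).card =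
      ∑ T ∈ heavyL r M I,
        (T ×ˢ ((allowL r I T).filter fun y => Good r M I T y)).card := by
    rw [Finset.mul_sum]
    refine Finset.sum_congr rfl fun T hT => ?_
    rw [mem_heavyL] at hT
    rw [Finset.card_product, mem_Base.mp hT.1]
  rw [hR, ← Finset.card_sigma]
  have hL : ∑ T' ∈ Base n (r - 1), hcount r M I T' =
      ((Base n (r - 1)).sigma fun T' =>
        (T'ᶜ ×ˢ T').filter fun p => ((insert p.1 T').erase p.2) ∈ heavyL r M I ∧
        p.2 ∈ allowL r I ((insert p.1 T').erase p.2) ∧
        Good r M I ((insert p.1 T').erase p.2) p.2).card := by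
    rw [Finset.card_sigma]
    rfl
  rw [hL]
  refine Finset.card_bij' (fun t _ => ⟨(insert t.2.1 t.1).erase t.2.2, t.2⟩)
    (fun t _ => ⟨(insert t.2.2 t.1).erase t.2.1, t.2⟩) ?_ ?_ ?_ ?_
  · rintro ⟨T', a, y⟩ ht
    rw [Finset.mem_sigma, Finset.mem_filter, Finset.mem_product, Finset.mem_compl] at ht
    obtain ⟨h1, ⟨ha, hy⟩, hh, hal, hg⟩ := ht
    simp only at h1 ha hy hh hal hg
    rw [Finset.mem_sigma, Finset.mem_product, Finset.mem_filter]
    refine ⟨hh, ?_, hal, hg⟩
    have hay : a ≠ y := by
      rintro rfl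
      exact ha hy
    exact Finset.mem_erase.mpr ⟨hay, Finset.mem_insert_self _ _⟩
  · rintro ⟨T, a, y⟩ ht
    rw [Finset.mem_sigma, Finset.mem_product, Finset.mem_filter] at ht
    obtain ⟨h1, ha, hal, hg⟩ := ht
    simp only at h1 ha hal hg
    have hyT : y ∉ T := (mem_allowL.mp hal).1
    have hay : a ≠ y := by
      rintro rfl
      exact hyT ha
    have hTT : (insert a ((insert y T).erase a)).erase y = T := hf_swap hyT ha
    rw [Finset.mem_sigma, Finset.mem_filter, Finset.mem_product, Finset.mem_compl]
    refine ⟨?_, ⟨?_, ?_⟩, ?_, ?_, ?_⟩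
    · simp only
      rw [mem_Base]
      have h2 := mem_Base.mp (mem_heavyL.mp h1).1
      rw [Finset.card_erase_of_mem (Finset.mem_insert_of_mem ha), Finset.card_insert_of_notMem hyT,
        h2]
      omega
    · simp only
      exact Finset.notMem_erase _ _
    · simp only
      exact Finset.mem_erase.mpr ⟨fun h => hay h.symm, Finset.mem_insert_self _ _⟩
    · simp only
      rw [hTT]
      exact h1
    · simp only
      rw [hTT]
      exact hal
    · simp only
      rw [hTT]
      exact hg
  · rintro ⟨T', a, y⟩ ht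
    rw [Finset.mem_sigma, Finset.mem_filter, Finset.mem_product, Finset.mem_compl] at ht
    obtain ⟨h1, ⟨ha, hy⟩, -⟩ := ht
    simp only at h1 ha hy
    simp only [hf_swap ha hy]
  · rintro ⟨T, a, y⟩ ht
    rw [Finset.mem_sigma, Finset.mem_product, Finset.mem_filter] at ht
    obtain ⟨h1, ha, hal, hg⟩ := ht
    simp only at h1 ha hal hg
    have hyT : y ∉ T := (mem_allowL.mp hal).1
    simp only [hf_swap hyT ha]

end Pool.Agent.H8.VM
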