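import Pool.Agent.H8.VM.B2_HeavyBad
import Pool.Agent.H8.VM.B3_HeavyPairs
import Pool.Agent.H8.VM.B4_HeavyFirst

/-! MODULE B5 (about 250 lines, real arithmetic). The number of heavy lines is `O(N/n^2)` on
average.

Let `τ_M = (1/s) sum_I (heavyL r M I).card` (nonincreasing in `M`), `N' = n.choose (r-1)`
`= N r/(n-r+1)`, `H = (1/s) sum_I sum_(T heavy) (number of good y)`.
* `M τ_M <= sum_T t_T = H + bad`, `bad <= 5 N/(M-1)` (heavy_bad). So if
  `τ_M >= 10 N/(M (M-1))` then `H >= M τ_M / 2`.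
* with `x = (r-1) H / N'` (the average of `hcount` over all pairs `(I, T')`), Cauchy-Schwarz and
  heavy_pairs: `N' (x^2 - x) <= (n-r+1)(n-r+2) τ_(M-2)`.
* so one of: (A) `τ_M < 10 N/(M(M-1))`; (B) `x < 2`, then `τ_M < 4 N'/((r-1) M)`;
  (C) `x >= 2`, `x^2 - x >= x^2/2`:
  `(r-1)^2 M^2 τ_M^2 / (8 N') <= (n-r+1)(n-r+2) τ_(M-2)`.
* if moreover `τ_(M-2) <= 2 τ_M`, (C) gives
  `τ_M <= 16 N' (n-r+1)(n-r+2)/((r-1)^2 M^2) = 16 N r (n-r+2)/((r-1)^2 M^2)`.
  For `n/13 <= r <= 12n/13` and `M <= n` all three bounds are `<= C0 N/M^2` with an absolute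
  `C0` (`n` large).
* Given `M` with `n <= K M`: put `M1 = min M n`-like (for `M > n` there are no heavy lines, as
  `t_T <= n-r+1`); look at `M1, M1-2, ..., M1 - 2m`, `m = floor(M1/4)`. If some `j < m` has
  `τ_(M1-2j-2) <= 2 τ_(M1-2j)` then `τ_M1 <= τ_(M1-2j) <= C0 N/(M1-2j)^2 <= 4 C0 N/M1^2`
  `<= 4 C0 K^2 N/n^2`. Otherwise `τ_M1 <= 2^(-m) τ_(M1-2m) <= 2^(-m) N'`, which is smaller than
  `N/n^2` for large `n` (`m >= n/(4K) - 2`, `N' <= 13 N`). -/

open scoped BigOperators
open Filter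

namespace Pool.Agent.H8.VM

open Pool.Agent.H28.Johnson Pool.Agent.H28.KW Pool.Agent.H28.Windows

/-- total number of heavy lower lines -/
private noncomputable def b5S (n r M : ℕ) : ℕ := ∑ I ∈ stables n r, (heavyL r M I).card

private lemma b5S_mono {n r M M' : ℕ} (h : M ≤ M') : b5S n r M' ≤ b5S n r M := by
  classical
  refine Finset.sum_le_sum fun I _ => Finset.card_le_card fun T hT => ?_
  rw [mem_heavyL] at hT ⊢
  exact ⟨hT.1, h.trans hT.2⟩

private lemma b5S_le (n r M : ℕ) : b5S n r M ≤ (stables n r).card * n.choose (r - 1) := by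
  classical
  rw [b5S, ← smul_eq_mul, ← Finset.sum_const]
  refine Finset.sum_le_sum fun I _ => ?_
  rw [← card_Base n (r - 1)]
  exact Finset.card_le_card fun T hT => (mem_heavyL.1 hT).1

/-- the real arithmetic -/
private lemma b5_arith {n r M : ℝ} {a a' H bad P X s N N' : ℝ} (hn : 26 ≤ n) (hnr : n ≤ 13 * r)
    (hrn : 13 * r ≤ 12 * n) (hM : 4 ≤ M) (hMn : M ≤ n) (ha : 0 ≤ a)
    (hs : 0 ≤ s) (hN : 0 ≤ N) (hN' : 0 ≤ N')
    (hX : X = (r - 1) * H) (haa : a' ≤ 2 * a) (f1 : M * a ≤ H + bad) (f2 : (M - 1) * bad ≤ 5 * (N * s))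
    (f3 : X ^ 2 ≤ s * N' * (P + X)) (hP : P ≤ (n - r + 1) * (n - r + 2) * a')
    (f4 : N' * (n - r + 1) = N * r) : M ^ 2 * a ≤ 1664 * (N * s) := by
  have hNs : 0 ≤ N * s := mul_nonneg hN hs
  have hr1 : 1 ≤ r - 1 := by linarith
  have hnr1 : n / 13 ≤ n - r + 1 := by linarith
  rcases le_total (M * a / 2) bad with hA | hB
  · have h1 : (M - 1) * (M * a / 2) ≤ 5 * (N * s) :=
      (mul_le_mul_of_nonneg_left hA (by linarith)).trans f2
    have h2 : M ^ 2 * a ≤ 2 * ((M - 1) * (M * a)) := by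
      have : 0 ≤ M * a := by positivity
      nlinarith
    nlinarith
  · have hH : M * a / 2 ≤ H := by linarith
    have hXl : (r - 1) * (M * a / 2) ≤ X := by
      rw [hX]
      exact mul_le_mul_of_nonneg_left hH (by linarith)
    rcases le_total X (2 * (s * N')) with hB1 | hC
    · have h1 : (r - 1) * (M * a) ≤ 4 * (s * N') := by linarith
      have h2 : (r - 1) * (M * a) * (n - r + 1) ≤ 4 * (s * (N * r)) := by
        calc (r - 1) * (M * a) * (n - r + 1) ≤ 4 * (s * N') * (n - r + 1) :=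
              mul_le_mul_of_nonneg_right h1 (by linarith)
          _ = 4 * (s * (N' * (n - r + 1))) := by ring
          _ = _ := by rw [f4]
      have h3 : (r - 1) * ((n - r + 1) * (M * a)) ≤ (r - 1) * (8 * (N * s)) := by
        calc (r - 1) * ((n - r + 1) * (M * a)) = (r - 1) * (M * a) * (n - r + 1) := by ring
          _ ≤ 4 * (s * (N * r)) := h2
          _ = 4 * (N * s) * r := by ring
          _ ≤ 4 * (N * s) * (2 * (r - 1)) := by
              apply mul_le_mul_of_nonneg_left _ (by positivity)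
              linarith
          _ = _ := by ring
      have h4 : (n - r + 1) * (M * a) ≤ 8 * (N * s) :=
        le_of_mul_le_mul_left h3 (by linarith)
      have h5 : M / 13 * (M * a) ≤ (n - r + 1) * (M * a) := by
        apply mul_le_mul_of_nonneg_right _ (by positivity)
        linarith
      nlinarith
    · rcases ha.eq_or_lt with ha0 | ha0
      · rw [← ha0]
        nlinarith
      have hXpos : 0 ≤ X := le_trans (by positivity) hC
      have h1 : X ^ 2 ≤ 2 * (s * N' * P) := by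
        have h2 : s * N' * X ≤ X ^ 2 / 2 := by nlinarith
        nlinarith
      have hsN : 0 ≤ s * N' := by positivity
      have h2 : s * N' * P ≤ s * (N * r) * (n - r + 2) * (2 * a) := by
        calc s * N' * P ≤ s * N' * ((n - r + 1) * (n - r + 2) * a') :=
              mul_le_mul_of_nonneg_left hP hsN
          _ ≤ s * N' * ((n - r + 1) * (n - r + 2) * (2 * a)) := by
              apply mul_le_mul_of_nonneg_left _ hsN
              apply mul_le_mul_of_nonneg_left haa
              apply mul_nonneg <;> linarith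
          _ = s * (N' * (n - r + 1)) * (n - r + 2) * (2 * a) := by ring
          _ = _ := by rw [f4]
      have h3 : ((r - 1) * (M * a / 2)) ^ 2 ≤ X ^ 2 := by
        apply pow_le_pow_left₀ _ hXl
        have : 0 ≤ r - 1 := by linarith
        positivity
      have h4 : a * ((r - 1) * ((r - 1) * (M ^ 2 * a))) ≤
          a * (16 * (N * s) * (r * (n - r + 2))) := by
        nlinarith
      have h5 : (r - 1) * ((r - 1) * (M ^ 2 * a)) ≤ 16 * (N * s) * (r * (n - r + 2)) :=
        le_of_mul_le_mul_left h4 ha0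
      have h6 : 16 * (N * s) * (r * (n - r + 2)) ≤ (r - 1) * (32 * (N * s) * (n - r + 2)) := by
        have h7 : 0 ≤ (N * s) * (n - r + 2) := mul_nonneg hNs (by linarith)
        nlinarith
      have h7 : (r - 1) * (M ^ 2 * a) ≤ 32 * (N * s) * (n - r + 2) :=
        le_of_mul_le_mul_left (h5.trans h6) (by linarith)
      have h8 : n / 26 * (M ^ 2 * a) ≤ (r - 1) * (M ^ 2 * a) := by
        apply mul_le_mul_of_nonneg_right _ (by positivity)
        linarith
      have h9 : 32 * (N * s) * (n - r + 2) ≤ 32 * (N * s) * (2 * n) := by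
        apply mul_le_mul_of_nonneg_left _ (by positivity)
        linarith
      have h10 : n * (M ^ 2 * a) ≤ n * (1664 * (N * s)) := by
        have h11 := h8.trans (h7.trans h9)
        linarith
      exact le_of_mul_le_mul_left h10 (by linarith)

open Classical in
private lemma b5_step {n r M : ℕ} (hn : 26 ≤ n) (hnr : n ≤ 13 * r) (hrn : 13 * r ≤ 12 * n)
    (hM : 4 ≤ M) (hMn : M ≤ n) (haa : b5S n r (M - 2) ≤ 2 * b5S n r M) :
    (M : ℝ) ^ 2 * (b5S n r M : ℝ) ≤ 1664 * ((n.choose r : ℝ) * ((stables n r).card : ℝ)) := by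
  have hr : 2 ≤ r := by omega
  have hrn' : r ≤ n := by omega
  set H : ℕ := ∑ I ∈ stables n r, ∑ T ∈ heavyL r M I,
    ((allowL r I T).filter fun y => Good r M I T y).card with hH
  set bad : ℕ := ∑ I ∈ stables n r, ∑ T ∈ heavyL r M I,
    ((allowL r I T).filter fun y => ¬ Good r M I T y).card with hbad
  set P : ℕ := ∑ I ∈ stables n r, ∑ T' ∈ Base n (r - 1),
    hcount r M I T' * (hcount r M I T' - 1) with hP
  set X : ℕ := ∑ I ∈ stables n r, ∑ T' ∈ Base n (r - 1), hcount r M I T' with hX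
  have e1 : M * b5S n r M ≤ H + bad := by
    rw [b5S, Finset.mul_sum, hH, hbad, ← Finset.sum_add_distrib]
    refine Finset.sum_le_sum fun I _ => ?_
    rw [← Finset.sum_add_distrib, mul_comm, ← smul_eq_mul, ← Finset.sum_const]
    refine Finset.sum_le_sum fun T hT => ?_
    rw [Finset.card_filter_add_card_filter_not]
    exact (mem_heavyL.1 hT).2
  have e2 : (M - 1) * bad ≤ 5 * (n.choose r * (stables n r).card) := heavy_bad (by omega) hM
  have e3 : X = (r - 1) * H := by
    rw [hX, hH, Finset.mul_sum]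
    refine Finset.sum_congr rfl fun I _ => ?_
    exact heavy_first (by omega) I
  have e4 : P ≤ (n - r + 1) * (n - r + 2) * b5S n r (M - 2) := heavy_pairs hr hrn' (by omega)
  have e5 : (X : ℝ) ^ 2 ≤ ((stables n r).card : ℝ) * (n.choose (r - 1) : ℝ) * ((P : ℝ) + X) := by
    have h1 : X = ∑ p ∈ stables n r ×ˢ Base n (r - 1), hcount r M p.1 p.2 := by
      rw [hX, Finset.sum_product]
    have h2 : P + X = ∑ p ∈ stables n r ×ˢ Base n (r - 1), hcount r M p.1 p.2 ^ 2 := by
      rw [hP, hX, ← Finset.sum_add_distrib, Finset.sum_product]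
      refine Finset.sum_congr rfl fun I _ => ?_
      rw [← Finset.sum_add_distrib]
      refine Finset.sum_congr rfl fun T' _ => ?_
      generalize hcount r M I T' = k
      cases k with
      | zero => simp
      | succ k => rw [Nat.add_sub_cancel]; ring
    have h3 := sq_sum_le_card_mul_sum_sq (s := stables n r ×ˢ Base n (r - 1))
      (f := fun p => (hcount r M p.1 p.2 : ℝ))
    have h4 : (X : ℝ) = ∑ p ∈ stables n r ×ˢ Base n (r - 1), (hcount r M p.1 p.2 : ℝ) := by
      rw [h1]; push_cast; rfl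
    have h5 : (P : ℝ) + X = ∑ p ∈ stables n r ×ˢ Base n (r - 1), (hcount r M p.1 p.2 : ℝ) ^ 2 := by
      rw [← Nat.cast_add, h2]; push_cast; rfl
    rw [← h4, ← h5, Finset.card_product, card_Base] at h3
    push_cast at h3
    exact h3
  have e6 : n.choose (r - 1) * (n - r + 1) = n.choose r * r := by
    have h1 := Nat.choose_succ_right_eq n (r - 1)
    have h2 : r - 1 + 1 = r := by omega
    have h3 : n - (r - 1) = n - r + 1 := by omega
    rw [h2, h3] at h1
    exact h1.symm
  have c1 : ((n - r + 1 : ℕ) : ℝ) = (n : ℝ) - r + 1 := by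
    rw [Nat.cast_add, Nat.cast_sub hrn', Nat.cast_one]
  have c2 : ((n - r + 2 : ℕ) : ℝ) = (n : ℝ) - r + 2 := by
    rw [Nat.cast_add, Nat.cast_sub hrn', Nat.cast_ofNat]
  have c3 : ((r - 1 : ℕ) : ℝ) = (r : ℝ) - 1 := by
    rw [Nat.cast_sub (by omega), Nat.cast_one]
  have c4 : ((M - 1 : ℕ) : ℝ) = (M : ℝ) - 1 := by
    rw [Nat.cast_sub (by omega), Nat.cast_one]
  refine b5_arith (n := n) (r := r) (M := M) (a := b5S n r M) (a' := b5S n r (M - 2))
    (H := H) (bad := bad) (P := P) (X := X) (s := (stables n r).card) (N := n.choose r)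
    (N' := n.choose (r - 1)) ?_ ?_ ?_ ?_ ?_ ?_ ?_ ?_ ?_ ?_ ?_ ?_ ?_ ?_ ?_ ?_
  · exact_mod_cast hn
  · exact_mod_cast hnr
  · exact_mod_cast hrn
  · exact_mod_cast hM
  · exact_mod_cast hMn
  · positivity
  · positivity
  · positivity
  · positivity
  · rw [← c3]; exact_mod_cast e3
  · exact_mod_cast haa
  · exact_mod_cast e1
  · rw [← c4]; exact_mod_cast e2
  · exact e5
  · rw [← c1, ← c2]; exact_mod_cast e4
  · rw [← c1]; exact_mod_cast e6

/-- halving -/
private lemma b5_iter {n r M1 : ℕ} : ∀ m : ℕ, (∀ j < m, 2 * b5S n r (M1 - 2 * j) <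
    b5S n r (M1 - 2 * j - 2)) → 2 ^ m * b5S n r M1 ≤ b5S n r (M1 - 2 * m)
  | 0, _ => by simp
  | m + 1, h => by
    have h1 := b5_iter m fun j hj => h j (by omega)
    have h2 := h m (by omega)
    have h3 : M1 - 2 * (m + 1) = M1 - 2 * m - 2 := by omega
    rw [h3, pow_succ]
    nlinarith

theorem heavy_bound (K : ℝ) (hK : 1 ≤ K) : ∃ C : ℝ, 0 < C ∧ ∀ᶠ n : ℕ in atTop, ∀ r M : ℕ,
    n ≤ 13 * r → 13 * r ≤ 12 * n → (n : ℝ) ≤ K * M →
    ((∑ I ∈ stables n r, (heavyL r M I).card : ℕ) : ℝ) ≤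
      C * ((n.choose r : ℝ) / (n : ℝ) ^ 2) * (stables n r).card := by
  refine ⟨6656 * K ^ 2, by positivity, ?_⟩
  have hK0 : 0 < K := by linarith
  set c : ℝ := Real.log 2 / (4 * K) with hc
  have hl2 : 0 < Real.log 2 := Real.log_pos (by norm_num)
  have hc0 : 0 < c := by positivity
  filter_upwards [eventually_ge_atTop 26, eventually_ge_atTop ⌈8 * K⌉₊,
    eventually_ge_atTop ⌈2 / c⌉₊, eventually_ge_atTop ⌈624 / c ^ 3⌉₊] with n hn hn1 hn2 hn3 r M
    hnr hrn hKM
  have hn1' : 8 * K ≤ n := (Nat.le_ceil _).trans (by exact_mod_cast hn1)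
  have hn2' : 2 / c ≤ n := (Nat.le_ceil _).trans (by exact_mod_cast hn2)
  have hn3' : 624 / c ^ 3 ≤ n := (Nat.le_ceil _).trans (by exact_mod_cast hn3)
  have hn0 : (0 : ℝ) < n := by
    have : 0 < n := by omega
    exact_mod_cast this
  set M1 := min M n with hM1
  have hM1M : M1 ≤ M := min_le_left _ _
  have hM1n : M1 ≤ n := min_le_right _ _
  have hKM1 : (n : ℝ) ≤ K * M1 := by
    rw [hM1]
    rcases le_total M n with h | h
    · rw [min_eq_left h]; exact hKM
    · rw [min_eq_right h]; nlinarith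
  have hM18 : 8 ≤ M1 := by
    have h1 : K * 8 ≤ K * M1 := by linarith
    have h2 : (8 : ℝ) ≤ M1 := le_of_mul_le_mul_left h1 hK0
    exact_mod_cast h2
  have hNs0 : 0 ≤ (n.choose r : ℝ) * ((stables n r).card : ℝ) := by positivity
  -- it is enough to bound `n ^ 2 * b5S n r M1`
  suffices h : (n : ℝ) ^ 2 * (b5S n r M1 : ℝ) ≤
      6656 * K ^ 2 * ((n.choose r : ℝ) * ((stables n r).card : ℝ)) by
    have h1 : ((∑ I ∈ stables n r, (heavyL r M I).card : ℕ) : ℝ) ≤ (b5S n r M1 : ℝ) := by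
      exact_mod_cast b5S_mono hM1M
    have h2 : 6656 * K ^ 2 * ((n.choose r : ℝ) / (n : ℝ) ^ 2) * ((stables n r).card : ℝ) =
        (6656 * K ^ 2 * ((n.choose r : ℝ) * ((stables n r).card : ℝ))) / (n : ℝ) ^ 2 := by
      field_simp
    rw [h2, le_div_iff₀ (by positivity)]
    nlinarith [h1, sq_nonneg (n : ℝ)]
  set m := M1 / 4 with hm
  by_cases hex : ∃ j < m, b5S n r (M1 - 2 * j - 2) ≤ 2 * b5S n r (M1 - 2 * j)
  · obtain ⟨j, hj, hj2⟩ := hex
    have h1 := b5_step (M := M1 - 2 * j) hn hnr hrn (by omega) (by omega) hj2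
    have h2 : (M1 : ℝ) ≤ 2 * ((M1 - 2 * j : ℕ) : ℝ) := by
      have : M1 ≤ 2 * (M1 - 2 * j) := by omega
      exact_mod_cast this
    have h3 : (b5S n r M1 : ℝ) ≤ (b5S n r (M1 - 2 * j) : ℝ) := by
      exact_mod_cast b5S_mono (by omega)
    have h4 : (n : ℝ) ^ 2 ≤ K ^ 2 * (4 * ((M1 - 2 * j : ℕ) : ℝ) ^ 2) := by
      calc (n : ℝ) ^ 2 ≤ (K * M1) ^ 2 := by gcongr
        _ ≤ (K * (2 * ((M1 - 2 * j : ℕ) : ℝ))) ^ 2 := by gcongr
        _ = _ := by ring
    calc (n : ℝ) ^ 2 * (b5S n r M1 : ℝ)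
        ≤ (K ^ 2 * (4 * ((M1 - 2 * j : ℕ) : ℝ) ^ 2)) * (b5S n r (M1 - 2 * j) : ℝ) := by gcongr
      _ = 4 * K ^ 2 * (((M1 - 2 * j : ℕ) : ℝ) ^ 2 * (b5S n r (M1 - 2 * j) : ℝ)) := by ring
      _ ≤ 4 * K ^ 2 * (1664 * ((n.choose r : ℝ) * ((stables n r).card : ℝ))) := by gcongr
      _ = _ := by ring
  · push Not at hex
    have h1 := b5_iter m hex
    have h2 := b5S_le n r (M1 - 2 * m)
    have h3 : 2 ^ m * b5S n r M1 ≤ (stables n r).card * n.choose (r - 1) := h1.trans h2
    have h4 : (n.choose (r - 1) : ℝ) ≤ 13 * (n.choose r : ℝ) := by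
      have e6 : n.choose (r - 1) * (n - r + 1) = n.choose r * r := by
        have h1 := Nat.choose_succ_right_eq n (r - 1)
        have h2 : r - 1 + 1 = r := by omega
        have h3 : n - (r - 1) = n - r + 1 := by omega
        rw [h2, h3] at h1
        exact h1.symm
      have h5 : r ≤ 13 * (n - r + 1) := by omega
      have h6 : n.choose (r - 1) * (n - r + 1) ≤ (13 * n.choose r) * (n - r + 1) := by
        rw [e6]
        calc n.choose r * r ≤ n.choose r * (13 * (n - r + 1)) := Nat.mul_le_mul_left _ h5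
          _ = _ := by ring
      have h7 := Nat.le_of_mul_le_mul_right h6 (by omega)
      exact_mod_cast h7
    have h5 : 13 * (n : ℝ) ^ 2 ≤ 2 ^ m := by
      have h6 : c * n - 1 ≤ m * Real.log 2 := by
        have h7 : (M1 : ℝ) ≤ 4 * m + 4 := by
          have : M1 ≤ 4 * m + 4 := by omega
          exact_mod_cast this
        have h8 : (n : ℝ) / (4 * K) ≤ m + 1 := by
          rw [div_le_iff₀ (by positivity)]
          nlinarith
        have h9 : c * n = n / (4 * K) * Real.log 2 := by rw [hc]; ring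
        have h10 : Real.log 2 ≤ 1 := by
          have := Real.log_two_lt_d9
          linarith
        rw [h9]
        nlinarith
      have h7 : c * n / 2 ≤ c * n - 1 := by
        have : 2 ≤ c * n := by
          rw [div_le_iff₀ hc0] at hn2'
          linarith
        linarith
      have h8 : (2 : ℝ) ^ m = Real.exp (m * Real.log 2) := by
        rw [mul_comm, Real.exp_mul, Real.exp_log (by norm_num), Real.rpow_natCast]
      rw [h8]
      have h9 := Real.pow_div_factorial_le_exp (c * n / 2) (by positivity) 3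
      have h10 : Real.exp (c * n / 2) ≤ Real.exp (m * Real.log 2) :=
        Real.exp_le_exp.2 (h7.trans h6)
      have h11 : ((Nat.factorial 3 : ℕ) : ℝ) = 6 := by norm_num [Nat.factorial]
      rw [h11] at h9
      have h12 : 13 * (n : ℝ) ^ 2 ≤ (c * n / 2) ^ 3 / 6 := by
        rw [div_le_iff₀ (by positivity)] at hn3'
        have h13 : (c * n / 2) ^ 3 / 6 = (n * c ^ 3) * (n : ℝ) ^ 2 / 48 := by ring
        rw [h13]
        have : 0 ≤ (n : ℝ) ^ 2 := by positivity
        nlinarith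
      linarith
    have h6 : (2 : ℝ) ^ m * (b5S n r M1 : ℝ) ≤ ((stables n r).card : ℝ) * (13 * (n.choose r : ℝ)) := by
      calc (2 : ℝ) ^ m * (b5S n r M1 : ℝ)
          ≤ ((stables n r).card : ℝ) * (n.choose (r - 1) : ℝ) := by exact_mod_cast h3
        _ ≤ _ := by gcongr
    have h7 : (13 * (n : ℝ) ^ 2) * (b5S n r M1 : ℝ) ≤
        ((stables n r).card : ℝ) * (13 * (n.choose r : ℝ)) :=
      (mul_le_mul_of_nonneg_right h5 (Nat.cast_nonneg _)).trans h6
    have h8 : (n : ℝ) ^ 2 * (b5S n r M1 : ℝ) ≤ (n.choose r : ℝ) * ((stables n r).card : ℝ) := by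
      linarith
    have h9 : 1 * ((n.choose r : ℝ) * ((stables n r).card : ℝ)) ≤
        6656 * K ^ 2 * ((n.choose r : ℝ) * ((stables n r).card : ℝ)) := by
      apply mul_le_mul_of_nonneg_right _ hNs0
      nlinarith
    linarith

end Pool.Agent.H8.VM
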