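import Pool.Agent.H8.VM.Defs

/-! MODULE B6a (part of B6) (about 120 lines). Complementation `S -> compl S` is an isomorphism from the Johnson
graph on `r`-sets to the one on `(n-r)`-sets; it exchanges lower and upper lines:
`Q - x` has complement `insert x (compl Q)`, and `w` contained in `Q` iff `compl Q` contained in
`compl w`. The bijection on families is `I.image compl` (or `I.map`). -/

open scoped BigOperators

namespace Pool.Agent.H8.VM

open Pool.Agent.H28.Johnson Pool.Agent.H28.KW Pool.Agent.H28.Windows

/-- adjacency is preserved by complements -/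
theorem adj_compl {n r : ℕ} (hrn : r ≤ n) {S T : Finset (Fin n)} (hS : S ∈ Base n r)
    (hT : T ∈ Base n r) : adj (n - r) Sᶜ Tᶜ ↔ adj r S T := by
  have hS' := mem_Base.mp hS
  have hT' := mem_Base.mp hT
  have h1 : (Sᶜ ∩ Tᶜ).card + (S ∪ T).card = n := by
    rw [← Finset.compl_union, Finset.card_compl, Fintype.card_fin]
    have : (S ∪ T).card ≤ n := by
      have := Finset.card_le_univ (S ∪ T)
      rwa [Fintype.card_fin] at this
    omega
  have h2 := Finset.card_union_add_card_inter S T
  unfold adj
  constructor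
  · rintro ⟨h3, h4⟩
    exact ⟨fun h => h3 (by rw [h]), by omega⟩
  · rintro ⟨h3, h4⟩
    exact ⟨fun h => h3 (compl_injective h), by omega⟩

/-- the family of complements -/
def cofam {n : ℕ} (I : Finset (Finset (Fin n))) : Finset (Finset (Fin n)) :=
  I.map ⟨fun S => Sᶜ, fun _ _ h => compl_injective h⟩

theorem mem_cofam {n : ℕ} {I : Finset (Finset (Fin n))} {S : Finset (Fin n)} :
    S ∈ cofam I ↔ Sᶜ ∈ I := by
  unfold cofam
  rw [Finset.mem_map]
  constructor
  · rintro ⟨T, hT, rfl⟩
    simpa using hT
  · intro h
    exact ⟨Sᶜ, h, by simp⟩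

private lemma cofam_cofam {n : ℕ} (I : Finset (Finset (Fin n))) : cofam (cofam I) = I := by
  ext S
  rw [mem_cofam, mem_cofam, compl_compl]

private lemma mem_Base_compl {n r : ℕ} (hrn : r ≤ n) {S : Finset (Fin n)} :
    Sᶜ ∈ Base n (n - r) ↔ S ∈ Base n r := by
  rw [mem_Base, mem_Base, Finset.card_compl, Fintype.card_fin]
  have : S.card ≤ n := by
    have := Finset.card_le_univ S
    rwa [Fintype.card_fin] at this
  omega

private lemma cofam_stables_aux {n r : ℕ} (hrn : r ≤ n) {I : Finset (Finset (Fin n))}
    (hI : I ∈ stables n r) : cofam I ∈ stables n (n - r) := by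
  rw [mem_stables] at hI ⊢
  refine ⟨?_, ?_⟩
  · intro S hS
    rw [mem_cofam] at hS
    have := hI.1 hS
    rw [← mem_Base_compl hrn, compl_compl] at this
    exact this
  · intro S hS T hT hadj
    rw [mem_cofam] at hS hT
    apply hI.2 _ hS _ hT
    rw [← adj_compl hrn (hI.1 hS) (hI.1 hT), compl_compl, compl_compl]
    exact hadj

theorem cofam_stables {n r : ℕ} (hrn : r ≤ n) {I : Finset (Finset (Fin n))} :
    cofam I ∈ stables n (n - r) ↔ I ∈ stables n r := by
  constructor
  · intro h
    have h1 := cofam_stables_aux (Nat.sub_le n r) h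
    rw [cofam_cofam, Nat.sub_sub_self hrn] at h1
    exact h1
  · exact cofam_stables_aux hrn

theorem card_stables_compl {n r : ℕ} (hrn : r ≤ n) :
    (stables n (n - r)).card = (stables n r).card := by
  refine (Finset.card_bij' (fun I _ => cofam I) (fun I _ => cofam I) ?_ ?_ ?_ ?_).symm
  · intro I hI
    exact (cofam_stables hrn).mpr hI
  · intro I hI
    have h1 := cofam_stables_aux (Nat.sub_le n r) hI
    rw [Nat.sub_sub_self hrn] at h1
    exact h1
  · intro I _
    exact cofam_cofam I
  · intro I _
    exact cofam_cofam I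

end Pool.Agent.H8.VM
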