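import Pool.Agent.H8.VM.Defs
import Pool.Agent.H8.VM.B6a_Compl

/-! MODULE B6b (part of B6) (about 120 lines). Complementation `S -> compl S` is an isomorphism from the Johnson
graph on `r`-sets to the one on `(n-r)`-sets; it exchanges lower and upper lines:
`Q - x` has complement `insert x (compl Q)`, and `w` contained in `Q` iff `compl Q` contained in
`compl w`. The bijection on families is `I.image compl` (or `I.map`). -/

open scoped BigOperators

namespace Pool.Agent.H8.VM

open Pool.Agent.H28.Johnson Pool.Agent.H28.KW Pool.Agent.H28.Windows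

private lemma allow_compl {n r : ℕ} (hrn : r ≤ n) {I : Finset (Finset (Fin n))}
    (hI : I ∈ stables n r) {Q : Finset (Fin n)} (hQ : Q ∈ Base n (r + 1)) :
    allowL (n - r) (cofam I) Qᶜ = allowU r I Q := by
  rw [mem_stables] at hI
  rw [mem_Base] at hQ
  ext x
  rw [mem_allowL, mem_allowU, Finset.mem_compl, not_not]
  refine and_congr_right fun hx => ?_
  have hB : Q.erase x ∈ Base n r := by
    rw [mem_Base, Finset.card_erase_of_mem hx, hQ]
    rfl
  have hins : insert x Qᶜ = (Q.erase x)ᶜ := by
    rw [Finset.compl_erase]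
  constructor
  · intro h w hw hadj
    have h1 := h wᶜ (by rw [mem_cofam, compl_compl]; exact hw)
      (by rw [hins, adj_compl hrn hB (hI.1 hw)]; exact hadj)
    exact Finset.compl_subset_compl.mp h1
  · intro h w hw hadj
    rw [mem_cofam] at hw
    have h1 := h wᶜ hw (by
      rw [← adj_compl hrn hB (hI.1 hw), compl_compl, ← hins]
      exact hadj)
    rw [← Finset.compl_subset_compl, compl_compl]
    exact h1

private lemma cofam_cofam' {n : ℕ} (I : Finset (Finset (Fin n))) : cofam (cofam I) = I := by
  ext S
  rw [mem_cofam, mem_cofam, compl_compl]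

theorem dual_heavy {n r M : ℕ} (hr : 1 ≤ r) (hrn : r + 1 ≤ n) :
    ∑ I ∈ stables n r, (heavyU r M I).card =
      ∑ I ∈ stables n (n - r), (heavyL (n - r) M I).card := by
  refine Finset.sum_bij' (fun I _ => cofam I) (fun I _ => cofam I) ?_ ?_ ?_ ?_ ?_
  · intro I hI
    exact (cofam_stables (by omega)).mpr hI
  · intro I hI
    rw [← cofam_stables (show r ≤ n by omega), cofam_cofam']
    exact hI
  · intro I _
    exact cofam_cofam' I
  · intro I _
    exact cofam_cofam' I
  · intro I hI
    refine Finset.card_bij' (fun Q _ => Qᶜ) (fun Q _ => Qᶜ) ?_ ?_ ?_ ?_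
    · intro Q hQ
      rw [mem_heavyU] at hQ
      rw [mem_heavyL, allow_compl (by omega) hI hQ.1]
      refine ⟨?_, hQ.2⟩
      have := mem_Base.mp hQ.1
      rw [mem_Base, Finset.card_compl, Fintype.card_fin, this]
      omega
    · intro T hT
      rw [mem_heavyL] at hT
      have hc : Tᶜ ∈ Base n (r + 1) := by
        have := mem_Base.mp hT.1
        rw [mem_Base, Finset.card_compl, Fintype.card_fin, this]
        omega
      rw [mem_heavyU, ← allow_compl (by omega) hI hc, compl_compl]
      exact ⟨hc, hT.2⟩
    · intro Q _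
      exact compl_compl Q
    · intro Q _
      exact compl_compl Q

end Pool.Agent.H8.VM
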