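import Pool.Agent.H8.VM.B1_Two

/-! MODULE B7 (about 300 lines; may be split). Sets with exactly one neighbour in `I`.

`v` in `lev r 1 I` with neighbour `u` (`nbr r I v = {u}`), `T = u cap v` (an `(r-1)`-set),
`Q = u cup v` (an `(r+1)`-set). Note `v` is not in `I`.
HEAVY `v`: `T` in `heavyL r M I` or `Q` in `heavyU r M I`. The number of `v` with `T` heavy is at
most `sum over heavy T of (number of y outside T) <= n * (heavyL r M I).card`; similarly for `Q`.
LIGHT `v`: (1) `v` in `U I`: at most `θ` of them. (2) `v` not in `U I`, `u` in `F I`: put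
`I0 = I.erase u`, `z = u`, `p = v`; then `z` is addable for `I0`, `z` not in `U I0` (h2 with
`insert z I0 = I`), `p` is in `addable r I0 cap nbh r z`. (3) `v` not in `U I`, `u` not in `F I`:
`U I0 = U I` by h3, put `z = v`, `p = u`. In both cases `(I0, z, p)` determines `(I, v)`.
`allowL r I T = allowL r I0 T` (the member `u` contains `T`) and `allowU r I Q = allowU r I0 Q`,
so `(z, p)` is light for `I0`: `(allowL r I0 (z cap p)).card < M`,
`(allowU r I0 (z cup p)).card < M`.
For fixed `(I0, z)` let `P` be the set of light `p` and `D = P.card`. For `p` in `P` the other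
members of `P` adjacent to `p` lie in the row (`z cap p'' = z cap p`) or in the column
(`z cup p'' = z cup p`); a row consists of sets `T + y` with `y` allowed, different from `z`
itself, so it has at most `M - 2` elements, same for columns; so `p` has at most `2 M` adjacent
or equal partners and `apairs r P` has at least `D (D - 2 M)` elements. Hence
`2 M D <= 8 M^2 + (apairs r P).card`: clear if `D <= 4 M`, and if `D > 4 M` then
`apairs >= D^2/2 >= 2 M D`. `apairs r P` is contained in `apairs r (addable r I0 cap nbh r z)`.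
`sum_(I0) (number of z in addable, z not in U I0) = sum_I (F I).card <= q s` (reindex
`(I0, z) <-> (insert z I0, z)`, h2), and `two_bound`. Total for LIGHT:
`M * light <= M θ s + 2 * (4 M^2 q s) + 2 N s` (twice, for cases (2) and (3),
`M * sum D <= 4 M^2 q s + N s`). -/

open scoped BigOperators

namespace Pool.Agent.H8.VM

open Pool.Agent.H28.Johnson Pool.Agent.H28.KW Pool.Agent.H28.Windows

section B7aux

variable {n : ℕ}

open Classical in
/-- the addable light neighbours of `z` -/
private noncomputable def b7P (r M : ℕ) (I : Finset (Finset (Fin n))) (z : Finset (Fin n)) :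
    Finset (Finset (Fin n)) :=
  (addable r I ∩ nbh r z).filter fun p =>
    (allowL r I (z ∩ p)).card < M ∧ (allowU r I (z ∪ p)).card < M

private lemma b7_mem_P {r M : ℕ} {I : Finset (Finset (Fin n))} {z p : Finset (Fin n)} :
    p ∈ b7P r M I z ↔ (p ∈ addable r I ∧ p ∈ nbh r z) ∧
      (allowL r I (z ∩ p)).card < M ∧ (allowU r I (z ∪ p)).card < M := by
  classical
  rw [b7P, Finset.mem_filter, Finset.mem_inter]

private lemma b7_union_card {r : ℕ} {z p : Finset (Fin n)} (hz : z ∈ Base n r)
    (hp : p ∈ Base n r) (h : adj r z p) : (z ∪ p).card = r + 1 := by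
  have h1 := (adj_iff hz hp).mp h
  have h2 := Finset.card_union_add_card_inter z p
  rw [mem_Base] at hz hp
  omega

private lemma b7_row {r : ℕ} {I : Finset (Finset (Fin n))} {z T : Finset (Fin n)}
    (hT : T.card + 1 = r) (S : Finset (Finset (Fin n)))
    (hS : ∀ p ∈ S, p ∈ addable r I ∧ z ∩ p = T) : S.card ≤ (allowL r I T).card := by
  classical
  refine le_trans (Finset.card_le_card (t := (allowL r I T).image (fun y => insert y T)) ?_)
    Finset.card_image_le
  intro p hp
  obtain ⟨hpa, hpT⟩ := hS p hp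
  rw [mem_addable] at hpa
  have hpc := mem_Base.mp hpa.1
  have hsub : T ⊆ p := hpT ▸ Finset.inter_subset_right
  have h1 : (p \ T).card = 1 := by
    rw [Finset.card_sdiff_of_subset hsub]; omega
  obtain ⟨y, hy⟩ := Finset.card_eq_one.mp h1
  have hyp : y ∈ p \ T := by rw [hy]; exact Finset.mem_singleton_self y
  have hins : insert y T = p := by
    rw [Finset.insert_eq, ← hy, Finset.sdiff_union_of_subset hsub]
  rw [Finset.mem_image]
  refine ⟨y, ?_, hins⟩
  rw [mem_allowL]
  refine ⟨(Finset.mem_sdiff.mp hyp).2, ?_⟩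
  intro w hw hadj
  rw [hins] at hadj
  exact absurd hadj (hpa.2.2 w hw)

private lemma b7_col {r : ℕ} {I : Finset (Finset (Fin n))} {z Q : Finset (Fin n)}
    (hQ : Q.card = r + 1) (S : Finset (Finset (Fin n)))
    (hS : ∀ p ∈ S, p ∈ addable r I ∧ z ∪ p = Q) : S.card ≤ (allowU r I Q).card := by
  classical
  refine le_trans (Finset.card_le_card (t := (allowU r I Q).image (fun y => Q.erase y)) ?_)
    Finset.card_image_le
  intro p hp
  obtain ⟨hpa, hpT⟩ := hS p hp
  rw [mem_addable] at hpa
  have hpc := mem_Base.mp hpa.1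
  have hsub : p ⊆ Q := hpT ▸ Finset.subset_union_right
  have h1 : (Q \ p).card = 1 := by
    rw [Finset.card_sdiff_of_subset hsub]; omega
  obtain ⟨y, hy⟩ := Finset.card_eq_one.mp h1
  have hyp : y ∈ Q \ p := by rw [hy]; exact Finset.mem_singleton_self y
  have hins : Q.erase y = p := by
    rw [← Finset.sdiff_singleton_eq_erase, ← hy, Finset.sdiff_sdiff_eq_self hsub]
  rw [Finset.mem_image]
  refine ⟨y, ?_, hins⟩
  rw [mem_allowU]
  refine ⟨(Finset.mem_sdiff.mp hyp).1, ?_⟩
  intro w hw hadj
  rw [hins] at hadj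
  exact absurd hadj (hpa.2.2 w hw)

/-- two adjacent neighbours of `z` lie in a common row or in a common column -/
private lemma b7_rowcol {r : ℕ} {z p q : Finset (Fin n)} (hz : z ∈ Base n r)
    (hp : p ∈ Base n r) (hq : q ∈ Base n r) (hzp : adj r z p) (hzq : adj r z q)
    (hpq : p = q ∨ adj r p q) : z ∩ q = z ∩ p ∨ z ∪ q = z ∪ p := by
  classical
  rcases hpq with rfl | hpq
  · exact Or.inl rfl
  have h1 := (adj_iff hz hp).mp hzp
  have h2 := (adj_iff hz hq).mp hzq
  have h3 := (adj_iff hp hq).mp hpq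
  by_cases h : p ∩ q ⊆ z
  · left
    have e1 : p ∩ q = z ∩ p := by
      apply Finset.eq_of_subset_of_card_le
      · intro x hx
        exact Finset.mem_inter.mpr ⟨h hx, (Finset.mem_inter.mp hx).1⟩
      · omega
    have e2 : p ∩ q = z ∩ q := by
      apply Finset.eq_of_subset_of_card_le
      · intro x hx
        exact Finset.mem_inter.mpr ⟨h hx, (Finset.mem_inter.mp hx).2⟩
      · omega
    rw [← e1, ← e2]
  · right
    obtain ⟨y, hy, hyz⟩ := Finset.not_subset.mp h
    rw [Finset.mem_inter] at hy
    have u1 := b7_union_card hz hp hzp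
    have u2 := b7_union_card hz hq hzq
    rw [mem_Base] at hz
    have e1 : insert y z = z ∪ p := by
      apply Finset.eq_of_subset_of_card_le
      · intro x hx
        rw [Finset.mem_insert] at hx
        rcases hx with rfl | hx
        · exact Finset.mem_union_right _ hy.1
        · exact Finset.mem_union_left _ hx
      · rw [Finset.card_insert_of_notMem hyz]; omega
    have e2 : insert y z = z ∪ q := by
      apply Finset.eq_of_subset_of_card_le
      · intro x hx
        rw [Finset.mem_insert] at hx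
        rcases hx with rfl | hx
        · exact Finset.mem_union_right _ hy.2
        · exact Finset.mem_union_left _ hx
      · rw [Finset.card_insert_of_notMem hyz]; omega
    rw [← e1, ← e2]

private lemma b7_local {r M : ℕ} {I : Finset (Finset (Fin n))} {z : Finset (Fin n)}
    (hz : z ∈ Base n r) :
    2 * (M * (b7P r M I z).card) ≤ 8 * M ^ 2 + (apairs r (addable r I ∩ nbh r z)).card := by
  classical
  set P := b7P r M I z with hP
  have hsub : apairs r P ⊆ apairs r (addable r I ∩ nbh r z) := by
    intro x hx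
    rw [mem_apairs] at hx ⊢
    have h1 := b7_mem_P.mp hx.1.1
    have h2 := b7_mem_P.mp hx.1.2
    exact ⟨⟨Finset.mem_inter.mpr h1.1, Finset.mem_inter.mpr h2.1⟩, hx.2⟩
  let B : Finset (Fin n) → Finset (Finset (Fin n)) := fun p =>
    P.filter (fun q => z ∩ q = z ∩ p) ∪ P.filter (fun q => z ∪ q = z ∪ p)
  have hB : ∀ p ∈ P, (B p).card ≤ 2 * M := by
    intro p hp
    have hp' := b7_mem_P.mp (hP ▸ hp)
    have hpB : p ∈ Base n r := (mem_addable.mp hp'.1.1).1
    have hadj : adj r z p := (mem_nbh.mp hp'.1.2).2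
    have c1 : (z ∩ p).card + 1 = r := (adj_iff hz hpB).mp hadj
    have c2 := b7_union_card hz hpB hadj
    have r1 : (P.filter (fun q => z ∩ q = z ∩ p)).card ≤ (allowL r I (z ∩ p)).card := by
      apply b7_row c1
      intro q hq
      rw [Finset.mem_filter] at hq
      exact ⟨(b7_mem_P.mp hq.1).1.1, hq.2⟩
    have r2 : (P.filter (fun q => z ∪ q = z ∪ p)).card ≤ (allowU r I (z ∪ p)).card := by
      apply b7_col c2
      intro q hq
      rw [Finset.mem_filter] at hq
      exact ⟨(b7_mem_P.mp hq.1).1.1, hq.2⟩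
    have := Finset.card_union_le (P.filter (fun q => z ∩ q = z ∩ p))
      (P.filter (fun q => z ∪ q = z ∪ p))
    have e : (B p).card = (P.filter (fun q => z ∩ q = z ∩ p) ∪
      P.filter (fun q => z ∪ q = z ∪ p)).card := rfl
    have l1 := hp'.2.1
    have l2 := hp'.2.2
    omega
  have hcov : P ×ˢ P ⊆ apairs r P ∪ P.biUnion (fun p => (B p).image (fun q => (p, q))) := by
    rintro ⟨p, q⟩ hpq
    rw [Finset.mem_product] at hpq
    obtain ⟨hp, hq⟩ := hpq
    simp only at hp hq
    rw [Finset.mem_union]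
    by_cases h : p = q ∨ adj r p q
    · right
      rw [Finset.mem_biUnion]
      refine ⟨p, hp, Finset.mem_image.mpr ⟨q, ?_, rfl⟩⟩
      have hp' := b7_mem_P.mp hp
      have hq' := b7_mem_P.mp hq
      have := b7_rowcol hz (mem_addable.mp hp'.1.1).1 (mem_addable.mp hq'.1.1).1
        (mem_nbh.mp hp'.1.2).2 (mem_nbh.mp hq'.1.2).2 h
      rcases this with h' | h'
      · exact Finset.mem_union_left _ (Finset.mem_filter.mpr ⟨hq, h'⟩)
      · exact Finset.mem_union_right _ (Finset.mem_filter.mpr ⟨hq, h'⟩)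
    · left
      push Not at h
      exact mem_apairs.mpr ⟨⟨hp, hq⟩, h⟩
  have hc1 : P.card * P.card ≤ (apairs r P).card + P.card * (2 * M) := by
    rw [← Finset.card_product]
    refine le_trans (Finset.card_le_card hcov) (le_trans (Finset.card_union_le _ _) ?_)
    have : (P.biUnion (fun p => (B p).image (fun q => (p, q)))).card ≤ P.card * (2 * M) := by
      refine le_trans Finset.card_biUnion_le ?_
      refine le_trans (Finset.sum_le_sum (g := fun _ => 2 * M) ?_) ?_
      · intro p hp
        exact le_trans Finset.card_image_le (hB p hp)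
      · rw [Finset.sum_const, smul_eq_mul]
    omega
  have hc2 := Finset.card_le_card hsub
  have hc3 : P.card * P.card ≤ (apairs r (addable r I ∩ nbh r z)).card + P.card * (2 * M) := by
    omega
  zify at hc3 ⊢
  nlinarith [sq_nonneg ((P.card : ℤ) - 2 * M), sq_nonneg (M : ℤ)]

open Classical in
/-- the unique neighbour -/
private noncomputable def b7n (r : ℕ) (I : Finset (Finset (Fin n))) (v : Finset (Fin n)) :
    Finset (Fin n) := if h : ∃ u, nbr r I v = {u} then h.choose else ∅

private lemma b7n_spec {r : ℕ} {I : Finset (Finset (Fin n))} {v : Finset (Fin n)}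
    (hv : v ∈ lev r 1 I) : nbr r I v = {b7n r I v} := by
  classical
  have h : ∃ u, nbr r I v = {u} := Finset.card_eq_one.mp (mem_lev.mp hv).2
  rw [b7n, dif_pos h]
  exact h.choose_spec

private lemma b7n_mem {r : ℕ} {I : Finset (Finset (Fin n))} {v : Finset (Fin n)}
    (hv : v ∈ lev r 1 I) : b7n r I v ∈ I ∧ adj r v (b7n r I v) := by
  have h : b7n r I v ∈ nbr r I v := by
    rw [b7n_spec hv]; exact Finset.mem_singleton_self _
  exact mem_nbr.mp h

private lemma b7n_uniq {r : ℕ} {I : Finset (Finset (Fin n))} {v w : Finset (Fin n)}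
    (hv : v ∈ lev r 1 I) (hw : w ∈ I) (h : adj r v w) : w = b7n r I v := by
  have h : w ∈ nbr r I v := mem_nbr.mpr ⟨hw, h⟩
  rw [b7n_spec hv] at h
  exact Finset.mem_singleton.mp h

private lemma b7_allowL_erase {r : ℕ} {I : Finset (Finset (Fin n))} {u T : Finset (Fin n)}
    (h : T ⊆ u) : allowL r (I.erase u) T = allowL r I T := by
  ext y
  rw [mem_allowL, mem_allowL]
  constructor
  · rintro ⟨h1, h2⟩
    refine ⟨h1, fun w hw ha => ?_⟩
    by_cases e : w = u
    · rw [e]; exact h
    · exact h2 w (Finset.mem_erase.mpr ⟨e, hw⟩) ha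
  · rintro ⟨h1, h2⟩
    exact ⟨h1, fun w hw ha => h2 w (Finset.mem_of_mem_erase hw) ha⟩

private lemma b7_allowU_erase {r : ℕ} {I : Finset (Finset (Fin n))} {u Q : Finset (Fin n)}
    (h : u ⊆ Q) : allowU r (I.erase u) Q = allowU r I Q := by
  ext y
  rw [mem_allowU, mem_allowU]
  constructor
  · rintro ⟨h1, h2⟩
    refine ⟨h1, fun w hw ha => ?_⟩
    by_cases e : w = u
    · rw [e]; exact h
    · exact h2 w (Finset.mem_erase.mpr ⟨e, hw⟩) ha
  · rintro ⟨h1, h2⟩
    exact ⟨h1, fun w hw ha => h2 w (Finset.mem_of_mem_erase hw) ha⟩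

end B7aux

theorem n1_raw {n r M θ q : ℕ} (hr : 1 ≤ r) (hM : 1 ≤ M)
    (F U : Finset (Finset (Fin n)) → Finset (Finset (Fin n)))
    (h1 : ∀ I ∈ stables n r, F I ⊆ I ∧ (F I).card ≤ q ∧ (U I).card ≤ θ)
    (h2 : ∀ I ∈ stables n r, ∀ z ∈ addable r I, (z ∈ F (insert z I) ↔ z ∉ U I))
    (h3 : ∀ I ∈ stables n r, ∀ u ∈ I, u ∉ F I → U (I.erase u) = U I) :
    M * ∑ I ∈ stables n r, (lev r 1 I).card ≤
      M * (θ * (stables n r).card) +
      M * (n * ∑ I ∈ stables n r, (heavyL r M I).card) +
      M * (n * ∑ I ∈ stables n r, (heavyU r M I).card) +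
      8 * (M ^ 2 * (q * (stables n r).card)) + 2 * (n.choose r * (stables n r).card) := by
  classical
  set s := (stables n r).card with hs
  let u : Finset (Finset (Fin n)) → Finset (Fin n) → Finset (Fin n) := fun I v => b7n r I v
  -- the parts
  let A1 : Finset (Finset (Fin n)) → Finset (Finset (Fin n)) := fun I =>
    (lev r 1 I).filter fun v => (v ∩ u I v) ∈ heavyL r M I
  let A2 : Finset (Finset (Fin n)) → Finset (Finset (Fin n)) := fun I =>
    (lev r 1 I).filter fun v => (v ∪ u I v) ∈ heavyU r M I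
  let A4 : Finset (Finset (Fin n)) → Finset (Finset (Fin n)) := fun I =>
    (lev r 1 I).filter fun v => (v ∩ u I v) ∉ heavyL r M I ∧ (v ∪ u I v) ∉ heavyU r M I ∧
      v ∉ U I ∧ u I v ∈ F I
  let A5 : Finset (Finset (Fin n)) → Finset (Finset (Fin n)) := fun I =>
    (lev r 1 I).filter fun v => (v ∩ u I v) ∉ heavyL r M I ∧ (v ∪ u I v) ∉ heavyU r M I ∧
      v ∉ U I ∧ u I v ∉ F I
  have hcover : ∀ I, lev r 1 I ⊆ ((((A1 I ∪ A2 I) ∪ U I) ∪ A4 I) ∪ A5 I) := by
    intro I v hv
    simp only [A1, A2, A4, A5, Finset.mem_union, Finset.mem_filter]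
    tauto
  -- heavy
  have hA1 : ∀ I ∈ stables n r, (A1 I).card ≤ n * (heavyL r M I).card := by
    intro I hI
    have hIs := mem_stables.mp hI
    have : A1 I ⊆ ((heavyL r M I) ×ˢ (Finset.univ : Finset (Fin n))).image
        (fun p => insert p.2 p.1) := by
      intro v hv
      rw [Finset.mem_filter] at hv
      obtain ⟨hvl, hvh⟩ := hv
      have hvB := (mem_lev.mp hvl).1
      obtain ⟨hu, hadj⟩ := b7n_mem hvl
      have c1 : (v ∩ u I v).card + 1 = r := (adj_iff hvB (hIs.1 hu)).mp hadj
      have hsub : v ∩ u I v ⊆ v := Finset.inter_subset_left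
      have c2 : (v \ (v ∩ u I v)).card = 1 := by
        rw [Finset.card_sdiff_of_subset hsub]
        rw [mem_Base] at hvB
        omega
      obtain ⟨y, hy⟩ := Finset.card_eq_one.mp c2
      rw [Finset.mem_image]
      refine ⟨(v ∩ u I v, y), Finset.mem_product.mpr ⟨hvh, Finset.mem_univ _⟩, ?_⟩
      simp only
      rw [Finset.insert_eq, ← hy, Finset.sdiff_union_of_subset hsub]
    refine le_trans (Finset.card_le_card this) (le_trans Finset.card_image_le ?_)
    rw [Finset.card_product, Finset.card_univ, Fintype.card_fin, mul_comm]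
  have hA2 : ∀ I ∈ stables n r, (A2 I).card ≤ n * (heavyU r M I).card := by
    intro I hI
    have hIs := mem_stables.mp hI
    have : A2 I ⊆ ((heavyU r M I) ×ˢ (Finset.univ : Finset (Fin n))).image
        (fun p => p.1.erase p.2) := by
      intro v hv
      rw [Finset.mem_filter] at hv
      obtain ⟨hvl, hvh⟩ := hv
      have hvB := (mem_lev.mp hvl).1
      obtain ⟨hu, hadj⟩ := b7n_mem hvl
      have c1 : (v ∪ u I v).card = r + 1 := b7_union_card hvB (hIs.1 hu) hadj
      have hsub : v ⊆ v ∪ u I v := Finset.subset_union_left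
      have c2 : ((v ∪ u I v) \ v).card = 1 := by
        rw [Finset.card_sdiff_of_subset hsub]
        rw [mem_Base] at hvB
        omega
      obtain ⟨y, hy⟩ := Finset.card_eq_one.mp c2
      rw [Finset.mem_image]
      refine ⟨(v ∪ u I v, y), Finset.mem_product.mpr ⟨hvh, Finset.mem_univ _⟩, ?_⟩
      simp only
      rw [← Finset.sdiff_singleton_eq_erase, ← hy, Finset.sdiff_sdiff_eq_self hsub]
    refine le_trans (Finset.card_le_card this) (le_trans Finset.card_image_le ?_)
    rw [Finset.card_product, Finset.card_univ, Fintype.card_fin, mul_comm]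
  -- light
  let V : Finset (Σ _ : Finset (Finset (Fin n)), Finset (Fin n)) :=
    (stables n r).sigma fun I => (addable r I) \ (U I)
  let W : Finset (Σ _ : (Σ _ : Finset (Finset (Fin n)), Finset (Fin n)), Finset (Fin n)) :=
    V.sigma fun x => b7P r M x.1 x.2
  have hlight : ∀ I ∈ stables n r, ∀ v ∈ lev r 1 I, (v ∩ u I v) ∉ heavyL r M I →
      (v ∪ u I v) ∉ heavyU r M I →
      I.erase (u I v) ∈ stables n r ∧ u I v ∈ addable r (I.erase (u I v)) ∧
      v ∈ addable r (I.erase (u I v)) ∧ adj r v (u I v) ∧ adj r (u I v) v ∧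
      (allowL r (I.erase (u I v)) (v ∩ u I v)).card < M ∧
      (allowU r (I.erase (u I v)) (v ∪ u I v)).card < M := by
    intro I hI v hv hl hu'
    have hIs := mem_stables.mp hI
    have hvB := (mem_lev.mp hv).1
    obtain ⟨hu, hadj⟩ := b7n_mem hv
    have hadj' : adj r v (u I v) := hadj
    refine ⟨stable_erase hI _, mem_addable_erase hI hu, ?_, hadj, adj_symm hadj, ?_, ?_⟩
    · rw [mem_addable]
      refine ⟨hvB, ?_, ?_⟩
      · intro hvI
        exact hIs.2 v (Finset.mem_of_mem_erase hvI) _ hu hadj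
      · intro w hw ha
        have := b7n_uniq hv (Finset.mem_of_mem_erase hw) ha
        exact (Finset.mem_erase.mp hw).1 this
    · rw [b7_allowL_erase Finset.inter_subset_right]
      by_contra hcon
      push Not at hcon
      apply hl
      rw [mem_heavyL]
      refine ⟨?_, hcon⟩
      have c1 : (v ∩ u I v).card + 1 = r := (adj_iff hvB (hIs.1 hu)).mp hadj
      rw [mem_Base]
      omega
    · rw [b7_allowU_erase Finset.subset_union_right]
      by_contra hcon
      push Not at hcon
      apply hu'
      rw [mem_heavyU]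
      refine ⟨?_, hcon⟩
      rw [mem_Base]
      exact b7_union_card hvB (hIs.1 hu) hadj
  have hA4 : ((stables n r).sigma fun I => A4 I).card ≤ W.card := by
    apply Finset.card_le_card_of_injOn (fun x => ⟨⟨x.1.erase (u x.1 x.2), u x.1 x.2⟩, x.2⟩)
    · rintro ⟨I, v⟩ hx
      rw [Finset.mem_coe, Finset.mem_sigma] at hx
      obtain ⟨hI, hv⟩ := hx
      simp only at hI hv
      rw [Finset.mem_filter] at hv
      obtain ⟨hvl, hl, hu', hvU, huF⟩ := hv
      obtain ⟨g1, g2, g3, g4, g5, g6, g7⟩ := hlight I hI v hvl hl hu'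
      rw [Finset.mem_coe, Finset.mem_sigma, Finset.mem_sigma]
      simp only
      refine ⟨⟨g1, ?_⟩, ?_⟩
      · rw [Finset.mem_sdiff]
        refine ⟨g2, ?_⟩
        have := h2 _ g1 _ g2
        rw [Finset.insert_erase (b7n_mem hvl).1] at this
        exact this.mp huF
      · rw [b7_mem_P]
        refine ⟨⟨g3, mem_nbh.mpr ⟨(mem_addable.mp g3).1, g5⟩⟩, ?_⟩
        rw [Finset.inter_comm, Finset.union_comm]
        exact ⟨g6, g7⟩
    · rintro ⟨I, v⟩ hx ⟨I', v'⟩ hx' h
      rw [Finset.mem_coe, Finset.mem_sigma] at hx hx'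
      have hv := (Finset.mem_filter.mp hx.2).1
      have hv' := (Finset.mem_filter.mp hx'.2).1
      simp only [Sigma.mk.injEq, heq_eq_eq] at h hv hv'
      obtain ⟨⟨e1, e2⟩, e3⟩ := h
      have m1 := (b7n_mem hv).1
      have m2 := (b7n_mem hv').1
      have : I = I' := by
        rw [← Finset.insert_erase m1, ← Finset.insert_erase m2]
        change insert (u I v) (I.erase (u I v)) = insert (u I' v') (I'.erase (u I' v'))
        rw [e1, e2]
      rw [this, e3]
  have hA5 : ((stables n r).sigma fun I => A5 I).card ≤ W.card := by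
    apply Finset.card_le_card_of_injOn (fun x => ⟨⟨x.1.erase (u x.1 x.2), x.2⟩, u x.1 x.2⟩)
    · rintro ⟨I, v⟩ hx
      rw [Finset.mem_coe, Finset.mem_sigma] at hx
      obtain ⟨hI, hv⟩ := hx
      simp only at hI hv
      rw [Finset.mem_filter] at hv
      obtain ⟨hvl, hl, hu', hvU, huF⟩ := hv
      obtain ⟨g1, g2, g3, g4, g5, g6, g7⟩ := hlight I hI v hvl hl hu'
      rw [Finset.mem_coe, Finset.mem_sigma, Finset.mem_sigma]
      simp only
      refine ⟨⟨g1, ?_⟩, ?_⟩
      · rw [Finset.mem_sdiff]
        refine ⟨g3, ?_⟩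
        rw [h3 I hI (u I v) (b7n_mem hvl).1 huF]
        exact hvU
      · rw [b7_mem_P]
        exact ⟨⟨g2, mem_nbh.mpr ⟨(mem_addable.mp g2).1, g4⟩⟩, g6, g7⟩
    · rintro ⟨I, v⟩ hx ⟨I', v'⟩ hx' h
      rw [Finset.mem_coe, Finset.mem_sigma] at hx hx'
      have hv := (Finset.mem_filter.mp hx.2).1
      have hv' := (Finset.mem_filter.mp hx'.2).1
      simp only [Sigma.mk.injEq, heq_eq_eq] at h hv hv'
      obtain ⟨⟨e1, e3⟩, e2⟩ := h
      have m1 := (b7n_mem hv).1
      have m2 := (b7n_mem hv').1
      have : I = I' := by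
        rw [← Finset.insert_erase m1, ← Finset.insert_erase m2]
        change insert (u I v) (I.erase (u I v)) = insert (u I' v') (I'.erase (u I' v'))
        rw [e1, e2]
      rw [this, e3]
  have hVcard : V.card ≤ q * s := by
    have : V.card ≤ ((stables n r).sigma fun I => F I).card := by
      apply Finset.card_le_card_of_injOn (fun x => ⟨insert x.2 x.1, x.2⟩)
      · rintro ⟨I, z⟩ hx
        rw [Finset.mem_coe, Finset.mem_sigma, Finset.mem_sdiff] at hx
        obtain ⟨hI, hz, hzU⟩ := hx
        rw [Finset.mem_coe, Finset.mem_sigma]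
        exact ⟨stable_insert hI hz, (h2 I hI z hz).mpr hzU⟩
      · rintro ⟨I, z⟩ hx ⟨I', z'⟩ hx' h
        rw [Finset.mem_coe, Finset.mem_sigma, Finset.mem_sdiff] at hx hx'
        simp only [Sigma.mk.injEq, heq_eq_eq] at h hx hx'
        obtain ⟨e1, e2⟩ := h
        subst e2
        have m1 := (mem_addable.mp hx.2.1).2.1
        have m2 := (mem_addable.mp hx'.2.1).2.1
        have : I = I' := by
          rw [← Finset.erase_insert m1, ← Finset.erase_insert m2, e1]
        rw [this]
    refine le_trans this ?_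
    rw [Finset.card_sigma]
    refine le_trans (Finset.sum_le_sum (g := fun _ => q) fun I hI => (h1 I hI).2.1) ?_
    rw [Finset.sum_const, smul_eq_mul, mul_comm]
  have hW : 2 * (M * W.card) ≤ 8 * (M ^ 2 * (q * s)) + 2 * (n.choose r * s) := by
    have e1 : 2 * (M * W.card) = ∑ x ∈ V, 2 * (M * (b7P r M x.1 x.2).card) := by
      rw [Finset.card_sigma, Finset.mul_sum, Finset.mul_sum]
    rw [e1]
    have e2 : ∑ x ∈ V, 2 * (M * (b7P r M x.1 x.2).card) ≤
        ∑ x ∈ V, (8 * M ^ 2 + (apairs r (addable r x.1 ∩ nbh r x.2)).card) := by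
      apply Finset.sum_le_sum
      intro x hx
      rw [Finset.mem_sigma, Finset.mem_sdiff] at hx
      exact b7_local (mem_addable.mp hx.2.1).1
    refine le_trans e2 ?_
    rw [Finset.sum_add_distrib, Finset.sum_const, smul_eq_mul]
    have e3 : ∑ x ∈ V, (apairs r (addable r x.1 ∩ nbh r x.2)).card ≤
        2 * (n.choose r * s) := by
      rw [Finset.sum_sigma]
      refine le_trans ?_ (two_bound n r)
      apply Finset.sum_le_sum
      intro I hI
      exact Finset.sum_le_sum_of_subset Finset.sdiff_subset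
    have e4 : V.card * (8 * M ^ 2) ≤ 8 * (M ^ 2 * (q * s)) := by
      calc V.card * (8 * M ^ 2) ≤ (q * s) * (8 * M ^ 2) := Nat.mul_le_mul_right _ hVcard
        _ = 8 * (M ^ 2 * (q * s)) := by ring
    omega
  rw [Finset.card_sigma] at hA4 hA5
  have htot : ∑ I ∈ stables n r, (lev r 1 I).card ≤
      n * ∑ I ∈ stables n r, (heavyL r M I).card + n * ∑ I ∈ stables n r, (heavyU r M I).card +
      θ * s + W.card + W.card := by
    calc ∑ I ∈ stables n r, (lev r 1 I).card
        ≤ ∑ I ∈ stables n r, (n * (heavyL r M I).card + n * (heavyU r M I).card + θ +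
            (A4 I).card + (A5 I).card) := by
          apply Finset.sum_le_sum
          intro I hI
          have c0 := Finset.card_le_card (hcover I)
          have c1 := Finset.card_union_le (((A1 I ∪ A2 I) ∪ U I) ∪ A4 I) (A5 I)
          have c2 := Finset.card_union_le ((A1 I ∪ A2 I) ∪ U I) (A4 I)
          have c3 := Finset.card_union_le (A1 I ∪ A2 I) (U I)
          have c4 := Finset.card_union_le (A1 I) (A2 I)
          have c5 := hA1 I hI
          have c6 := hA2 I hI
          have c7 := (h1 I hI).2.2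
          omega
      _ = n * ∑ I ∈ stables n r, (heavyL r M I).card +
            n * ∑ I ∈ stables n r, (heavyU r M I).card +
            θ * s + ∑ I ∈ stables n r, (A4 I).card + ∑ I ∈ stables n r, (A5 I).card := by
          rw [Finset.sum_add_distrib, Finset.sum_add_distrib, Finset.sum_add_distrib,
            Finset.sum_add_distrib, ← Finset.mul_sum, ← Finset.mul_sum, Finset.sum_const,
            smul_eq_mul, mul_comm s θ]
      _ ≤ _ := by omega
  calc M * ∑ I ∈ stables n r, (lev r 1 I).card
      ≤ M * (n * ∑ I ∈ stables n r, (heavyL r M I).card +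
        n * ∑ I ∈ stables n r, (heavyU r M I).card + θ * s + W.card + W.card) :=
        Nat.mul_le_mul_left _ htot
    _ = M * (θ * s) + M * (n * ∑ I ∈ stables n r, (heavyL r M I).card) +
        M * (n * ∑ I ∈ stables n r, (heavyU r M I).card) + 2 * (M * W.card) := by ring
    _ ≤ _ := by omega

end Pool.Agent.H8.VM
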