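import Pool.Agent.H8.VM.A1_KW
import Pool.Agent.H8.VM.B5_HeavyBound
import Pool.Agent.H8.VM.B6_Dual
import Pool.Agent.H8.VM.B7_N1Raw

/-! MODULE B8 (about 200 lines, choice of parameters).

Let `ε = η/8` and `K` a large constant (`K >= 4000/η`). For `n` large, `n/13 <= r <= n/2`:
* `θ = floor (ε N log n / n)`; if `U.card > θ` then `2 N <= U.card * (n-r+1)` for large `n`, so
  `Pool.Agent.H28.Johnson.deg_large` with `δ = 1` gives the degree condition of `kw_run` with
  `β = r (n-r+1)/(2 N) >= n^2/(52 N)` (`β <= 1` for large `n`).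
* `q = ceil (log n / β)`: `(1-β)^q N <= exp(-β q) N <= N/n <= θ` (large `n`);
  `q <= 53 N log n / n^2 + 1`.
* `M = ceil (n/K)`; `heavy_bound K` for `(n, r)` and, through `dual_heavy`, for `(n, n - r)`
  (`(n.choose (n-r)) = N`, `card_stables_compl`).
* `n1_raw` divided by `M`: average of `lev 1` `<= θ + 2 n C N/n^2 + 8 M q + 2 N/M`
  `<= (ε + 8 * 2 * 54 / K) N log n/n + (2 C + 2 K) N/n <= η N log n / n` for large `n`. -/

open scoped BigOperators
open Filter

namespace Pool.Agent.H8.VM

open Pool.Agent.H28.Johnson Pool.Agent.H28.KW Pool.Agent.H28.Windows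

/-- lower bound for the binomial coefficients -/
private lemma b8_choose_ge {n r : ℕ} (hr : 2 ≤ r) (hrn : 2 * r ≤ n) :
    (n : ℝ) ^ 2 / 4 ≤ (n.choose r : ℝ) := by
  have h1 : ∀ k, 2 ≤ k → 2 * k ≤ n → n.choose 2 ≤ n.choose k := by
    intro k hk
    induction k, hk using Nat.le_induction with
    | base => intro _; exact le_rfl
    | succ k hk ih =>
      intro h
      exact (ih (by omega)).trans (Nat.choose_le_succ_of_lt_half_left (by omega))
  have h2 := h1 r hr hrn
  have h3 : ((n.choose 2 : ℕ) : ℝ) = (n : ℝ) * (n - 1) / 2 := Nat.cast_choose_two ℝ n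
  have h4 : ((n.choose 2 : ℕ) : ℝ) ≤ (n.choose r : ℝ) := by exact_mod_cast h2
  have h5 : (4 : ℝ) ≤ n := by
    have : 4 ≤ n := by omega
    exact_mod_cast this
  rw [h3] at h4
  nlinarith

/-- the final arithmetic -/
private lemma b8_arith {η K C n N L M θ q A B s X : ℝ} (hη : 0 < η) (hK : 1 ≤ K) (hKη : 6656 ≤ η * K)
    (_hC : 0 < C) (hn : 0 < n) (hN : n ^ 2 / 4 ≤ N) (hL1 : 4 * (2 * C + 2 * K) ≤ η * L)
    (hL2 : 256 ≤ η * L) (hM0 : 0 < M) (hM1 : n ≤ K * M) (hM2 : K * M ≤ 2 * n)
    (hθ : θ * n ≤ η / 8 * N * L) (hq0 : 0 ≤ q) (hq : q * n ^ 2 ≤ 52 * N * L + n ^ 2)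
    (hs : 0 ≤ s) (hA : A * n ^ 2 ≤ C * N * s) (hB : B * n ^ 2 ≤ C * N * s)
    (hX : M * X ≤ M * (θ * s) + M * (n * A) + M * (n * B) + 8 * (M ^ 2 * (q * s)) + 2 * (N * s)) :
    X ≤ η * (N * L / n) * s := by
  have hN0 : 0 < N := lt_of_lt_of_le (by positivity) hN
  have hL0 : 0 < L := by
    by_contra h
    push Not at h
    nlinarith
  have hgoal : M * X * n ≤ M * (η * (N * L) * s) := by
    have e1 : M * (θ * s) * n ≤ M * s * (η / 8 * N * L) := by
      have : M * (θ * s) * n = M * s * (θ * n) := by ring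
      rw [this]
      exact mul_le_mul_of_nonneg_left hθ (by positivity)
    have e2 : M * (n * A) * n ≤ M * (C * N * s) := by
      have : M * (n * A) * n = M * (A * n ^ 2) := by ring
      rw [this]
      exact mul_le_mul_of_nonneg_left hA hM0.le
    have e3 : M * (n * B) * n ≤ M * (C * N * s) := by
      have : M * (n * B) * n = M * (B * n ^ 2) := by ring
      rw [this]
      exact mul_le_mul_of_nonneg_left hB hM0.le
    have e4 : 2 * (N * s) * n ≤ M * s * (2 * K * N) := by
      have h := mul_le_mul_of_nonneg_left hM1 (show 0 ≤ 2 * (N * s) by positivity)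
      calc 2 * (N * s) * n ≤ 2 * (N * s) * (K * M) := h
        _ = M * s * (2 * K * N) := by ring
    have e5 : 8 * (M ^ 2 * (q * s)) * n ≤ M * s * (η / 8 * N * L + η / 4 * N * L) := by
      -- `8 M q n <= 16 n^2 q / K <= (16/K) (52 N L + n^2)`
      have h1 : 8 * M * q * n * K ≤ 16 * (52 * N * L + n ^ 2) := by
        have h2 : 8 * M * q * n * K = 8 * (q * n) * (K * M) := by ring
        have h3 : 8 * (q * n) * (K * M) ≤ 8 * (q * n) * (2 * n) :=
          mul_le_mul_of_nonneg_left hM2 (by positivity)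
        rw [h2]
        nlinarith
      have h4 : 16 * (52 * N * L + n ^ 2) ≤ (η / 8 * N * L + η / 4 * N * L) * K := by
        have h5 : 16 * (52 * (N * L)) ≤ η / 8 * (N * L) * K := by
          have : 0 ≤ N * L := by positivity
          nlinarith
        have h6 : 16 * n ^ 2 ≤ η / 4 * (N * L) * K := by
          have h7 : 256 * N ≤ η * L * N := mul_le_mul_of_nonneg_right hL2 hN0.le
          have h8 : 16 * n ^ 2 ≤ η / 4 * (N * L) := by nlinarith
          have h9 : 0 ≤ η / 4 * (N * L) := by positivity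
          nlinarith
        linarith
      have h10 : 8 * M * q * n ≤ η / 8 * N * L + η / 4 * N * L := by
        have hKpos : 0 < K := by linarith
        have := h1.trans h4
        exact le_of_mul_le_mul_right this hKpos
      have h11 := mul_le_mul_of_nonneg_left h10 (show 0 ≤ M * s by positivity)
      calc 8 * (M ^ 2 * (q * s)) * n = M * s * (8 * M * q * n) := by ring
        _ ≤ _ := h11
    have e6 : M * (C * N * s) + M * (C * N * s) + M * s * (2 * K * N) ≤ M * s * (η / 4 * N * L) := by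
      have h1 : (2 * C + 2 * K) * N ≤ η / 4 * N * L := by nlinarith
      have h2 := mul_le_mul_of_nonneg_left h1 (show 0 ≤ M * s by positivity)
      calc M * (C * N * s) + M * (C * N * s) + M * s * (2 * K * N)
          = M * s * ((2 * C + 2 * K) * N) := by ring
        _ ≤ _ := h2
    have e7 : M * X * n ≤ (M * (θ * s) + M * (n * A) + M * (n * B) + 8 * (M ^ 2 * (q * s)) +
        2 * (N * s)) * n := mul_le_mul_of_nonneg_right hX hn.le
    have e8 : 0 ≤ M * s * (η * N * L) := by positivity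
    nlinarith
  have h1 : M * (X * n) ≤ M * (η * (N * L) * s) := by
    calc M * (X * n) = M * X * n := by ring
      _ ≤ _ := hgoal
  have h2 : X * n ≤ η * (N * L) * s := le_of_mul_le_mul_left h1 hM0
  have h3 : η * (N * L / n) * s = η * (N * L) * s / n := by ring
  rw [h3, le_div_iff₀ hn]
  exact h2

theorem n1_small (η : ℝ) (hη : 0 < η) : ∀ᶠ n : ℕ in atTop, ∀ r : ℕ, n ≤ 13 * r → 2 * r ≤ n →
    ((∑ I ∈ stables n r, (lev r 1 I).card : ℕ) : ℝ) ≤
      η * ((n.choose r : ℝ) * Real.log n / n) * (stables n r).card := by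
  classical
  set K : ℝ := max 1 (6656 / η) with hKdef
  have hK1 : 1 ≤ K := le_max_left _ _
  have hKη : 6656 ≤ η * K := by
    have h1 : 6656 / η ≤ K := le_max_right _ _
    rw [div_le_iff₀ hη] at h1
    linarith
  obtain ⟨C, hC, hev⟩ := heavy_bound K hK1
  have hlog : Tendsto (fun n : ℕ => Real.log (n : ℝ)) atTop atTop :=
    Real.tendsto_log_atTop.comp tendsto_natCast_atTop_atTop
  filter_upwards [hev, hlog.eventually_ge_atTop (256 / η),
    hlog.eventually_ge_atTop (4 * (2 * C + 2 * K) / η), eventually_ge_atTop 26,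
    tendsto_natCast_atTop_atTop.eventually_ge_atTop K] with n hhb hL2' hL1' hn26 hnK r hr13 hr2
  set L := Real.log (n : ℝ) with hLdef
  have hL2 : 256 ≤ η * L := by
    rw [div_le_iff₀ hη] at hL2'
    linarith
  have hL1 : 4 * (2 * C + 2 * K) ≤ η * L := by
    rw [div_le_iff₀ hη] at hL1'
    linarith
  have hr_ge : 2 ≤ r := by omega
  have hrn : r ≤ n := by omega
  have hn0 : (0 : ℝ) < n := by
    have : 0 < n := by omega
    exact_mod_cast this
  have hN4 := b8_choose_ge hr_ge hr2
  set N : ℝ := (n.choose r : ℝ) with hNdef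
  have hN0 : 0 < N := lt_of_lt_of_le (by positivity) hN4
  have hL0 : 0 < L := by
    by_contra h
    push Not at h
    nlinarith
  have hn26' : (26 : ℝ) ≤ n := by exact_mod_cast hn26
  have hr13' : (n : ℝ) ≤ 13 * r := by exact_mod_cast hr13
  have hr2' : 2 * (r : ℝ) ≤ n := by exact_mod_cast hr2
  have hr0 : (0 : ℝ) < r := by linarith
  -- the parameters
  set θ : ℕ := ⌊η / 8 * N * L / n⌋₊ with hθdef
  have hθup : (θ : ℝ) ≤ η / 8 * N * L / n := Nat.floor_le (by positivity)
  have hθlow : η / 8 * N * L / n < θ + 1 := Nat.lt_floor_add_one _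
  set β : ℝ := 1 * r * (n - r + 1) / ((1 + 1) * (n.choose r : ℝ)) with hβdef
  have hD : (n : ℝ) / 2 ≤ n - r + 1 := by linarith
  have hD0 : (0 : ℝ) < n - r + 1 := by linarith
  have hβ0 : 0 < β := by
    rw [hβdef]
    have : (0 : ℝ) < n.choose r := hN0
    positivity
  have hβ1 : β ≤ 1 := by
    rw [hβdef, div_le_one (by have : (0 : ℝ) < n.choose r := hN0; positivity)]
    have h1 : (r : ℝ) * (n - r + 1) ≤ n / 2 * n := by
      have h2 : (n : ℝ) - r + 1 ≤ n := by
        have : (1 : ℝ) ≤ r := by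
          have : 1 ≤ r := by omega
          exact_mod_cast this
        linarith
      have h3 : (r : ℝ) ≤ n / 2 := by linarith
      nlinarith
    have h4 : (n : ℝ) ^ 2 / 4 ≤ (n.choose r : ℝ) := hN4
    nlinarith
  set q : ℕ := ⌈L / β⌉₊ with hqdef
  have hqlow : L / β ≤ q := Nat.le_ceil _
  have hqup : (q : ℝ) ≤ L / β + 1 := (Nat.ceil_lt_add_one (by positivity)).le
  set M : ℕ := ⌈(n : ℝ) / K⌉₊ with hMdef
  have hKpos : 0 < K := by linarith
  have hMlow : (n : ℝ) / K ≤ M := Nat.le_ceil _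
  have hMup : (M : ℝ) ≤ n / K + 1 := (Nat.ceil_lt_add_one (by positivity)).le
  have hM1 : (n : ℝ) ≤ K * M := by
    rw [div_le_iff₀ hKpos] at hMlow
    linarith
  have hM2 : K * (M : ℝ) ≤ 2 * n := by
    have h1 : K * (M : ℝ) ≤ K * (n / K + 1) := mul_le_mul_of_nonneg_left hMup hKpos.le
    have h2 : K * ((n : ℝ) / K + 1) = n + K := by field_simp
    linarith
  have hM0 : (0 : ℝ) < M := by
    by_contra h
    push Not at h
    nlinarith
  have hMnat : 1 ≤ M := by
    have : 0 < M := by exact_mod_cast hM0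
    omega
  -- the run
  have hdeg : ∀ U ⊆ Base n r, θ < U.card →
      ∃ v ∈ U, β * (U.card : ℝ) ≤ ((U.filter fun u => adj r v u).card : ℝ) := by
    intro U hU hcard
    refine deg_large (by omega) hrn 1 one_pos U hU ?_
    have h1 : (θ : ℝ) + 1 ≤ U.card := by exact_mod_cast hcard
    have h2 : η / 8 * N * L / n ≤ U.card := by linarith
    rw [div_le_iff₀ hn0] at h2
    have h3 : 256 * N ≤ η * L * N := mul_le_mul_of_nonneg_right hL2 hN0.le
    have h4 : (U.card : ℝ) * (n / 2) ≤ U.card * (n - r + 1) :=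
      mul_le_mul_of_nonneg_left hD (Nat.cast_nonneg _)
    nlinarith
  have hq : (1 - β) ^ q * ((Base n r).card : ℝ) ≤ θ := by
    rw [card_Base]
    have h1 : (1 - β) ^ q ≤ Real.exp (-L) := by
      have h2 : 1 - β ≤ Real.exp (-β) := Real.one_sub_le_exp_neg β
      calc (1 - β) ^ q ≤ (Real.exp (-β)) ^ q := pow_le_pow_left₀ (by linarith) h2 q
        _ = Real.exp (-(β * q)) := by
          rw [← Real.exp_nat_mul]
          congr 1
          ring
        _ ≤ Real.exp (-L) := by
          apply Real.exp_le_exp.mpr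
          rw [div_le_iff₀ hβ0] at hqlow
          linarith
    have h3 : Real.exp (-L) = 1 / n := by
      rw [Real.exp_neg, hLdef, Real.exp_log hn0, one_div]
    have h4 : (1 - β) ^ q * N ≤ 1 / n * N := by
      rw [← h3]
      exact mul_le_mul_of_nonneg_right h1 hN0.le
    refine h4.trans ?_
    have h5 : η / 8 * N * L / n - 1 ≤ θ := by linarith
    refine le_trans ?_ h5
    rw [le_sub_iff_add_le]
    have h6 : 1 / (n : ℝ) * N + 1 = (N + n) / n := by field_simp
    rw [h6]
    apply div_le_div_of_nonneg_right _ hn0.le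
    have h7 : 256 * N ≤ η * L * N := mul_le_mul_of_nonneg_right hL2 hN0.le
    nlinarith
  obtain ⟨F, U, hFU1, hFU2, hFU3⟩ := kw_run (adj r) (fun a => adj_irrefl a)
    (fun a b h => adj_symm h) (Base n r) θ β hβ0 hβ1 hdeg q hq
  have hraw := n1_raw (n := n) (r := r) (M := M) (θ := θ) (q := q) (by omega) hMnat F U
    (fun I hI => by
      rw [mem_stables] at hI
      obtain ⟨h1, h2, -, h3⟩ := hFU1 I hI.1 hI.2
      exact ⟨h1, h2, h3⟩)
    (fun I hI z hz => by
      rw [mem_stables] at hI
      rw [mem_addable] at hz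
      exact hFU2 I hI.1 hI.2 z hz.1 hz.2.1 hz.2.2)
    (fun I hI u hu huF => by
      rw [mem_stables] at hI
      exact hFU3 I hI.1 hI.2 u hu huF)
  -- the heavy lines
  have hA := hhb r M hr13 (by omega) hM1
  have hB := hhb (n - r) M (by omega) (by omega) hM1
  rw [← dual_heavy (by omega) (by omega), card_stables_compl hrn, Nat.choose_symm hrn] at hB
  have hraw' : (M : ℝ) * ((∑ I ∈ stables n r, (lev r 1 I).card : ℕ) : ℝ) ≤
      M * (θ * (stables n r).card) + M * (n * ((∑ I ∈ stables n r, (heavyL r M I).card : ℕ) : ℝ)) +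
      M * (n * ((∑ I ∈ stables n r, (heavyU r M I).card : ℕ) : ℝ)) +
      8 * (M ^ 2 * (q * (stables n r).card)) + 2 * (N * (stables n r).card) := by
    rw [hNdef]
    exact_mod_cast hraw
  refine b8_arith hη hK1 hKη hC hn0 hN4 hL1 hL2 hM0 hM1 hM2 ?_ (Nat.cast_nonneg q) ?_
    (Nat.cast_nonneg _) ?_ ?_ hraw'
  · rw [le_div_iff₀ hn0] at hθup
    exact hθup
  · have h1 : L / β * n ^ 2 ≤ 52 * N * L := by
      rw [div_mul_eq_mul_div, div_le_iff₀ hβ0]
      have h2 : (n : ℝ) ^ 2 ≤ 52 * N * β := by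
        have h3 : 52 * N * β = 26 * (r * (n - r + 1)) := by
          rw [hβdef]
          have : (n.choose r : ℝ) ≠ 0 := hN0.ne'
          field_simp
          ring
        rw [h3]
        have h4 : (n : ℝ) / 13 * (n / 2) ≤ r * (n - r + 1) :=
          mul_le_mul (by linarith) hD (by positivity) hr0.le
        nlinarith
      calc L * (n : ℝ) ^ 2 ≤ L * (52 * N * β) := mul_le_mul_of_nonneg_left h2 hL0.le
        _ = 52 * N * L * β := by ring
    have h5 : (q : ℝ) * n ^ 2 ≤ (L / β + 1) * n ^ 2 :=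
      mul_le_mul_of_nonneg_right hqup (by positivity)
    linarith
  · have h1 : C * (N / (n : ℝ) ^ 2) * (stables n r).card =
        C * N * (stables n r).card / (n : ℝ) ^ 2 := by ring
    rw [h1, le_div_iff₀ (by positivity)] at hA
    exact hA
  · have h1 : C * (N / (n : ℝ) ^ 2) * (stables n r).card =
        C * N * (stables n r).card / (n : ℝ) ^ 2 := by ring
    rw [h1, le_div_iff₀ (by positivity)] at hB
    exact hB

end Pool.Agent.H8.VM
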