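import Pool.Agent.H8.VM.Defs

/-! MODULE C1 (about 200 lines). Fillings with prescribed occupied rows.

`w` is a stable family without members in `N[S]`; `fillings r w S` = sets `J` of neighbours of
`S` with `w cup J` stable. Row `x` (for `x` in `S`) of the grid `N(S)` = neighbours of `S` not
containing `x` = sets `S - x + y`; column `y` = neighbours containing `y` (`y` not in `S`). Two
neighbours of `S` are adjacent iff they are in the same row or in the same column (not both).
Let `A_x` = set of `v` in row `x` without neighbours in `w`. A filling `J'` has at most one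
element in each row, and it lies in `A_x`; so the number of `J'` with `rows S J' = O` is at most
`prod_(x in O) |A_x|`. Now take `O = rows S J`, `x` in `O`, `u_x` the element of `J` in row `x`.
An element `v <> u_x` of `A_x` has in `w cup J` exactly the neighbours `u_x` and, possibly, one
element `u'` of `J` in the column of `v`; so it belongs to `psiset r (w cup J) S` (first or second
alternative; same row: `u cap S = v cap S = S - x`; same column: `u' cup S = v cup S = S + y`).
Hence `|A_x| <= 1 + p_x <= 2^(p_x)`, `p_x` = number of elements of `psiset` in row `x`, and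
`sum_x p_x <= |psiset|`. -/

open scoped BigOperators

namespace Pool.Agent.H8.VM

open Pool.Agent.H28.Johnson Pool.Agent.H28.KW Pool.Agent.H28.Windows

/-- the neighbours of `S` form a grid -/
lemma nbh_form {n r : ℕ} {S v : Finset (Fin n)} (hS : S ∈ Base n r) (hv : v ∈ nbh r S) :
    ∃ x ∈ S, ∃ y, y ∉ S ∧ v = insert y (S.erase x) := by
  rw [mem_nbh] at hv
  have h1 := (adj_iff hS hv.1).mp hv.2
  have hSc := mem_Base.mp hS
  have hvc := mem_Base.mp hv.1
  have h2 : (S \ v).card = 1 := by
    have := Finset.card_sdiff_add_card_inter S v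
    omega
  have h3 : (v \ S).card = 1 := by
    have := Finset.card_sdiff_add_card_inter v S
    rw [Finset.inter_comm] at this
    omega
  obtain ⟨x, hx⟩ := Finset.card_eq_one.mp h2
  obtain ⟨y, hy⟩ := Finset.card_eq_one.mp h3
  have hxS : x ∈ S \ v := by rw [hx]; exact Finset.mem_singleton_self x
  have hyv : y ∈ v \ S := by rw [hy]; exact Finset.mem_singleton_self y
  rw [Finset.mem_sdiff] at hxS hyv
  refine ⟨x, hxS.1, y, hyv.2, ?_⟩
  ext z
  have h4 : z ∈ S \ v ↔ z = x := by rw [hx, Finset.mem_singleton]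
  have h5 : z ∈ v \ S ↔ z = y := by rw [hy, Finset.mem_singleton]
  rw [Finset.mem_sdiff] at h4 h5
  rw [Finset.mem_insert, Finset.mem_erase]
  tauto

lemma notMem_form {n : ℕ} {S : Finset (Fin n)} {x y z : Fin n} (hy : y ∉ S)
    (hz : z ∈ S) (h : z ∉ insert y (S.erase x)) : z = x := by
  by_contra hne
  exact h (Finset.mem_insert_of_mem (Finset.mem_erase.mpr ⟨hne, hz⟩))

/-- a neighbour of `S` in row `x` -/
lemma row_form {n r : ℕ} {S v : Finset (Fin n)} (hS : S ∈ Base n r) (hv : v ∈ nbh r S)
    {x : Fin n} (hx : x ∈ S) (hxv : x ∉ v) : ∃ y, y ∉ S ∧ v = insert y (S.erase x) := by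
  obtain ⟨x', _, y, hy, rfl⟩ := nbh_form hS hv
  have := notMem_form hy hx hxv
  subst this
  exact ⟨y, hy, rfl⟩

lemma adj_row {n r : ℕ} {S : Finset (Fin n)} (hS : S ∈ Base n r) {x y y' : Fin n} (hx : x ∈ S)
    (hy : y ∉ S) (hy' : y' ∉ S) (hne : y ≠ y') :
    adj r (insert y (S.erase x)) (insert y' (S.erase x)) := by
  refine adj_insert ?_ (fun h => hy (Finset.mem_of_mem_erase h))
    (fun h => hy' (Finset.mem_of_mem_erase h)) hne
  rw [Finset.card_erase_add_one hx]
  exact mem_Base.mp hS

lemma adj_col {n r : ℕ} {S : Finset (Fin n)} (hS : S ∈ Base n r) {x x' y : Fin n} (hx : x ∈ S)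
    (hx' : x' ∈ S) (hy : y ∉ S) (hne : x ≠ x') :
    adj r (insert y (S.erase x)) (insert y (S.erase x')) := by
  have hSc := mem_Base.mp hS
  refine ⟨fun h => ?_, ?_⟩
  · have h1 : x ∈ insert y (S.erase x) := by
      rw [h]; exact Finset.mem_insert_of_mem (Finset.mem_erase.mpr ⟨hne, hx⟩)
    rw [Finset.mem_insert] at h1
    rcases h1 with h1 | h1
    · exact hy (h1 ▸ hx)
    · exact (Finset.mem_erase.mp h1).1 rfl
  · have h2 : insert y ((S.erase x).erase x') ⊆ insert y (S.erase x) ∩ insert y (S.erase x') := by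
      intro z hz
      rw [Finset.mem_insert, Finset.mem_erase, Finset.mem_erase] at hz
      rw [Finset.mem_inter, Finset.mem_insert, Finset.mem_insert, Finset.mem_erase,
        Finset.mem_erase]
      tauto
    have h3 := Finset.card_le_card h2
    have h4 : (insert y ((S.erase x).erase x')).card = ((S.erase x).erase x').card + 1 :=
      Finset.card_insert_of_notMem fun h => hy (Finset.mem_of_mem_erase (Finset.mem_of_mem_erase h))
    have h5 : ((S.erase x).erase x').card + 1 = (S.erase x).card :=
      Finset.card_erase_add_one (Finset.mem_erase.mpr ⟨hne.symm, hx'⟩)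
    have h6 : (S.erase x).card + 1 = S.card := Finset.card_erase_add_one hx
    omega

lemma not_adj_diag {n r : ℕ} {S : Finset (Fin n)} (hS : S ∈ Base n r) {x x' y y' : Fin n}
    (hx : x ∈ S) (hx' : x' ∈ S) (hy : y ∉ S) (hy' : y' ∉ S) (hne : x ≠ x') (hne' : y ≠ y') :
    ¬ adj r (insert y (S.erase x)) (insert y' (S.erase x')) := by
  have hSc := mem_Base.mp hS
  rintro ⟨_, h⟩
  have h2 : insert y (S.erase x) ∩ insert y' (S.erase x') ⊆ (S.erase x).erase x' := by
    intro z hz
    rw [Finset.mem_inter, Finset.mem_insert, Finset.mem_insert, Finset.mem_erase,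
      Finset.mem_erase] at hz
    rw [Finset.mem_erase, Finset.mem_erase]
    obtain ⟨h3, h4⟩ := hz
    rcases h3 with rfl | h3
    · rcases h4 with h4 | h4
      · exact absurd h4 hne'
      · exact absurd h4.2 hy
    · rcases h4 with rfl | h4
      · exact absurd h3.2 hy'
      · exact ⟨h4.1, h3⟩
  have h3 := Finset.card_le_card h2
  have h5 : ((S.erase x).erase x').card + 1 = (S.erase x).card :=
    Finset.card_erase_add_one (Finset.mem_erase.mpr ⟨hne.symm, hx'⟩)
  have h6 : (S.erase x).card + 1 = S.card := Finset.card_erase_add_one hx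
  omega

/-- elements of an occupied row without neighbours in `w` are in the `psiset` -/
lemma psi_of_row {n r : ℕ} {S : Finset (Fin n)} (hS : S ∈ Base n r)
    {w J : Finset (Finset (Fin n))} (hwJ : w ∪ J ∈ stables n r) (hJ : J ⊆ nbh r S)
    {u v : Finset (Fin n)} (hu : u ∈ J) (hv : v ∈ nbh r S) (hvw : ∀ z ∈ w, ¬ adj r v z)
    {x : Fin n} (hx : x ∈ S) (hxu : x ∉ u) (hxv : x ∉ v) (hne : v ≠ u) :
    v ∈ psiset r (w ∪ J) S := by
  have hst := (mem_stables.mp hwJ).2
  have hJst : ∀ a ∈ J, ∀ b ∈ J, ¬ adj r a b := fun a ha b hb =>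
    hst a (Finset.mem_union_right _ ha) b (Finset.mem_union_right _ hb)
  obtain ⟨y1, hy1, hu1⟩ := row_form hS (hJ hu) hx hxu
  obtain ⟨y2, hy2, hv1⟩ := row_form hS hv hx hxv
  have hy12 : y2 ≠ y1 := by
    rintro rfl
    exact hne (hv1.trans hu1.symm)
  have hadj : adj r v u := by rw [hu1, hv1]; exact adj_row hS hx hy2 hy1 hy12
  have htr : u ∩ S = v ∩ S := by
    rw [hu1, hv1]
    ext z
    rw [Finset.mem_inter, Finset.mem_inter, Finset.mem_insert, Finset.mem_insert]
    constructor
    · rintro ⟨rfl | h, h'⟩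
      · exact absurd h' hy1
      · exact ⟨Or.inr h, h'⟩
    · rintro ⟨rfl | h, h'⟩
      · exact absurd h' hy2
      · exact ⟨Or.inr h, h'⟩
  -- neighbours other than `u` are in the column of `v`
  have hcol : ∀ z ∈ J, z ≠ u → adj r v z → ∃ x' ∈ S, x' ≠ x ∧ z = insert y2 (S.erase x') := by
    intro z hz hzu hvz
    obtain ⟨x', hx', y', hy', hz1⟩ := nbh_form hS (hJ hz)
    have hxx : x' ≠ x := by
      rintro rfl
      refine hJst z hz u hu ?_
      rw [hz1, hu1]
      refine adj_row hS hx' hy' hy1 ?_
      rintro rfl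
      exact hzu (hz1.trans hu1.symm)
    refine ⟨x', hx', hxx, ?_⟩
    rw [hz1]
    by_cases hyy : y2 = y'
    · rw [hyy]
    · exfalso
      rw [hz1, hv1] at hvz
      exact not_adj_diag hS hx hx' hy2 hy' hxx.symm hyy hvz
  rw [mem_psiset]
  refine ⟨hv, ?_⟩
  by_cases hex : ∃ u' ∈ J, u' ≠ u ∧ adj r v u'
  · right
    obtain ⟨u', hu', huu, hvu'⟩ := hex
    obtain ⟨x', hx', hxx', hu'1⟩ := hcol u' hu' huu hvu'
    refine ⟨u, Finset.mem_union_right _ hu, u', Finset.mem_union_right _ hu', huu.symm, ?_,
      htr, ?_⟩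
    · ext z
      rw [mem_nbr, Finset.mem_union, Finset.mem_insert, Finset.mem_singleton]
      constructor
      · rintro ⟨hz | hz, hvz⟩
        · exact absurd hvz (hvw z hz)
        · by_cases hzu : z = u
          · exact Or.inl hzu
          · right
            obtain ⟨x'', hx'', _, hz1⟩ := hcol z hz hzu hvz
            by_contra hzu'
            refine hJst z hz u' hu' ?_
            rw [hz1, hu'1]
            refine adj_col hS hx'' hx' hy2 ?_
            rintro rfl
            exact hzu' (hz1.trans hu'1.symm)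
      · rintro (rfl | rfl)
        · exact ⟨Or.inr hu, hadj⟩
        · exact ⟨Or.inr hu', hvu'⟩
    · rw [hu'1, hv1]
      ext z
      rw [Finset.mem_union, Finset.mem_union, Finset.mem_insert, Finset.mem_insert,
        Finset.mem_erase, Finset.mem_erase]
      tauto
  · left
    refine ⟨u, Finset.mem_union_right _ hu, ?_, htr⟩
    ext z
    rw [mem_nbr, Finset.mem_union, Finset.mem_singleton]
    constructor
    · rintro ⟨hz | hz, hvz⟩
      · exact absurd hvz (hvw z hz)
      · by_contra hzu
        exact hex ⟨z, hz, hzu, hvz⟩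
    · rintro rfl
      exact ⟨Or.inr hu, hadj⟩

open Classical in
theorem cost_occ {n r : ℕ} {S : Finset (Fin n)} (hS : S ∈ Base n r)
    {w : Finset (Finset (Fin n))} (hw : w ∈ stables n r) (hwS : ∀ u ∈ w, u ≠ S ∧ ¬ adj r S u)
    {J : Finset (Finset (Fin n))} (hJ : J ∈ fillings r w S) :
    ((fillings r w S).filter fun J' => rows S J' = rows S J).card ≤
      2 ^ (psiset r (w ∪ J) S).card := by
  have _ := hw
  have _ := hwS
  rw [mem_fillings] at hJ
  set P := psiset r (w ∪ J) S with hP
  let A : Fin n → Finset (Finset (Fin n)) := fun x =>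
    (nbh r S).filter fun v => x ∉ v ∧ ∀ z ∈ w, ¬ adj r v z
  let B : Fin n → Finset (Finset (Finset (Fin n))) := fun x =>
    if x ∈ rows S J then (A x).image (fun v => {v}) else {∅}
  let p : Fin n → ℕ := fun x => (P.filter fun v => x ∉ v).card
  -- the injection
  have hinj : ((fillings r w S).filter fun J' => rows S J' = rows S J).card ≤
      (Fintype.piFinset B).card := by
    refine Finset.card_le_card_of_injOn
      (fun J' x => J'.filter fun u => x ∈ S ∧ x ∉ u) ?_ ?_
    · intro J' hJ'
      rw [Finset.mem_coe, Finset.mem_filter, mem_fillings] at hJ'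
      obtain ⟨⟨hJ'1, hJ'2⟩, hrows⟩ := hJ'
      have hst := (mem_stables.mp hJ'2).2
      rw [Finset.mem_coe, Fintype.mem_piFinset]
      intro x
      change (J'.filter fun u => x ∈ S ∧ x ∉ u) ∈
        (if x ∈ rows S J then (A x).image (fun v => {v}) else {∅})
      by_cases hx : x ∈ rows S J
      · rw [if_pos hx]
        rw [← hrows, mem_rows] at hx
        obtain ⟨hxS, u, hu, hxu⟩ := hx
        rw [Finset.mem_image]
        refine ⟨u, ?_, ?_⟩
        · change u ∈ (nbh r S).filter fun v => x ∉ v ∧ ∀ z ∈ w, ¬ adj r v z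
          rw [Finset.mem_filter]
          exact ⟨hJ'1 hu, hxu, fun z hz => hst u (Finset.mem_union_right _ hu) z
            (Finset.mem_union_left _ hz)⟩
        · ext z
          rw [Finset.mem_singleton, Finset.mem_filter]
          constructor
          · rintro rfl
            exact ⟨hu, hxS, hxu⟩
          · rintro ⟨hz, _, hxz⟩
            obtain ⟨y1, hy1, h1⟩ := row_form hS (hJ'1 hu) hxS hxu
            obtain ⟨y2, hy2, h2⟩ := row_form hS (hJ'1 hz) hxS hxz
            by_contra hne
            refine hst z (Finset.mem_union_right _ hz) u (Finset.mem_union_right _ hu) ?_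
            rw [h1, h2]
            refine adj_row hS hxS hy2 hy1 ?_
            rintro rfl
            exact hne (h2.trans h1.symm)
      · rw [if_neg hx, Finset.mem_singleton, Finset.filter_eq_empty_iff]
        rintro u hu ⟨hxS, hxu⟩
        rw [← hrows, mem_rows] at hx
        exact hx ⟨hxS, u, hu, hxu⟩
    · intro J1 h1 J2 h2 heq
      rw [Finset.mem_coe, Finset.mem_filter, mem_fillings] at h1 h2
      have key : ∀ J1 J2 : Finset (Finset (Fin n)), J1 ⊆ nbh r S →
          (∀ x, (J1.filter fun u => x ∈ S ∧ x ∉ u) = (J2.filter fun u => x ∈ S ∧ x ∉ u)) →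
          J1 ⊆ J2 := by
        intro J1 J2 h1 heq u hu
        obtain ⟨x, hx, y, hy, hu1⟩ := nbh_form hS (h1 hu)
        have h3 : u ∈ J1.filter fun u => x ∈ S ∧ x ∉ u := by
          rw [Finset.mem_filter]
          refine ⟨hu, hx, ?_⟩
          rw [hu1, Finset.mem_insert, Finset.mem_erase]
          rintro (h | h)
          · exact hy (h ▸ hx)
          · exact h.1 rfl
        rw [heq x, Finset.mem_filter] at h3
        exact h3.1
      have heq' : ∀ x, (J1.filter fun u => x ∈ S ∧ x ∉ u) =
          (J2.filter fun u => x ∈ S ∧ x ∉ u) := fun x => congrFun heq x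
      exact Finset.Subset.antisymm (key J1 J2 h1.1.1 heq')
        (key J2 J1 h2.1.1 fun x => (heq' x).symm)
  refine hinj.trans ?_
  rw [Fintype.card_piFinset]
  have hB : ∀ x, (B x).card ≤ 2 ^ (if x ∈ S then p x else 0) := by
    intro x
    change (if x ∈ rows S J then (A x).image (fun v => ({v} : Finset (Finset (Fin n))))
      else {∅}).card ≤ _
    by_cases hx : x ∈ rows S J
    · rw [if_pos hx]
      rw [mem_rows] at hx
      obtain ⟨hxS, u, hu, hxu⟩ := hx
      rw [if_pos hxS]
      have h1 : A x ⊆ insert u (P.filter fun v => x ∉ v) := by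
        intro v hv
        change v ∈ (nbh r S).filter fun v => x ∉ v ∧ ∀ z ∈ w, ¬ adj r v z at hv
        rw [Finset.mem_filter] at hv
        rw [Finset.mem_insert]
        by_cases hvu : v = u
        · exact Or.inl hvu
        · right
          rw [Finset.mem_filter]
          exact ⟨psi_of_row hS hJ.2 hJ.1 hu hv.1 hv.2.2 hxS hxu hv.2.1 hvu, hv.2.1⟩
      calc ((A x).image fun v => ({v} : Finset (Finset (Fin n)))).card ≤ (A x).card :=
            Finset.card_image_le
        _ ≤ (insert u (P.filter fun v => x ∉ v)).card := Finset.card_le_card h1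
        _ ≤ p x + 1 := Finset.card_insert_le _ _
        _ ≤ 2 ^ p x := Nat.lt_two_pow_self
    · rw [if_neg hx, Finset.card_singleton]
      exact Nat.one_le_two_pow
  refine (Finset.prod_le_prod' fun x _ => hB x).trans ?_
  rw [Finset.prod_pow_eq_pow_sum]
  refine Nat.pow_le_pow_right (by norm_num) ?_
  rw [Finset.sum_ite_mem, Finset.univ_inter]
  change ∑ x ∈ S, (P.filter fun v => x ∉ v).card ≤ P.card
  simp_rw [Finset.card_filter]
  rw [Finset.sum_comm]
  refine (Finset.sum_le_sum (g := fun _ => 1) fun v hv => ?_).trans (by simp)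
  rw [hP, mem_psiset] at hv
  obtain ⟨x, hx, y, hy, hv1⟩ := nbh_form hS hv.1
  rw [← Finset.card_filter, Finset.card_le_one]
  intro a ha b hb
  rw [Finset.mem_filter] at ha hb
  rw [hv1] at ha hb
  rw [notMem_form hy ha.1 ha.2, notMem_form hy hb.1 hb.2]

end Pool.Agent.H8.VM
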