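import Pool.Agent.H8.VM.C1_Occ

/-! MODULE C2 (about 200 lines). Expensive sites are rare.

Group the pairs `(I, S)`, `S` in `Base n r`, `S` not in `I`, by `(w, S)`, `w = outside r I S`: the
map `I -> I cap N(S)` is a bijection from the stable `I` with `outside r I S = w`, `S` not in `I`,
onto `fillings r w S` (inverse `J -> w cup J`), and `Lam r I S = (fillings r w S).card =: Λ`.
Let `Λ > 2^(r+t)`, `t >= 1`. For `O` contained in `S` let `Λ_O` be the number of fillings with
`rows S J = O`. The fillings `J` with `Λ_(rows J) <= 2^(t-1)` are at most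
`2^r * 2^(t-1) < Λ/2` (there are `2^r` sets `O`). For all other `J`,
`2^(t-1) < Λ_(rows J) <= 2^(psi)` by `cost_occ`, `psi = (psiset r (w cup J) S).card`, so
`psi >= t`. Hence `t Λ <= 2 * sum_J psi(w cup J)`. Sum over `(w, S)`. -/

open scoped BigOperators

namespace Pool.Agent.H8.VM

open Pool.Agent.H28.Johnson Pool.Agent.H28.KW Pool.Agent.H28.Windows

open Classical in
/-- many fillings force a large average of `psiset` -/
lemma cost_fill {n r t : ℕ} {S : Finset (Fin n)} (hS : S ∈ Base n r)
    {w : Finset (Finset (Fin n))} (hw : w ∈ stables n r) (hwS : ∀ u ∈ w, u ≠ S ∧ ¬ adj r S u)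
    (h : 2 ^ (r + (t + 1)) < (fillings r w S).card) :
    (t + 1) * (fillings r w S).card ≤
      2 * ∑ J ∈ fillings r w S, (psiset r (w ∪ J) S).card := by
  set F := fillings r w S with hF
  set G := F.filter fun J => 2 ^ t < (F.filter fun J' => rows S J' = rows S J).card with hG
  -- the few cheap fillings
  have hbad : (F.filter fun J => ¬ 2 ^ t < (F.filter fun J' => rows S J' = rows S J).card).card ≤
      2 ^ r * 2 ^ t := by
    rw [Finset.card_eq_sum_card_fiberwise (f := rows S) (t := S.powerset)]
    · refine (Finset.sum_le_card_nsmul _ _ (2 ^ t) ?_).trans ?_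
      · intro O _
        by_cases hne : ((F.filter fun J =>
            ¬ 2 ^ t < (F.filter fun J' => rows S J' = rows S J).card).filter
              fun J => rows S J = O).Nonempty
        · obtain ⟨J, hJ⟩ := hne
          rw [Finset.mem_filter, Finset.mem_filter] at hJ
          obtain ⟨⟨_, h2⟩, rfl⟩ := hJ
          push Not at h2
          refine le_trans (Finset.card_le_card ?_) h2
          intro J' hJ'
          rw [Finset.mem_filter, Finset.mem_filter] at hJ'
          rw [Finset.mem_filter]
          exact ⟨hJ'.1.1, hJ'.2⟩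
        · rw [Finset.not_nonempty_iff_eq_empty.mp hne, Finset.card_empty]
          exact Nat.zero_le _
      · rw [Finset.card_powerset, mem_Base.mp hS, smul_eq_mul]
    · intro J _
      rw [Finset.mem_coe, Finset.mem_powerset]
      intro x hx
      exact (mem_rows.mp hx).1
  have hsplit : G.card + (F.filter fun J =>
      ¬ 2 ^ t < (F.filter fun J' => rows S J' = rows S J).card).card = F.card :=
    Finset.card_filter_add_card_filter_not _
  have h2 : F.card ≤ 2 * G.card := by
    have : 2 ^ (r + (t + 1)) = 2 * (2 ^ r * 2 ^ t) := by ring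
    omega
  have h3 : (t + 1) * G.card ≤ ∑ J ∈ F, (psiset r (w ∪ J) S).card := by
    calc (t + 1) * G.card = ∑ _J ∈ G, (t + 1) := by
          rw [Finset.sum_const, smul_eq_mul, mul_comm]
      _ ≤ ∑ J ∈ G, (psiset r (w ∪ J) S).card := by
          refine Finset.sum_le_sum fun J hJ => ?_
          rw [hG, Finset.mem_filter] at hJ
          have h4 := hJ.2.trans_le (cost_occ hS hw hwS hJ.1)
          exact (Nat.pow_lt_pow_iff_right (by norm_num)).mp h4
      _ ≤ ∑ J ∈ F, (psiset r (w ∪ J) S).card :=
          Finset.sum_le_sum_of_subset (Finset.filter_subset _ _)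
  calc (t + 1) * F.card ≤ (t + 1) * (2 * G.card) := Nat.mul_le_mul_left _ h2
    _ = 2 * ((t + 1) * G.card) := by ring
    _ ≤ _ := Nat.mul_le_mul_left _ h3

open Classical in
/-- the inequality at a fixed site -/
lemma cost_site {n r t : ℕ} {S : Finset (Fin n)} (hS : S ∈ Base n r) :
    (t + 1) * ((stables n r).filter fun I => S ∉ I ∧ 2 ^ (r + (t + 1)) < Lam r I S).card ≤
      2 * ∑ I ∈ stables n r, (psiset r I S).card := by
  set X := (stables n r).filter fun I => S ∉ I ∧ 2 ^ (r + (t + 1)) < Lam r I S with hX
  have hout : ∀ I ∈ stables n r, outside r I S ∈ stables n r := fun I hI =>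
    stable_subset hI fun u hu => (mem_outside.mp hu).1
  have h1 : X.card = ∑ w ∈ stables n r, (X.filter fun I => outside r I S = w).card :=
    Finset.card_eq_sum_card_fiberwise fun I hI => hout I (Finset.mem_filter.mp hI).1
  have h2 : ∑ w ∈ stables n r, ∑ I ∈ (stables n r).filter (fun I => outside r I S = w),
      (psiset r I S).card = ∑ I ∈ stables n r, (psiset r I S).card :=
    Finset.sum_fiberwise_of_maps_to (fun I hI => hout I hI) _
  rw [h1, ← h2, Finset.mul_sum, Finset.mul_sum]
  refine Finset.sum_le_sum fun w hw => ?_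
  by_cases hne : (X.filter fun I => outside r I S = w).Nonempty
  · obtain ⟨I0, hI0⟩ := hne
    rw [Finset.mem_filter, hX, Finset.mem_filter] at hI0
    obtain ⟨⟨_, _, hLam⟩, hI0w⟩ := hI0
    have hLam' : 2 ^ (r + (t + 1)) < (fillings r w S).card := by
      have : Lam r I0 S = (fillings r w S).card := by rw [Lam, hI0w]
      rw [← this]
      exact hLam
    have hwS : ∀ u ∈ w, u ≠ S ∧ ¬ adj r S u := by
      intro u hu
      rw [← hI0w, mem_outside] at hu
      exact hu.2
    have h3 : (X.filter fun I => outside r I S = w).card ≤ (fillings r w S).card := by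
      refine Finset.card_le_card_of_injOn (fun I => I ∩ nbh r S) ?_ ?_
      · intro I hI
        rw [Finset.mem_coe, Finset.mem_filter, hX, Finset.mem_filter] at hI
        obtain ⟨⟨hI, hSI, _⟩, hIw⟩ := hI
        rw [Finset.mem_coe, mem_fillings]
        refine ⟨Finset.inter_subset_right, stable_subset hI ?_⟩
        refine Finset.union_subset ?_ Finset.inter_subset_left
        rw [← hIw]
        exact fun u hu => (mem_outside.mp hu).1
      · intro I1 h1 I2 h2 heq
        have key : ∀ I1 I2 : Finset (Finset (Fin n)), I1 ∈ stables n r → S ∉ I1 →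
            outside r I1 S = outside r I2 S → I1 ∩ nbh r S = I2 ∩ nbh r S → I1 ⊆ I2 := by
          intro I1 I2 h1 hS1 ho heq u hu
          by_cases hadj : adj r S u
          · have h4 : u ∈ I1 ∩ nbh r S :=
              Finset.mem_inter.mpr ⟨hu, mem_nbh.mpr ⟨(mem_stables.mp h1).1 hu, hadj⟩⟩
            rw [heq] at h4
            exact (Finset.mem_inter.mp h4).1
          · have h4 : u ∈ outside r I1 S := by
              rw [mem_outside]
              refine ⟨hu, ?_, hadj⟩
              rintro rfl
              exact hS1 hu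
            rw [ho] at h4
            exact (mem_outside.mp h4).1
        rw [Finset.mem_coe, Finset.mem_filter, hX, Finset.mem_filter] at h1 h2
        have heq' : I1 ∩ nbh r S = I2 ∩ nbh r S := heq
        exact Finset.Subset.antisymm
          (key I1 I2 h1.1.1 h1.1.2.1 (h1.2.trans h2.2.symm) heq')
          (key I2 I1 h2.1.1 h2.1.2.1 (h2.2.trans h1.2.symm) heq'.symm)
    have h4 : ∑ J ∈ fillings r w S, (psiset r (w ∪ J) S).card ≤
        ∑ I ∈ (stables n r).filter (fun I => outside r I S = w), (psiset r I S).card := by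
      have h5 : ∑ J ∈ fillings r w S, (psiset r (w ∪ J) S).card =
          ∑ I ∈ (fillings r w S).image (fun J => w ∪ J), (psiset r I S).card := by
        rw [Finset.sum_image]
        have key : ∀ J1 J2 : Finset (Finset (Fin n)), J1 ∈ fillings r w S →
            w ∪ J1 = w ∪ J2 → J1 ⊆ J2 := by
          intro J1 J2 h1 heq u hu
          have h6 : u ∈ w ∪ J2 := by rw [← heq]; exact Finset.mem_union_right _ hu
          rw [Finset.mem_union] at h6
          rcases h6 with h6 | h6
          · exact absurd (mem_nbh.mp ((mem_fillings.mp h1).1 hu)).2 (hwS u h6).2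
          · exact h6
        intro J1 h1 J2 h2 heq
        have heq' : w ∪ J1 = w ∪ J2 := heq
        exact Finset.Subset.antisymm (key J1 J2 h1 heq') (key J2 J1 h2 heq'.symm)
      rw [h5]
      refine Finset.sum_le_sum_of_subset ?_
      intro I hI
      rw [Finset.mem_image] at hI
      obtain ⟨J, hJ, rfl⟩ := hI
      rw [mem_fillings] at hJ
      rw [Finset.mem_filter]
      refine ⟨hJ.2, ?_⟩
      ext u
      rw [mem_outside, Finset.mem_union]
      constructor
      · rintro ⟨hu | hu, _, hadj⟩
        · exact hu
        · exact absurd (mem_nbh.mp (hJ.1 hu)).2 hadj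
      · intro hu
        exact ⟨Or.inl hu, hwS u hu⟩
    calc (t + 1) * (X.filter fun I => outside r I S = w).card
        ≤ (t + 1) * (fillings r w S).card := Nat.mul_le_mul_left _ h3
      _ ≤ 2 * ∑ J ∈ fillings r w S, (psiset r (w ∪ J) S).card := cost_fill hS hw hwS hLam'
      _ ≤ _ := Nat.mul_le_mul_left _ h4
  · rw [Finset.not_nonempty_iff_eq_empty.mp hne, Finset.card_empty, mul_zero]
    exact Nat.zero_le _

open Classical in
theorem cost_count {n r t : ℕ} :
    t * ((stables n r ×ˢ Base n r).filter fun p =>
      p.2 ∉ p.1 ∧ 2 ^ (r + t) < Lam r p.1 p.2).card ≤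
      2 * ∑ I ∈ stables n r, ∑ S ∈ Base n r, (psiset r I S).card := by
  rcases t with _ | t
  · rw [zero_mul]
    exact Nat.zero_le _
  · rw [Finset.sum_comm, Finset.mul_sum]
    have h1 : ((stables n r ×ˢ Base n r).filter fun p =>
        p.2 ∉ p.1 ∧ 2 ^ (r + (t + 1)) < Lam r p.1 p.2).card =
        ∑ S ∈ Base n r,
          ((stables n r).filter fun I => S ∉ I ∧ 2 ^ (r + (t + 1)) < Lam r I S).card := by
      rw [Finset.card_filter, Finset.sum_product_right]
      refine Finset.sum_congr rfl fun S _ => ?_
      rw [Finset.card_filter]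
    rw [h1, Finset.mul_sum]
    exact Finset.sum_le_sum fun S hS => cost_site hS

end Pool.Agent.H8.VM
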