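import Pool.Agent.H8.VM.Defs

/-! MODULE C3 (about 120 lines). Double counting of `psiset`.

Count pairs `(S, v)`, `v` in `psiset r I S`. First alternative: `nbr r I v = {u}`, so `v` is in
`lev r 1 I`; `T = u cap v` has `r-1` elements (`u`, `v` adjacent); `u cap S = v cap S` has `r-1`
elements (`v` adjacent to `S`), is contained in `T`, so equals `T`; thus `S = T + x` with `x` not
in `T`; `S <> v`, and `S <> u` (otherwise `u cap S` has `r` elements), so `x` is not in
`u cup v` (which has `r+1` elements): at most `n - r` choices.
Second alternative: `v` in `lev r 2 I`; for each of the 2 orders `(u, u')` of the neighbours,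
`T = u cap v` is contained in `S` and `S` is contained in `Q = u' cup v` (`S` is contained in
`u' cup S = v cup S`, and `v cup S` has `r+1` elements and contains `u' cup v`, so equals `Q`);
`T` has `r-1`, `Q` has `r+1` elements, `S` is one of the two sets strictly between, and `S <> v`:
one choice. -/

open scoped BigOperators

namespace Pool.Agent.H8.VM

open Pool.Agent.H28.Johnson Pool.Agent.H28.KW Pool.Agent.H28.Windows

/-- the intersection of two neighbours `u`, `S` of `v` with the same trace on `S` -/
lemma inter_eq_of_trace {n r : ℕ} {S v u : Finset (Fin n)} (hS : S ∈ Base n r)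
    (hv : v ∈ Base n r) (hu : u ∈ Base n r) (hSv : adj r S v) (hvu : adj r v u)
    (h : u ∩ S = v ∩ S) : v ∩ S = u ∩ v := by
  have h1 := (adj_iff hS hv).mp hSv
  have h2 := (adj_iff hv hu).mp hvu
  refine Finset.eq_of_subset_of_card_le ?_ ?_
  · intro z hz
    have h3 : z ∈ u ∩ S := by rw [h]; exact hz
    exact Finset.mem_inter.mpr ⟨(Finset.mem_inter.mp h3).1, (Finset.mem_inter.mp hz).1⟩
  · rw [Finset.inter_comm S v] at h1
    rw [Finset.inter_comm v u] at h2
    omega

/-- the union of two neighbours `u`, `S` of `v` with the same union with `S` -/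
lemma union_eq_of_trace {n r : ℕ} {S v u : Finset (Fin n)} (hS : S ∈ Base n r)
    (hv : v ∈ Base n r) (hu : u ∈ Base n r) (hSv : adj r S v) (hvu : adj r v u)
    (h : u ∪ S = v ∪ S) : u ∪ v = v ∪ S := by
  have h1 := (adj_iff hS hv).mp hSv
  have h2 := (adj_iff hv hu).mp hvu
  rw [mem_Base] at hS hv hu
  refine Finset.eq_of_subset_of_card_le ?_ ?_
  · intro z hz
    rw [Finset.mem_union] at hz
    rcases hz with hz | hz
    · rw [← h]; exact Finset.mem_union_left _ hz
    · exact Finset.mem_union_left _ hz
  · have h3 := Finset.card_union_add_card_inter v S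
    have h4 := Finset.card_union_add_card_inter u v
    rw [Finset.inter_comm S v] at h1
    rw [Finset.inter_comm v u] at h2
    omega

open Classical in
/-- the number of sites `S` at which a given `v` is counted -/
lemma psi_fiber {n r : ℕ} {I : Finset (Finset (Fin n))} (hI : I ∈ stables n r)
    {v : Finset (Fin n)} (hv : v ∈ Base n r) :
    ((Base n r).filter fun S => v ∈ psiset r I S).card ≤
      (n - r) * (if v ∈ lev r 1 I then 1 else 0) + 2 * (if v ∈ lev r 2 I then 1 else 0) := by
  have hIB := (mem_stables.mp hI).1
  by_cases h1 : (nbr r I v).card = 1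
  · have hl : v ∈ lev r 1 I := mem_lev.mpr ⟨hv, h1⟩
    rw [if_pos hl]
    obtain ⟨u, hu⟩ := Finset.card_eq_one.mp h1
    have huI : u ∈ nbr r I v := by rw [hu]; exact Finset.mem_singleton_self u
    rw [mem_nbr] at huI
    have hsub : ((Base n r).filter fun S => v ∈ psiset r I S) ⊆
        ((u ∪ v)ᶜ).image (fun x => insert x (u ∩ v)) := by
      intro S hS
      rw [Finset.mem_filter, mem_psiset, mem_nbh] at hS
      obtain ⟨hS, ⟨_, hadj⟩, halt⟩ := hS
      have hkey : u ∩ S = v ∩ S := by
        rcases halt with ⟨u', hu', hn, ht⟩ | ⟨u', hu', u'', hu'', hne, hn, ht, _⟩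
        · rw [hu, Finset.singleton_inj] at hn
          rw [hn]; exact ht
        · rw [hn, Finset.card_pair hne] at h1
          omega
      have h2 := inter_eq_of_trace hS hv (hIB huI.1) hadj huI.2 hkey
      have h3 := (adj_iff hS hv).mp hadj
      have h4 : (S \ v).card = 1 := by
        have := Finset.card_sdiff_add_card_inter S v
        have := mem_Base.mp hS
        omega
      obtain ⟨x, hx⟩ := Finset.card_eq_one.mp h4
      have hxS : x ∈ S \ v := by rw [hx]; exact Finset.mem_singleton_self x
      rw [Finset.mem_sdiff] at hxS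
      rw [Finset.mem_image]
      refine ⟨x, ?_, ?_⟩
      · rw [Finset.mem_compl, Finset.mem_union]
        rintro (h | h)
        · have : x ∈ v ∩ S := by rw [← hkey]; exact Finset.mem_inter.mpr ⟨h, hxS.1⟩
          exact hxS.2 (Finset.mem_inter.mp this).1
        · exact hxS.2 h
      · rw [← h2]
        ext z
        rw [Finset.mem_insert, Finset.mem_inter]
        constructor
        · rintro (rfl | h)
          · exact hxS.1
          · exact h.2
        · intro hz
          by_cases hzv : z ∈ v
          · exact Or.inr ⟨hzv, hz⟩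
          · left
            have : z ∈ S \ v := Finset.mem_sdiff.mpr ⟨hz, hzv⟩
            rw [hx, Finset.mem_singleton] at this
            exact this
    have hc : ((Base n r).filter fun S => v ∈ psiset r I S).card ≤ n - r := by
      refine (Finset.card_le_card hsub).trans (Finset.card_image_le.trans ?_)
      rw [Finset.card_compl, Fintype.card_fin]
      have : v.card ≤ (u ∪ v).card := Finset.card_le_card Finset.subset_union_right
      rw [mem_Base.mp hv] at this
      omega
    omega
  · by_cases h2 : (nbr r I v).card = 2
    · have hl : v ∈ lev r 2 I := mem_lev.mpr ⟨hv, h2⟩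
      rw [if_pos hl]
      obtain ⟨a, b, hab, hn⟩ := Finset.card_eq_two.mp h2
      have haI : a ∈ nbr r I v := by rw [hn]; exact Finset.mem_insert_self a _
      have hbI : b ∈ nbr r I v := by
        rw [hn]; exact Finset.mem_insert_of_mem (Finset.mem_singleton_self b)
      rw [mem_nbr] at haI hbI
      have hone : ∀ a b : Finset (Fin n), a ∈ I → b ∈ I → adj r v a → adj r v b →
          ∀ S ∈ Base n r, adj r S v → a ∩ S = v ∩ S → b ∪ S = v ∪ S →
          S = (b ∪ v) \ (v \ a) := by
        intro a b ha hb hva hvb S hS hadj h3 h4
        have h5 := inter_eq_of_trace hS hv (hIB ha) hadj hva h3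
        have h6 := union_eq_of_trace hS hv (hIB hb) hadj hvb h4
        ext z
        rw [Finset.mem_sdiff, Finset.mem_sdiff, h6, Finset.mem_union]
        have h7 : z ∈ v ∩ S ↔ z ∈ a ∩ v := by rw [h5]
        rw [Finset.mem_inter, Finset.mem_inter] at h7
        tauto
      have hsub : ((Base n r).filter fun S => v ∈ psiset r I S) ⊆
          {(b ∪ v) \ (v \ a), (a ∪ v) \ (v \ b)} := by
        intro S hS
        rw [Finset.mem_filter, mem_psiset, mem_nbh] at hS
        obtain ⟨hS, ⟨_, hadj⟩, halt⟩ := hS
        rw [Finset.mem_insert, Finset.mem_singleton]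
        rcases halt with ⟨u', hu', hn', ht⟩ | ⟨u, hu, u', hu', hne, hn', ht, ht'⟩
        · rw [hn', Finset.card_singleton] at h2
          omega
        · rw [hn] at hn'
          have hua : u ∈ ({a, b} : Finset (Finset (Fin n))) := by
            rw [hn']; exact Finset.mem_insert_self u _
          have hub : u' ∈ ({a, b} : Finset (Finset (Fin n))) := by
            rw [hn']; exact Finset.mem_insert_of_mem (Finset.mem_singleton_self u')
          rw [Finset.mem_insert, Finset.mem_singleton] at hua hub
          rcases hua with rfl | rfl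
          · rcases hub with rfl | rfl
            · exact absurd rfl hne
            · exact Or.inl (hone _ _ haI.1 hbI.1 haI.2 hbI.2 S hS hadj ht ht')
          · rcases hub with rfl | rfl
            · exact Or.inr (hone _ _ hbI.1 haI.1 hbI.2 haI.2 S hS hadj ht ht')
            · exact absurd rfl hne
      have hc : ((Base n r).filter fun S => v ∈ psiset r I S).card ≤ 2 :=
        (Finset.card_le_card hsub).trans Finset.card_le_two
      omega
    · have h0 : ((Base n r).filter fun S => v ∈ psiset r I S) = ∅ := by
        rw [Finset.filter_eq_empty_iff]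
        intro S _ hS
        rw [mem_psiset] at hS
        rcases hS.2 with ⟨u', hu', hn', ht⟩ | ⟨u, hu, u', hu', hne, hn', ht, ht'⟩
        · rw [hn', Finset.card_singleton] at h1
          exact h1 rfl
        · rw [hn', Finset.card_pair hne] at h2
          exact h2 rfl
      rw [h0, Finset.card_empty]
      exact Nat.zero_le _

theorem psi_sum {n r : ℕ} (hr : 1 ≤ r) {I : Finset (Finset (Fin n))} (hI : I ∈ stables n r) :
    ∑ S ∈ Base n r, (psiset r I S).card ≤
      (n - r) * (lev r 1 I).card + 2 * (lev r 2 I).card := by
  classical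
  have _ := hr
  have h1 : ∑ S ∈ Base n r, (psiset r I S).card =
      ∑ v ∈ Base n r, ((Base n r).filter fun S => v ∈ psiset r I S).card := by
    have h : ∀ S ∈ Base n r, (psiset r I S).card =
        ∑ v ∈ Base n r, if v ∈ psiset r I S then 1 else 0 := by
      intro S _
      rw [Finset.sum_ite_mem, Finset.sum_const, smul_eq_mul, mul_one, Finset.inter_eq_right.mpr]
      intro v hv
      exact (mem_nbh.mp (mem_psiset.mp hv).1).1
    rw [Finset.sum_congr rfl h, Finset.sum_comm]
    refine Finset.sum_congr rfl fun v _ => ?_
    rw [Finset.card_filter]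
  rw [h1]
  refine (Finset.sum_le_sum fun v hv => psi_fiber hI hv).trans (le_of_eq ?_)
  rw [Finset.sum_add_distrib, ← Finset.mul_sum, ← Finset.mul_sum]
  have h2 : ∀ k, ∑ v ∈ Base n r, (if v ∈ lev r k I then 1 else 0) = (lev r k I).card := by
    intro k
    rw [Finset.sum_ite_mem, Finset.sum_const, smul_eq_mul, mul_one, Finset.inter_eq_right.mpr]
    intro v hv
    exact (mem_lev.mp hv).1
  rw [h2, h2]

end Pool.Agent.H8.VM
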