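import Pool.Agent.H8.VM.B8_N1
import Pool.Agent.H8.VM.C2_Cost
import Pool.Agent.H8.VM.C3_Psi

/-! MODULE C4 (about 60 lines). `t = floor (log n)`; `cost_count`, `psi_sum`, `n1_small` with
`η/4`, and `(lev r 2 I).card <= N`:
`t * (number of pairs) <= 2 (n * (η/4) N log n/n + 2 N) s`, and `t >= log n - 1`. -/

open scoped BigOperators
open Filter

namespace Pool.Agent.H8.VM

open Pool.Agent.H28.Johnson Pool.Agent.H28.KW Pool.Agent.H28.Windows

open Classical in
theorem cost_final (η : ℝ) (hη : 0 < η) : ∀ᶠ n : ℕ in atTop, ∀ r : ℕ, n ≤ 13 * r → 2 * r ≤ n →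
    (((stables n r ×ˢ Base n r).filter fun p =>
      p.2 ∉ p.1 ∧ 2 ^ (r + ⌊Real.log n⌋₊) < Lam r p.1 p.2).card : ℝ) ≤
      η * (n.choose r : ℝ) * (stables n r).card := by
  have hlog : Tendsto (fun n : ℕ => Real.log (n : ℝ)) atTop atTop :=
    Real.tendsto_log_atTop.comp tendsto_natCast_atTop_atTop
  filter_upwards [n1_small (η / 8) (by positivity),
    hlog.eventually_ge_atTop (2 + (4 + η) * 4 / (3 * η)), eventually_ge_atTop 1]
    with n hn1 hL hn r hr13 hr2
  have hr1 : 1 ≤ r := by omega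
  have hfrac : 0 ≤ (4 + η) * 4 / (3 * η) := by positivity
  set L : ℝ := Real.log (n : ℝ) with hLdef
  set t : ℕ := ⌊L⌋₊ with htdef
  set s : ℝ := ((stables n r).card : ℝ) with hs
  set N : ℝ := (n.choose r : ℝ) with hN
  have hs0 : 0 ≤ s := Nat.cast_nonneg _
  have hN0 : 0 ≤ N := Nat.cast_nonneg _
  have ht : L - 1 ≤ (t : ℝ) := by
    have := Nat.lt_floor_add_one L
    linarith
  have hcount := cost_count (n := n) (r := r) (t := t)
  set P : ℕ := ((stables n r ×ˢ Base n r).filter fun p =>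
      p.2 ∉ p.1 ∧ 2 ^ (r + t) < Lam r p.1 p.2).card with hP
  have hsum : ∑ I ∈ stables n r, ∑ S ∈ Base n r, (psiset r I S).card ≤
      n * (∑ I ∈ stables n r, (lev r 1 I).card) + 2 * ((stables n r).card * n.choose r) := by
    calc ∑ I ∈ stables n r, ∑ S ∈ Base n r, (psiset r I S).card
        ≤ ∑ I ∈ stables n r, (n * (lev r 1 I).card + 2 * n.choose r) := by
          refine Finset.sum_le_sum fun I hI => ?_
          refine (psi_sum hr1 hI).trans ?_
          refine Nat.add_le_add (Nat.mul_le_mul_right _ (Nat.sub_le _ _)) ?_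
          refine Nat.mul_le_mul_left _ ?_
          rw [← card_Base n r]
          exact Finset.card_le_card (Finset.filter_subset _ _)
      _ = n * (∑ I ∈ stables n r, (lev r 1 I).card) + 2 * ((stables n r).card * n.choose r) := by
          rw [Finset.sum_add_distrib, ← Finset.mul_sum, Finset.sum_const, smul_eq_mul]
          ring
  have h1 : (t : ℝ) * (P : ℝ) ≤ 2 * ((n : ℝ) *
      ((∑ I ∈ stables n r, (lev r 1 I).card : ℕ) : ℝ) + 2 * (s * N)) := by
    have := hcount.trans (Nat.mul_le_mul_left 2 hsum)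
    have h2 : ((t * P : ℕ) : ℝ) ≤ ((2 * (n * (∑ I ∈ stables n r, (lev r 1 I).card) +
        2 * ((stables n r).card * n.choose r)) : ℕ) : ℝ) := by exact_mod_cast this
    push_cast at h2
    push_cast
    exact h2
  have hn0 : (0 : ℝ) < n := by exact_mod_cast hn
  have h3 : (n : ℝ) * ((∑ I ∈ stables n r, (lev r 1 I).card : ℕ) : ℝ) ≤ η / 8 * N * L * s := by
    have h4 := hn1 r hr13 hr2
    have h5 := mul_le_mul_of_nonneg_left h4 hn0.le
    refine h5.trans (le_of_eq ?_)
    rw [← hN, ← hs]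
    field_simp
  have hP0 : (0 : ℝ) ≤ (P : ℝ) := Nat.cast_nonneg _
  have hL2 : 2 ≤ L := by linarith
  have h6 : (L - 1) * (P : ℝ) ≤ (η / 4 * L + 4) * (N * s) := by
    have := mul_le_mul_of_nonneg_right ht hP0
    nlinarith
  have h7 : η / 4 * L + 4 ≤ η * (L - 1) := by
    have h8 : (4 + η) * 4 / (3 * η) ≤ L := by linarith
    rw [div_le_iff₀ (by positivity)] at h8
    nlinarith
  have h9 : (L - 1) * (P : ℝ) ≤ (L - 1) * (η * N * s) := by
    have h10 := mul_le_mul_of_nonneg_right h7 (mul_nonneg hN0 hs0)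
    nlinarith
  exact le_of_mul_le_mul_left h9 (by linarith)

end Pool.Agent.H8.VM
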