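import Pool.Agent.H8.VM.Defs

/-! MODULE D1b (part of D1) (about 80 lines). Double counting of pairs at distance two: `(S, x, y)` with
`swp S x y = u` in `I` corresponds to `(u, y, x)`: `S = swp u y x`, `y` in `u.offDiag`, `x` in
`(compl u).offDiag`. -/

open scoped BigOperators

namespace Pool.Agent.H8.VM

open Pool.Agent.H28.Johnson Pool.Agent.H28.KW Pool.Agent.H28.Windows

private lemma D1b_row_inj {n r : ℕ} {I : Finset (Finset (Fin n))} (hI : I ∈ stables n r)
    {S : Finset (Fin n)} (hS : S ∈ Base n r) {a b c d d' : Fin n} (ha : a ∈ S) (hb : b ∈ S)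
    (hab : a ≠ b) (hc : c ∉ S) (hd : d ∉ S) (_hd' : d' ∉ S) (hcd : c ≠ d) (hcd' : c ≠ d')
    (h : swp S (a, b) (c, d) ∈ I) (h' : swp S (a, b) (c, d') ∈ I) : d = d' := by
  by_contra hne
  have hS' := mem_Base.mp hS
  rw [mem_stables] at hI
  apply hI.2 _ h _ h'
  refine ⟨?_, ?_⟩
  · intro he
    have h1 : d ∈ swp S (a, b) (c, d') := by
      rw [← he]; simp [swp]
    simp only [swp, Finset.mem_union, Finset.mem_sdiff, Finset.mem_insert,
      Finset.mem_singleton] at h1
    rcases h1 with ⟨h1, -⟩ | h1 | h1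
    · exact hd h1
    · exact hcd h1.symm
    · exact hne h1
  · have hsub : insert c (S \ {a, b}) ⊆ swp S (a, b) (c, d) ∩ swp S (a, b) (c, d') := by
      intro z hz
      rw [Finset.mem_insert] at hz
      rw [Finset.mem_inter]
      simp only [swp, Finset.mem_union]
      rcases hz with rfl | hz
      · exact ⟨Or.inr (by simp), Or.inr (by simp)⟩
      · exact ⟨Or.inl hz, Or.inl hz⟩
    have h1 := Finset.card_le_card hsub
    have hsub2 : ({a, b} : Finset (Fin n)) ⊆ S := by
      intro z hz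
      simp only [Finset.mem_insert, Finset.mem_singleton] at hz
      rcases hz with rfl | rfl
      · exact ha
      · exact hb
    have hc' : c ∉ S \ {a, b} := fun h => hc (Finset.mem_sdiff.mp h).1
    rw [Finset.card_insert_of_notMem hc', Finset.card_sdiff_of_subset hsub2,
      Finset.card_pair hab, hS'] at h1
    omega

private lemma D1b_col_inj {n r : ℕ} {I : Finset (Finset (Fin n))} (hI : I ∈ stables n r)
    {S : Finset (Fin n)} (hS : S ∈ Base n r) {a b b' c d : Fin n} (ha : a ∈ S) (hb : b ∈ S)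
    (hb' : b' ∈ S) (hab : a ≠ b) (hab' : a ≠ b') (hc : c ∉ S) (hd : d ∉ S) (hcd : c ≠ d)
    (h : swp S (a, b) (c, d) ∈ I) (h' : swp S (a, b') (c, d) ∈ I) : b = b' := by
  by_contra hne
  have hS' := mem_Base.mp hS
  rw [mem_stables] at hI
  apply hI.2 _ h _ h'
  refine ⟨?_, ?_⟩
  · intro he
    have h1 : b ∈ swp S (a, b') (c, d) := by
      simp only [swp, Finset.mem_union, Finset.mem_sdiff, Finset.mem_insert,
        Finset.mem_singleton]
      left
      refine ⟨hb, ?_⟩
      rintro (h2 | h2)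
      · exact hab h2.symm
      · exact hne h2
    rw [← he] at h1
    simp only [swp, Finset.mem_union, Finset.mem_sdiff, Finset.mem_insert,
      Finset.mem_singleton] at h1
    rcases h1 with ⟨-, h1⟩ | h1 | h1
    · exact h1 (by simp)
    · exact hc (h1 ▸ hb)
    · exact hd (h1 ▸ hb)
  · have hsub : insert c (insert d (S \ {a, b, b'})) ⊆
        swp S (a, b) (c, d) ∩ swp S (a, b') (c, d) := by
      intro z hz
      rw [Finset.mem_insert, Finset.mem_insert] at hz
      rw [Finset.mem_inter]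
      simp only [swp, Finset.mem_union]
      rcases hz with rfl | rfl | hz
      · exact ⟨Or.inr (by simp), Or.inr (by simp)⟩
      · exact ⟨Or.inr (by simp), Or.inr (by simp)⟩
      · simp only [Finset.mem_sdiff, Finset.mem_insert, Finset.mem_singleton, not_or] at hz
        refine ⟨Or.inl ?_, Or.inl ?_⟩
        · simp only [Finset.mem_sdiff, Finset.mem_insert, Finset.mem_singleton, not_or]
          exact ⟨hz.1, hz.2.1, hz.2.2.1⟩
        · simp only [Finset.mem_sdiff, Finset.mem_insert, Finset.mem_singleton, not_or]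
          exact ⟨hz.1, hz.2.1, hz.2.2.2⟩
    have h1 := Finset.card_le_card hsub
    have hsub2 : ({a, b, b'} : Finset (Fin n)) ⊆ S := by
      intro z hz
      simp only [Finset.mem_insert, Finset.mem_singleton] at hz
      rcases hz with rfl | rfl | rfl
      · exact ha
      · exact hb
      · exact hb'
    have h3 : ({a, b, b'} : Finset (Fin n)).card = 3 := by
      rw [Finset.card_eq_three]
      exact ⟨a, b, b', hab, hab', hne, rfl⟩
    have h4 := Finset.card_le_card hsub2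
    have hd' : d ∉ S \ {a, b, b'} := fun h => hd (Finset.mem_sdiff.mp h).1
    have hc' : c ∉ insert d (S \ {a, b, b'}) := by
      intro h
      rw [Finset.mem_insert] at h
      rcases h with h | h
      · exact hcd h
      · exact hc (Finset.mem_sdiff.mp h).1
    rw [Finset.card_insert_of_notMem hc', Finset.card_insert_of_notMem hd',
      Finset.card_sdiff_of_subset hsub2, h3, hS'] at h1
    omega

/-- for a stable family the partners of a fixed pair form a matching -/
theorem edges2_row {n r : ℕ} {I : Finset (Finset (Fin n))} (hI : I ∈ stables n r)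
    {S : Finset (Fin n)} (hS : S ∈ Base n r) (x : Fin n × Fin n) :
    ((edges2 I S).filter fun p => p.1 = x).card ≤ n - r := by
  obtain ⟨a, b⟩ := x
  have hcc : (Sᶜ).card = n - r := by
    rw [Finset.card_compl, Fintype.card_fin, mem_Base.mp hS]
  rw [← hcc]
  refine Finset.card_le_card_of_injOn (fun p => p.2.1) ?_ ?_
  · rintro ⟨x, y⟩ hp
    rw [Finset.mem_coe, Finset.mem_filter, mem_edges2, Finset.mem_offDiag,
      Finset.mem_offDiag] at hp
    exact hp.1.1.2.1
  · rintro ⟨⟨a1, b1⟩, ⟨c1, d1⟩⟩ hp ⟨⟨a2, b2⟩, ⟨c2, d2⟩⟩ hq he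
    rw [Finset.mem_coe, Finset.mem_filter, mem_edges2, Finset.mem_offDiag,
      Finset.mem_offDiag] at hp hq
    simp only [Finset.mem_compl, Prod.mk.injEq] at hp hq he ⊢
    obtain ⟨⟨⟨⟨hp1, hp2, hp3⟩, hp4, hp5, hp6⟩, hp7⟩, hp8, hp9⟩ := hp
    obtain ⟨⟨⟨⟨hq1, hq2, hq3⟩, hq4, hq5, hq6⟩, hq7⟩, hq8, hq9⟩ := hq
    subst hp8 hp9 he
    subst hq8 hq9
    exact ⟨⟨rfl, rfl⟩, rfl, D1b_row_inj hI hS hp1 hp2 hp3 hp4 hp5 hq5 hp6 hq6 hp7 hq7⟩

theorem edges2_col {n r : ℕ} {I : Finset (Finset (Fin n))} (hI : I ∈ stables n r)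
    {S : Finset (Fin n)} (hS : S ∈ Base n r) (y : Fin n × Fin n) :
    ((edges2 I S).filter fun p => p.2 = y).card ≤ r := by
  obtain ⟨c, d⟩ := y
  rw [← mem_Base.mp hS]
  refine Finset.card_le_card_of_injOn (fun p => p.1.1) ?_ ?_
  · rintro ⟨x, y⟩ hp
    rw [Finset.mem_coe, Finset.mem_filter, mem_edges2, Finset.mem_offDiag,
      Finset.mem_offDiag] at hp
    exact hp.1.1.1.1
  · rintro ⟨⟨a1, b1⟩, ⟨c1, d1⟩⟩ hp ⟨⟨a2, b2⟩, ⟨c2, d2⟩⟩ hq he
    rw [Finset.mem_coe, Finset.mem_filter, mem_edges2, Finset.mem_offDiag,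
      Finset.mem_offDiag] at hp hq
    simp only [Finset.mem_compl, Prod.mk.injEq] at hp hq he ⊢
    obtain ⟨⟨⟨⟨hp1, hp2, hp3⟩, hp4, hp5, hp6⟩, hp7⟩, hp8, hp9⟩ := hp
    obtain ⟨⟨⟨⟨hq1, hq2, hq3⟩, hq4, hq5, hq6⟩, hq7⟩, hq8, hq9⟩ := hq
    subst hp8 hp9 he
    subst hq8 hq9
    exact ⟨⟨rfl, D1b_col_inj hI hS hp1 hp2 hq2 hp3 hq3 hp4 hp5 hp6 hp7 hq7⟩, rfl, rfl⟩

end Pool.Agent.H8.VM
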