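import Pool.Agent.H8.VM.D1a_Sum
import Pool.Agent.H8.VM.D1b_Row

/-! Collects the parts of D1_Edges. -/
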