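import Pool.Agent.H8.VM.Defs

/-! MODULE D1a (part of D1) (about 80 lines). Double counting of pairs at distance two: `(S, x, y)` with
`swp S x y = u` in `I` corresponds to `(u, y, x)`: `S = swp u y x`, `y` in `u.offDiag`, `x` in
`(compl u).offDiag`. -/

open scoped BigOperators

namespace Pool.Agent.H8.VM

open Pool.Agent.H28.Johnson Pool.Agent.H28.KW Pool.Agent.H28.Windows

private lemma D1a_invol {n : ℕ} {S : Finset (Fin n)} {x y : Fin n × Fin n}
    (hx : x ∈ S.offDiag) (hy : y ∈ Sᶜ.offDiag) : swp (swp S x y) y x = S := by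
  obtain ⟨a, b⟩ := x
  obtain ⟨c, d⟩ := y
  rw [Finset.mem_offDiag] at hx hy
  simp only [Finset.mem_compl] at hx hy
  obtain ⟨ha, hb, hab⟩ := hx
  obtain ⟨hc, hd, hcd⟩ := hy
  ext z
  simp only [swp, Finset.mem_union, Finset.mem_sdiff, Finset.mem_insert, Finset.mem_singleton]
  constructor
  · rintro (⟨(⟨h1, -⟩ | h1), h2⟩ | (h | h))
    · exact h1
    · exact absurd h1 h2
    · rw [h]; exact ha
    · rw [h]; exact hb
  · intro hz
    by_cases h : z = a ∨ z = b
    · right; exact h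
    · left
      refine ⟨Or.inl ⟨hz, h⟩, ?_⟩
      rintro (h1 | h1)
      · exact hc (h1 ▸ hz)
      · exact hd (h1 ▸ hz)

private lemma D1a_mem_left {n : ℕ} {S : Finset (Fin n)} {x y : Fin n × Fin n}
    (hy : y ∈ Sᶜ.offDiag) : y ∈ (swp S x y).offDiag := by
  rw [Finset.mem_offDiag] at hy ⊢
  refine ⟨?_, ?_, hy.2.2⟩ <;> simp [swp]

private lemma D1a_mem_right {n : ℕ} {S : Finset (Fin n)} {x y : Fin n × Fin n}
    (hx : x ∈ S.offDiag) (hy : y ∈ Sᶜ.offDiag) : x ∈ (swp S x y)ᶜ.offDiag := by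
  obtain ⟨a, b⟩ := x
  obtain ⟨c, d⟩ := y
  rw [Finset.mem_offDiag] at hx hy ⊢
  simp only [Finset.mem_compl] at hx hy ⊢
  obtain ⟨ha, hb, hab⟩ := hx
  obtain ⟨hc, hd, hcd⟩ := hy
  refine ⟨?_, ?_, hab⟩
  · simp only [swp, Finset.mem_union, Finset.mem_sdiff, Finset.mem_insert, Finset.mem_singleton]
    rintro (⟨-, h⟩ | (h | h))
    · exact h (by simp)
    · exact hc (h ▸ ha)
    · exact hd (h ▸ ha)
  · simp only [swp, Finset.mem_union, Finset.mem_sdiff, Finset.mem_insert, Finset.mem_singleton]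
    rintro (⟨-, h⟩ | (h | h))
    · exact h (by simp)
    · exact hc (h ▸ hb)
    · exact hd (h ▸ hb)

private lemma D1a_card {n : ℕ} {S : Finset (Fin n)} {x y : Fin n × Fin n}
    (hx : x ∈ S.offDiag) (hy : y ∈ Sᶜ.offDiag) : (swp S x y).card = S.card := by
  obtain ⟨a, b⟩ := x
  obtain ⟨c, d⟩ := y
  rw [Finset.mem_offDiag] at hx hy
  simp only [Finset.mem_compl] at hx hy
  obtain ⟨ha, hb, hab⟩ := hx
  obtain ⟨hc, hd, hcd⟩ := hy
  have hdis : Disjoint (S \ {a, b}) ({c, d} : Finset (Fin n)) := by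
    rw [Finset.disjoint_left]
    intro z hz hz'
    rw [Finset.mem_sdiff] at hz
    simp only [Finset.mem_insert, Finset.mem_singleton] at hz'
    rcases hz' with rfl | rfl
    · exact hc hz.1
    · exact hd hz.1
  have hsub : ({a, b} : Finset (Fin n)) ⊆ S := by
    intro z hz
    simp only [Finset.mem_insert, Finset.mem_singleton] at hz
    rcases hz with rfl | rfl
    · exact ha
    · exact hb
  have h2 : ({a, b} : Finset (Fin n)).card = 2 := Finset.card_pair hab
  have h3 : ({c, d} : Finset (Fin n)).card = 2 := Finset.card_pair hcd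
  have h4 := Finset.card_le_card hsub
  show ((S \ {a, b}) ∪ {c, d}).card = S.card
  rw [Finset.card_union_of_disjoint hdis, Finset.card_sdiff_of_subset hsub]
  omega

theorem sum_edges2 {n r : ℕ} {I : Finset (Finset (Fin n))} (hI : I ⊆ Base n r) :
    ∑ S ∈ Base n r, (edges2 I S).card = I.card * ((r * (r - 1)) * ((n - r) * (n - r - 1))) := by
  have h1 : ∑ S ∈ Base n r, (edges2 I S).card = ∑ u ∈ I, (u.offDiag ×ˢ uᶜ.offDiag).card := by
    rw [← Finset.card_sigma, ← Finset.card_sigma]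
    refine Finset.card_bij' (fun p _ => ⟨swp p.1 p.2.1 p.2.2, (p.2.2, p.2.1)⟩)
      (fun q _ => ⟨swp q.1 q.2.1 q.2.2, (q.2.2, q.2.1)⟩) ?_ ?_ ?_ ?_
    · rintro ⟨S, x, y⟩ hp
      rw [Finset.mem_sigma] at hp
      obtain ⟨hS, hp⟩ := hp
      rw [mem_edges2] at hp
      obtain ⟨⟨hx, hy⟩, hu⟩ := hp
      rw [Finset.mem_sigma, Finset.mem_product]
      exact ⟨hu, D1a_mem_left hy, D1a_mem_right hx hy⟩
    · rintro ⟨u, y, x⟩ hp
      rw [Finset.mem_sigma, Finset.mem_product] at hp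
      obtain ⟨hu, hy, hx⟩ := hp
      simp only at hu hy hx
      rw [Finset.mem_sigma]
      refine ⟨?_, ?_⟩
      · rw [mem_Base]
        rw [D1a_card hy hx]
        exact mem_Base.mp (hI hu)
      · rw [mem_edges2]
        refine ⟨⟨D1a_mem_left hx, D1a_mem_right hy hx⟩, ?_⟩
        show swp (swp u y x) x y ∈ I
        rw [D1a_invol hy hx]
        exact hu
    · rintro ⟨S, x, y⟩ hp
      rw [Finset.mem_sigma] at hp
      obtain ⟨hS, hp⟩ := hp
      rw [mem_edges2] at hp
      obtain ⟨⟨hx, hy⟩, hu⟩ := hp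
      simp only [D1a_invol hx hy]
    · rintro ⟨u, y, x⟩ hp
      rw [Finset.mem_sigma, Finset.mem_product] at hp
      obtain ⟨hu, hy, hx⟩ := hp
      simp only at hu hy hx
      simp only [D1a_invol hy hx]
  rw [h1]
  have h2 : ∀ u ∈ I, (u.offDiag ×ˢ uᶜ.offDiag).card = (r * (r - 1)) * ((n - r) * (n - r - 1)) := by
    intro u hu
    have hc := mem_Base.mp (hI hu)
    have hcc : (uᶜ).card = n - r := by
      rw [Finset.card_compl, Fintype.card_fin, hc]
    rw [Finset.card_product, Finset.offDiag_card, Finset.offDiag_card, hc, hcc,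
      Nat.mul_sub_one, Nat.mul_sub_one]
  rw [Finset.sum_congr rfl h2, Finset.sum_const, smul_eq_mul]

end Pool.Agent.H8.VM
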