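import Pool.Agent.H8.VM.D1_Edges

/-! MODULE D2 (about 250 lines; may be split). Path cells with `bc = S` are paths with three edges
in the bipartite graph `edges2 I S`.

A path cell `c = (Y, φ)` with `c.at Qbc = S` is the same as: `P2 = (φ 2, φ 3)`,
`P3 = (φ 4, φ 5)` in `S.offDiag`, disjoint; `P1 = (φ 0, φ 1)`, `P4 = (φ 6, φ 7)` in
`(compl S).offDiag`, disjoint; `Y = S - P2 - P3`; with `(P3, P1)` (set `ab`), `(P2, P1)` (set
`ac`), `(P3, P4)` (set `bd`) in `edges2 I S`.
Let `dL P`, `dR P'` be the degrees in `edges2 I S`. For an edge `(P3, P1)` the `P2` with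
`(P2, P1)` an edge are either the two orders of the pair `P3` or disjoint from `P3` (if they
shared exactly one element the two members of `I` would be adjacent), so there are
`dR P1 - 2` admissible `P2`; in the same way `dL P3 - 2` admissible `P4`. So the number of path
cells is `sum over edges (P3,P1) of (dR P1 - 2)(dL P3 - 2)`.
Edges with `dL P3 < e/(4A)` are at most `e/4`, edges with `dR P1 < e/(4B)` at most `e/4`
(`A = r(r-1)`, `B = (n-r)(n-r-1)` = numbers of ordered pairs), so `e/2` edges have both degrees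
large. -/

open scoped BigOperators

namespace Pool.Agent.H8.VM

open Pool.Agent.H28.Johnson Pool.Agent.H28.KW Pool.Agent.H28.Windows

namespace D2

variable {n : ℕ}

lemma mem_swp {S : Finset (Fin n)} {x y : Fin n × Fin n} {z : Fin n} :
    z ∈ swp S x y ↔ (z ∈ S ∧ z ≠ x.1 ∧ z ≠ x.2) ∨ z = y.1 ∨ z = y.2 := by
  unfold swp
  simp only [Finset.mem_union, Finset.mem_sdiff, Finset.mem_insert, Finset.mem_singleton, not_or]

/-- the members `swp S x y`, `swp S x' y` with `x`, `x'` meeting are equal -/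
lemma left_eq {r : ℕ} {I : Finset (Finset (Fin n))} (hI : I ∈ stables n r)
    {S : Finset (Fin n)} (hS : S ∈ Base n r) {x x' y : Fin n × Fin n}
    (h : (x, y) ∈ edges2 I S) (h' : (x', y) ∈ edges2 I S)
    (hm : x.1 = x'.1 ∨ x.1 = x'.2 ∨ x.2 = x'.1 ∨ x.2 = x'.2) :
    x = x' ∨ x = x'.swap := by
  classical
  rw [mem_edges2] at h h'
  obtain ⟨⟨hx, hy⟩, hu⟩ := h
  obtain ⟨⟨hx', -⟩, hu'⟩ := h'
  simp only at hx hy hu hx' hu'
  rw [Finset.mem_offDiag] at hx hx' hy
  simp only [Finset.mem_compl] at hy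
  rw [mem_stables] at hI
  have hSc := mem_Base.mp hS
  have hnadj := hI.2 _ hu _ hu'
  have hcard : r ≤ (swp S x y ∩ swp S x' y).card + 1 := by
    have hsub : (S \ ({x.1, x.2} ∪ {x'.1, x'.2})) ∪ {y.1, y.2} ⊆ swp S x y ∩ swp S x' y := by
      intro z hz
      rw [Finset.mem_inter, mem_swp, mem_swp]
      simp only [Finset.mem_union, Finset.mem_sdiff, Finset.mem_insert, Finset.mem_singleton,
        not_or] at hz
      tauto
    have h1 := Finset.card_le_card hsub
    have hdisj : Disjoint (S \ ({x.1, x.2} ∪ {x'.1, x'.2})) {y.1, y.2} := by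
      rw [Finset.disjoint_left]
      intro z hz hz2
      rw [Finset.mem_sdiff] at hz
      rw [Finset.mem_insert, Finset.mem_singleton] at hz2
      rcases hz2 with rfl | rfl
      · exact hy.1 hz.1
      · exact hy.2.1 hz.1
    rw [Finset.card_union_of_disjoint hdisj, Finset.card_pair hy.2.2] at h1
    have h2 : (({x.1, x.2} : Finset (Fin n)) ∪ {x'.1, x'.2}).card ≤ 3 := by
      have hun := Finset.card_union_add_card_inter ({x.1, x.2} : Finset (Fin n)) {x'.1, x'.2}
      rw [Finset.card_pair hx.2.2, Finset.card_pair hx'.2.2] at hun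
      have hne : (({x.1, x.2} : Finset (Fin n)) ∩ {x'.1, x'.2}).Nonempty := by
        rcases hm with h | h | h | h
        · exact ⟨x.1, by simp [h]⟩
        · exact ⟨x.1, by simp [h]⟩
        · exact ⟨x.2, by simp [h]⟩
        · exact ⟨x.2, by simp [h]⟩
      have := hne.card_pos
      omega
    have h3 := Finset.le_card_sdiff (({x.1, x.2} : Finset (Fin n)) ∪ {x'.1, x'.2}) S
    omega
  have heq : swp S x y = swp S x' y := by
    by_contra hne
    exact hnadj ⟨hne, hcard⟩
  have k1 : x.1 = x'.1 ∨ x.1 = x'.2 := by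
    by_contra hcon
    push Not at hcon
    have h1 : x.1 ∈ swp S x' y := mem_swp.mpr (Or.inl ⟨hx.1, hcon.1, hcon.2⟩)
    rw [← heq, mem_swp] at h1
    rcases h1 with h1 | h1 | h1
    · exact h1.2.1 rfl
    · exact hy.1 (h1 ▸ hx.1)
    · exact hy.2.1 (h1 ▸ hx.1)
  have k2 : x.2 = x'.1 ∨ x.2 = x'.2 := by
    by_contra hcon
    push Not at hcon
    have h1 : x.2 ∈ swp S x' y := mem_swp.mpr (Or.inl ⟨hx.2.1, hcon.1, hcon.2⟩)
    rw [← heq, mem_swp] at h1
    rcases h1 with h1 | h1 | h1
    · exact h1.2.2 rfl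
    · exact hy.1 (h1 ▸ hx.2.1)
    · exact hy.2.1 (h1 ▸ hx.2.1)
  rcases k1 with k1 | k1 <;> rcases k2 with k2 | k2
  · exact absurd (k1.trans k2.symm) hx.2.2
  · exact Or.inl (Prod.ext k1 k2)
  · exact Or.inr (Prod.ext k1 k2)
  · exact absurd (k1.trans k2.symm) hx.2.2

lemma right_eq {r : ℕ} {I : Finset (Finset (Fin n))} (hI : I ∈ stables n r)
    {S : Finset (Fin n)} (hS : S ∈ Base n r) {x y y' : Fin n × Fin n}
    (h : (x, y) ∈ edges2 I S) (h' : (x, y') ∈ edges2 I S)
    (hm : y.1 = y'.1 ∨ y.1 = y'.2 ∨ y.2 = y'.1 ∨ y.2 = y'.2) :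
    y = y' ∨ y = y'.swap := by
  classical
  rw [mem_edges2] at h h'
  obtain ⟨⟨hx, hy⟩, hu⟩ := h
  obtain ⟨⟨-, hy'⟩, hu'⟩ := h'
  simp only at hx hy hu hy' hu'
  rw [Finset.mem_offDiag] at hx hy hy'
  simp only [Finset.mem_compl] at hy hy'
  rw [mem_stables] at hI
  have hSc := mem_Base.mp hS
  have hnadj := hI.2 _ hu _ hu'
  have hcard : r ≤ (swp S x y ∩ swp S x y').card + 1 := by
    obtain ⟨w, hwS, hw1, hw2⟩ : ∃ w, w ∉ S ∧ (w = y.1 ∨ w = y.2) ∧ (w = y'.1 ∨ w = y'.2) := by
      rcases hm with h | h | h | h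
      · exact ⟨y.1, hy.1, Or.inl rfl, Or.inl h⟩
      · exact ⟨y.1, hy.1, Or.inl rfl, Or.inr h⟩
      · exact ⟨y.2, hy.2.1, Or.inr rfl, Or.inl h⟩
      · exact ⟨y.2, hy.2.1, Or.inr rfl, Or.inr h⟩
    have hsub : insert w (S \ {x.1, x.2}) ⊆ swp S x y ∩ swp S x y' := by
      intro z hz
      rw [Finset.mem_inter, mem_swp, mem_swp]
      simp only [Finset.mem_sdiff, Finset.mem_insert, Finset.mem_singleton, not_or] at hz
      rcases hz with rfl | hz
      · exact ⟨Or.inr hw1, Or.inr hw2⟩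
      · exact ⟨Or.inl hz, Or.inl hz⟩
    have h1 := Finset.card_le_card hsub
    rw [Finset.card_insert_of_notMem (fun hz => hwS (Finset.mem_sdiff.mp hz).1)] at h1
    have h3 := Finset.le_card_sdiff ({x.1, x.2} : Finset (Fin n)) S
    rw [Finset.card_pair hx.2.2] at h3
    omega
  have heq : swp S x y = swp S x y' := by
    by_contra hne
    exact hnadj ⟨hne, hcard⟩
  have k1 : y.1 = y'.1 ∨ y.1 = y'.2 := by
    have h1 : y.1 ∈ swp S x y := mem_swp.mpr (Or.inr (Or.inl rfl))
    rw [heq, mem_swp] at h1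
    rcases h1 with h1 | h1
    · exact absurd h1.1 hy.1
    · exact h1
  have k2 : y.2 = y'.1 ∨ y.2 = y'.2 := by
    have h1 : y.2 ∈ swp S x y := mem_swp.mpr (Or.inr (Or.inr rfl))
    rw [heq, mem_swp] at h1
    rcases h1 with h1 | h1
    · exact absurd h1.1 hy.2.1
    · exact h1
  rcases k1 with k1 | k1 <;> rcases k2 with k2 | k2
  · exact absurd (k1.trans k2.symm) hy.2.2
  · exact Or.inl (Prod.ext k1 k2)
  · exact Or.inr (Prod.ext k1 k2)
  · exact absurd (k1.trans k2.symm) hy.2.2

/-- disjoint ordered pairs -/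
def Dj (x x' : Fin n × Fin n) : Prop :=
  x.1 ≠ x'.1 ∧ x.1 ≠ x'.2 ∧ x.2 ≠ x'.1 ∧ x.2 ≠ x'.2

open Classical in
/-- the partners `P2` -/
noncomputable def F2 (E : Finset ((Fin n × Fin n) × (Fin n × Fin n)))
    (p : (Fin n × Fin n) × (Fin n × Fin n)) : Finset ((Fin n × Fin n) × (Fin n × Fin n)) :=
  E.filter fun q => q.2 = p.2 ∧ Dj q.1 p.1

open Classical in
/-- the partners `P4` -/
noncomputable def F4 (E : Finset ((Fin n × Fin n) × (Fin n × Fin n)))
    (p : (Fin n × Fin n) × (Fin n × Fin n)) : Finset ((Fin n × Fin n) × (Fin n × Fin n)) :=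
  E.filter fun q => q.1 = p.1 ∧ Dj q.2 p.2

open Classical in
lemma F2_ge {r : ℕ} {I : Finset (Finset (Fin n))} (hI : I ∈ stables n r)
    {S : Finset (Fin n)} (hS : S ∈ Base n r) {p : (Fin n × Fin n) × (Fin n × Fin n)}
    (hp : p ∈ edges2 I S) :
    ((edges2 I S).filter fun q => q.2 = p.2).card ≤ (F2 (edges2 I S) p).card + 2 := by
  have hsub : ((edges2 I S).filter fun q => q.2 = p.2) ⊆
      F2 (edges2 I S) p ∪ {p, (p.1.swap, p.2)} := by
    intro q hq
    rw [Finset.mem_filter] at hq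
    obtain ⟨hqE, hq2⟩ := hq
    rw [Finset.mem_union]
    by_cases hd : Dj q.1 p.1
    · left
      rw [F2, Finset.mem_filter]
      exact ⟨hqE, hq2, hd⟩
    · right
      unfold Dj at hd
      have hm : q.1.1 = p.1.1 ∨ q.1.1 = p.1.2 ∨ q.1.2 = p.1.1 ∨ q.1.2 = p.1.2 := by
        by_contra hcon
        push Not at hcon
        exact hd hcon
      have h1 : (q.1, p.2) ∈ edges2 I S := by rw [← hq2]; exact hqE
      have h2 := left_eq hI hS h1 (show (p.1, p.2) ∈ edges2 I S from hp) hm
      rw [Finset.mem_insert, Finset.mem_singleton]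
      rcases h2 with h2 | h2
      · left; exact Prod.ext h2 hq2
      · right; exact Prod.ext h2 hq2
  refine (Finset.card_le_card hsub).trans ((Finset.card_union_le _ _).trans ?_)
  exact Nat.add_le_add_left Finset.card_le_two _

open Classical in
lemma F4_ge {r : ℕ} {I : Finset (Finset (Fin n))} (hI : I ∈ stables n r)
    {S : Finset (Fin n)} (hS : S ∈ Base n r) {p : (Fin n × Fin n) × (Fin n × Fin n)}
    (hp : p ∈ edges2 I S) :
    ((edges2 I S).filter fun q => q.1 = p.1).card ≤ (F4 (edges2 I S) p).card + 2 := by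
  have hsub : ((edges2 I S).filter fun q => q.1 = p.1) ⊆
      F4 (edges2 I S) p ∪ {p, (p.1, p.2.swap)} := by
    intro q hq
    rw [Finset.mem_filter] at hq
    obtain ⟨hqE, hq1⟩ := hq
    rw [Finset.mem_union]
    by_cases hd : Dj q.2 p.2
    · left
      rw [F4, Finset.mem_filter]
      exact ⟨hqE, hq1, hd⟩
    · right
      unfold Dj at hd
      have hm : q.2.1 = p.2.1 ∨ q.2.1 = p.2.2 ∨ q.2.2 = p.2.1 ∨ q.2.2 = p.2.2 := by
        by_contra hcon
        push Not at hcon
        exact hd hcon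
      have h1 : (p.1, q.2) ∈ edges2 I S := by rw [← hq1]; exact hqE
      have h2 := right_eq hI hS h1 (show (p.1, p.2) ∈ edges2 I S from hp) hm
      rw [Finset.mem_insert, Finset.mem_singleton]
      rcases h2 with h2 | h2
      · left; exact Prod.ext hq1 h2
      · right; exact Prod.ext hq1 h2
  refine (Finset.card_le_card hsub).trans ((Finset.card_union_le _ _).trans ?_)
  exact Nat.add_le_add_left Finset.card_le_two _

/-- the sum of the fibres over light points is small -/
lemma light {α β : Type*} [DecidableEq α] [DecidableEq β] (E : Finset α) (f : α → β)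
    (X : Finset β) (hf : ∀ p ∈ E, f p ∈ X) (t : ℝ) (ht : 0 ≤ t) :
    ((E.filter fun p => ((E.filter fun q => f q = f p).card : ℝ) < t).card : ℝ) ≤ X.card * t := by
  classical
  rw [Finset.card_eq_sum_card_fiberwise (f := f) (t := X)
    (fun p hp => hf p (Finset.mem_filter.mp (Finset.mem_coe.mp hp)).1)]
  push_cast
  rw [← nsmul_eq_mul]
  refine Finset.sum_le_card_nsmul _ _ _ fun b _ => ?_
  rcases Finset.eq_empty_or_nonempty
    ((E.filter fun p => ((E.filter fun q => f q = f p).card : ℝ) < t).filter fun p => f p = b)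
    with he | ⟨a, ha⟩
  · rw [he]; simpa using ht
  · rw [Finset.mem_filter, Finset.mem_filter] at ha
    refine le_trans ?_ ha.1.2.le
    rw [ha.2]
    exact_mod_cast Finset.card_le_card fun p hp => by
      rw [Finset.mem_filter, Finset.mem_filter] at hp
      exact Finset.mem_filter.mpr ⟨hp.1.1, hp.2⟩

/-- the cell of a path -/
lemma exists_cell {r : ℕ} {I : Finset (Finset (Fin n))} {S : Finset (Fin n)} (hS : S ∈ Base n r)
    {P1 P2 P3 P4 : Fin n × Fin n} (h31 : (P3, P1) ∈ edges2 I S) (h21 : (P2, P1) ∈ edges2 I S)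
    (h34 : (P3, P4) ∈ edges2 I S) (h23 : Dj P2 P3) (h41 : Dj P4 P1) :
    ∃ c ∈ pth r I, c.at Qbc = S ∧ (c.2 0, c.2 1) = P1 ∧ (c.2 2, c.2 3) = P2 ∧
      (c.2 4, c.2 5) = P3 ∧ (c.2 6, c.2 7) = P4 := by
  classical
  obtain ⟨a0, a1⟩ := P1
  obtain ⟨b0, b1⟩ := P2
  obtain ⟨c0, c1⟩ := P3
  obtain ⟨d0, d1⟩ := P4
  rw [mem_edges2] at h31 h21 h34
  simp only [Finset.mem_offDiag, Finset.mem_compl] at h31 h21 h34
  obtain ⟨⟨⟨hc0, hc1, hc⟩, ha0, ha1, ha⟩, hab⟩ := h31
  obtain ⟨⟨⟨hb0, hb1, hb⟩, -⟩, hac⟩ := h21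
  obtain ⟨⟨-, hd0, hd1, hd⟩, hbd⟩ := h34
  obtain ⟨e1, e2, e3, e4⟩ := h23
  obtain ⟨f1, f2, f3, f4⟩ := h41
  simp only at e1 e2 e3 e4 f1 f2 f3 f4
  have hSc := mem_Base.mp hS
  have ne_of : ∀ {u v : Fin n}, u ∈ S → v ∉ S → u ≠ v := fun hu hv h => hv (h ▸ hu)
  have hinj : Function.Injective ![a0, a1, b0, b1, c0, c1, d0, d1] := by
    have g1 := ne_of hb0 ha0
    have g2 := ne_of hb0 ha1
    have g3 := ne_of hb1 ha0
    have g4 := ne_of hb1 ha1
    have g5 := ne_of hc0 ha0
    have g6 := ne_of hc0 ha1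
    have g7 := ne_of hc1 ha0
    have g8 := ne_of hc1 ha1
    have g9 := ne_of hb0 hd0
    have g10 := ne_of hb0 hd1
    have g11 := ne_of hb1 hd0
    have g12 := ne_of hb1 hd1
    have g13 := ne_of hc0 hd0
    have g14 := ne_of hc0 hd1
    have g15 := ne_of hc1 hd0
    have g16 := ne_of hc1 hd1
    intro i j hij
    fin_cases i <;> fin_cases j <;> first | rfl | (exfalso; simp at hij; first | exact absurd hij (by assumption) | exact absurd hij.symm (by assumption))
  have hY : (S \ {b0, b1, c0, c1}).card + 4 = r := by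
    have h4 : ({b0, b1, c0, c1} : Finset (Fin n)).card = 4 := by
      rw [Finset.card_insert_of_notMem, Finset.card_insert_of_notMem, Finset.card_pair hc]
      · simp only [Finset.mem_insert, Finset.mem_singleton, not_or]
        exact ⟨e3, e4⟩
      · simp only [Finset.mem_insert, Finset.mem_singleton, not_or]
        exact ⟨hb, e1, e2⟩
    have hsub : ({b0, b1, c0, c1} : Finset (Fin n)) ⊆ S := by
      intro z hz
      simp only [Finset.mem_insert, Finset.mem_singleton] at hz
      rcases hz with rfl | rfl | rfl | rfl <;> assumption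
    have h5 := Finset.card_le_card hsub
    rw [Finset.card_sdiff_of_subset hsub, h4]
    omega
  refine ⟨(S \ {b0, b1, c0, c1}, ⟨![a0, a1, b0, b1, c0, c1, d0, d1], hinj⟩), ?_, ?_, rfl, rfl, rfl,
    rfl⟩
  · rw [mem_pth, mem_cells]
    refine ⟨⟨hY, ?_⟩, ?_, ?_, ?_⟩
    · intro i
      fin_cases i <;> simp [ha0, ha1, hd0, hd1]
    · convert hab using 1
      ext z
      rw [mem_swp]
      simp only [Cell.at, Pool.Agent.H28.V8.loc, Qab, Finset.mem_union, Finset.mem_sdiff,
        Finset.mem_map, Finset.mem_insert, Finset.mem_singleton, Function.Embedding.coeFn_mk,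
        exists_eq_or_imp, exists_eq_left]
      simp
      grind
    · convert hac using 1
      ext z
      rw [mem_swp]
      simp only [Cell.at, Pool.Agent.H28.V8.loc, Qac, Finset.mem_union, Finset.mem_sdiff,
        Finset.mem_map, Finset.mem_insert, Finset.mem_singleton, Function.Embedding.coeFn_mk,
        exists_eq_or_imp, exists_eq_left]
      simp
      grind
    · convert hbd using 1
      ext z
      rw [mem_swp]
      simp only [Cell.at, Pool.Agent.H28.V8.loc, Qbd, Finset.mem_union, Finset.mem_sdiff,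
        Finset.mem_map, Finset.mem_insert, Finset.mem_singleton, Function.Embedding.coeFn_mk,
        exists_eq_or_imp, exists_eq_left]
      simp
      grind
  · ext z
    simp only [Cell.at, Pool.Agent.H28.V8.loc, Qbc, Finset.mem_union, Finset.mem_sdiff,
      Finset.mem_map, Finset.mem_insert, Finset.mem_singleton, Function.Embedding.coeFn_mk,
      exists_eq_or_imp, exists_eq_left]
    simp
    grind

end D2

open Classical in
theorem path_ge {n r : ℕ} {I : Finset (Finset (Fin n))} (hI : I ∈ stables n r)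
    {S : Finset (Fin n)} (hS : S ∈ Base n r) (A B : ℕ) (hA : A = r * (r - 1))
    (hB : B = (n - r) * (n - r - 1)) (hA0 : 0 < A) (hB0 : 0 < B)
    (heA : 8 * A ≤ (edges2 I S).card) (heB : 8 * B ≤ (edges2 I S).card) :
    ((edges2 I S).card : ℝ) / 2 * (((edges2 I S).card : ℝ) / (4 * A) - 2) *
      (((edges2 I S).card : ℝ) / (4 * B) - 2) ≤
      (((pth r I).filter fun c => c.at Qbc = S).card : ℝ) := by
  set E := edges2 I S with hE
  set e : ℝ := (E.card : ℝ) with he
  have hA0' : (0 : ℝ) < A := by exact_mod_cast hA0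
  have hB0' : (0 : ℝ) < B := by exact_mod_cast hB0
  have heA' : 8 * (A : ℝ) ≤ e := by rw [he]; exact_mod_cast heA
  have heB' : 8 * (B : ℝ) ≤ e := by rw [he]; exact_mod_cast heB
  have he0 : 0 ≤ e := by rw [he]; positivity
  set W : Finset (Σ _ : (Fin n × Fin n) × (Fin n × Fin n),
      ((Fin n × Fin n) × (Fin n × Fin n)) × ((Fin n × Fin n) × (Fin n × Fin n))) :=
    E.sigma fun p => D2.F2 E p ×ˢ D2.F4 E p with hW
  -- the number of paths is at most the number of cells
  have h1 : W.card ≤ ((pth r I).filter fun c => c.at Qbc = S).card := by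
    refine Finset.card_le_card_of_surjOn
      (fun c => ⟨((c.2 4, c.2 5), (c.2 0, c.2 1)),
        (((c.2 2, c.2 3), (c.2 0, c.2 1)), ((c.2 4, c.2 5), (c.2 6, c.2 7)))⟩) ?_
    rintro ⟨⟨P3, P1⟩, ⟨P2, Q1⟩, ⟨Q3, P4⟩⟩ hw
    rw [Finset.mem_coe, hW, Finset.mem_sigma, Finset.mem_product] at hw
    simp only [D2.F2, D2.F4, Finset.mem_filter] at hw
    obtain ⟨h31, ⟨h21, rfl, h23⟩, h34, rfl, h41⟩ := hw
    obtain ⟨c, hc, hbc, c1, c2, c3, c4⟩ := D2.exists_cell hS h31 h21 h34 h23 h41
    refine ⟨c, Finset.mem_coe.mpr (Finset.mem_filter.mpr ⟨hc, hbc⟩), ?_⟩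
    simp only
    rw [c1, c2, c3, c4]
  -- light edges
  have hX : (S.offDiag.card : ℝ) = A := by
    rw [Finset.offDiag_card, mem_Base.mp hS, hA, Nat.mul_sub_one]
  have hXc : (Sᶜ.offDiag.card : ℝ) = B := by
    rw [Finset.offDiag_card, Finset.card_compl, mem_Base.mp hS, hB, Nat.mul_sub_one,
      Fintype.card_fin]
  have hl1 := D2.light E Prod.fst S.offDiag (fun p hp => (mem_edges2.mp hp).1.1) (e / (4 * A))
    (by positivity)
  have hl2 := D2.light E Prod.snd Sᶜ.offDiag (fun p hp => (mem_edges2.mp hp).1.2) (e / (4 * B))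
    (by positivity)
  rw [hX] at hl1
  rw [hXc] at hl2
  have hl1' : (A : ℝ) * (e / (4 * A)) = e / 4 := by field_simp
  have hl2' : (B : ℝ) * (e / (4 * B)) = e / 4 := by field_simp
  rw [hl1'] at hl1
  rw [hl2'] at hl2
  set E' := E.filter fun p => ¬ (((E.filter fun q => q.1 = p.1).card : ℝ) < e / (4 * A)) ∧
    ¬ (((E.filter fun q => q.2 = p.2).card : ℝ) < e / (4 * B)) with hE'
  have hE'card : e / 2 ≤ (E'.card : ℝ) := by
    have hcov : E ⊆ E' ∪ ((E.filter fun p => ((E.filter fun q => q.1 = p.1).card : ℝ) < e / (4 * A)) ∪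
        (E.filter fun p => ((E.filter fun q => q.2 = p.2).card : ℝ) < e / (4 * B))) := by
      intro p hp
      rw [Finset.mem_union, Finset.mem_union, hE', Finset.mem_filter, Finset.mem_filter,
        Finset.mem_filter]
      tauto
    have h2 := (Finset.card_le_card hcov).trans ((Finset.card_union_le _ _).trans
      (Nat.add_le_add_left (Finset.card_union_le _ _) _))
    have h3 : e ≤ (E'.card : ℝ) + (((E.filter fun p => ((E.filter fun q => q.1 = p.1).card : ℝ) <
        e / (4 * A)).card : ℝ) + ((E.filter fun p => ((E.filter fun q => q.2 = p.2).card : ℝ) <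
        e / (4 * B)).card : ℝ)) := by
      rw [he]; exact_mod_cast h2
    linarith
  have hfA : 0 ≤ e / (4 * A) - 2 := by
    rw [sub_nonneg, le_div_iff₀ (by positivity)]; linarith
  have hfB : 0 ≤ e / (4 * B) - 2 := by
    rw [sub_nonneg, le_div_iff₀ (by positivity)]; linarith
  have h2 : (E'.card : ℝ) * ((e / (4 * A) - 2) * (e / (4 * B) - 2)) ≤ (W.card : ℝ) := by
    rw [hW, Finset.card_sigma]
    push_cast
    have hsub : E' ⊆ E := Finset.filter_subset _ _
    refine le_trans ?_ (Finset.sum_le_sum_of_subset_of_nonneg hsub fun _ _ _ => by positivity)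
    rw [← nsmul_eq_mul]
    refine Finset.card_nsmul_le_sum _ _ _ fun p hp => ?_
    rw [hE', Finset.mem_filter] at hp
    obtain ⟨hpE, hpA, hpB⟩ := hp
    push Not at hpA hpB
    rw [Finset.card_product]
    push_cast
    have k1 : e / (4 * B) - 2 ≤ ((D2.F2 E p).card : ℝ) := by
      have := D2.F2_ge hI hS (p := p) hpE
      have h' : (((edges2 I S).filter fun q => q.2 = p.2).card : ℝ) ≤
        ((D2.F2 (edges2 I S) p).card : ℝ) + 2 := by exact_mod_cast this
      rw [← hE] at h'
      linarith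
    have k2 : e / (4 * A) - 2 ≤ ((D2.F4 E p).card : ℝ) := by
      have := D2.F4_ge hI hS (p := p) hpE
      have h' : (((edges2 I S).filter fun q => q.1 = p.1).card : ℝ) ≤
        ((D2.F4 (edges2 I S) p).card : ℝ) + 2 := by exact_mod_cast this
      rw [← hE] at h'
      linarith
    rw [mul_comm ((D2.F2 E p).card : ℝ)]
    exact mul_le_mul k2 k1 hfB (hfA.trans k2)
  calc e / 2 * (e / (4 * A) - 2) * (e / (4 * B) - 2)
      = e / 2 * ((e / (4 * A) - 2) * (e / (4 * B) - 2)) := by ring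
    _ ≤ (E'.card : ℝ) * ((e / (4 * A) - 2) * (e / (4 * B) - 2)) := by gcongr
    _ ≤ (W.card : ℝ) := h2
    _ ≤ (((pth r I).filter fun c => c.at Qbc = S).card : ℝ) := by exact_mod_cast h1

end Pool.Agent.H8.VM
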