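import Pool.Agent.H8.VM.D2_Paths

/-! MODULE D3 (about 150 lines). Large stable families have `c1 N n^5` path cells.

`A = r(r-1)`, `B = (n-r)(n-r-1)`, `e(S) = (edges2 I S).card <= A (n-r)` (edges2_row), average of
`e(S)` over `S` is `|I| A B / N >= c0 A B / n =: 2 e0`. Since
`sum_S e(S) <= e0 N + (number of S with e(S) >= e0) * A (n-r)`, at least
`e0 N/(A (n-r)) = c0 N (n-r-1)/(2 n) >= c0 N/5` sets `S` have `e(S) >= e0 = c0 A B/(2n)`. For
those, `e0/(4A) - 2 >= c n`, `e0/(4B) - 2 >= c n`, `e0 >= c n^3` (`n/13 <= r <= n/2`, `n` large),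
`8A <= e0`, `8B <= e0`, and `path_ge` gives `c' n^5` path cells with `bc = S`. Different `S` give
different cells. -/

open scoped BigOperators
open Filter

namespace Pool.Agent.H8.VM

open Pool.Agent.H28.Johnson Pool.Agent.H28.KW Pool.Agent.H28.Windows

private lemma D3_edges_le {n r : ℕ} {I : Finset (Finset (Fin n))} (hI : I ∈ stables n r)
    {S : Finset (Fin n)} (hS : S ∈ Base n r) :
    (edges2 I S).card ≤ (r * (r - 1)) * (n - r) := by
  classical
  have h1 : (edges2 I S).card = ∑ x ∈ S.offDiag, ((edges2 I S).filter fun p => p.1 = x).card := by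
    refine Finset.card_eq_sum_card_fiberwise ?_
    intro p hp
    rw [Finset.mem_coe, mem_edges2] at hp
    exact hp.1.1
  rw [h1]
  calc ∑ x ∈ S.offDiag, ((edges2 I S).filter fun p => p.1 = x).card
      ≤ ∑ _x ∈ S.offDiag, (n - r) := Finset.sum_le_sum fun x _ => edges2_row hI hS x
    _ = (r * (r - 1)) * (n - r) := by
        rw [Finset.sum_const, smul_eq_mul, Finset.offDiag_card, mem_Base.mp hS,
          Nat.mul_sub_one]

/-- the real arithmetic -/
private lemma D3_arith {c0 n R e : ℝ} (hc0 : 0 < c0) (hn1 : 6400 / c0 ≤ n) (hn2 : 1000 ≤ n)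
    (hr1 : n ≤ 13 * R) (hr2 : 2 * R ≤ n)
    (he : c0 * (R * (R - 1)) * ((n - R) * (n - R - 1)) / (2 * n) ≤ e) :
    8 * (R * (R - 1)) ≤ e ∧ 8 * ((n - R) * (n - R - 1)) ≤ e ∧
    c0 ^ 3 * n ^ 5 / 1024000000 ≤
      e / 2 * (e / (4 * (R * (R - 1))) - 2) * (e / (4 * ((n - R) * (n - R - 1))) - 2) := by
  have hn0 : 0 < n := by linarith
  have hcn : 6400 ≤ c0 * n := by
    rw [div_le_iff₀ hc0] at hn1
    linarith
  have hA : n ^ 2 / 200 ≤ R * (R - 1) := by nlinarith
  have hB : n ^ 2 / 5 ≤ (n - R) * (n - R - 1) := by nlinarith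
  obtain ⟨A, hAdef⟩ : ∃ A, A = R * (R - 1) := ⟨_, rfl⟩
  obtain ⟨B, hBdef⟩ : ∃ B, B = (n - R) * (n - R - 1) := ⟨_, rfl⟩
  rw [← hAdef] at hA he ⊢
  rw [← hBdef] at hB he ⊢
  have hA0 : 0 < A := lt_of_lt_of_le (by positivity) hA
  have hB0 : 0 < B := lt_of_lt_of_le (by positivity) hB
  -- the degrees
  have h1 : c0 * n / 10 * A ≤ e := by
    refine le_trans ?_ he
    rw [le_div_iff₀ (by positivity)]
    have h2 : c0 * A * (n ^ 2 / 5) ≤ c0 * A * B := mul_le_mul_of_nonneg_left hB (by positivity)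
    calc c0 * n / 10 * A * (2 * n) = c0 * A * (n ^ 2 / 5) := by ring
      _ ≤ c0 * A * B := h2
  have h3 : c0 * n / 400 * B ≤ e := by
    refine le_trans ?_ he
    rw [le_div_iff₀ (by positivity)]
    have h2 : c0 * B * (n ^ 2 / 200) ≤ c0 * B * A := mul_le_mul_of_nonneg_left hA (by positivity)
    calc c0 * n / 400 * B * (2 * n) = c0 * B * (n ^ 2 / 200) := by ring
      _ ≤ c0 * B * A := h2
      _ = c0 * A * B := by ring
  have h4 : c0 * n ^ 3 / 2000 ≤ e := by
    refine le_trans ?_ h1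
    have h5 : c0 * n / 10 * (n ^ 2 / 200) ≤ c0 * n / 10 * A :=
      mul_le_mul_of_nonneg_left hA (by positivity)
    calc c0 * n ^ 3 / 2000 = c0 * n / 10 * (n ^ 2 / 200) := by ring
      _ ≤ _ := h5
  refine ⟨?_, ?_, ?_⟩
  · refine le_trans ?_ h1
    exact mul_le_mul_of_nonneg_right (by linarith) hA0.le
  · refine le_trans ?_ h3
    exact mul_le_mul_of_nonneg_right (by linarith) hB0.le
  · have h6 : c0 * n / 80 ≤ e / (4 * A) - 2 := by
      have : c0 * n / 40 ≤ e / (4 * A) := by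
        rw [le_div_iff₀ (by positivity)]
        calc c0 * n / 40 * (4 * A) = c0 * n / 10 * A := by ring
          _ ≤ e := h1
      linarith
    have h7 : c0 * n / 3200 ≤ e / (4 * B) - 2 := by
      have : c0 * n / 1600 ≤ e / (4 * B) := by
        rw [le_div_iff₀ (by positivity)]
        calc c0 * n / 1600 * (4 * B) = c0 * n / 400 * B := by ring
          _ ≤ e := h3
      linarith
    have h8 : c0 * n ^ 3 / 4000 ≤ e / 2 := by linarith
    calc c0 ^ 3 * n ^ 5 / 1024000000 = c0 * n ^ 3 / 4000 * (c0 * n / 80) * (c0 * n / 3200) := by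
          ring
      _ ≤ e / 2 * (e / (4 * A) - 2) * (e / (4 * B) - 2) := by
          have h9 : (0 : ℝ) ≤ c0 * n ^ 3 / 4000 := by positivity
          have h10 : (0 : ℝ) ≤ c0 * n / 80 := by positivity
          have h11 : (0 : ℝ) ≤ c0 * n / 3200 := by positivity
          exact mul_le_mul (mul_le_mul h8 h6 h10 (h9.trans h8)) h7 h11
            (mul_nonneg (h9.trans h8) (h10.trans h6))

theorem path_lower (c0 : ℝ) (hc0 : 0 < c0) : ∃ c1 : ℝ, 0 < c1 ∧ ∀ᶠ n : ℕ in atTop, ∀ r : ℕ,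
    n ≤ 13 * r → 2 * r ≤ n → ∀ I ∈ stables n r, c0 * ((n.choose r : ℝ) / n) ≤ (I.card : ℝ) →
    c1 * ((n.choose r : ℝ) * (n : ℝ) ^ 5) ≤ ((pth r I).card : ℝ) := by
  classical
  refine ⟨c0 ^ 4 / 5120000000, by positivity, ?_⟩
  have h1 : ∀ᶠ n : ℕ in atTop, (6400 / c0 : ℝ) ≤ n :=
    tendsto_natCast_atTop_atTop.eventually_ge_atTop _
  filter_upwards [h1, eventually_ge_atTop 1000] with n hn1 hn2 r hr1 hr2 I hI hIc
  have hn2' : (1000 : ℝ) ≤ n := by exact_mod_cast hn2
  have hn0 : (0 : ℝ) < n := by linarith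
  have hr1' : (n : ℝ) ≤ 13 * r := by exact_mod_cast hr1
  have hr2' : 2 * (r : ℝ) ≤ n := by exact_mod_cast hr2
  have hr0 : 1 ≤ r := by omega
  have hA : ((r * (r - 1) : ℕ) : ℝ) = r * (r - 1) := by
    rw [Nat.cast_mul, Nat.cast_sub hr0, Nat.cast_one]
  have hnr : ((n - r : ℕ) : ℝ) = n - r := by rw [Nat.cast_sub (by omega)]
  have hB : (((n - r) * (n - r - 1) : ℕ) : ℝ) = (n - r) * (n - r - 1) := by
    rw [Nat.cast_mul, Nat.cast_sub (show 1 ≤ n - r by omega), hnr, Nat.cast_one]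
  have hN : (Base n r).card = n.choose r := by
    rw [Base, Finset.card_powersetCard, Finset.card_univ, Fintype.card_fin]
  obtain ⟨A, hAdef⟩ : ∃ A : ℝ, A = r * (r - 1) := ⟨_, rfl⟩
  obtain ⟨B, hBdef⟩ : ∃ B : ℝ, B = (n - r) * (n - r - 1) := ⟨_, rfl⟩
  obtain ⟨N, hNdef⟩ : ∃ N : ℝ, N = (n.choose r : ℝ) := ⟨_, rfl⟩
  have hA0 : 0 < A := by rw [hAdef]; nlinarith
  have hB0 : 0 < B := by rw [hBdef]; nlinarith
  have hN0 : 0 ≤ N := by rw [hNdef]; positivity
  obtain ⟨e0, he0⟩ : ∃ e0 : ℝ, e0 = c0 * A * B / (2 * n) := ⟨_, rfl⟩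
  have he00 : 0 ≤ e0 := by rw [he0]; positivity
  -- the sum
  have hsum : c0 * (N / n) * (A * B) ≤ ∑ S ∈ Base n r, ((edges2 I S).card : ℝ) := by
    have h2 := sum_edges2 (mem_stables.mp hI).1
    have h3 : (∑ S ∈ Base n r, ((edges2 I S).card : ℝ)) = (I.card : ℝ) * (A * B) := by
      rw [← Nat.cast_sum, h2, Nat.cast_mul, Nat.cast_mul, hA, hB, hAdef, hBdef]
    rw [h3, hNdef]
    exact mul_le_mul_of_nonneg_right hIc (by positivity)
  obtain ⟨G, hG⟩ : ∃ G : Finset (Finset (Fin n)),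
      G = (Base n r).filter fun S => e0 ≤ ((edges2 I S).card : ℝ) := ⟨_, rfl⟩
  have hGsub : G ⊆ Base n r := by rw [hG]; exact Finset.filter_subset _ _
  have hup : ∑ S ∈ Base n r, ((edges2 I S).card : ℝ) ≤ e0 * N + G.card * (A * (n - r)) := by
    have h2 : ∀ S ∈ Base n r, ((edges2 I S).card : ℝ) ≤
        e0 + if e0 ≤ ((edges2 I S).card : ℝ) then A * (n - r) else 0 := by
      intro S hS
      split_ifs with h
      · have h3 : ((edges2 I S).card : ℝ) ≤ A * (n - r) := by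
          have h4 := D3_edges_le hI hS
          have h5 : ((edges2 I S).card : ℝ) ≤ (((r * (r - 1)) * (n - r) : ℕ) : ℝ) := by
            exact_mod_cast h4
          rw [Nat.cast_mul, hA, hnr, ← hAdef] at h5
          exact h5
        linarith
      · push Not at h
        linarith
    refine (Finset.sum_le_sum h2).trans ?_
    rw [Finset.sum_add_distrib, Finset.sum_const, ← Finset.sum_filter, Finset.sum_const, ← hG,
      nsmul_eq_mul, nsmul_eq_mul, hN, ← hNdef]
    linarith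
  have hGc : c0 * N / 5 ≤ (G.card : ℝ) := by
    have h2 : c0 * (N / n) * (A * B) ≤ e0 * N + G.card * (A * (n - r)) := hsum.trans hup
    have h3 : e0 * N = c0 * (N / n) * (A * B) / 2 := by
      rw [he0]; field_simp
    rw [h3] at h2
    have h4 : c0 * (N / n) * (A * B) / 2 ≤ G.card * (A * (n - r)) := by linarith
    have hnr0 : (0 : ℝ) < n - r := by linarith
    have h5 : c0 * (N / n) * (A * B) / 2 = (c0 * N * (n - r - 1) / (2 * n)) * (A * (n - r)) := by
      rw [hBdef]; field_simp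
    rw [h5] at h4
    have h6 := le_of_mul_le_mul_right h4 (by positivity)
    refine le_trans ?_ h6
    rw [div_le_div_iff₀ (by norm_num) (by positivity)]
    have h7 : c0 * N * (2 * n) ≤ c0 * N * ((n - r - 1) * 5) :=
      mul_le_mul_of_nonneg_left (by linarith) (by positivity)
    linarith
  -- each member of `G` has many path cells
  have hcell : ∀ S ∈ G, c0 ^ 3 * (n : ℝ) ^ 5 / 1024000000 ≤
      (((pth r I).filter fun c => c.at Qbc = S).card : ℝ) := by
    intro S hS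
    have hSB := hGsub hS
    rw [hG, Finset.mem_filter] at hS
    have he : c0 * ((r : ℝ) * (r - 1)) * (((n : ℝ) - r) * (n - r - 1)) / (2 * n) ≤
        ((edges2 I S).card : ℝ) := by
      rw [← hAdef, ← hBdef, ← he0]; exact hS.2
    obtain ⟨h2, h3, h4⟩ := D3_arith hc0 hn1 hn2' hr1' hr2' he
    refine h4.trans ?_
    have h5 := path_ge hI hSB (r * (r - 1)) ((n - r) * (n - r - 1)) rfl rfl
      (by
        have : (0 : ℝ) < ((r * (r - 1) : ℕ) : ℝ) := by rw [hA, ← hAdef]; exact hA0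
        exact_mod_cast this)
      (by
        have : (0 : ℝ) < (((n - r) * (n - r - 1) : ℕ) : ℝ) := by rw [hB, ← hBdef]; exact hB0
        exact_mod_cast this)
      (by
        have : ((8 * (r * (r - 1)) : ℕ) : ℝ) ≤ ((edges2 I S).card : ℝ) := by
          rw [Nat.cast_mul, hA]; exact_mod_cast h2
        exact_mod_cast this)
      (by
        have : ((8 * ((n - r) * (n - r - 1)) : ℕ) : ℝ) ≤ ((edges2 I S).card : ℝ) := by
          rw [Nat.cast_mul, hB]; exact_mod_cast h3
        exact_mod_cast this)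
    rw [hA, hB] at h5
    exact h5
  have hfib : ∑ S ∈ G, (((pth r I).filter fun c => c.at Qbc = S).card : ℝ) ≤
      ((pth r I).card : ℝ) := by
    rw [← Nat.cast_sum]
    have h2 : ∑ S ∈ G, ((pth r I).filter fun c => c.at Qbc = S).card =
        ((pth r I).filter fun c => c.at Qbc ∈ G).card := by
      rw [Finset.card_eq_sum_card_fiberwise (f := fun c : Cell n => c.at Qbc) (t := G)]
      · refine Finset.sum_congr rfl fun S hS => ?_
        congr 1
        ext c
        simp only [Finset.mem_filter]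
        constructor
        · rintro ⟨h3, h4⟩
          exact ⟨⟨h3, h4 ▸ hS⟩, h4⟩
        · rintro ⟨⟨h3, -⟩, h4⟩
          exact ⟨h3, h4⟩
      · intro c hc
        rw [Finset.mem_coe, Finset.mem_filter] at hc
        exact hc.2
    rw [h2]
    exact_mod_cast Finset.card_filter_le _ _
  calc c0 ^ 4 / 5120000000 * ((n.choose r : ℝ) * (n : ℝ) ^ 5)
      = (c0 * N / 5) * (c0 ^ 3 * (n : ℝ) ^ 5 / 1024000000) := by rw [hNdef]; ring
    _ ≤ (G.card : ℝ) * (c0 ^ 3 * (n : ℝ) ^ 5 / 1024000000) :=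
        mul_le_mul_of_nonneg_right hGc (by positivity)
    _ = ∑ _S ∈ G, (c0 ^ 3 * (n : ℝ) ^ 5 / 1024000000) := by
        rw [Finset.sum_const, nsmul_eq_mul]
    _ ≤ ∑ S ∈ G, (((pth r I).filter fun c => c.at Qbc = S).card : ℝ) := Finset.sum_le_sum hcell
    _ ≤ _ := hfib

end Pool.Agent.H8.VM
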