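import Pool.Agent.H8.VM.D4_Fibers

/-! MODULE D5a (part of D5) (about 200 lines). Path cells with an additional member are few.

`|I| (n-r+1) <= N` (the members of a stable family have disjoint sets of lower lines, and there
are `n.choose (r-1) = N r/(n-r+1)` lower lines, `r` below each member), so `|I| <= 2 N/n`.
(a) `bc` in `I`: at most `|I| * n^5 <= 2 N n^4` cells (path_fiber_bc). (b) `ad` in `I`: same.
(c) a transversal `Q` with `c.at Q` in `I` (16 choices of `Q`): choose `u = c.at Qab` in `I`,
`φ 0, ..., φ 3` in `u` (`<= n^4` ways; `Y` is then known), then `(φ 4, φ 5)` with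
`c.at Qac = u - {φ 2, φ 3} + {φ 4, φ 5}` in `I` (`<= n - r <= n` ways: different pairs are
disjoint since `I` is stable), then the element `φ q4`, `q4` in `Q cap {6,7}`: the set
`c.at Q` contains the known `(r-1)`-set `Y + φ q1 + φ q2 + φ q3`, and only one member of `I`
contains it; finally the other element of `{φ 6, φ 7}`: only one member of `I` contains the known
`(r-1)`-set `Y + φ 2 + φ 3 + φ q4`. Total `16 * |I| * n^5 <= 32 N n^4`. -/

open scoped BigOperators

namespace Pool.Agent.H8.VM

open Pool.Agent.H28.Johnson Pool.Agent.H28.KW Pool.Agent.H28.Windows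

theorem card_stable_le {n r : ℕ} (hr : 1 ≤ r) (hrn : r ≤ n) {I : Finset (Finset (Fin n))}
    (hI : I ∈ stables n r) : I.card * (n - r + 1) ≤ n.choose r := by
  classical
  rw [mem_stables] at hI
  have hdis : (I : Set (Finset (Fin n))).PairwiseDisjoint fun u => u.powersetCard (r - 1) := by
    intro u hu v hv huv
    rw [Function.onFun, Finset.disjoint_left]
    intro T hT hT'
    rw [Finset.mem_powersetCard] at hT hT'
    refine hI.2 u hu v hv ⟨huv, ?_⟩
    have := Finset.card_le_card (Finset.subset_inter hT.1 hT'.1)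
    omega
  have hsub : (I.biUnion fun u => u.powersetCard (r - 1)) ⊆ Base n (r - 1) := by
    intro T hT
    rw [Finset.mem_biUnion] at hT
    obtain ⟨u, _, hT⟩ := hT
    rw [mem_Base]
    exact (Finset.mem_powersetCard.mp hT).2
  have h1 := Finset.card_le_card hsub
  rw [Finset.card_biUnion hdis, card_Base] at h1
  have h2 : ∀ u ∈ I, (u.powersetCard (r - 1)).card = r := by
    intro u hu
    rw [Finset.card_powersetCard, mem_Base.mp (hI.1 hu)]
    obtain ⟨r', rfl⟩ : ∃ r', r = r' + 1 := ⟨r - 1, by omega⟩
    simp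
  rw [Finset.sum_congr rfl h2, Finset.sum_const, smul_eq_mul] at h1
  obtain ⟨r', rfl⟩ : ∃ r', r = r' + 1 := ⟨r - 1, by omega⟩
  have h3 := Nat.choose_succ_right_eq n r'
  have h4 : r' + 1 - 1 = r' := by omega
  rw [h4] at h1
  have h5 : n - (r' + 1) + 1 = n - r' := by omega
  rw [h5]
  have h6 : (I.card * (n - r')) * (r' + 1) ≤ n.choose (r' + 1) * (r' + 1) := by
    rw [h3]
    calc (I.card * (n - r')) * (r' + 1) = (I.card * (r' + 1)) * (n - r') := by ring
      _ ≤ n.choose r' * (n - r') := Nat.mul_le_mul_right _ h1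
  exact Nat.le_of_mul_le_mul_right h6 (Nat.succ_pos r')

end Pool.Agent.H8.VM
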