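import Pool.Agent.H8.VM.D4_Fibers
import Pool.Agent.H8.VM.D5a_Card

/-! MODULE D5b (part of D5) (about 200 lines). Path cells with an additional member are few.

`|I| (n-r+1) <= N` (the members of a stable family have disjoint sets of lower lines, and there
are `n.choose (r-1) = N r/(n-r+1)` lower lines, `r` below each member), so `|I| <= 2 N/n`.
(a) `bc` in `I`: at most `|I| * n^5 <= 2 N n^4` cells (path_fiber_bc). (b) `ad` in `I`: same.
(c) a transversal `Q` with `c.at Q` in `I` (16 choices of `Q`): choose `u = c.at Qab` in `I`,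
`φ 0, ..., φ 3` in `u` (`<= n^4` ways; `Y` is then known), then `(φ 4, φ 5)` with
`c.at Qac = u - {φ 2, φ 3} + {φ 4, φ 5}` in `I` (`<= n - r <= n` ways: different pairs are
disjoint since `I` is stable), then the element `φ q4`, `q4` in `Q cap {6,7}`: the set
`c.at Q` contains the known `(r-1)`-set `Y + φ q1 + φ q2 + φ q3`, and only one member of `I`
contains it; finally the other element of `{φ 6, φ 7}`: only one member of `I` contains the known
`(r-1)`-set `Y + φ 2 + φ 3 + φ q4`. Total `16 * |I| * n^5 <= 32 N n^4`. -/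

open scoped BigOperators

namespace Pool.Agent.H8.VM

open Pool.Agent.H28.Johnson Pool.Agent.H28.KW Pool.Agent.H28.Windows

/-- a place of `Q` is determined by the other three places of `Q` -/
theorem D5b_uniq {n r : ℕ} {I : Finset (Finset (Fin n))} (hI : I ∈ stables n r)
    {c c' : Cell n} (hc : c ∈ cells n r) (hc' : c' ∈ cells n r) (hY : c.1 = c'.1)
    {Q : Finset (Fin 8)} (hQ : Q.card = 4) {q : Fin 8} (hq : q ∈ Q)
    (h : ∀ i ∈ Q, i ≠ q → c.2 i = c'.2 i) (h1 : c.at Q ∈ I) (h2 : c'.at Q ∈ I) :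
    c.2 q = c'.2 q := by
  classical
  rw [mem_stables] at hI
  have hd := (mem_cells.mp hc).2
  have hd' := (mem_cells.mp hc').2
  have hr := (mem_cells.mp hc).1
  have hE : (Q.erase q).card = 3 := by rw [Finset.card_erase_of_mem hq, hQ]
  have hTc : (c.at (Q.erase q)).card = c.1.card + 3 := by
    rw [Cell.at, Pool.Agent.H28.V8.loc_card hd, hE]
  have hmap : (Q.erase q).map c.2 = (Q.erase q).map c'.2 := by
    ext x
    rw [Finset.mem_map, Finset.mem_map]
    constructor
    · rintro ⟨i, hi, rfl⟩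
      exact ⟨i, hi, (h i (Finset.mem_of_mem_erase hi) (Finset.ne_of_mem_erase hi)).symm⟩
    · rintro ⟨i, hi, rfl⟩
      exact ⟨i, hi, h i (Finset.mem_of_mem_erase hi) (Finset.ne_of_mem_erase hi)⟩
  have hT : c.at (Q.erase q) = c'.at (Q.erase q) := by
    unfold Cell.at Pool.Agent.H28.V8.loc
    rw [hY, hmap]
  have hsub : ∀ d : Cell n, d.at (Q.erase q) ⊆ d.at Q := by
    intro d x hx
    rw [D4a_mem] at hx ⊢
    rcases hx with hx | ⟨i, hi, hx⟩
    · exact Or.inl hx
    · exact Or.inr ⟨i, Finset.mem_of_mem_erase hi, hx⟩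
  have heq : c.at Q = c'.at Q := by
    by_contra hne
    refine hI.2 _ h1 _ h2 ⟨hne, ?_⟩
    have h3 : c.at (Q.erase q) ⊆ c.at Q ∩ c'.at Q := by
      refine Finset.subset_inter (hsub c) ?_
      rw [hT]
      exact hsub c'
    have := Finset.card_le_card h3
    omega
  have h4 : c.2 q ∈ c'.at Q := by
    rw [← heq, D4a_mem]
    exact Or.inr ⟨q, hq, rfl⟩
  rw [D4a_mem] at h4
  rcases h4 with h4 | ⟨i, hi, h4⟩
  · exfalso
    rw [← hY] at h4
    exact hd q h4
  · by_cases hiq : i = q
    · rw [← hiq, h4, hiq]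
    · exfalso
      rw [← h i hi hiq] at h4
      exact hiq (c.2.injective h4)

/-- `ac` is obtained from `ab` by exchanging `b` with `c` -/
theorem D5b_swp {n r : ℕ} {c : Cell n} (hc : c ∈ cells n r) :
    swp (c.at Qab) (c.2 2, c.2 3) (c.2 4, c.2 5) = c.at Qac := by
  have hY := (mem_cells.mp hc).2
  ext x
  rw [swp, Finset.mem_union, Finset.mem_sdiff, D4a_mem_ab, D4a_mem_ac]
  simp only [Finset.mem_insert, Finset.mem_singleton]
  constructor
  · rintro (⟨h | h | h | h | h, h2⟩ | h | h)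
    · exact Or.inl h
    · exact Or.inr (Or.inl h)
    · exact Or.inr (Or.inr (Or.inl h))
    · exact absurd (Or.inl h) h2
    · exact absurd (Or.inr h) h2
    · exact Or.inr (Or.inr (Or.inr (Or.inl h)))
    · exact Or.inr (Or.inr (Or.inr (Or.inr h)))
  · rintro (h | h | h | h | h)
    · refine Or.inl ⟨Or.inl h, ?_⟩
      rintro (h2 | h2)
      · exact hY 2 (h2 ▸ h)
      · exact hY 3 (h2 ▸ h)
    · refine Or.inl ⟨Or.inr (Or.inl h), ?_⟩
      rintro (h2 | h2)
      · exact D4a_ne c (by decide : (0 : Fin 8) ≠ 2) (h.symm.trans h2)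
      · exact D4a_ne c (by decide : (0 : Fin 8) ≠ 3) (h.symm.trans h2)
    · refine Or.inl ⟨Or.inr (Or.inr (Or.inl h)), ?_⟩
      rintro (h2 | h2)
      · exact D4a_ne c (by decide : (1 : Fin 8) ≠ 2) (h.symm.trans h2)
      · exact D4a_ne c (by decide : (1 : Fin 8) ≠ 3) (h.symm.trans h2)
    · exact Or.inr (Or.inl h)
    · exact Or.inr (Or.inr h)

theorem D5b_edge {n r : ℕ} {I : Finset (Finset (Fin n))} {c : Cell n} (hc : c ∈ pth r I) :
    (((c.2 2, c.2 3), (c.2 4, c.2 5)) : (Fin n × Fin n) × (Fin n × Fin n)) ∈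
      edges2 I (c.at Qab) := by
  obtain ⟨h0, h1, h2, h3⟩ := mem_pth.mp hc
  have hY := (mem_cells.mp h0).2
  have key : ∀ k : Fin 8, k ∉ Qab → c.2 k ∉ c.at Qab := by
    intro k hk h
    rw [D4a_mem] at h
    rcases h with h | ⟨l, hl, h⟩
    · exact hY k h
    · exact hk (c.2.injective h ▸ hl)
  rw [mem_edges2]
  refine ⟨⟨?_, ?_⟩, ?_⟩
  · rw [Finset.mem_offDiag]
    exact ⟨(D4a_mem c Qab _).mpr (Or.inr ⟨2, by decide, rfl⟩),
      (D4a_mem c Qab _).mpr (Or.inr ⟨3, by decide, rfl⟩), D4a_ne c (by decide)⟩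
  · rw [Finset.mem_offDiag, Finset.mem_compl, Finset.mem_compl]
    exact ⟨key 4 (by decide), key 5 (by decide), D4a_ne c (by decide)⟩
  · rw [D5b_swp h0]
    exact h2

set_option maxRecDepth 20000 in
theorem D5b_trans0 : ∀ Q ∈ trans, Q.card = 4 ∧ ((6 ∈ Q ∧ 7 ∉ Q) ∨ (7 ∈ Q ∧ 6 ∉ Q)) := by
  decide

theorem D5b_trans (Q : Finset (Fin 8)) (hQ : Q ∈ trans) : Q.card = 4 ∧
    ∃ q ∈ Q, ∃ q' : Fin 8, ((q = 6 ∧ q' = 7) ∨ (q = 7 ∧ q' = 6)) ∧
      ∀ i ∈ Q, i ≠ q → i = 0 ∨ i = 1 ∨ i = 2 ∨ i = 3 ∨ i = 4 ∨ i = 5 := by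
  obtain ⟨h4, h | h⟩ := D5b_trans0 Q hQ
  · refine ⟨h4, 6, h.1, 7, Or.inl ⟨rfl, rfl⟩, ?_⟩
    intro i hi h6
    have h7 : i ≠ 7 := fun h' => h.2 (h' ▸ hi)
    fin_cases i <;> simp_all
  · refine ⟨h4, 7, h.1, 6, Or.inr ⟨rfl, rfl⟩, ?_⟩
    intro i hi h7
    have h6 : i ≠ 6 := fun h' => h.2 (h' ▸ hi)
    fin_cases i <;> simp_all

set_option maxRecDepth 20000 in
theorem D5b_card_trans : trans.card = 16 := by decide

open Classical in
/-- path cells with a given transversal in `I` -/
theorem D5b_one {n r : ℕ} {I : Finset (Finset (Fin n))} (hI : I ∈ stables n r)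
    {Q : Finset (Fin 8)} (hQ : Q ∈ trans) :
    ((pth r I).filter fun c => c.at Q ∈ I).card ≤ I.card * n ^ 5 := by
  set F := (pth r I).filter fun c => c.at Q ∈ I with hF
  have hIB : I ⊆ Base n r := (mem_stables.mp hI).1
  have hFp : ∀ c ∈ F, c ∈ pth r I ∧ c.at Q ∈ I := fun c hc => Finset.mem_filter.mp hc
  -- the last two places are determined
  have s4 : ∀ (u : Finset (Fin n)) (p : Fin n × Fin n × Fin n × Fin n) (p2 : Fin n × Fin n),
      (F.filter fun c => c.at Qab = u ∧ (c.2 0, c.2 1, c.2 2, c.2 3) = p ∧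
        (c.2 4, c.2 5) = p2).card ≤ 1 := by
    intro u p p2
    rw [Finset.card_le_one]
    intro c hc c' hc'
    rw [Finset.mem_filter] at hc hc'
    obtain ⟨hc0, hcu, hcp, hc2⟩ := hc
    obtain ⟨hc0', hcu', hcp', hc2'⟩ := hc'
    have hp := hcp.trans hcp'.symm
    have h2 := hc2.trans hc2'.symm
    simp only [Prod.mk.injEq] at hp h2
    obtain ⟨e0, e1, e2, e3⟩ := hp
    obtain ⟨e4, e5⟩ := h2
    have hc1 := (mem_pth.mp (hFp c hc0).1)
    have hc1' := (mem_pth.mp (hFp c' hc0').1)
    have hYY : c.1 = c'.1 := by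
      have key : ∀ d d' : Cell n, (∀ i, d.2 i ∉ d.1) → d.at Qab = d'.at Qab →
          d.2 0 = d'.2 0 → d.2 1 = d'.2 1 → d.2 2 = d'.2 2 → d.2 3 = d'.2 3 → d.1 ⊆ d'.1 := by
        intro d d' hd hS f0 f1 f2 f3 x hx
        have h1 : x ∈ d'.at Qab := by
          rw [← hS, D4a_mem]
          exact Or.inl hx
        rw [D4a_mem_ab] at h1
        rcases h1 with h1 | h1 | h1 | h1 | h1
        · exact h1
        · exact absurd hx (by rw [h1, ← f0]; exact hd 0)
        · exact absurd hx (by rw [h1, ← f1]; exact hd 1)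
        · exact absurd hx (by rw [h1, ← f2]; exact hd 2)
        · exact absurd hx (by rw [h1, ← f3]; exact hd 3)
      have hu := hcu.trans hcu'.symm
      exact Finset.Subset.antisymm
        (key c c' (mem_cells.mp hc1.1).2 hu e0 e1 e2 e3)
        (key c' c (mem_cells.mp hc1'.1).2 hu.symm e0.symm e1.symm e2.symm e3.symm)
    obtain ⟨hQ4, q, hqQ, q', hqq, hrest⟩ := D5b_trans Q hQ
    have f1 : c.2 q = c'.2 q := by
      refine D5b_uniq hI hc1.1 hc1'.1 hYY hQ4 hqQ ?_ (hFp c hc0).2 (hFp c' hc0').2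
      intro i hi hiq
      rcases hrest i hi hiq with h | h | h | h | h | h
      · rw [h]; exact e0
      · rw [h]; exact e1
      · rw [h]; exact e2
      · rw [h]; exact e3
      · rw [h]; exact e4
      · rw [h]; exact e5
    have f2 : c.2 q' = c'.2 q' := by
      have hq' : q' ∈ Qbd := by
        rcases hqq with ⟨_, h⟩ | ⟨_, h⟩
        · rw [h]; decide
        · rw [h]; decide
      refine D5b_uniq hI hc1.1 hc1'.1 hYY (by decide : Qbd.card = 4) hq' ?_ hc1.2.2.2 hc1'.2.2.2
      intro i hi hiq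
      have h5 : i = 2 ∨ i = 3 ∨ i = 6 ∨ i = 7 := by
        simpa [Qbd] using hi
      rcases hqq with ⟨ha, hb⟩ | ⟨ha, hb⟩
      · rw [ha] at f1
        rw [hb] at hiq
        rcases h5 with h | h | h | h
        · rw [h]; exact e2
        · rw [h]; exact e3
        · rw [h]; exact f1
        · exact absurd h hiq
      · rw [ha] at f1
        rw [hb] at hiq
        rcases h5 with h | h | h | h
        · rw [h]; exact e2
        · rw [h]; exact e3
        · exact absurd h hiq
        · rw [h]; exact f1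
    have f67 : c.2 6 = c'.2 6 ∧ c.2 7 = c'.2 7 := by
      rcases hqq with ⟨ha, hb⟩ | ⟨ha, hb⟩
      · rw [ha] at f1
        rw [hb] at f2
        exact ⟨f1, f2⟩
      · rw [ha] at f1
        rw [hb] at f2
        exact ⟨f2, f1⟩
    refine Prod.ext hYY ?_
    refine DFunLike.ext _ _ fun i => ?_
    fin_cases i
    · exact e0
    · exact e1
    · exact e2
    · exact e3
    · exact e4
    · exact e5
    · exact f67.1
    · exact f67.2
  have s3 : ∀ u ∈ I, ∀ p : Fin n × Fin n × Fin n × Fin n,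
      (F.filter fun c => c.at Qab = u ∧ (c.2 0, c.2 1, c.2 2, c.2 3) = p).card ≤ n := by
    intro u hu p
    have h := Finset.card_le_mul_card_image_of_maps_to
      (s := F.filter fun c => c.at Qab = u ∧ (c.2 0, c.2 1, c.2 2, c.2 3) = p)
      (t := (Finset.univ : Finset (Fin n × Fin n)).filter fun y =>
        ((p.2.2.1, p.2.2.2), y) ∈ edges2 I u)
      (f := fun c => (c.2 4, c.2 5)) (by
        intro c hc
        rw [Finset.mem_filter] at hc
        rw [Finset.mem_filter]
        refine ⟨Finset.mem_univ _, ?_⟩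
        rw [← hc.2.2, ← hc.2.1]
        exact D5b_edge (hFp c hc.1).1) 1 (by
        intro p2 _
        refine le_trans (Finset.card_le_card ?_) (s4 u p p2)
        intro c hc
        rw [Finset.mem_filter, Finset.mem_filter] at hc
        rw [Finset.mem_filter]
        exact ⟨hc.1.1, hc.1.2.1, hc.1.2.2, hc.2⟩)
    rw [one_mul] at h
    exact h.trans (D4a_row hI (hIB hu) _)
  have s2 : ∀ u ∈ I, (F.filter fun c => c.at Qab = u).card ≤ n ^ 5 := by
    intro u hu
    have h := Finset.card_le_mul_card_image_of_maps_to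
      (s := F.filter fun c => c.at Qab = u)
      (t := (Finset.univ : Finset (Fin n × Fin n × Fin n × Fin n)))
      (f := fun c => (c.2 0, c.2 1, c.2 2, c.2 3)) (fun _ _ => Finset.mem_univ _) n (by
        intro p _
        refine le_trans (Finset.card_le_card ?_) (s3 u hu p)
        intro c hc
        rw [Finset.mem_filter, Finset.mem_filter] at hc
        rw [Finset.mem_filter]
        exact ⟨hc.1.1, hc.1.2, hc.2⟩)
    refine h.trans ?_
    rw [Finset.card_univ, Fintype.card_prod, Fintype.card_prod, Fintype.card_prod,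
      Fintype.card_fin]
    exact le_of_eq (by ring)
  have h := Finset.card_le_mul_card_image_of_maps_to
    (s := F) (t := I) (f := fun c => c.at Qab)
    (fun c hc => (mem_pth.mp (hFp c hc).1).2.1) (n ^ 5) (fun u hu => s2 u hu)
  rw [mul_comm]
  exact h

open Classical in
theorem path_bad {n r : ℕ} (hr : 4 ≤ r) (hrn : 2 * r ≤ n) {I : Finset (Finset (Fin n))}
    (hI : I ∈ stables n r) :
    ((pth r I).filter fun c => c.at Qbc ∈ I ∨ c.at Qad ∈ I ∨ ∃ Q ∈ trans, c.at Q ∈ I).card ≤
      36 * (n.choose r * n ^ 4) := by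
  have hIB : I ⊆ Base n r := (mem_stables.mp hI).1
  have hcard := card_stable_le (by omega) (by omega) hI
  have hN : I.card * n ^ 5 ≤ 2 * (n.choose r * n ^ 4) := by
    have h1 : I.card * n ≤ 2 * n.choose r := by
      calc I.card * n ≤ I.card * (2 * (n - r + 1)) := Nat.mul_le_mul_left _ (by omega)
        _ = 2 * (I.card * (n - r + 1)) := by ring
        _ ≤ 2 * n.choose r := Nat.mul_le_mul_left _ hcard
    calc I.card * n ^ 5 = (I.card * n) * n ^ 4 := by ring
      _ ≤ (2 * n.choose r) * n ^ 4 := Nat.mul_le_mul_right _ h1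
      _ = 2 * (n.choose r * n ^ 4) := by ring
  have hbc : ((pth r I).filter fun c => c.at Qbc ∈ I).card ≤ I.card * n ^ 5 := by
    have h := Finset.card_le_mul_card_image_of_maps_to
      (s := (pth r I).filter fun c => c.at Qbc ∈ I) (t := I) (f := fun c => c.at Qbc)
      (fun c hc => (Finset.mem_filter.mp hc).2) (n ^ 5) (by
        intro u hu
        refine le_trans (Finset.card_le_card ?_) (path_fiber_bc hI (hIB hu))
        intro c hc
        rw [Finset.mem_filter, Finset.mem_filter] at hc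
        rw [Finset.mem_filter]
        exact ⟨hc.1.1, hc.2⟩)
    rw [mul_comm]
    exact h
  have had : ((pth r I).filter fun c => c.at Qad ∈ I).card ≤ I.card * n ^ 5 := by
    have h := Finset.card_le_mul_card_image_of_maps_to
      (s := (pth r I).filter fun c => c.at Qad ∈ I) (t := I) (f := fun c => c.at Qad)
      (fun c hc => (Finset.mem_filter.mp hc).2) (n ^ 5) (by
        intro u hu
        refine le_trans (Finset.card_le_card ?_) (path_fiber_ad hI (hIB hu))
        intro c hc
        rw [Finset.mem_filter, Finset.mem_filter] at hc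
        rw [Finset.mem_filter]
        exact ⟨hc.1.1, hc.2⟩)
    rw [mul_comm]
    exact h
  have hsub : ((pth r I).filter fun c => c.at Qbc ∈ I ∨ c.at Qad ∈ I ∨
      ∃ Q ∈ trans, c.at Q ∈ I) ⊆
      ((pth r I).filter fun c => c.at Qbc ∈ I) ∪ (((pth r I).filter fun c => c.at Qad ∈ I) ∪
        trans.biUnion fun Q => (pth r I).filter fun c => c.at Q ∈ I) := by
    intro c hc
    rw [Finset.mem_filter] at hc
    rw [Finset.mem_union, Finset.mem_union, Finset.mem_biUnion]
    rcases hc.2 with h | h | ⟨Q, hQ, h⟩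
    · exact Or.inl (Finset.mem_filter.mpr ⟨hc.1, h⟩)
    · exact Or.inr (Or.inl (Finset.mem_filter.mpr ⟨hc.1, h⟩))
    · exact Or.inr (Or.inr ⟨Q, hQ, Finset.mem_filter.mpr ⟨hc.1, h⟩⟩)
  have h16 : (trans.biUnion fun Q => (pth r I).filter fun c => c.at Q ∈ I).card ≤
      16 * (I.card * n ^ 5) := by
    refine Finset.card_biUnion_le.trans ?_
    refine (Finset.sum_le_sum fun Q hQ => D5b_one hI hQ).trans ?_
    rw [Finset.sum_const, D5b_card_trans, smul_eq_mul]
  calc _ ≤ _ := Finset.card_le_card hsub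
    _ ≤ _ := Finset.card_union_le _ _
    _ ≤ I.card * n ^ 5 + (I.card * n ^ 5 + 16 * (I.card * n ^ 5)) :=
        add_le_add hbc ((Finset.card_union_le _ _).trans (add_le_add had h16))
    _ = 18 * (I.card * n ^ 5) := by ring
    _ ≤ 18 * (2 * (n.choose r * n ^ 4)) := Nat.mul_le_mul_left _ hN
    _ = 36 * (n.choose r * n ^ 4) := by ring

end Pool.Agent.H8.VM
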