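import Mathlib
import Pool.Agent.H28.Windows
import Pool.Agent.H28.V8

/-! # Almost every sparse paving matroid has a Vamos minor: definitions

Everything lives in the Johnson graph on the `r`-subsets of `Fin n`: `Base n r` is the vertex
set, `adj r S T` means `S <> T` and `r <= |S cap T| + 1`, `stables n r` is the family of stable
(independent) sets. Stable sets of `J(n, r)` correspond to the sparse paving matroids of rank
`r` (their circuit-hyperplanes), see `Pool.Agent.H28.SPMatroid`.
Throughout `s = (stables n r).card` and `N = n.choose r`. -/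

open scoped BigOperators
open Filter

namespace Pool.Agent.H8.VM

open Pool.Agent.H28.Johnson Pool.Agent.H28.KW Pool.Agent.H28.Windows

variable {n : ℕ}

open Classical in
/-- the members of `I` adjacent to `v` -/
noncomputable def nbr (r : ℕ) (I : Finset (Finset (Fin n))) (v : Finset (Fin n)) :
    Finset (Finset (Fin n)) := I.filter fun u => adj r v u

open Classical in
/-- the `r`-sets outside `I` without neighbours in `I` -/
noncomputable def addable (r : ℕ) (I : Finset (Finset (Fin n))) : Finset (Finset (Fin n)) :=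
  (Base n r).filter fun v => v ∉ I ∧ ∀ u ∈ I, ¬ adj r v u

open Classical in
/-- the `r`-sets with exactly `k` neighbours in `I` -/
noncomputable def lev (r k : ℕ) (I : Finset (Finset (Fin n))) : Finset (Finset (Fin n)) :=
  (Base n r).filter fun v => (nbr r I v).card = k

open Classical in
/-- the neighbourhood of `S` in the Johnson graph -/
noncomputable def nbh (r : ℕ) (S : Finset (Fin n)) : Finset (Finset (Fin n)) :=
  (Base n r).filter fun v => adj r S v

open Classical in
/-- positions `y` such that `T + y` has no neighbour in `I` except possibly a member of `I`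
containing `T` (`T` a lower line, i.e. an `(r-1)`-set) -/
noncomputable def allowL (r : ℕ) (I : Finset (Finset (Fin n))) (T : Finset (Fin n)) :
    Finset (Fin n) := Tᶜ.filter fun y => ∀ w ∈ I, adj r (insert y T) w → T ⊆ w

open Classical in
/-- positions `x` such that `Q - x` has no neighbour in `I` except possibly a member of `I`
contained in `Q` (`Q` an upper line, i.e. an `(r+1)`-set) -/
noncomputable def allowU (r : ℕ) (I : Finset (Finset (Fin n))) (Q : Finset (Fin n)) :
    Finset (Fin n) := Q.filter fun x => ∀ w ∈ I, adj r (Q.erase x) w → w ⊆ Q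

open Classical in
/-- heavy lower lines -/
noncomputable def heavyL (r M : ℕ) (I : Finset (Finset (Fin n))) : Finset (Finset (Fin n)) :=
  (Base n (r - 1)).filter fun T => M ≤ (allowL r I T).card

open Classical in
/-- heavy upper lines -/
noncomputable def heavyU (r M : ℕ) (I : Finset (Finset (Fin n))) : Finset (Finset (Fin n)) :=
  (Base n (r + 1)).filter fun Q => M ≤ (allowU r I Q).card

open Classical in
/-- ordered pairs of distinct nonadjacent members of `P` -/
noncomputable def apairs (r : ℕ) (P : Finset (Finset (Fin n))) :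
    Finset (Finset (Fin n) × Finset (Fin n)) :=
  (P ×ˢ P).filter fun p => p.1 ≠ p.2 ∧ ¬ adj r p.1 p.2

open Classical in
/-- `I` with the state of the lower line `T` replaced by `T + y` -/
noncomputable def put (T : Finset (Fin n)) (y : Fin n) (I : Finset (Finset (Fin n))) :
    Finset (Finset (Fin n)) := insert (insert y T) (I.filter fun w => ¬ T ⊆ w)

/-- `T` is the only heavy lower line below `T + y` in `put T y I` -/
def Good (r M : ℕ) (I : Finset (Finset (Fin n))) (T : Finset (Fin n)) (y : Fin n) : Prop :=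
  ∀ T3 ∈ heavyL r M (put T y I), T3 ⊆ insert y T → T3 = T

open Classical in
/-- number of pairs `(a, y)`, `a` outside `T'`, `y` in `T'`, such that `T = T' + a - y` is heavy,
`T + y = T' + a` is allowed for `T`, and `(T, y)` is good -/
noncomputable def hcount (r M : ℕ) (I : Finset (Finset (Fin n))) (T' : Finset (Fin n)) : ℕ :=
  ((T'ᶜ ×ˢ T').filter fun p => ((insert p.1 T').erase p.2) ∈ heavyL r M I ∧
    p.2 ∈ allowL r I ((insert p.1 T').erase p.2) ∧
    Good r M I ((insert p.1 T').erase p.2) p.2).card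

open Classical in
/-- the neighbours `v` of `S` outside `I` which lie in an occupied row of the grid `N(S)` and
whose `I`-neighbours all lie in `N(S)` -/
noncomputable def psiset (r : ℕ) (I : Finset (Finset (Fin n))) (S : Finset (Fin n)) :
    Finset (Finset (Fin n)) :=
  (nbh r S).filter fun v =>
    (∃ u ∈ I, nbr r I v = {u} ∧ u ∩ S = v ∩ S) ∨
    (∃ u ∈ I, ∃ u' ∈ I, u ≠ u' ∧ nbr r I v = {u, u'} ∧ u ∩ S = v ∩ S ∧ u' ∪ S = v ∪ S)

open Classical in
/-- `I` outside the closed neighbourhood of `S` -/
noncomputable def outside (r : ℕ) (I : Finset (Finset (Fin n))) (S : Finset (Fin n)) :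
    Finset (Finset (Fin n)) := I.filter fun w => w ≠ S ∧ ¬ adj r S w

open Classical in
/-- the stable families which agree with `w` outside and fill the neighbourhood of `S` -/
noncomputable def fillings (r : ℕ) (w : Finset (Finset (Fin n))) (S : Finset (Fin n)) :
    Finset (Finset (Finset (Fin n))) :=
  (nbh r S).powerset.filter fun J => w ∪ J ∈ stables n r

/-- number of fillings of the neighbourhood of `S` compatible with `I` outside `N[S]` -/
noncomputable def Lam (r : ℕ) (I : Finset (Finset (Fin n))) (S : Finset (Fin n)) : ℕ :=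
  (fillings r (outside r I S) S).card

open Classical in
/-- the occupied rows of the filling `J` of the grid `N(S)` -/
noncomputable def rows (S : Finset (Fin n)) (J : Finset (Finset (Fin n))) : Finset (Fin n) :=
  S.filter fun x => ∃ u ∈ J, x ∉ u

/-- exchange the ordered pair `x` of elements of `S` with the ordered pair `y` -/
def swp (S : Finset (Fin n)) (x y : Fin n × Fin n) : Finset (Fin n) :=
  (S \ {x.1, x.2}) ∪ {y.1, y.2}

open Classical in
/-- the members of `I` at distance two from `S`, as pairs (ordered pair removed from `S`, ordered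
pair added to `S`) -/
noncomputable def edges2 (I : Finset (Finset (Fin n))) (S : Finset (Fin n)) :
    Finset ((Fin n × Fin n) × (Fin n × Fin n)) :=
  (S.offDiag ×ˢ Sᶜ.offDiag).filter fun p => swp S p.1 p.2 ∈ I

/-! ## cells -/

/-- a potential Vamos minor: `Y` is contracted, the eight elements are `φ 0, ..., φ 7`, with the
four pairs `a = {0,1}`, `b = {2,3}`, `c = {4,5}`, `d = {6,7}` -/
abbrev Cell (n : ℕ) := Finset (Fin n) × (Fin 8 ↪ Fin n)

/-- the `r`-set of the cell `c` with trace `Q` -/
def Cell.at {n : ℕ} (c : Cell n) (Q : Finset (Fin 8)) : Finset (Fin n) :=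
  Pool.Agent.H28.V8.loc c.1 c.2 Q

open Classical in
/-- all cells of rank `r` -/
noncomputable def cells (n r : ℕ) : Finset (Cell n) :=
  (Finset.univ : Finset (Cell n)).filter fun c => c.1.card + 4 = r ∧ ∀ i, c.2 i ∉ c.1

def Qab : Finset (Fin 8) := {0, 1, 2, 3}
def Qac : Finset (Fin 8) := {0, 1, 4, 5}
def Qad : Finset (Fin 8) := {0, 1, 6, 7}
def Qbc : Finset (Fin 8) := {2, 3, 4, 5}
def Qbd : Finset (Fin 8) := {2, 3, 6, 7}
def Qcd : Finset (Fin 8) := {4, 5, 6, 7}

/-- the sixteen transversals of the four pairs -/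
def trans : Finset (Finset (Fin 8)) :=
  ((Finset.univ : Finset (Fin 8)).powersetCard 4).filter fun Q =>
    (Q ∩ {0, 1}).card = 1 ∧ (Q ∩ {2, 3}).card = 1 ∧ (Q ∩ {4, 5}).card = 1 ∧ (Q ∩ {6, 7}).card = 1

open Classical in
/-- the path cells of `I`: `ab, ac, bd` are in `I` -/
noncomputable def pth (r : ℕ) (I : Finset (Finset (Fin n))) : Finset (Cell n) :=
  (cells n r).filter fun c => c.at Qab ∈ I ∧ c.at Qac ∈ I ∧ c.at Qbd ∈ I

/-- `c` shows exactly the Vamos pattern in `I` -/
def Pat (I : Finset (Finset (Fin n))) (c : Cell n) : Prop :=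
  ∀ Q : Finset (Fin 8), Q.card = 4 → (c.at Q ∈ I ↔ Q ∈ Pool.Agent.H28.V8.patt)

/-- some cell shows the Vamos pattern -/
def HasPat (r : ℕ) (I : Finset (Finset (Fin n))) : Prop := ∃ c ∈ cells n r, Pat I c

open Classical in
/-- the stable families without Vamos pattern -/
noncomputable def free (n r : ℕ) : Finset (Finset (Finset (Fin n))) :=
  (stables n r).filter fun I => ¬ HasPat r I

/-! ## membership lemmas -/

lemma mem_nbr {r : ℕ} {I : Finset (Finset (Fin n))} {u v : Finset (Fin n)} :
    u ∈ nbr r I v ↔ u ∈ I ∧ adj r v u := by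
  classical
  rw [nbr, Finset.mem_filter]

lemma mem_addable {r : ℕ} {I : Finset (Finset (Fin n))} {v : Finset (Fin n)} :
    v ∈ addable r I ↔ v ∈ Base n r ∧ v ∉ I ∧ ∀ u ∈ I, ¬ adj r v u := by
  classical
  rw [addable, Finset.mem_filter]

lemma mem_lev {r k : ℕ} {I : Finset (Finset (Fin n))} {v : Finset (Fin n)} :
    v ∈ lev r k I ↔ v ∈ Base n r ∧ (nbr r I v).card = k := by
  classical
  rw [lev, Finset.mem_filter]

lemma mem_nbh {r : ℕ} {S v : Finset (Fin n)} : v ∈ nbh r S ↔ v ∈ Base n r ∧ adj r S v := by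
  classical
  rw [nbh, Finset.mem_filter]

lemma mem_allowL {r : ℕ} {I : Finset (Finset (Fin n))} {T : Finset (Fin n)} {y : Fin n} :
    y ∈ allowL r I T ↔ y ∉ T ∧ ∀ w ∈ I, adj r (insert y T) w → T ⊆ w := by
  classical
  rw [allowL, Finset.mem_filter, Finset.mem_compl]

lemma mem_allowU {r : ℕ} {I : Finset (Finset (Fin n))} {Q : Finset (Fin n)} {x : Fin n} :
    x ∈ allowU r I Q ↔ x ∈ Q ∧ ∀ w ∈ I, adj r (Q.erase x) w → w ⊆ Q := by
  classical
  rw [allowU, Finset.mem_filter]

lemma mem_heavyL {r M : ℕ} {I : Finset (Finset (Fin n))} {T : Finset (Fin n)} :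
    T ∈ heavyL r M I ↔ T ∈ Base n (r - 1) ∧ M ≤ (allowL r I T).card := by
  classical
  rw [heavyL, Finset.mem_filter]

lemma mem_heavyU {r M : ℕ} {I : Finset (Finset (Fin n))} {Q : Finset (Fin n)} :
    Q ∈ heavyU r M I ↔ Q ∈ Base n (r + 1) ∧ M ≤ (allowU r I Q).card := by
  classical
  rw [heavyU, Finset.mem_filter]

lemma mem_apairs {r : ℕ} {P : Finset (Finset (Fin n))} {p : Finset (Fin n) × Finset (Fin n)} :
    p ∈ apairs r P ↔ (p.1 ∈ P ∧ p.2 ∈ P) ∧ p.1 ≠ p.2 ∧ ¬ adj r p.1 p.2 := by
  classical
  rw [apairs, Finset.mem_filter, Finset.mem_product]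

lemma mem_put {T : Finset (Fin n)} {y : Fin n} {I : Finset (Finset (Fin n))}
    {w : Finset (Fin n)} : w ∈ put T y I ↔ w = insert y T ∨ (w ∈ I ∧ ¬ T ⊆ w) := by
  classical
  rw [put, Finset.mem_insert, Finset.mem_filter]

lemma mem_psiset {r : ℕ} {I : Finset (Finset (Fin n))} {S v : Finset (Fin n)} :
    v ∈ psiset r I S ↔ v ∈ nbh r S ∧ ((∃ u ∈ I, nbr r I v = {u} ∧ u ∩ S = v ∩ S) ∨
    (∃ u ∈ I, ∃ u' ∈ I, u ≠ u' ∧ nbr r I v = {u, u'} ∧ u ∩ S = v ∩ S ∧ u' ∪ S = v ∪ S)) := by
  classical
  rw [psiset, Finset.mem_filter]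

lemma mem_outside {r : ℕ} {I : Finset (Finset (Fin n))} {S w : Finset (Fin n)} :
    w ∈ outside r I S ↔ w ∈ I ∧ w ≠ S ∧ ¬ adj r S w := by
  classical
  rw [outside, Finset.mem_filter]

lemma mem_fillings {r : ℕ} {w J : Finset (Finset (Fin n))} {S : Finset (Fin n)} :
    J ∈ fillings r w S ↔ J ⊆ nbh r S ∧ w ∪ J ∈ stables n r := by
  classical
  rw [fillings, Finset.mem_filter, Finset.mem_powerset]

lemma mem_rows {S : Finset (Fin n)} {J : Finset (Finset (Fin n))} {x : Fin n} :
    x ∈ rows S J ↔ x ∈ S ∧ ∃ u ∈ J, x ∉ u := by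
  classical
  rw [rows, Finset.mem_filter]

lemma mem_edges2 {I : Finset (Finset (Fin n))} {S : Finset (Fin n)}
    {p : (Fin n × Fin n) × (Fin n × Fin n)} :
    p ∈ edges2 I S ↔ (p.1 ∈ S.offDiag ∧ p.2 ∈ Sᶜ.offDiag) ∧ swp S p.1 p.2 ∈ I := by
  classical
  rw [edges2, Finset.mem_filter, Finset.mem_product]

lemma mem_cells {r : ℕ} {c : Cell n} : c ∈ cells n r ↔ c.1.card + 4 = r ∧ ∀ i, c.2 i ∉ c.1 := by
  classical
  rw [cells, Finset.mem_filter]
  simp

lemma mem_pth {r : ℕ} {I : Finset (Finset (Fin n))} {c : Cell n} :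
    c ∈ pth r I ↔ c ∈ cells n r ∧ c.at Qab ∈ I ∧ c.at Qac ∈ I ∧ c.at Qbd ∈ I := by
  classical
  rw [pth, Finset.mem_filter]

lemma mem_free {r : ℕ} {I : Finset (Finset (Fin n))} :
    I ∈ free n r ↔ I ∈ stables n r ∧ ¬ HasPat r I := by
  classical
  rw [free, Finset.mem_filter]

/-! ## elementary facts on the Johnson graph -/

/-- two sets with `r` elements are adjacent iff they are distinct and meet in `r - 1` elements -/
lemma adj_iff {r : ℕ} {S T : Finset (Fin n)} (hS : S ∈ Base n r) (hT : T ∈ Base n r) :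
    adj r S T ↔ (S ∩ T).card + 1 = r := by
  have hS' := mem_Base.mp hS
  have hT' := mem_Base.mp hT
  constructor
  · rintro ⟨hne, h⟩
    have hlt : (S ∩ T).card < r := by
      by_contra hcon
      push Not at hcon
      have h1 : S ∩ T = S := Finset.eq_of_subset_of_card_le Finset.inter_subset_left (by omega)
      have h2 : S ∩ T = T := Finset.eq_of_subset_of_card_le Finset.inter_subset_right (by omega)
      exact hne (h1.symm.trans h2)
    omega
  · intro h
    refine ⟨?_, by omega⟩
    rintro rfl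
    rw [Finset.inter_self] at h
    omega

/-- two different sets `T + y` on a lower line are adjacent -/
lemma adj_insert {r : ℕ} {T : Finset (Fin n)} {y z : Fin n} (hT : T.card + 1 = r)
    (hy : y ∉ T) (_hz : z ∉ T) (hyz : y ≠ z) : adj r (insert y T) (insert z T) := by
  refine ⟨?_, ?_⟩
  · intro h
    have h1 : y ∈ insert z T := h ▸ Finset.mem_insert_self y T
    rw [Finset.mem_insert] at h1
    rcases h1 with h1 | h1
    · exact hyz h1
    · exact hy h1
  · have h1 : T ⊆ insert y T ∩ insert z T :=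
      Finset.subset_inter (Finset.subset_insert _ _) (Finset.subset_insert _ _)
    have := Finset.card_le_card h1
    omega

lemma stable_erase {r : ℕ} {I : Finset (Finset (Fin n))} (hI : I ∈ stables n r)
    (u : Finset (Fin n)) : I.erase u ∈ stables n r := by
  rw [mem_stables] at hI ⊢
  exact ⟨(Finset.erase_subset _ _).trans hI.1, fun a ha b hb =>
    hI.2 a (Finset.mem_of_mem_erase ha) b (Finset.mem_of_mem_erase hb)⟩

lemma stable_subset {r : ℕ} {I J : Finset (Finset (Fin n))} (hI : I ∈ stables n r)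
    (hJ : J ⊆ I) : J ∈ stables n r := by
  rw [mem_stables] at hI ⊢
  exact ⟨hJ.trans hI.1, fun a ha b hb => hI.2 a (hJ ha) b (hJ hb)⟩

lemma stable_insert {r : ℕ} {I : Finset (Finset (Fin n))} (hI : I ∈ stables n r)
    {z : Finset (Fin n)} (hz : z ∈ addable r I) : insert z I ∈ stables n r := by
  rw [mem_stables] at hI ⊢
  rw [mem_addable] at hz
  refine ⟨Finset.insert_subset hz.1 hI.1, ?_⟩
  intro a ha b hb
  rw [Finset.mem_insert] at ha hb
  rcases ha with rfl | ha <;> rcases hb with rfl | hb
  · exact adj_irrefl _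
  · exact hz.2.2 b hb
  · exact fun h => hz.2.2 a ha (adj_symm h)
  · exact hI.2 a ha b hb

lemma mem_addable_erase {r : ℕ} {I : Finset (Finset (Fin n))} (hI : I ∈ stables n r)
    {u : Finset (Fin n)} (hu : u ∈ I) : u ∈ addable r (I.erase u) := by
  rw [mem_stables] at hI
  rw [mem_addable]
  refine ⟨hI.1 hu, Finset.notMem_erase _ _, ?_⟩
  intro w hw
  exact hI.2 u hu w (Finset.mem_of_mem_erase hw)

end Pool.Agent.H8.VM
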