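import Pool.Agent.H8.VM.D4_Fibers

/-! MODULE E1b (part of E1) (about 150 lines). Removing members rarely creates the Vamos pattern.

`remove_one`: `(I, W)` with `I` free, `W` in `I`, `I1 = I.erase W` not free. Choose a pattern cell
`c0(I1)` of `I1` for every stable non-free `I1`. `c0` is not a pattern cell of `I`, and `I`, `I1`
differ only in `W`, so `W = c0.at Q` with `Q.card = 4`, and `Q` is not in `patt` (`W` is not in
`I1`). There are at most 70 such `W` for each `I1`, and `I = insert W I1`.
`remove_pairs`: if some `K` contained in `I cap N(S)` has `I minus K` not free, take such a `K` of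
minimal cardinality. It is nonempty (`I` is free), and every `W` in `K` is of the form
`c0(I1).at Q`, `Q` not in `patt`, `I1 = I minus K` (otherwise `c0` would still be a pattern cell of
`I1 + W = I minus (K - W)`, contradicting minimality). So `K` is a subset of a set with at most 70
elements determined by `I1`, and `S` is a neighbour of an element of that set: at most
`2^70 * 70 * (number of neighbours <= n^2)` pairs `(K, S)` for each `I1`. -/

open scoped BigOperators

namespace Pool.Agent.H8.VM

open Pool.Agent.H28.Johnson Pool.Agent.H28.KW Pool.Agent.H28.Windows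

open Classical in
/-- the sets of the chosen pattern cell -/
private noncomputable def e1bT {n : ℕ} (r : ℕ) (J : Finset (Finset (Fin n))) :
    Finset (Finset (Fin n)) :=
  if h : HasPat r J then
    ((Finset.univ : Finset (Fin 8)).powersetCard 4).image (Classical.choose h).at
  else ∅

private lemma e1bT_card {n : ℕ} (r : ℕ) (J : Finset (Finset (Fin n))) : (e1bT r J).card ≤ 70 := by
  classical
  unfold e1bT
  split_ifs with h
  · refine Finset.card_image_le.trans ?_
    rw [Finset.card_powersetCard]
    decide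
  · simp

open Classical in
theorem remove_pairs {n r : ℕ} (hrn : r ≤ n) :
    ((free n r ×ˢ Base n r).filter fun p =>
      ∃ K, K ⊆ p.1 ∧ K ⊆ nbh r p.2 ∧ HasPat r (p.1 \ K)).card ≤
      2 ^ 77 * (n ^ 2 * (stables n r).card) := by
  set Tgt : Finset (Finset (Finset (Fin n)) × Finset (Fin n)) :=
    (stables n r).biUnion fun J =>
      ((e1bT r J).powerset ×ˢ ((e1bT r J ∩ Base n r).biUnion fun W =>
        (Base n r).filter fun S => adj r W S)).image fun p => (J ∪ p.1, p.2) with hTgt
  have hsub : ((free n r ×ˢ Base n r).filter fun p =>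
      ∃ K, K ⊆ p.1 ∧ K ⊆ nbh r p.2 ∧ HasPat r (p.1 \ K)) ⊆ Tgt := by
    rintro ⟨I, S⟩ hp
    rw [Finset.mem_filter, Finset.mem_product] at hp
    obtain ⟨⟨hI, hS⟩, hex⟩ := hp
    simp only at hI hS hex
    rw [mem_free] at hI
    -- a minimal `K`
    have hex' : ∃ k : ℕ, ∃ K : Finset (Finset (Fin n)), K.card = k ∧ K ⊆ I ∧ K ⊆ nbh r S ∧
        HasPat r (I \ K) := by
      obtain ⟨K, hK⟩ := hex
      exact ⟨K.card, K, rfl, hK⟩
    obtain ⟨K, hKc, hKI, hKS, hKp⟩ := Nat.find_spec hex'
    have hmin : ∀ K' : Finset (Finset (Fin n)), K' ⊆ K → K' ≠ K → ¬ HasPat r (I \ K') := by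
      intro K' hK' hne hpat
      have hlt : K'.card < K.card :=
        Finset.card_lt_card (Finset.ssubset_iff_subset_ne.2 ⟨hK', hne⟩)
      rw [hKc] at hlt
      exact Nat.find_min hex' hlt ⟨K', rfl, hK'.trans hKI, hK'.trans hKS, hpat⟩
    have hsubT : K ⊆ e1bT r (I \ K) := by
      intro W hW
      have hW' : ¬ HasPat r (I \ K.erase W) :=
        hmin _ (Finset.erase_subset _ _) (fun h => by
          rw [← h] at hW
          exact Finset.notMem_erase _ _ hW)
      unfold e1bT
      rw [dif_pos hKp, Finset.mem_image]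
      by_contra hcon
      push Not at hcon
      apply hW'
      obtain ⟨hc1, hc2⟩ := Classical.choose_spec hKp
      refine ⟨Classical.choose hKp, hc1, ?_⟩
      intro Q hQ
      rw [← hc2 Q hQ, Finset.mem_sdiff, Finset.mem_sdiff, Finset.mem_erase]
      have hne := hcon Q (Finset.mem_powersetCard.2 ⟨Finset.subset_univ _, hQ⟩)
      constructor
      · rintro ⟨h1, h2⟩
        exact ⟨h1, fun h3 => h2 ⟨hne, h3⟩⟩
      · rintro ⟨h1, h2⟩
        exact ⟨h1, fun h3 => h2 h3.2⟩
    have hKne : K.Nonempty := by
      rw [Finset.nonempty_iff_ne_empty]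
      rintro rfl
      rw [Finset.sdiff_empty] at hKp
      exact hI.2 hKp
    obtain ⟨W, hW⟩ := hKne
    rw [hTgt, Finset.mem_biUnion]
    refine ⟨I \ K, stable_subset hI.1 Finset.sdiff_subset, ?_⟩
    rw [Finset.mem_image]
    refine ⟨(K, S), ?_, ?_⟩
    · rw [Finset.mem_product]
      refine ⟨Finset.mem_powerset.2 hsubT, ?_⟩
      rw [Finset.mem_biUnion]
      have hWS := mem_nbh.1 (hKS hW)
      exact ⟨W, Finset.mem_inter.2 ⟨hsubT hW, hWS.1⟩, Finset.mem_filter.2 ⟨hS, adj_symm hWS.2⟩⟩
    · simp only
      rw [Finset.sdiff_union_of_subset hKI]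
  have hnb : ∀ W ∈ Base n r, ((Base n r).filter fun S => adj r W S).card ≤ n ^ 2 := by
    intro W hW
    refine (card_nbr hW).trans ?_
    calc r * (n - r) ≤ n * n := Nat.mul_le_mul hrn (Nat.sub_le _ _)
      _ = n ^ 2 := (sq n).symm
  calc _ ≤ Tgt.card := Finset.card_le_card hsub
    _ ≤ ∑ J ∈ stables n r, (((e1bT r J).powerset ×ˢ ((e1bT r J ∩ Base n r).biUnion fun W =>
        (Base n r).filter fun S => adj r W S)).image fun p => (J ∪ p.1, p.2)).card :=
        Finset.card_biUnion_le
    _ ≤ ∑ J ∈ stables n r, 2 ^ 70 * (70 * n ^ 2) := by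
        refine Finset.sum_le_sum fun J _ => ?_
        refine Finset.card_image_le.trans ?_
        rw [Finset.card_product, Finset.card_powerset]
        refine Nat.mul_le_mul (Nat.pow_le_pow_right (by norm_num) (e1bT_card r J)) ?_
        calc _ ≤ ∑ W ∈ e1bT r J ∩ Base n r, ((Base n r).filter fun S => adj r W S).card :=
              Finset.card_biUnion_le
          _ ≤ ∑ W ∈ e1bT r J ∩ Base n r, n ^ 2 :=
              Finset.sum_le_sum fun W hW => hnb W (Finset.mem_inter.1 hW).2
          _ = (e1bT r J ∩ Base n r).card * n ^ 2 := by rw [Finset.sum_const, smul_eq_mul]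
          _ ≤ 70 * n ^ 2 := Nat.mul_le_mul_right _
              ((Finset.card_le_card Finset.inter_subset_left).trans (e1bT_card r J))
    _ = 2 ^ 70 * (70 * n ^ 2) * (stables n r).card := by
        rw [Finset.sum_const, smul_eq_mul, mul_comm]
    _ ≤ 2 ^ 77 * (n ^ 2 * (stables n r).card) := by
        have h1 : 2 ^ 70 * (70 * n ^ 2) * (stables n r).card =
            (2 ^ 70 * 70) * (n ^ 2 * (stables n r).card) := by ring
        rw [h1]
        exact Nat.mul_le_mul_right _ (by norm_num)

end Pool.Agent.H8.VM
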