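import Pool.Agent.H8.VM.E1a_One
import Pool.Agent.H8.VM.E1b_Pairs

/-! Collects the parts of E1_Remove. -/
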