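import Pool.Agent.H8.VM.D4_Fibers

/-! MODULE E1a (part of E1) (about 150 lines). Removing members rarely creates the Vamos pattern.

`remove_one`: `(I, W)` with `I` free, `W` in `I`, `I1 = I.erase W` not free. Choose a pattern cell
`c0(I1)` of `I1` for every stable non-free `I1`. `c0` is not a pattern cell of `I`, and `I`, `I1`
differ only in `W`, so `W = c0.at Q` with `Q.card = 4`, and `Q` is not in `patt` (`W` is not in
`I1`). There are at most 70 such `W` for each `I1`, and `I = insert W I1`.
`remove_pairs`: if some `K` contained in `I cap N(S)` has `I minus K` not free, take such a `K` of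
minimal cardinality. It is nonempty (`I` is free), and every `W` in `K` is of the form
`c0(I1).at Q`, `Q` not in `patt`, `I1 = I minus K` (otherwise `c0` would still be a pattern cell of
`I1 + W = I minus (K - W)`, contradicting minimality). So `K` is a subset of a set with at most 70
elements determined by `I1`, and `S` is a neighbour of an element of that set: at most
`2^70 * 70 * (number of neighbours <= n^2)` pairs `(K, S)` for each `I1`. -/

open scoped BigOperators

namespace Pool.Agent.H8.VM

open Pool.Agent.H28.Johnson Pool.Agent.H28.KW Pool.Agent.H28.Windows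

open Classical in
theorem remove_one (n r : ℕ) :
    ((free n r ×ˢ Base n r).filter fun p => p.2 ∈ p.1 ∧ HasPat r (p.1.erase p.2)).card ≤
      70 * (stables n r).card := by
  refine Finset.card_le_mul_card_image_of_maps_to
    (f := fun p : Finset (Finset (Fin n)) × Finset (Fin n) => p.1.erase p.2) ?_ 70 ?_
  · intro p hp
    rw [Finset.mem_filter, Finset.mem_product, mem_free] at hp
    exact stable_erase hp.1.1.1 p.2
  · intro I1 _
    by_cases hI1 : HasPat r I1
    · obtain ⟨c, _, hc⟩ := hI1
      refine le_trans (Finset.card_le_card
        (t := (Pool.Agent.H28.V8.T0 c.1 c.2).image fun W => (insert W I1, W)) ?_)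
        (Finset.card_image_le.trans (Pool.Agent.H28.V8.card_T0 c.1 c.2))
      intro p hp
      rw [Finset.mem_filter, Finset.mem_filter, Finset.mem_product, mem_free] at hp
      obtain ⟨⟨⟨⟨hst, hfree⟩, _⟩, hmem, _⟩, heq⟩ := hp
      have hins : insert p.2 I1 = p.1 := by
        rw [← heq, Finset.insert_erase hmem]
      rw [Finset.mem_image]
      refine ⟨p.2, ?_, by rw [hins]⟩
      -- `c` is not a pattern cell of `p.1`
      have hnot : ¬ Pat p.1 c := fun h => hfree ⟨c, by assumption, h⟩
      unfold Pat at hnot
      push Not at hnot
      obtain ⟨Q, hQ4, hQ⟩ := hnot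
      have h1 := hc Q hQ4
      have h2 : c.at Q ∈ p.1 ↔ c.at Q = p.2 ∨ c.at Q ∈ I1 := by
        rw [← hins, Finset.mem_insert]
      have h3 : c.at Q = p.2 := by
        by_contra hcon
        have h4 : c.at Q ∈ p.1 ↔ Q ∈ Pool.Agent.H28.V8.patt := by
          rw [h2, ← h1]
          simp [hcon]
        rcases hQ with hQ | hQ
        · exact hQ.2 (h4.mp hQ.1)
        · exact hQ.1 (h4.mpr hQ.2)
      rw [Pool.Agent.H28.V8.T0, Finset.mem_image]
      exact ⟨Q, by rw [Finset.mem_powersetCard]; exact ⟨Finset.subset_univ _, hQ4⟩, h3⟩
    · rw [Finset.card_eq_zero.mpr]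
      · exact Nat.zero_le _
      · rw [Finset.filter_eq_empty_iff]
        intro p hp heq
        rw [Finset.mem_filter] at hp
        apply hI1
        have := hp.2.2
        rw [heq] at this
        exact this

end Pool.Agent.H8.VM
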