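import Pool.Agent.H8.VM.D4_Fibers

/-! MODULE E2 (about 60 lines). Adding a member rarely creates the Vamos pattern: for every stable
non-free `I2` fix a pattern cell `c0`; if `I2 = insert W I` with `I` free, `W` not in `I`, then
`c0` is not a pattern cell of `I`, so `W = c0.at Q` for some `Q` with 4 elements, and `Q` is in
`patt` because `W` is in `I2`: 5 choices of `W`, and `I = I2.erase W`. -/

open scoped BigOperators

namespace Pool.Agent.H8.VM

open Pool.Agent.H28.Johnson Pool.Agent.H28.KW Pool.Agent.H28.Windows

private lemma e2_exists {n r : ℕ} {I : Finset (Finset (Fin n))} {W : Finset (Fin n)} {c : Cell n}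
    (hI : ¬ HasPat r I) (hc : c ∈ cells n r) (hp : Pat (insert W I) c) :
    ∃ Q ∈ Pool.Agent.H28.V8.patt, W = c.at Q := by
  by_contra hcon
  push Not at hcon
  apply hI
  refine ⟨c, hc, ?_⟩
  intro Q hQ
  constructor
  · intro h
    exact (hp Q hQ).mp (Finset.mem_insert_of_mem h)
  · intro h
    have h1 := (hp Q hQ).mpr h
    rw [Finset.mem_insert] at h1
    rcases h1 with h1 | h1
    · exact absurd h1.symm (hcon Q h)
    · exact h1

open Classical in
theorem add_pairs (n r : ℕ) :
    ((free n r ×ˢ Base n r).filter fun p =>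
      p.2 ∈ addable r p.1 ∧ HasPat r (insert p.2 p.1)).card ≤ 5 * (stables n r).card := by
  have hpatt : Pool.Agent.H28.V8.patt.card = 5 := by decide
  let f : Finset (Finset (Fin n)) × Finset (Fin n) →
      Finset (Finset (Fin n)) × Finset (Fin 8) := fun p =>
    (insert p.2 p.1,
      if h : HasPat r (insert p.2 p.1) then
        (if h' : ∃ Q ∈ Pool.Agent.H28.V8.patt, p.2 = h.choose.at Q then h'.choose else ∅)
      else ∅)
  have hspec : ∀ p ∈ (free n r ×ˢ Base n r).filter (fun p =>
      p.2 ∈ addable r p.1 ∧ HasPat r (insert p.2 p.1)),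
      ∃ h : HasPat r (insert p.2 p.1), (f p).2 ∈ Pool.Agent.H28.V8.patt ∧
        p.2 = h.choose.at (f p).2 := by
    intro p hp
    rw [Finset.mem_filter, Finset.mem_product] at hp
    obtain ⟨⟨hp1, hp2⟩, hadd, hpat⟩ := hp
    refine ⟨hpat, ?_⟩
    have hex : ∃ Q ∈ Pool.Agent.H28.V8.patt, p.2 = hpat.choose.at Q :=
      e2_exists (mem_free.mp hp1).2 hpat.choose_spec.1 hpat.choose_spec.2
    have hf : (f p).2 = hex.choose := by
      simp only [f]
      rw [dif_pos hpat, dif_pos hex]
    rw [hf]
    exact ⟨hex.choose_spec.1, hex.choose_spec.2⟩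
  calc ((free n r ×ˢ Base n r).filter fun p =>
      p.2 ∈ addable r p.1 ∧ HasPat r (insert p.2 p.1)).card
      ≤ (stables n r ×ˢ Pool.Agent.H28.V8.patt).card := by
        apply Finset.card_le_card_of_injOn f
        · intro p hp
          have hp' := hp
          rw [Finset.mem_coe, Finset.mem_filter, Finset.mem_product] at hp'
          obtain ⟨⟨hp1, hp2⟩, hadd, hpat⟩ := hp'
          obtain ⟨h, hQ, hW⟩ := hspec p hp
          rw [Finset.mem_coe, Finset.mem_product]
          exact ⟨stable_insert (mem_free.mp hp1).1 hadd, hQ⟩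
        · intro p hp q hq hpq
          obtain ⟨h1, hQ1, hW1⟩ := hspec p hp
          obtain ⟨h2, hQ2, hW2⟩ := hspec q hq
          rw [Finset.mem_coe, Finset.mem_filter, Finset.mem_product] at hp hq
          have hi : insert p.2 p.1 = insert q.2 q.1 := congrArg Prod.fst hpq
          have hs : (f p).2 = (f q).2 := congrArg Prod.snd hpq
          have hcc : h1.choose = h2.choose := by
            congr 1
            funext c
            rw [hi]
          have hW : p.2 = q.2 := by
            rw [hW1, hW2, hs, hcc]
          have hpn : p.2 ∉ p.1 := (mem_addable.mp hp.2.1).2.1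
          have hqn : q.2 ∉ q.1 := (mem_addable.mp hq.2.1).2.1
          have h1' : p.1 = q.1 := by
            have e1 : (insert p.2 p.1).erase p.2 = p.1 := Finset.erase_insert hpn
            have e2 : (insert q.2 q.1).erase q.2 = q.1 := Finset.erase_insert hqn
            rw [← e1, ← e2, hi, hW]
          exact Prod.ext h1' hW
    _ = 5 * (stables n r).card := by
        rw [Finset.card_product, hpatt]
        ring

end Pool.Agent.H8.VM
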