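import Pool.Agent.H8.VM.D4_Fibers

/-! MODULE E3 (about 150 lines). Few pattern cells are destroyed by the removal of both `bc` and
`ad`.

Let `I` be any family, `c` in the filter, `c0` a fixed pattern cell of `I` (e.g. the chosen one;
the filter is empty if there is none). `c0` is not a pattern cell of `I.erase (c.at Qbc)`, and
`c.at Qbc` is in `I` (`Qbc` is in `patt`), so `c.at Qbc = c0.at Q` with `Q` in `patt`: 5 choices;
same for `c.at Qad`. Given the two sets `Sbc`, `Sad`: `Y = Sbc cap Sad` (the traces `Qbc`, `Qad`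
are disjoint and cover `Fin 8`), `φ` maps `{2,3,4,5}` bijectively to `Sbc minus Y` (24 ways) and
`{0,1,6,7}` to `Sad minus Y` (24 ways). `25 * 24 * 24 = 14400`. -/

open scoped BigOperators

namespace Pool.Agent.H8.VM

open Pool.Agent.H28.Johnson Pool.Agent.H28.KW Pool.Agent.H28.Windows

private lemma e3_key {n : ℕ} {S S' Y : Finset (Fin n)} {φ : Fin 8 ↪ Fin n}
    (hd : ∀ i, φ i ∉ Y) (h1 : Y ∪ Qbc.map φ = S) (h2 : Y ∪ Qad.map φ = S') :
    Y = S ∩ S' ∧ Qbc.map φ = S \ S' ∧ Qad.map φ = S' \ S := by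
  have hdis : Disjoint (Qbc.map φ) (Qad.map φ) := by
    rw [Finset.disjoint_map]
    decide
  have hY : ∀ (Q : Finset (Fin 8)) (x : Fin n), x ∈ Q.map φ → x ∉ Y := by
    intro Q x hx
    obtain ⟨i, -, rfl⟩ := Finset.mem_map.1 hx
    exact hd i
  have hb := hY Qbc
  have ha := hY Qad
  have hab : ∀ x, x ∈ Qbc.map φ → x ∉ Qad.map φ := fun x hx hx' =>
    Finset.disjoint_left.1 hdis hx hx'
  subst h1
  subst h2
  generalize Qbc.map φ = P at *
  generalize Qad.map φ = R at *
  refine ⟨?_, ?_, ?_⟩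
  · ext x
    have e1 := hb x
    have e2 := ha x
    have e3 := hab x
    simp only [Finset.mem_inter, Finset.mem_union]
    tauto
  · ext x
    have e1 := hb x
    have e2 := ha x
    have e3 := hab x
    simp only [Finset.mem_sdiff, Finset.mem_union]
    tauto
  · ext x
    have e1 := hb x
    have e2 := ha x
    have e3 := hab x
    simp only [Finset.mem_sdiff, Finset.mem_union]
    tauto

/-- cells with prescribed sets `bc` and `ad` -/
theorem two_set_fiber {n r : ℕ} (S S' : Finset (Fin n)) :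
    ((cells n r).filter fun c => c.at Qbc = S ∧ c.at Qad = S').card ≤ 576 := by
  classical
  set Fb := ((cells n r).filter fun c => c.at Qbc = S ∧ c.at Qad = S') with hFb
  have key : ∀ c ∈ Fb, c.1 = S ∩ S' ∧ Qbc.map c.2 = S \ S' ∧ Qad.map c.2 = S' \ S := by
    intro c hc
    rw [hFb, Finset.mem_filter, mem_cells] at hc
    exact e3_key hc.1.2 hc.2.1 hc.2.2
  rcases Fb.eq_empty_or_nonempty with h0 | ⟨c0, hc0⟩
  · rw [h0]
    simp
  have hA : (S \ S').card = 4 := by
    rw [← (key c0 hc0).2.1, Finset.card_map]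
    decide
  have hB : (S' \ S).card = 4 := by
    rw [← (key c0 hc0).2.2, Finset.card_map]
    decide
  let f : {c // c ∈ Fb} → ({x // x ∈ Qbc} ↪ {x // x ∈ S \ S'}) × ({x // x ∈ Qad} ↪
      {x // x ∈ S' \ S}) := fun c =>
    (⟨fun x => ⟨c.1.2 x, by
      rw [← (key c.1 c.2).2.1]
      exact Finset.mem_map_of_mem _ x.2⟩, fun x y hxy => by
        have := congrArg Subtype.val hxy
        exact Subtype.ext (c.1.2.injective this)⟩,
     ⟨fun x => ⟨c.1.2 x, by
      rw [← (key c.1 c.2).2.2]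
      exact Finset.mem_map_of_mem _ x.2⟩, fun x y hxy => by
        have := congrArg Subtype.val hxy
        exact Subtype.ext (c.1.2.injective this)⟩)
  have hf : Function.Injective f := by
    intro c d hcd
    have h1 := congrArg Prod.fst hcd
    have h2 := congrArg Prod.snd hcd
    have hφ : ∀ i : Fin 8, c.1.2 i = d.1.2 i := by
      intro i
      have hi : i ∈ Qbc ∨ i ∈ Qad := by
        revert i
        decide
      rcases hi with hi | hi
      · have := congrArg (fun g => ((g ⟨i, hi⟩ : {x // x ∈ S \ S'}) : Fin n)) h1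
        exact this
      · have := congrArg (fun g => ((g ⟨i, hi⟩ : {x // x ∈ S' \ S}) : Fin n)) h2
        exact this
    apply Subtype.ext
    apply Prod.ext
    · rw [(key c.1 c.2).1, (key d.1 d.2).1]
    · exact DFunLike.ext _ _ hφ
  have hcard := Fintype.card_le_of_injective f hf
  rw [Fintype.card_coe, Fintype.card_prod, Fintype.card_embedding_eq, Fintype.card_embedding_eq,
    Fintype.card_coe, Fintype.card_coe, Fintype.card_coe, Fintype.card_coe, hA, hB,
    show Qbc.card = 4 by decide, show Qad.card = 4 by decide] at hcard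
  exact hcard

open Classical in
theorem pat_mult {n r : ℕ} (I : Finset (Finset (Fin n))) :
    ((cells n r).filter fun c => Pat I c ∧ ¬ HasPat r (I.erase (c.at Qbc)) ∧
      ¬ HasPat r (I.erase (c.at Qad))).card ≤ 14400 := by
  set Fb := ((cells n r).filter fun c => Pat I c ∧ ¬ HasPat r (I.erase (c.at Qbc)) ∧
      ¬ HasPat r (I.erase (c.at Qad))) with hFb
  rcases Fb.eq_empty_or_nonempty with h0 | ⟨c0, hc0⟩
  · rw [h0]
    simp
  rw [hFb, Finset.mem_filter] at hc0
  obtain ⟨hc0, hp0, -, -⟩ := hc0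
  have key : ∀ W, ¬ HasPat r (I.erase W) → ∃ Q ∈ Pool.Agent.H28.V8.patt, c0.at Q = W := by
    intro W hW
    by_contra hcon
    push Not at hcon
    apply hW
    refine ⟨c0, hc0, ?_⟩
    intro Q hQ
    rw [Finset.mem_erase, hp0 Q hQ]
    constructor
    · exact fun h => h.2
    · exact fun h => ⟨hcon Q h, h⟩
  have hsub : Fb ⊆ (Pool.Agent.H28.V8.patt ×ˢ Pool.Agent.H28.V8.patt).biUnion fun q =>
      (cells n r).filter fun c => c.at Qbc = c0.at q.1 ∧ c.at Qad = c0.at q.2 := by
    intro c hc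
    rw [hFb, Finset.mem_filter] at hc
    obtain ⟨hc1, -, hc2, hc3⟩ := hc
    obtain ⟨Q, hQ, hQ'⟩ := key _ hc2
    obtain ⟨R, hR, hR'⟩ := key _ hc3
    rw [Finset.mem_biUnion]
    exact ⟨(Q, R), Finset.mem_product.2 ⟨hQ, hR⟩, Finset.mem_filter.2 ⟨hc1, hQ'.symm, hR'.symm⟩⟩
  calc Fb.card ≤ _ := Finset.card_le_card hsub
    _ ≤ ∑ q ∈ Pool.Agent.H28.V8.patt ×ˢ Pool.Agent.H28.V8.patt,
        ((cells n r).filter fun c => c.at Qbc = c0.at q.1 ∧ c.at Qad = c0.at q.2).card :=
        Finset.card_biUnion_le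
    _ ≤ ∑ q ∈ Pool.Agent.H28.V8.patt ×ˢ Pool.Agent.H28.V8.patt, 576 :=
        Finset.sum_le_sum fun q _ => two_set_fiber _ _
    _ = 14400 := by
        rw [Finset.sum_const, Finset.card_product, Pool.Agent.H28.V8.card_patt]
        norm_num

end Pool.Agent.H8.VM
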