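import Pool.Agent.H8.VM.E1_Remove
import Pool.Agent.H8.VM.E2_Add
import Pool.Agent.H8.VM.E3_Mult

/-! MODULE E4 (about 350 lines; split it if you want). The switching.

Write `Sa = c.at Qbc`, `Sb = c.at Qad` (they meet in `Y`, `r - 4` elements), `Ka = I cap N(Sa)`,
`Kb = I cap N(Sb)`. FAR: no element of `N[Sa]` is equal or adjacent to an element of `N[Sb]`
(elements of `N[Sa]`, `N[Sb]` meet in at most `r - 2` elements). The sets `ab, ac, bd` meet `Sa`
and `Sb` in `r - 2` elements, so they are not in `N[Sa]`, `N[Sb]`.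
For `(I, c)` in the filter `G` put `I' = (I minus Ka minus Kb) + Sa + Sb`, a stable family.
(1) `c` is a pattern cell of `I'`: `ab, ac, bd` survive, `bc = Sa`, `ad = Sb` are present; `cd` and
the transversals are not in `I` and are different from `Sa`, `Sb`; every other trace `Q` with 4
elements (type 2+1+1: one full pair and one element of two other pairs) is adjacent to two of the
six pair unions, at least one of them different from `cd`, hence to a member of `I'`, so it is not
in `I'` (`I'` is stable).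
(2) MAIN PART: pairs with `I'.erase Sa` and `I'.erase Sb` free. By `pat_mult` each `I'` has at most
14400 cells; given `(I', c)`, `I` is determined by `(Ka, Kb)`, and `Ka` is in
`fillings r (outside r I Sa) Sa`-compatible: the number of `Ka` contained in `N(Sa)` with
`(I' minus Sa minus Sb) cup Ka` stable equals `Lam r I Sa` (by FAR the members of `Kb` do not
matter), same for `Kb`. So at most `L^2` families `I` (restricted to `Lam <= L`):
`<= 14400 L^2 s`.
(3) REST: `I'.erase Sa` not free, i.e. `HasPat ((I minus Ka minus Kb) + Sb)` (the other case is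
symmetric, exchange `Sa`, `Sb`). Put `Ib = I minus Kb`. Either
 (i) `Ib` is not free: `(I, Sb)` is counted in `remove_pairs` (`K = Kb`), and there are at most
 `n^8` cells with `c.at Qad = Sb`: `<= 2^77 n^10 s`; or
 (ii) `Ib` is free and `Ib + Sb` is not free: `(Ib, Sb)` is counted in `add_pairs`, `I = Ib cup Kb`
 with `Kb` one of the `Lam r I Sb <= L` fillings (`Lam` depends only on `outside r I Sb = Ib`),
 `n^8` cells: `<= 5 n^8 L s`; or
 (iii) `Ib + Sb` is free and `(Ib + Sb) minus Ka` is not free: `(Ib + Sb, Sa)` is counted in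
 `remove_pairs`, `n^8` cells with `c.at Qbc = Sa`, then `Sb` is known and `I` is one of at most `L`
 families `Ib cup Kb`: `<= 2^77 n^10 L s`.
Total `<= 14400 L^2 s + 2 (2^77 + 5 + 2^77) n^10 L s`. -/

open scoped BigOperators

namespace Pool.Agent.H8.VM

open Pool.Agent.H28.Johnson Pool.Agent.H28.KW Pool.Agent.H28.Windows

/-- sets in the closed neighbourhoods of two sets of a cell with disjoint traces are far apart -/
private lemma e4_far {n r : ℕ} {c : Cell n} (hc : c ∈ cells n r) {A B : Finset (Fin 8)}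
    (hA : A.card = 4) (hB : B.card = 4) (hAB : A ∩ B = ∅) {u v : Finset (Fin n)}
    (hu : u ∈ Base n r) (hv : v ∈ Base n r) (hu' : u = c.at A ∨ adj r (c.at A) u)
    (hv' : v = c.at B ∨ adj r (c.at B) v) : u ≠ v ∧ ¬ adj r u v := by
  obtain ⟨hY, hd⟩ := mem_cells.1 hc
  have hSA : (c.at A).card = r := mem_Base.1 (at_mem_Base hc hA)
  have hSB : (c.at B).card = r := mem_Base.1 (at_mem_Base hc hB)
  have hu0 := mem_Base.1 hu
  have hv0 := mem_Base.1 hv
  have hAiB : (c.at A ∩ c.at B).card = c.1.card := by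
    have h1 : c.at A ∩ c.at B = Pool.Agent.H28.V8.loc c.1 c.2 (A ∩ B) := by
      unfold Cell.at
      rw [Pool.Agent.H28.V8.loc, Pool.Agent.H28.V8.loc, Pool.Agent.H28.V8.loc, Finset.map_inter,
        Finset.union_inter_distrib_left]
    rw [h1, Pool.Agent.H28.V8.loc_card hd, hAB]
    simp
  have h1 : (u \ c.at A).card ≤ 1 := by
    have h2 := Finset.card_sdiff_add_card_inter u (c.at A)
    rcases hu' with h | h
    · rw [h, Finset.sdiff_self]
      simp
    · have h3 := h.2
      rw [Finset.inter_comm] at h3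
      omega
  have h2 : (v \ c.at B).card ≤ 1 := by
    have h2 := Finset.card_sdiff_add_card_inter v (c.at B)
    rcases hv' with h | h
    · rw [h, Finset.sdiff_self]
      simp
    · have h3 := h.2
      rw [Finset.inter_comm] at h3
      omega
  have h3 : u ∩ v ⊆ (c.at A ∩ c.at B) ∪ ((u \ c.at A) ∪ (v \ c.at B)) := by
    intro x hx
    rw [Finset.mem_inter] at hx
    simp only [Finset.mem_union, Finset.mem_inter, Finset.mem_sdiff]
    by_cases h4 : x ∈ c.at A <;> by_cases h5 : x ∈ c.at B <;> simp [h4, h5, hx.1, hx.2]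
  have h4 : (u ∩ v).card + 2 ≤ r := by
    have h5 := Finset.card_le_card h3
    have h6 := Finset.card_union_le (c.at A ∩ c.at B) ((u \ c.at A) ∪ (v \ c.at B))
    have h7 := Finset.card_union_le (u \ c.at A) (v \ c.at B)
    omega
  constructor
  · intro h
    rw [h, Finset.inter_self] at h4
    omega
  · intro h
    have := h.2
    omega

private lemma e4_outside {n r : ℕ} {I : Finset (Finset (Fin n))} {S : Finset (Fin n)}
    (hS : S ∉ I) : outside r I S = I \ nbr r I S := by
  ext w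
  rw [mem_outside, Finset.mem_sdiff, mem_nbr]
  constructor
  · rintro ⟨h1, h2, h3⟩
    exact ⟨h1, fun h => h3 h.2⟩
  · rintro ⟨h1, h2⟩
    exact ⟨h1, fun h => hS (h ▸ h1), fun h => h2 ⟨h1, h⟩⟩

private lemma e4_nbr_sub {n r : ℕ} {I : Finset (Finset (Fin n))} {S : Finset (Fin n)}
    (hI : I ∈ stables n r) : nbr r I S ⊆ nbh r S := by
  intro u hu
  rw [mem_nbr] at hu
  rw [mem_nbh]
  exact ⟨(mem_stables.1 hI).1 hu.1, hu.2⟩

private lemma e4_nbr_subI {n r : ℕ} {I : Finset (Finset (Fin n))} {S : Finset (Fin n)} :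
    nbr r I S ⊆ I := fun _ hu => (mem_nbr.1 hu).1

/-- families with prescribed part outside the neighbourhood of `S0` -/
private lemma e4_count {n r L : ℕ} (P : Finset (Finset (Finset (Fin n))))
    (I0 : Finset (Finset (Fin n))) (S0 : Finset (Fin n))
    (h : ∀ I ∈ P, I ∈ stables n r ∧ S0 ∉ I ∧ I \ nbr r I S0 = I0 ∧ Lam r I S0 ≤ L) :
    P.card ≤ L := by
  classical
  rcases P.eq_empty_or_nonempty with h0 | ⟨I1, hI1⟩
  · rw [h0]
    simp
  · obtain ⟨h1, h2, h3, h4⟩ := h I1 hI1
    have h5 : (fillings r I0 S0).card ≤ L := by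
      unfold Lam at h4
      rw [e4_outside h2, h3] at h4
      exact h4
    refine le_trans ?_ h5
    refine Finset.card_le_card_of_injOn (fun I => nbr r I S0) ?_ ?_
    · intro I hI
      obtain ⟨g1, g2, g3, g4⟩ := h I hI
      rw [Finset.mem_coe, mem_fillings]
      refine ⟨e4_nbr_sub g1, stable_subset g1 ?_⟩
      rw [← g3]
      exact Finset.union_subset Finset.sdiff_subset e4_nbr_subI
    · intro I hI J hJ hIJ
      obtain ⟨g1, g2, g3, g4⟩ := h I hI
      obtain ⟨k1, k2, k3, k4⟩ := h J hJ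
      simp only at hIJ
      rw [← Finset.sdiff_union_of_subset (e4_nbr_subI (r := r) (I := I) (S := S0)),
        ← Finset.sdiff_union_of_subset (e4_nbr_subI (r := r) (I := J) (S := S0)), g3, k3, hIJ]

private lemma e4_fill_sub {n r : ℕ} {c : Cell n} (hc : c ∈ cells n r) {A B : Finset (Fin 8)}
    (hA : A.card = 4) (hB : B.card = 4) (hAB : A ∩ B = ∅) {I : Finset (Finset (Fin n))}
    (hI : I ∈ stables n r) :
    fillings r ((I \ nbr r I (c.at A)) \ nbr r I (c.at B)) (c.at A) ⊆
      fillings r (I \ nbr r I (c.at A)) (c.at A) := by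
  intro J hJ
  rw [mem_fillings] at hJ ⊢
  refine ⟨hJ.1, ?_⟩
  have hI' := mem_stables.1 hI
  have h2 := mem_stables.1 hJ.2
  have key : ∀ u ∈ I \ nbr r I (c.at A), ∀ v ∈ J, ¬ adj r u v := by
    intro u hu v hv
    by_cases hub : u ∈ nbr r I (c.at B)
    · have h4 := mem_nbr.1 hub
      have h5 := mem_nbh.1 (hJ.1 hv)
      exact fun h => (e4_far hc hA hB hAB h5.1 (hI'.1 h4.1) (Or.inr h5.2) (Or.inr h4.2)).2
        (adj_symm h)
    · exact h2.2 u (Finset.mem_union_left _ (Finset.mem_sdiff.2 ⟨hu, hub⟩)) v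
        (Finset.mem_union_right _ hv)
  rw [mem_stables]
  refine ⟨Finset.union_subset (Finset.sdiff_subset.trans hI'.1)
    (Finset.subset_union_right.trans h2.1), ?_⟩
  intro u hu v hv
  rw [Finset.mem_union] at hu hv
  rcases hu with hu | hu <;> rcases hv with hv | hv
  · exact hI'.2 u (Finset.mem_sdiff.1 hu).1 v (Finset.mem_sdiff.1 hv).1
  · exact key u hu v hv
  · exact fun h => key v hv u hu (adj_symm h)
  · exact h2.2 u (Finset.mem_union_right _ hu) v (Finset.mem_union_right _ hv)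

/-- fibres of the switching -/
private lemma e4_count2 {n r L : ℕ} {c : Cell n} (hc : c ∈ cells n r) {A B : Finset (Fin 8)}
    (hA : A.card = 4) (hB : B.card = 4) (hAB : A ∩ B = ∅) (P : Finset (Finset (Finset (Fin n))))
    (w : Finset (Finset (Fin n)))
    (h : ∀ I ∈ P, I ∈ stables n r ∧ c.at A ∉ I ∧ c.at B ∉ I ∧
      (I \ nbr r I (c.at A)) \ nbr r I (c.at B) = w ∧ Lam r I (c.at A) ≤ L ∧
      Lam r I (c.at B) ≤ L) : P.card ≤ L * L := by
  classical
  rcases P.eq_empty_or_nonempty with h0 | ⟨I1, hI1⟩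
  · rw [h0]
    simp
  · obtain ⟨h1, h2, h3, h4, h5, h6⟩ := h I1 hI1
    have hfa : (fillings r w (c.at A)).card ≤ L := by
      unfold Lam at h5
      rw [e4_outside h2] at h5
      have h7 := e4_fill_sub hc hA hB hAB h1
      rw [h4] at h7
      exact (Finset.card_le_card h7).trans h5
    have hfb : (fillings r w (c.at B)).card ≤ L := by
      unfold Lam at h6
      rw [e4_outside h3] at h6
      have h7 := e4_fill_sub hc hB hA (by rw [Finset.inter_comm]; exact hAB) h1
      rw [sdiff_right_comm, h4] at h7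
      exact (Finset.card_le_card h7).trans h6
    have h8 : P.card ≤ (fillings r w (c.at A) ×ˢ fillings r w (c.at B)).card := by
      refine Finset.card_le_card_of_injOn (fun I => (nbr r I (c.at A), nbr r I (c.at B))) ?_ ?_
      · intro I hI
        obtain ⟨g1, g2, g3, g4, g5, g6⟩ := h I hI
        rw [Finset.mem_coe, Finset.mem_product, mem_fillings, mem_fillings]
        refine ⟨⟨e4_nbr_sub g1, stable_subset g1 ?_⟩, ⟨e4_nbr_sub g1, stable_subset g1 ?_⟩⟩
        · rw [← g4]
          exact Finset.union_subset (Finset.sdiff_subset.trans Finset.sdiff_subset) e4_nbr_subI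
        · rw [← g4]
          exact Finset.union_subset (Finset.sdiff_subset.trans Finset.sdiff_subset) e4_nbr_subI
      · intro I hI J hJ hIJ
        obtain ⟨g1, g2, g3, g4, g5, g6⟩ := h I hI
        obtain ⟨k1, k2, k3, k4, k5, k6⟩ := h J hJ
        simp only [Prod.mk.injEq] at hIJ
        have hrec : ∀ I : Finset (Finset (Fin n)), I =
            ((I \ nbr r I (c.at A)) \ nbr r I (c.at B)) ∪ (nbr r I (c.at A) ∪ nbr r I (c.at B)) := by
          intro I
          ext u
          simp only [Finset.mem_union, Finset.mem_sdiff]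
          have q1 : u ∈ nbr r I (c.at A) → u ∈ I := fun h => e4_nbr_subI h
          have q2 : u ∈ nbr r I (c.at B) → u ∈ I := fun h => e4_nbr_subI h
          tauto
        rw [hrec I, hrec J, g4, k4, hIJ.1, hIJ.2]
    rw [Finset.card_product] at h8
    exact h8.trans (Nat.mul_le_mul hfa hfb)

open Classical in
/-- the pairs for which the pattern survives the removal of one of the two new members -/
private lemma e4_rest {n r L : ℕ} (hrn : r ≤ n) (A B : Finset (Fin 8))
    (hA : A.card = 4) (hB : B.card = 4) (hAB : A ∩ B = ∅) :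
    ((free n r ×ˢ cells n r).filter fun p => p.2.at A ∉ p.1 ∧ p.2.at B ∉ p.1 ∧
      Lam r p.1 (p.2.at B) ≤ L ∧
      HasPat r (insert (p.2.at B) ((p.1 \ nbr r p.1 (p.2.at A)) \ nbr r p.1 (p.2.at B)))).card ≤
      n ^ 8 * (2 ^ 77 * (n ^ 2 * (stables n r).card)) +
        ((L * n ^ 8) * (5 * (stables n r).card) +
          (L * n ^ 8) * (2 ^ 77 * (n ^ 2 * (stables n r).card))) := by
  set G := (free n r ×ˢ cells n r).filter fun p => p.2.at A ∉ p.1 ∧ p.2.at B ∉ p.1 ∧
      Lam r p.1 (p.2.at B) ≤ L ∧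
      HasPat r (insert (p.2.at B) ((p.1 \ nbr r p.1 (p.2.at A)) \ nbr r p.1 (p.2.at B))) with hG
  set RP := ((free n r ×ˢ Base n r).filter fun p =>
      ∃ K, K ⊆ p.1 ∧ K ⊆ nbh r p.2 ∧ HasPat r (p.1 \ K)) with hRP
  set AP := ((free n r ×ˢ Base n r).filter fun p =>
      p.2 ∈ addable r p.1 ∧ HasPat r (insert p.2 p.1)) with hAP
  have hRPc : RP.card ≤ 2 ^ 77 * (n ^ 2 * (stables n r).card) := remove_pairs hrn
  have hAPc : AP.card ≤ 5 * (stables n r).card := add_pairs n r
  set G1 := G.filter fun p => HasPat r (p.1 \ nbr r p.1 (p.2.at B)) with hG1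
  set G2 := G.filter fun p => ¬ HasPat r (p.1 \ nbr r p.1 (p.2.at B)) ∧
    HasPat r (insert (p.2.at B) (p.1 \ nbr r p.1 (p.2.at B))) with hG2
  set G3 := G.filter fun p => ¬ HasPat r (insert (p.2.at B) (p.1 \ nbr r p.1 (p.2.at B))) with hG3
  have hcov : G ⊆ G1 ∪ (G2 ∪ G3) := by
    intro p hp
    simp only [hG1, hG2, hG3, Finset.mem_union, Finset.mem_filter]
    tauto
  have hmemG : ∀ p ∈ G, (p.1 ∈ stables n r ∧ ¬ HasPat r p.1) ∧ p.2 ∈ cells n r ∧
      p.2.at A ∉ p.1 ∧ p.2.at B ∉ p.1 ∧ Lam r p.1 (p.2.at B) ≤ L ∧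
      HasPat r (insert (p.2.at B) ((p.1 \ nbr r p.1 (p.2.at A)) \ nbr r p.1 (p.2.at B))) := by
    intro p hp
    rw [hG, Finset.mem_filter, Finset.mem_product, mem_free] at hp
    exact ⟨hp.1.1, hp.1.2, hp.2⟩
  have hBstab : ∀ p ∈ G, insert (p.2.at B) (p.1 \ nbr r p.1 (p.2.at B)) ∈ stables n r := by
    intro p hp
    obtain ⟨⟨h1, -⟩, h2, h3, h4, -⟩ := hmemG p hp
    refine stable_insert (stable_subset h1 Finset.sdiff_subset) ?_
    rw [mem_addable]
    refine ⟨at_mem_Base h2 hB, fun h => h4 (Finset.mem_sdiff.1 h).1, ?_⟩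
    intro u hu h
    rw [Finset.mem_sdiff] at hu
    exact hu.2 (mem_nbr.2 ⟨hu.1, h⟩)
  -- (i)
  have c1 : G1.card ≤ n ^ 8 * RP.card := by
    refine Finset.card_le_mul_card_image_of_maps_to
      (f := fun p : Finset (Finset (Fin n)) × Cell n => (p.1, p.2.at B)) ?_ (n ^ 8) ?_
    · intro p hp
      rw [hG1, Finset.mem_filter] at hp
      obtain ⟨h1, h2, h3, h4, -⟩ := hmemG p hp.1
      rw [hRP, Finset.mem_filter, Finset.mem_product, mem_free]
      exact ⟨⟨h1, at_mem_Base h2 hB⟩, nbr r p.1 (p.2.at B), e4_nbr_subI, e4_nbr_sub h1.1, hp.2⟩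
    · rintro ⟨I0, S0⟩ -
      refine le_trans ?_ (cell_fiber (r := r) B S0)
      refine Finset.card_le_card_of_injOn (fun p => p.2) ?_ ?_
      · intro p hp
        rw [Finset.mem_coe, Finset.mem_filter, hG1, Finset.mem_filter, Prod.mk.injEq] at hp
        rw [Finset.mem_coe, Finset.mem_filter]
        exact ⟨(hmemG p hp.1.1).2.1, hp.2.2⟩
      · intro p hp q hq hpq
        rw [Finset.mem_coe, Finset.mem_filter, Prod.mk.injEq] at hp hq
        simp only at hpq
        exact Prod.ext (hp.2.1.trans hq.2.1.symm) hpq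
  -- (ii)
  have c2 : G2.card ≤ (L * n ^ 8) * AP.card := by
    refine Finset.card_le_mul_card_image_of_maps_to
      (f := fun p : Finset (Finset (Fin n)) × Cell n => (p.1 \ nbr r p.1 (p.2.at B), p.2.at B))
      ?_ (L * n ^ 8) ?_
    · intro p hp
      rw [hG2, Finset.mem_filter] at hp
      obtain ⟨h1, h2, h3, h4, -⟩ := hmemG p hp.1
      rw [hAP, Finset.mem_filter, Finset.mem_product, mem_free]
      refine ⟨⟨⟨stable_subset h1.1 Finset.sdiff_subset, hp.2.1⟩, at_mem_Base h2 hB⟩, ?_, hp.2.2⟩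
      rw [mem_addable]
      refine ⟨at_mem_Base h2 hB, fun h => h4 (Finset.mem_sdiff.1 h).1, ?_⟩
      intro u hu h
      have hu' := Finset.mem_sdiff.1 hu
      exact hu'.2 (mem_nbr.2 ⟨hu'.1, h⟩)
    · rintro ⟨I0, S0⟩ -
      refine le_trans ?_ (Nat.mul_le_mul_left L (cell_fiber (r := r) B S0))
      refine Finset.card_le_mul_card_image_of_maps_to
        (f := fun p : Finset (Finset (Fin n)) × Cell n => p.2) ?_ L ?_
      · intro p hp
        rw [Finset.mem_filter, hG2, Finset.mem_filter, Prod.mk.injEq] at hp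
        rw [Finset.mem_filter]
        exact ⟨(hmemG p hp.1.1).2.1, hp.2.2⟩
      · intro c hc
        set F := {p ∈ ({p ∈ G2 | (p.1 \ nbr r p.1 (p.2.at B), p.2.at B) = (I0, S0)} :
          Finset (Finset (Finset (Fin n)) × Cell n)) | p.2 = c} with hF
        have hFc : F.card = (F.image fun p => p.1).card := by
          symm
          apply Finset.card_image_of_injOn
          intro p hp q hq hpq
          rw [Finset.mem_coe, hF, Finset.mem_filter] at hp hq
          simp only at hpq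
          exact Prod.ext hpq (hp.2.trans hq.2.symm)
        rw [hFc]
        refine e4_count (r := r) _ I0 S0 ?_
        intro I hI
        rw [Finset.mem_image] at hI
        obtain ⟨p, hp, rfl⟩ := hI
        rw [hF, Finset.mem_filter, Finset.mem_filter, hG2, Finset.mem_filter,
          Prod.mk.injEq] at hp
        obtain ⟨h1, h2, h3, h4, h5, -⟩ := hmemG p hp.1.1.1
        obtain ⟨e1, e2⟩ := hp.1.2
        rw [e2] at e1 h4 h5
        exact ⟨h1.1, h4, e1, h5⟩
  -- (iii)
  have c3 : G3.card ≤ (L * n ^ 8) * RP.card := by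
    refine Finset.card_le_mul_card_image_of_maps_to
      (f := fun p : Finset (Finset (Fin n)) × Cell n =>
        (insert (p.2.at B) (p.1 \ nbr r p.1 (p.2.at B)), p.2.at A)) ?_ (L * n ^ 8) ?_
    · intro p hp
      rw [hG3, Finset.mem_filter] at hp
      obtain ⟨h1, h2, h3, h4, h5, h6⟩ := hmemG p hp.1
      have hI' := mem_stables.1 h1.1
      rw [hRP, Finset.mem_filter, Finset.mem_product, mem_free]
      refine ⟨⟨⟨hBstab p hp.1, hp.2⟩, at_mem_Base h2 hA⟩, nbr r p.1 (p.2.at A), ?_,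
        e4_nbr_sub h1.1, ?_⟩
      · intro u hu
        have hu' := mem_nbr.1 hu
        refine Finset.mem_insert_of_mem (Finset.mem_sdiff.2 ⟨hu'.1, fun hv => ?_⟩)
        have hv' := mem_nbr.1 hv
        exact (e4_far h2 hA hB hAB (hI'.1 hu'.1) (hI'.1 hv'.1) (Or.inr hu'.2) (Or.inr hv'.2)).1
          rfl
      · have hnot : p.2.at B ∉ nbr r p.1 (p.2.at A) := fun h => h4 (mem_nbr.1 h).1
        have e : (insert (p.2.at B) (p.1 \ nbr r p.1 (p.2.at B))) \ nbr r p.1 (p.2.at A) =
            insert (p.2.at B) ((p.1 \ nbr r p.1 (p.2.at A)) \ nbr r p.1 (p.2.at B)) := by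
          rw [Finset.insert_sdiff_of_notMem _ hnot, sdiff_right_comm]
        rw [e]
        exact h6
    · rintro ⟨J0, S1⟩ -
      refine le_trans ?_ (Nat.mul_le_mul_left L (cell_fiber (r := r) A S1))
      refine Finset.card_le_mul_card_image_of_maps_to
        (f := fun p : Finset (Finset (Fin n)) × Cell n => p.2) ?_ L ?_
      · intro p hp
        rw [Finset.mem_filter, hG3, Finset.mem_filter, Prod.mk.injEq] at hp
        rw [Finset.mem_filter]
        exact ⟨(hmemG p hp.1.1).2.1, hp.2.2⟩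
      · intro c hc
        set F := {p ∈ ({p ∈ G3 | (insert (p.2.at B) (p.1 \ nbr r p.1 (p.2.at B)), p.2.at A) =
          (J0, S1)} : Finset (Finset (Finset (Fin n)) × Cell n)) | p.2 = c} with hF
        have hFc : F.card = (F.image fun p => p.1).card := by
          symm
          apply Finset.card_image_of_injOn
          intro p hp q hq hpq
          rw [Finset.mem_coe, hF, Finset.mem_filter] at hp hq
          simp only at hpq
          exact Prod.ext hpq (hp.2.trans hq.2.symm)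
        rw [hFc]
        refine e4_count (r := r) _ (J0.erase (c.at B)) (c.at B) ?_
        intro I hI
        rw [Finset.mem_image] at hI
        obtain ⟨p, hp, rfl⟩ := hI
        rw [hF, Finset.mem_filter, Finset.mem_filter, hG3, Finset.mem_filter,
          Prod.mk.injEq] at hp
        obtain ⟨h1, h2, h3, h4, h5, -⟩ := hmemG p hp.1.1.1
        obtain ⟨e1, e2⟩ := hp.1.2
        have e3 := hp.2
        rw [e3] at e1 h4 h5
        refine ⟨h1.1, h4, ?_, h5⟩
        rw [← e1, Finset.erase_insert (fun h => h4 (Finset.mem_sdiff.1 h).1)]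
  calc G.card ≤ (G1 ∪ (G2 ∪ G3)).card := Finset.card_le_card hcov
    _ ≤ G1.card + (G2 ∪ G3).card := Finset.card_union_le _ _
    _ ≤ G1.card + (G2.card + G3.card) := Nat.add_le_add_left (Finset.card_union_le _ _) _
    _ ≤ _ := add_le_add (c1.trans (Nat.mul_le_mul_left _ hRPc))
        (add_le_add (c2.trans (Nat.mul_le_mul_left _ hAPc))
          (c3.trans (Nat.mul_le_mul_left _ hRPc)))

set_option maxRecDepth 20000 in
private lemma e4_traces : ∀ Q ∈ (Finset.univ : Finset (Fin 8)).powersetCard 4,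
    Q ∉ Pool.Agent.H28.V8.patt → Q ≠ Qcd → Q ∉ trans →
      ∃ Q' ∈ Pool.Agent.H28.V8.patt, (Q ∩ Q').card = 3 := by decide

set_option maxRecDepth 20000 in
private lemma e4_patt : ∀ Q ∈ Pool.Agent.H28.V8.patt, Q = Qbc ∨ Q = Qad ∨
    (Q = Qab ∨ Q = Qac ∨ Q = Qbd) ∧ (Qbc ∩ Q).card = 2 ∧ (Qad ∩ Q).card = 2 := by decide

private lemma e4_inter {n r : ℕ} {c : Cell n} (hc : c ∈ cells n r) (A B : Finset (Fin 8)) :
    (c.at A ∩ c.at B).card = c.1.card + (A ∩ B).card := by
  obtain ⟨hY, hd⟩ := mem_cells.1 hc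
  have h1 : c.at A ∩ c.at B = Pool.Agent.H28.V8.loc c.1 c.2 (A ∩ B) := by
    unfold Cell.at
    rw [Pool.Agent.H28.V8.loc, Pool.Agent.H28.V8.loc, Pool.Agent.H28.V8.loc, Finset.map_inter,
      Finset.union_inter_distrib_left]
  rw [h1, Pool.Agent.H28.V8.loc_card hd]

private lemma e4_at_inj {n r : ℕ} {c : Cell n} (hc : c ∈ cells n r) {A B : Finset (Fin 8)}
    (h : c.at A = c.at B) : A = B := by
  obtain ⟨hY, hd⟩ := mem_cells.1 hc
  exact Pool.Agent.H28.V8.loc_inj hd h

/-- the switched family is stable -/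
private lemma e4_stab {n r : ℕ} {c : Cell n} (hc : c ∈ cells n r) {I : Finset (Finset (Fin n))}
    (hI : I ∈ stables n r) (hbc : c.at Qbc ∉ I) (had : c.at Qad ∉ I) :
    insert (c.at Qbc) (insert (c.at Qad)
      ((I \ nbr r I (c.at Qbc)) \ nbr r I (c.at Qad))) ∈ stables n r := by
  have hI' := mem_stables.1 hI
  have hb : Qbc.card = 4 := by decide
  have ha : Qad.card = 4 := by decide
  have hab : Qbc ∩ Qad = ∅ := by decide
  have h1 : insert (c.at Qad) ((I \ nbr r I (c.at Qbc)) \ nbr r I (c.at Qad)) ∈ stables n r := by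
    refine stable_insert (stable_subset hI (Finset.sdiff_subset.trans Finset.sdiff_subset)) ?_
    rw [mem_addable]
    refine ⟨at_mem_Base hc ha, fun h => had (Finset.mem_sdiff.1 (Finset.mem_sdiff.1 h).1).1, ?_⟩
    intro u hu h
    have h2 := Finset.mem_sdiff.1 hu
    exact h2.2 (mem_nbr.2 ⟨(Finset.mem_sdiff.1 h2.1).1, h⟩)
  refine stable_insert h1 ?_
  rw [mem_addable]
  refine ⟨at_mem_Base hc hb, ?_, ?_⟩
  · intro h
    rcases Finset.mem_insert.1 h with h | h
    · exact absurd (e4_at_inj hc h) (by decide)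
    · exact hbc (Finset.mem_sdiff.1 (Finset.mem_sdiff.1 h).1).1
  · intro u hu h
    rcases Finset.mem_insert.1 hu with h2 | h2
    · rw [h2] at h
      exact (e4_far hc hb ha hab (at_mem_Base hc hb) (at_mem_Base hc ha) (Or.inl rfl)
        (Or.inl rfl)).2 h
    · have h3 := Finset.mem_sdiff.1 (Finset.mem_sdiff.1 h2).1
      exact h3.2 (mem_nbr.2 ⟨h3.1, h⟩)

/-- the switched family shows the pattern at `c` -/
private lemma e4_pat {n r : ℕ} {c : Cell n} {I : Finset (Finset (Fin n))}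
    (hI : I ∈ stables n r) (hp : c ∈ pth r I) (hbc : c.at Qbc ∉ I) (had : c.at Qad ∉ I)
    (hcd : c.at Qcd ∉ I) (htr : ∀ Q ∈ trans, c.at Q ∉ I) :
    Pat (insert (c.at Qbc) (insert (c.at Qad)
      ((I \ nbr r I (c.at Qbc)) \ nbr r I (c.at Qad)))) c := by
  obtain ⟨hc, hab, hac, hbd⟩ := mem_pth.1 hp
  have hst := mem_stables.1 (e4_stab hc hI hbc had)
  set I' := insert (c.at Qbc) (insert (c.at Qad)
      ((I \ nbr r I (c.at Qbc)) \ nbr r I (c.at Qad))) with hI'
  obtain ⟨hY, hd⟩ := mem_cells.1 hc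
  have hmem : ∀ Q ∈ Pool.Agent.H28.V8.patt, c.at Q ∈ I' := by
    intro Q hQ
    rcases e4_patt Q hQ with h | h | ⟨h, h1, h2⟩
    · rw [h, hI']
      exact Finset.mem_insert_self _ _
    · rw [h, hI']
      exact Finset.mem_insert_of_mem (Finset.mem_insert_self _ _)
    · have hQI : c.at Q ∈ I := by
        rcases h with h | h | h <;> rw [h] <;> assumption
      rw [hI']
      refine Finset.mem_insert_of_mem (Finset.mem_insert_of_mem ?_)
      rw [Finset.mem_sdiff, Finset.mem_sdiff]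
      have e1 := e4_inter hc Qbc Q
      have e2 := e4_inter hc Qad Q
      refine ⟨⟨hQI, fun h3 => ?_⟩, fun h3 => ?_⟩
      · have := (mem_nbr.1 h3).2.2
        omega
      · have := (mem_nbr.1 h3).2.2
        omega
  intro Q hQ
  refine ⟨fun hin => ?_, hmem Q⟩
  by_contra hnot
  have hQ' : Q ∈ (Finset.univ : Finset (Fin 8)).powersetCard 4 :=
    Finset.mem_powersetCard.2 ⟨Finset.subset_univ _, hQ⟩
  have hI0 : c.at Q ∈ I := by
    rw [hI', Finset.mem_insert, Finset.mem_insert] at hin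
    rcases hin with h | h | h
    · exact absurd (e4_at_inj hc h) (fun h => hnot (h ▸ by decide))
    · exact absurd (e4_at_inj hc h) (fun h => hnot (h ▸ by decide))
    · exact (Finset.mem_sdiff.1 (Finset.mem_sdiff.1 h).1).1
  by_cases h1 : Q = Qcd
  · exact hcd (h1 ▸ hI0)
  · by_cases h2 : Q ∈ trans
    · exact htr Q h2 hI0
    · obtain ⟨Q', hQ'p, h3⟩ := e4_traces Q hQ' hnot h1 h2
      have h4 := e4_inter hc Q Q'
      refine hst.2 _ hin _ (hmem Q' hQ'p) ⟨?_, by omega⟩
      intro h5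
      exact hnot (e4_at_inj hc h5 ▸ hQ'p)

open Classical in
/-- the main part -/
private lemma e4_main {n r L : ℕ} :
    ((free n r ×ˢ cells n r).filter fun p => p.2 ∈ pth r p.1 ∧ p.2.at Qbc ∉ p.1 ∧
      p.2.at Qad ∉ p.1 ∧ p.2.at Qcd ∉ p.1 ∧ (∀ Q ∈ trans, p.2.at Q ∉ p.1) ∧
      Lam r p.1 (p.2.at Qbc) ≤ L ∧ Lam r p.1 (p.2.at Qad) ≤ L ∧
      ¬ HasPat r (insert (p.2.at Qad)
        ((p.1 \ nbr r p.1 (p.2.at Qbc)) \ nbr r p.1 (p.2.at Qad))) ∧
      ¬ HasPat r (insert (p.2.at Qbc)
        ((p.1 \ nbr r p.1 (p.2.at Qbc)) \ nbr r p.1 (p.2.at Qad)))).card ≤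
      (L * L) * (14400 * (stables n r).card) := by
  set G := (free n r ×ˢ cells n r).filter fun p => p.2 ∈ pth r p.1 ∧ p.2.at Qbc ∉ p.1 ∧
      p.2.at Qad ∉ p.1 ∧ p.2.at Qcd ∉ p.1 ∧ (∀ Q ∈ trans, p.2.at Q ∉ p.1) ∧
      Lam r p.1 (p.2.at Qbc) ≤ L ∧ Lam r p.1 (p.2.at Qad) ≤ L ∧
      ¬ HasPat r (insert (p.2.at Qad)
        ((p.1 \ nbr r p.1 (p.2.at Qbc)) \ nbr r p.1 (p.2.at Qad))) ∧
      ¬ HasPat r (insert (p.2.at Qbc)
        ((p.1 \ nbr r p.1 (p.2.at Qbc)) \ nbr r p.1 (p.2.at Qad))) with hG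
  have hb : Qbc.card = 4 := by decide
  have ha : Qad.card = 4 := by decide
  have hab : Qbc ∩ Qad = ∅ := by decide
  set PT := (stables n r ×ˢ cells n r).filter fun p => Pat p.1 p.2 ∧
    ¬ HasPat r (p.1.erase (p.2.at Qbc)) ∧ ¬ HasPat r (p.1.erase (p.2.at Qad)) with hPT
  have hPTc : PT.card ≤ 14400 * (stables n r).card := by
    refine Finset.card_le_mul_card_image_of_maps_to
      (f := fun p : Finset (Finset (Fin n)) × Cell n => p.1) ?_ 14400 ?_
    · intro p hp
      rw [hPT, Finset.mem_filter, Finset.mem_product] at hp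
      exact hp.1.1
    · intro I hI
      refine le_trans ?_ (pat_mult (r := r) I)
      refine Finset.card_le_card_of_injOn (fun p => p.2) ?_ ?_
      · intro p hp
        rw [Finset.mem_coe, Finset.mem_filter, hPT, Finset.mem_filter, Finset.mem_product] at hp
        rw [Finset.mem_coe, Finset.mem_filter]
        obtain ⟨⟨⟨-, h2⟩, h3⟩, h4⟩ := hp
        rw [h4] at h3
        exact ⟨h2, h3⟩
      · intro p hp q hq hpq
        rw [Finset.mem_coe, Finset.mem_filter] at hp hq
        simp only at hpq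
        exact Prod.ext (hp.2.trans hq.2.symm) hpq
  have hnotin : ∀ (I : Finset (Finset (Fin n))) (c : Cell n), c ∈ cells n r → c.at Qbc ∉ I →
      c.at Qad ∉ I → c.at Qbc ∉ insert (c.at Qad)
        ((I \ nbr r I (c.at Qbc)) \ nbr r I (c.at Qad)) ∧
      c.at Qad ∉ ((I \ nbr r I (c.at Qbc)) \ nbr r I (c.at Qad)) := by
    intro I c hc h1 h2
    have h3 : c.at Qad ∉ ((I \ nbr r I (c.at Qbc)) \ nbr r I (c.at Qad)) :=
      fun h => h2 (Finset.mem_sdiff.1 (Finset.mem_sdiff.1 h).1).1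
    refine ⟨fun h => ?_, h3⟩
    rcases Finset.mem_insert.1 h with h | h
    · exact absurd (e4_at_inj hc h) (by decide)
    · exact h1 (Finset.mem_sdiff.1 (Finset.mem_sdiff.1 h).1).1
  refine le_trans ?_ (Nat.mul_le_mul_left (L * L) hPTc)
  refine Finset.card_le_mul_card_image_of_maps_to
    (f := fun p : Finset (Finset (Fin n)) × Cell n =>
      (insert (p.2.at Qbc) (insert (p.2.at Qad)
        ((p.1 \ nbr r p.1 (p.2.at Qbc)) \ nbr r p.1 (p.2.at Qad))), p.2)) ?_ (L * L) ?_
  · intro p hp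
    rw [hG, Finset.mem_filter, Finset.mem_product, mem_free] at hp
    obtain ⟨⟨⟨h1, h1'⟩, h2⟩, h3, h4, h5, h6, h7, h8, h9, h10, h11⟩ := hp
    obtain ⟨n1, n2⟩ := hnotin p.1 p.2 h2 h4 h5
    rw [hPT, Finset.mem_filter, Finset.mem_product]
    refine ⟨⟨e4_stab h2 h1 h4 h5, h2⟩, e4_pat h1 h3 h4 h5 h6 h7, ?_, ?_⟩
    · simp only
      rw [Finset.erase_insert n1]
      exact h10
    · simp only
      have hne : p.2.at Qbc ≠ p.2.at Qad := fun h => absurd (e4_at_inj h2 h) (by decide)
      rw [Finset.erase_insert_of_ne hne, Finset.erase_insert n2]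
      exact h11
  · rintro ⟨I', c⟩ -
    set F := {p ∈ G | (insert (p.2.at Qbc) (insert (p.2.at Qad)
        ((p.1 \ nbr r p.1 (p.2.at Qbc)) \ nbr r p.1 (p.2.at Qad))), p.2) = (I', c)} with hF
    have hFc : F.card = (F.image fun p => p.1).card := by
      symm
      apply Finset.card_image_of_injOn
      intro p hp q hq hpq
      rw [Finset.mem_coe, hF, Finset.mem_filter, Prod.mk.injEq] at hp hq
      simp only at hpq
      exact Prod.ext hpq (hp.2.2.trans hq.2.2.symm)
    rw [hFc]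
    by_cases hc : c ∈ cells n r
    · refine e4_count2 (r := r) hc hb ha hab _ ((I'.erase (c.at Qbc)).erase (c.at Qad)) ?_
      intro I hI
      rw [Finset.mem_image] at hI
      obtain ⟨p, hp, rfl⟩ := hI
      rw [hF, Finset.mem_filter, hG, Finset.mem_filter, Finset.mem_product, mem_free,
        Prod.mk.injEq] at hp
      obtain ⟨⟨⟨⟨h1, h1'⟩, h2⟩, h3, h4, h5, h6, h7, h8, h9, h10, h11⟩, e1, e2⟩ := hp
      rw [e2] at e1 h2 h4 h5 h8 h9
      obtain ⟨n1, n2⟩ := hnotin p.1 c h2 h4 h5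
      refine ⟨h1, h4, h5, ?_, h8, h9⟩
      rw [← e1, Finset.erase_insert n1, Finset.erase_insert n2]
    · have hempty : F.image (fun p => p.1) = ∅ := by
        rw [Finset.image_eq_empty, Finset.eq_empty_iff_forall_notMem]
        intro p hp
        rw [hF, Finset.mem_filter, hG, Finset.mem_filter, Finset.mem_product,
          Prod.mk.injEq] at hp
        exact hc (hp.2.2 ▸ hp.1.1.2)
      rw [hempty]
      simp

private lemma e4_arith (n L s D : ℕ) (hn : 1 ≤ n) (hL : 1 ≤ L) (hD : 10 ≤ D) :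
    (L * L) * (14400 * s) +
      ((n ^ 8 * (D * (n ^ 2 * s)) + ((L * n ^ 8) * (5 * s) + (L * n ^ 8) * (D * (n ^ 2 * s)))) +
      (n ^ 8 * (D * (n ^ 2 * s)) + ((L * n ^ 8) * (5 * s) + (L * n ^ 8) * (D * (n ^ 2 * s))))) ≤
      14400 * (L ^ 2 * s) + (8 * D) * (n ^ 10 * (L * s)) := by
  obtain ⟨X, hX⟩ : ∃ X, X = n ^ 10 * (L * s) := ⟨_, rfl⟩
  have h1 : n ^ 8 * (D * (n ^ 2 * s)) ≤ D * X := by
    have e : n ^ 8 * (D * (n ^ 2 * s)) = D * (n ^ 10 * (1 * s)) := by ring
    rw [e, hX]
    exact Nat.mul_le_mul_left _ (Nat.mul_le_mul_left _ (Nat.mul_le_mul_right _ hL))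
  have h2 : (L * n ^ 8) * (5 * s) ≤ 5 * X := by
    have e : (L * n ^ 8) * (5 * s) = 5 * (n ^ 8 * (L * s)) := by ring
    rw [e, hX]
    exact Nat.mul_le_mul_left _ (Nat.mul_le_mul_right _ (Nat.pow_le_pow_right hn (by norm_num)))
  have h3 : (L * n ^ 8) * (D * (n ^ 2 * s)) = D * X := by
    rw [hX]
    ring
  have h4 : (L * L) * (14400 * s) = 14400 * (L ^ 2 * s) := by ring
  have h5 : 10 * X ≤ D * X := Nat.mul_le_mul_right _ hD
  have h6 : (8 * D) * X = 8 * (D * X) := by ring
  rw [h3, h4, ← hX, h6]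
  omega

open Classical in
theorem switch_count {n r L : ℕ} (hr : 4 ≤ r) (hrn : r + 4 ≤ n) (hL : 1 ≤ L) :
    ((free n r ×ˢ cells n r).filter fun p => p.2 ∈ pth r p.1 ∧ p.2.at Qbc ∉ p.1 ∧
      p.2.at Qad ∉ p.1 ∧ p.2.at Qcd ∉ p.1 ∧ (∀ Q ∈ trans, p.2.at Q ∉ p.1) ∧
      Lam r p.1 (p.2.at Qbc) ≤ L ∧ Lam r p.1 (p.2.at Qad) ≤ L).card ≤
      14400 * (L ^ 2 * (stables n r).card) + 2 ^ 80 * (n ^ 10 * (L * (stables n r).card)) := by
  have hb : Qbc.card = 4 := by decide
  have ha : Qad.card = 4 := by decide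
  have hab : Qbc ∩ Qad = ∅ := by decide
  have m := e4_main (n := n) (r := r) (L := L)
  have r1 := e4_rest (n := n) (r := r) (L := L) (by omega) Qbc Qad hb ha hab
  have r2 := e4_rest (n := n) (r := r) (L := L) (by omega) Qad Qbc ha hb
    (by rw [Finset.inter_comm]; exact hab)
  have hfin := e4_arith n L (stables n r).card (2 ^ 77) (by omega) hL (by norm_num)
  rw [show 8 * 2 ^ 77 = 2 ^ 80 by norm_num] at hfin
  refine le_trans (le_trans ?_ (add_le_add m (add_le_add r1 r2))) hfin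
  refine le_trans (Finset.card_le_card ?_) (le_trans (Finset.card_union_le _ _)
    (Nat.add_le_add_left (Finset.card_union_le _ _) _))
  intro p hp
  rw [Finset.mem_filter] at hp
  obtain ⟨h0, h1, h2, h3, h4, h5, h6, h7⟩ := hp
  rw [Finset.mem_union, Finset.mem_union, Finset.mem_filter, Finset.mem_filter, Finset.mem_filter]
  by_cases c1 : HasPat r (insert (p.2.at Qad)
        ((p.1 \ nbr r p.1 (p.2.at Qbc)) \ nbr r p.1 (p.2.at Qad)))
  · exact Or.inr (Or.inl ⟨h0, h2, h3, h7, c1⟩)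
  · by_cases c2 : HasPat r (insert (p.2.at Qbc)
        ((p.1 \ nbr r p.1 (p.2.at Qbc)) \ nbr r p.1 (p.2.at Qad)))
    · refine Or.inr (Or.inr ⟨h0, h3, h2, h6, ?_⟩)
      rw [sdiff_right_comm]
      exact c2
    · exact Or.inl ⟨h0, h1, h2, h3, h4, h5, h6, h7, c1, c2⟩

end Pool.Agent.H8.VM
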