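import Pool.Agent.H8.VM.A3_Counts
import Pool.Agent.H8.VM.C4_CostFinal
import Pool.Agent.H8.VM.D3_PathLower
import Pool.Agent.H8.VM.D5_PathBad
import Pool.Agent.H8.VM.E4_Switch

/-! MODULE E5 (about 300 lines). Almost every stable family has the Vamos pattern.

Let `b = (free n r).card`, assume `b > δ s`; derive a contradiction for large `n`.
Constants: `κ` from `few_small (1/4)` (number of `I` with `|I| <= κ N/n` is
`<= exp(N/(4n)) <= exp(-N/(4n)) s` by `stables_lower`, `log 2 >= 1/2`), `c1` from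
`path_lower κ`, `η = δ c1/16`.
(1) `sum_(I free) |pth r I| >= c1 N n^5 (b - exp(-N/(4n)) s) >= (c1/2) N n^5 b`.
(2) let `a1` (resp. `a0`) be the number of pairs (`I` free, `c` in `pth r I`) with `cd` in `I`
(resp. not in `I`). The map `(I, c) -> (I.erase (c.at Qcd), c)` is injective, keeps path cells
(`cd` is different from `ab, ac, bd`), and lands in the pairs counted by `a0` unless
`I.erase (c.at Qcd)` is not free; these exceptions are at most `70 s * n^8` (`remove_one`,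
`cell_fiber`). So `a1 <= a0 + 70 n^8 s`, `a0 >= (c1/4) N n^5 b - 35 n^8 s`.
(3) remove the pairs with `bc` in `I`, `ad` in `I` or a transversal in `I`: `<= 36 N n^4 b`
(`path_bad`).
(4) remove the pairs with `Lam r I (c.at Qbc) > L` or `Lam r I (c.at Qad) > L`,
`L = 2^(r + floor(log n))`: by `cost_final η`, `path_fiber_bc`, `path_fiber_ad`: at most
`2 η N n^5 s <= (c1/8) N n^5 b` (here `bc`, `ad` are not in `I`).
(5) the remaining pairs are those of `switch_count`. So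
`(c1/8) N n^5 b - 36 N n^4 b - 35 n^8 s <= 14400 L^2 s + 2^80 n^10 L s`.
Now `N = C(n,r) >= C(2r, r) >= 4^r/(2r) >= 4^r/n` (`Nat.four_pow_le_two_mul_self_mul_centralBinom`,
`Nat.choose_le_choose`), `L^2 <= 4^r n^(1.5)` (`2^(2 log n) = n^(2 log 2)`, `log 2 < 0.7`), so
`L^2/(N n^5) <= n^(-2.5)`, and `n^10 L/(N n^5) <= n^8 2^(-r) -> 0`, `n^8/(N n^5) -> 0`
(`r >= n/13`). Contradiction to `b > δ s`. -/

open scoped BigOperators
open Filter

namespace Pool.Agent.H8.VM

open Pool.Agent.H28.Johnson Pool.Agent.H28.KW Pool.Agent.H28.Windows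

private lemma E5_card_prod {α β : Type*} (F : Finset α) (C : Finset β) (q : α → β → Prop)
    [∀ a, DecidablePred (q a)] [DecidablePred fun p : α × β => q p.1 p.2] :
    ((F ×ˢ C).filter fun p => q p.1 p.2).card = ∑ a ∈ F, (C.filter (q a)).card := by
  rw [Finset.card_filter, Finset.sum_product]
  refine Finset.sum_congr rfl fun a _ => ?_
  rw [Finset.card_filter]
  refine Finset.sum_congr rfl fun y _ => ?_
  by_cases h : q a y <;> simp [h]

private lemma E5_at_ne {n r : ℕ} {c : Cell n} (hc : c ∈ cells n r) {Q Q' : Finset (Fin 8)}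
    (h : Q ≠ Q') : c.at Q ≠ c.at Q' := fun heq =>
  h (Pool.Agent.H28.V8.loc_inj (mem_cells.mp hc).2 heq)

open Classical in
/-- the pairs (free family, path cell) -/
private noncomputable def E5P (n r : ℕ) : Finset (Finset (Finset (Fin n)) × Cell n) :=
  (free n r ×ˢ cells n r).filter fun p => p.2 ∈ pth r p.1

private lemma E5_mem_P {n r : ℕ} {p : Finset (Finset (Fin n)) × Cell n} :
    p ∈ E5P n r ↔ p.1 ∈ free n r ∧ p.2 ∈ cells n r ∧ p.2 ∈ pth r p.1 := by
  classical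
  rw [E5P, Finset.mem_filter, Finset.mem_product, and_assoc]

open Classical in
private lemma E5_card_P {n r : ℕ} :
    (E5P n r).card = ∑ I ∈ free n r, (pth r I).card := by
  rw [E5P, E5_card_prod (free n r) (cells n r) (fun I c => c ∈ pth r I)]
  refine Finset.sum_congr rfl fun I _ => ?_
  congr 1
  ext c
  rw [Finset.mem_filter]
  constructor
  · exact fun h => h.2
  · exact fun h => ⟨(mem_pth.mp h).1, h⟩

open Classical in
private lemma E5_A1 {n r : ℕ} :
    ((E5P n r).filter fun p => p.2.at Qcd ∈ p.1).card ≤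
      ((E5P n r).filter fun p => p.2.at Qcd ∉ p.1).card + 70 * (n ^ 8 * (stables n r).card) := by
  rw [← Finset.card_filter_add_card_filter_not (s := (E5P n r).filter fun p => p.2.at Qcd ∈ p.1)
    (fun p => ¬ HasPat r (p.1.erase (p.2.at Qcd)))]
  refine add_le_add ?_ ?_
  · refine Finset.card_le_card_of_injOn
      (fun p : Finset (Finset (Fin n)) × Cell n => (p.1.erase (p.2.at Qcd), p.2)) ?_ ?_
    · intro p hp
      rw [Finset.mem_coe, Finset.mem_filter, Finset.mem_filter, E5_mem_P] at hp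
      obtain ⟨⟨⟨hfree, hcell, hpth⟩, hcd⟩, hnp⟩ := hp
      rw [Finset.mem_coe, Finset.mem_filter, E5_mem_P]
      refine ⟨⟨mem_free.mpr ⟨stable_erase (mem_free.mp hfree).1 _, hnp⟩, hcell, ?_⟩,
        Finset.notMem_erase _ _⟩
      rw [mem_pth] at hpth ⊢
      refine ⟨hcell, ?_, ?_, ?_⟩
      · exact Finset.mem_erase.mpr ⟨E5_at_ne hcell (by decide), hpth.2.1⟩
      · exact Finset.mem_erase.mpr ⟨E5_at_ne hcell (by decide), hpth.2.2.1⟩
      · exact Finset.mem_erase.mpr ⟨E5_at_ne hcell (by decide), hpth.2.2.2⟩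
    · intro p hp p' hp' h
      rw [Finset.mem_coe, Finset.mem_filter, Finset.mem_filter] at hp hp'
      simp only [Prod.mk.injEq] at h
      obtain ⟨h1, h2⟩ := h
      refine Prod.ext ?_ h2
      rw [← Finset.insert_erase hp.1.2, h1, h2, Finset.insert_erase]
      exact hp'.1.2
  · refine le_trans (Finset.card_le_mul_card_image_of_maps_to
      (f := fun p : Finset (Finset (Fin n)) × Cell n => (p.1, p.2.at Qcd))
      (t := (free n r ×ˢ Base n r).filter fun p => p.2 ∈ p.1 ∧ HasPat r (p.1.erase p.2))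
      ?_ (n ^ 8) ?_) ?_
    · intro p hp
      rw [Finset.mem_filter, Finset.mem_filter, E5_mem_P] at hp
      obtain ⟨⟨⟨hfree, hcell, hpth⟩, hcd⟩, hnp⟩ := hp
      rw [Finset.mem_filter, Finset.mem_product]
      exact ⟨⟨hfree, at_mem_Base hcell (by decide)⟩, hcd, not_not.mp hnp⟩
    · intro b _
      refine le_trans (Finset.card_le_card_of_injOn (fun p => p.2)
        (t := (cells n r).filter fun c => c.at Qcd = b.2) ?_ ?_) (cell_fiber Qcd b.2)
      · intro p hp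
        rw [Finset.mem_coe, Finset.mem_filter, Finset.mem_filter, Finset.mem_filter,
          E5_mem_P] at hp
        rw [Finset.mem_coe, Finset.mem_filter]
        exact ⟨hp.1.1.1.2.1, (Prod.ext_iff.mp hp.2).2⟩
      · intro p hp p' hp' h
        rw [Finset.mem_coe, Finset.mem_filter] at hp hp'
        exact Prod.ext ((Prod.ext_iff.mp hp.2).1.trans (Prod.ext_iff.mp hp'.2).1.symm) h
    · calc n ^ 8 * ((free n r ×ˢ Base n r).filter fun p =>
            p.2 ∈ p.1 ∧ HasPat r (p.1.erase p.2)).card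
          ≤ n ^ 8 * (70 * (stables n r).card) := Nat.mul_le_mul_left _ (remove_one n r)
        _ = 70 * (n ^ 8 * (stables n r).card) := by ring

open Classical in
private lemma E5_B3 {n r : ℕ} (hr : 4 ≤ r) (hrn : 2 * r ≤ n) :
    ((E5P n r).filter fun p => p.2.at Qbc ∈ p.1 ∨ p.2.at Qad ∈ p.1 ∨
      ∃ Q ∈ trans, p.2.at Q ∈ p.1).card ≤ (free n r).card * (36 * (n.choose r * n ^ 4)) := by
  rw [E5P, Finset.filter_filter, E5_card_prod (free n r) (cells n r) (fun I c =>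
    c ∈ pth r I ∧ (c.at Qbc ∈ I ∨ c.at Qad ∈ I ∨ ∃ Q ∈ trans, c.at Q ∈ I)),
    ← smul_eq_mul, ← Finset.sum_const]
  refine Finset.sum_le_sum fun I hI => ?_
  refine le_trans (Finset.card_le_card ?_) (path_bad hr hrn (mem_free.mp hI).1)
  intro c hc
  rw [Finset.mem_filter] at hc ⊢
  exact hc.2

open Classical in
private lemma E5_B4 {n r L : ℕ} (Q : Finset (Fin 8)) (hQ : Q.card = 4)
    (hfib : ∀ I ∈ stables n r, ∀ S ∈ Base n r,
      ((pth r I).filter fun c => c.at Q = S).card ≤ n ^ 5) :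
    ((E5P n r).filter fun p => p.2.at Q ∉ p.1 ∧ L < Lam r p.1 (p.2.at Q)).card ≤
      n ^ 5 * ((stables n r ×ˢ Base n r).filter fun p => p.2 ∉ p.1 ∧ L < Lam r p.1 p.2).card := by
  refine Finset.card_le_mul_card_image_of_maps_to
    (f := fun p : Finset (Finset (Fin n)) × Cell n => (p.1, p.2.at Q)) ?_ (n ^ 5) ?_
  · intro p hp
    rw [Finset.mem_filter, E5_mem_P] at hp
    rw [Finset.mem_filter, Finset.mem_product]
    exact ⟨⟨(mem_free.mp hp.1.1).1, at_mem_Base hp.1.2.1 hQ⟩, hp.2⟩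
  · intro b hb
    rw [Finset.mem_filter, Finset.mem_product] at hb
    refine le_trans (Finset.card_le_card_of_injOn (fun p => p.2)
      (t := (pth r b.1).filter fun c => c.at Q = b.2) ?_ ?_) (hfib b.1 hb.1.1 b.2 hb.1.2)
    · intro p hp
      rw [Finset.mem_coe, Finset.mem_filter, Finset.mem_filter, E5_mem_P] at hp
      rw [Finset.mem_coe, Finset.mem_filter]
      have h1 := (Prod.ext_iff.mp hp.2).1
      have h2 := (Prod.ext_iff.mp hp.2).2
      simp only at h1 h2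
      refine ⟨?_, h2⟩
      rw [← h1]
      exact hp.1.1.2.2
    · intro p hp p' hp' h
      rw [Finset.mem_coe, Finset.mem_filter] at hp hp'
      exact Prod.ext ((Prod.ext_iff.mp hp.2).1.trans (Prod.ext_iff.mp hp'.2).1.symm) h

open Classical in
private lemma E5_A0 {n r L : ℕ} (hr : 4 ≤ r) (hrn : 2 * r ≤ n) (hL : 1 ≤ L) :
    ((E5P n r).filter fun p => p.2.at Qcd ∉ p.1).card ≤
      (14400 * (L ^ 2 * (stables n r).card) + 2 ^ 80 * (n ^ 10 * (L * (stables n r).card))) +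
      ((free n r).card * (36 * (n.choose r * n ^ 4)) +
      (n ^ 5 * ((stables n r ×ˢ Base n r).filter fun p => p.2 ∉ p.1 ∧ L < Lam r p.1 p.2).card +
      n ^ 5 * ((stables n r ×ˢ Base n r).filter fun p =>
        p.2 ∉ p.1 ∧ L < Lam r p.1 p.2).card)) := by
  refine le_trans (Finset.card_le_card (t := ((free n r ×ˢ cells n r).filter fun p =>
      p.2 ∈ pth r p.1 ∧ p.2.at Qbc ∉ p.1 ∧
      p.2.at Qad ∉ p.1 ∧ p.2.at Qcd ∉ p.1 ∧ (∀ Q ∈ trans, p.2.at Q ∉ p.1) ∧
      Lam r p.1 (p.2.at Qbc) ≤ L ∧ Lam r p.1 (p.2.at Qad) ≤ L) ∪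
      (((E5P n r).filter fun p => p.2.at Qbc ∈ p.1 ∨ p.2.at Qad ∈ p.1 ∨
      ∃ Q ∈ trans, p.2.at Q ∈ p.1) ∪
      (((E5P n r).filter fun p => p.2.at Qbc ∉ p.1 ∧ L < Lam r p.1 (p.2.at Qbc)) ∪
      ((E5P n r).filter fun p => p.2.at Qad ∉ p.1 ∧ L < Lam r p.1 (p.2.at Qad))))) ?_) ?_
  · intro p hp
    rw [Finset.mem_filter] at hp
    obtain ⟨hP, hcd⟩ := hp
    have hP' := E5_mem_P.mp hP
    rw [Finset.mem_union, Finset.mem_union, Finset.mem_union, Finset.mem_filter,
      Finset.mem_filter, Finset.mem_filter, Finset.mem_filter, Finset.mem_product]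
    by_cases hbad : p.2.at Qbc ∈ p.1 ∨ p.2.at Qad ∈ p.1 ∨ ∃ Q ∈ trans, p.2.at Q ∈ p.1
    · exact Or.inr (Or.inl ⟨hP, hbad⟩)
    · push Not at hbad
      obtain ⟨hbc, had, htr⟩ := hbad
      by_cases h1 : L < Lam r p.1 (p.2.at Qbc)
      · exact Or.inr (Or.inr (Or.inl ⟨hP, hbc, h1⟩))
      by_cases h2 : L < Lam r p.1 (p.2.at Qad)
      · exact Or.inr (Or.inr (Or.inr ⟨hP, had, h2⟩))
      exact Or.inl ⟨⟨hP'.1, hP'.2.1⟩, hP'.2.2, hbc, had, hcd, htr, not_lt.mp h1, not_lt.mp h2⟩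
  · refine (Finset.card_union_le _ _).trans (add_le_add (switch_count hr (by omega) hL) ?_)
    refine (Finset.card_union_le _ _).trans (add_le_add (E5_B3 hr hrn) ?_)
    refine (Finset.card_union_le _ _).trans (add_le_add ?_ ?_)
    · exact E5_B4 Qbc (by decide) fun I hI S hS => path_fiber_bc hI hS
    · exact E5_B4 Qad (by decide) fun I hI S hS => path_fiber_ad hI hS

open Classical in
private lemma E5_total {n r L : ℕ} (hr : 4 ≤ r) (hrn : 2 * r ≤ n) (hL : 1 ≤ L) :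
    ∑ I ∈ free n r, (pth r I).card ≤
      2 * ((14400 * (L ^ 2 * (stables n r).card) + 2 ^ 80 * (n ^ 10 * (L * (stables n r).card))) +
      ((free n r).card * (36 * (n.choose r * n ^ 4)) +
      (n ^ 5 * ((stables n r ×ˢ Base n r).filter fun p => p.2 ∉ p.1 ∧ L < Lam r p.1 p.2).card +
      n ^ 5 * ((stables n r ×ˢ Base n r).filter fun p =>
        p.2 ∉ p.1 ∧ L < Lam r p.1 p.2).card))) + 70 * (n ^ 8 * (stables n r).card) := by
  rw [← E5_card_P, ← Finset.card_filter_add_card_filter_not (s := E5P n r)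
    (fun p => p.2.at Qcd ∈ p.1)]
  have h1 := E5_A1 (n := n) (r := r)
  have h0 := E5_A0 hr hrn hL
  omega

/-- eventually `n^8 <= 2^r` for all `r >= n/13` -/
private lemma E5_pow : ∀ᶠ n : ℕ in atTop, ∀ r : ℕ, n ≤ 13 * r → (n : ℝ) ^ 8 ≤ (2 : ℝ) ^ r := by
  have hc : (1 : ℝ) < (2 : ℝ) ^ ((1 : ℝ) / 13) := Real.one_lt_rpow (by norm_num) (by norm_num)
  have h := tendsto_pow_const_div_const_pow_of_one_lt 8 hc
  have h2 := h.eventually (gt_mem_nhds (show (0 : ℝ) < 1 by norm_num))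
  filter_upwards [h2] with n hn r hr
  set c : ℝ := (2 : ℝ) ^ ((1 : ℝ) / 13) with hcdef
  have hc0 : 0 < c := lt_trans one_pos hc
  have h13 : c ^ 13 = 2 := by
    rw [hcdef, ← Real.rpow_natCast, ← Real.rpow_mul (by norm_num)]
    norm_num
  have h3 : (n : ℝ) ^ 8 < c ^ n := by
    rw [div_lt_one (pow_pos hc0 n)] at hn
    exact hn
  calc (n : ℝ) ^ 8 ≤ c ^ n := h3.le
    _ ≤ c ^ (13 * r) := pow_le_pow_right₀ hc.le hr
    _ = 2 ^ r := by rw [pow_mul, h13]

private lemma E5_floor {n : ℕ} (hn : 1 ≤ n) : (2 : ℝ) ^ ⌊Real.log n⌋₊ ≤ n := by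
  have hn' : (1 : ℝ) ≤ n := by exact_mod_cast hn
  have hlog : 0 ≤ Real.log n := Real.log_nonneg hn'
  have h1 : (⌊Real.log n⌋₊ : ℝ) ≤ Real.log n := Nat.floor_le hlog
  calc (2 : ℝ) ^ ⌊Real.log n⌋₊ ≤ (Real.exp 1) ^ ⌊Real.log n⌋₊ := by
        apply pow_le_pow_left₀ (by norm_num)
        have := Real.add_one_le_exp 1
        linarith
    _ = Real.exp (⌊Real.log n⌋₊ : ℝ) := by
        rw [← Real.exp_nat_mul, mul_one]
    _ ≤ Real.exp (Real.log n) := Real.exp_le_exp.mpr h1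
    _ = n := Real.exp_log (by linarith)

private lemma E5_four {n r : ℕ} (hr : 1 ≤ r) (hrn : 2 * r ≤ n) :
    (4 : ℝ) ^ r ≤ n * (n.choose r : ℝ) := by
  have h1 := Nat.four_pow_le_two_mul_self_mul_centralBinom r (by omega)
  have h2 : Nat.centralBinom r ≤ n.choose r := by
    rw [Nat.centralBinom]
    exact Nat.choose_le_choose r hrn
  have h3 : 4 ^ r ≤ n * n.choose r := h1.trans (Nat.mul_le_mul hrn h2)
  exact_mod_cast h3

private lemma E5_num {δ c1 n N b s L lo : ℝ} (hδ : 0 < δ) (hc1 : 0 < c1) (hn : 1 ≤ n)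
    (hN : 0 < N) (hb : 0 < b) (_hL0 : 0 ≤ L) (hs : δ * s < b)
    (hLsq : L ^ 2 ≤ N * n ^ 3) (hLn : n ^ 10 * L ≤ N * n ^ 4) (hn8 : n ^ 8 ≤ N * n ^ 4)
    (hs0 : 0 ≤ s)
    (hlow : c1 * (N * n ^ 5) * (b / 2) ≤ lo)
    (hup : lo ≤ 2 * ((14400 * (L ^ 2 * s) + 2 ^ 80 * (n ^ 10 * (L * s))) +
      (b * (36 * (N * n ^ 4)) +
      (n ^ 5 * (δ * c1 / 16 * N * s) + n ^ 5 * (δ * c1 / 16 * N * s)))) +
      70 * (n ^ 8 * s))
    (hnC : 4 * (72 * δ + 28800 + 2 ^ 81 + 70) / (δ * c1) < n) : False := by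
  have hn0 : 0 < n := by linarith
  have hsb : s ≤ b / δ := by
    rw [le_div_iff₀ hδ]; linarith
  have hX : 0 < N * n ^ 4 := by positivity
  have hbδ : 0 ≤ b / δ := by positivity
  set X : ℝ := N * n ^ 4 with hXdef
  set B : ℝ := b / δ with hB
  have hbB : b = δ * B := by rw [hB]; field_simp
  have hB0 : 0 < B := by rw [hB]; positivity
  have hN3 : N * n ^ 3 ≤ X := by
    rw [hXdef]
    exact mul_le_mul_of_nonneg_left (pow_le_pow_right₀ hn (by norm_num)) hN.le
  have e1 : L ^ 2 * s ≤ X * B := mul_le_mul (hLsq.trans hN3) hsb hs0 hX.le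
  have e2 : n ^ 10 * (L * s) ≤ X * B := by
    rw [← mul_assoc]
    exact mul_le_mul hLn hsb hs0 hX.le
  have e4 : n ^ 8 * s ≤ X * B := mul_le_mul hn8 hsb hs0 hX.le
  have e3 : n ^ 5 * (δ * c1 / 16 * N * s) ≤ δ * c1 / 16 * n * (X * B) := by
    have h1 : n ^ 5 * (δ * c1 / 16 * N * s) = (δ * c1 / 16 * n) * (X * s) := by
      rw [hXdef]; ring
    rw [h1]
    exact mul_le_mul_of_nonneg_left (mul_le_mul_of_nonneg_left hsb hX.le) (by positivity)
  have e5 : b * (36 * (N * n ^ 4)) = 36 * δ * (X * B) := by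
    rw [← hXdef, hbB]; ring
  have e0 : c1 * (N * n ^ 5) * (b / 2) = c1 * δ / 2 * n * (X * B) := by
    rw [hbB, hXdef]; ring
  have hXB : 0 < X * B := mul_pos hX hB0
  have key : c1 * δ / 2 * n * (X * B) ≤
      (28800 + 2 ^ 81 + 72 * δ + c1 * δ / 4 * n + 70) * (X * B) := by
    have h := hlow.trans hup
    rw [e0, e5] at h
    have h2 : (28800 + 2 ^ 81 + 72 * δ + c1 * δ / 4 * n + 70) * (X * B) =
        2 * ((14400 * (X * B) + 2 ^ 80 * (X * B)) + (36 * δ * (X * B) +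
        (δ * c1 / 16 * n * (X * B) + δ * c1 / 16 * n * (X * B)))) + 70 * (X * B) := by ring
    rw [h2]
    linarith
  have key2 := le_of_mul_le_mul_right key hXB
  rw [div_lt_iff₀ (by positivity)] at hnC
  linarith

theorem free_small (δ : ℝ) (hδ : 0 < δ) : ∀ᶠ n : ℕ in atTop, ∀ r : ℕ, n ≤ 13 * r → 2 * r ≤ n →
    ((free n r).card : ℝ) ≤ δ * (stables n r).card := by
  classical
  obtain ⟨κ, hκ, hsmall⟩ := few_small (1 / 4) (by norm_num)
  obtain ⟨c1, hc1, hpath⟩ := path_lower κ hκ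
  have hcost := cost_final (δ * c1 / 16) (by positivity)
  set C : ℝ := 72 * δ + 28800 + 2 ^ 81 + 70 with hC
  filter_upwards [hsmall, hpath, hcost, E5_pow, eventually_ge_atTop 52,
    eventually_ge_atTop (⌈8 / δ⌉₊ + 1), eventually_ge_atTop (⌈4 * C / (δ * c1)⌉₊ + 1)]
    with n hsmall hpath hcost hpow hn52 hn8 hnC r hr1 hr2
  specialize hsmall r (by omega) (by omega)
  specialize hpath r hr1 hr2
  specialize hcost r hr1 hr2
  specialize hpow r hr1
  have hr4 : 4 ≤ r := by omega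
  by_contra hcon
  push Not at hcon
  -- notation
  set s : ℝ := ((stables n r).card : ℝ) with hs
  set b : ℝ := ((free n r).card : ℝ) with hb
  set N : ℝ := (n.choose r : ℝ) with hN
  have hnR : (52 : ℝ) ≤ n := by exact_mod_cast hn52
  have hn0 : (0 : ℝ) < n := by linarith
  have hs0 : 0 ≤ s := by rw [hs]; positivity
  have hb0 : 0 < b := lt_of_le_of_lt (by positivity) hcon
  have hfour := E5_four (n := n) (r := r) (by omega) hr2
  rw [← hN] at hfour
  have h42 : (4 : ℝ) ^ r = 2 ^ r * 2 ^ r := by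
    rw [← mul_pow]; norm_num
  -- N is large
  have hN7 : (n : ℝ) ^ 7 ≤ N := by
    have h1 : (n : ℝ) ^ 8 * 1 ≤ 2 ^ r * 2 ^ r :=
      mul_le_mul hpow (one_le_pow₀ (by norm_num)) (by norm_num) (by positivity)
    have h2 : (n : ℝ) * (n : ℝ) ^ 7 ≤ n * N := by
      calc (n : ℝ) * (n : ℝ) ^ 7 = (n : ℝ) ^ 8 * 1 := by ring
        _ ≤ 2 ^ r * 2 ^ r := h1
        _ = 4 ^ r := h42.symm
        _ ≤ n * N := hfour
    exact le_of_mul_le_mul_left h2 hn0
  have hN0 : 0 < N := lt_of_lt_of_le (by positivity) hN7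
  -- `L`
  set L : ℕ := 2 ^ (r + ⌊Real.log n⌋₊) with hL
  have hL1 : 1 ≤ L := Nat.one_le_two_pow
  have hfl := E5_floor (n := n) (by omega)
  have hLR : (L : ℝ) ≤ 2 ^ r * n := by
    rw [hL]
    push_cast
    rw [pow_add]
    exact mul_le_mul_of_nonneg_left hfl (by positivity)
  have hLsq : (L : ℝ) ^ 2 ≤ N * (n : ℝ) ^ 3 := by
    calc (L : ℝ) ^ 2 ≤ (2 ^ r * n) ^ 2 := pow_le_pow_left₀ (by positivity) hLR 2
      _ = (2 ^ r * 2 ^ r) * (n : ℝ) ^ 2 := by ring
      _ = 4 ^ r * (n : ℝ) ^ 2 := by rw [h42]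
      _ ≤ (n * N) * (n : ℝ) ^ 2 := mul_le_mul_of_nonneg_right hfour (by positivity)
      _ = N * (n : ℝ) ^ 3 := by ring
  have hLn : (n : ℝ) ^ 10 * L ≤ N * (n : ℝ) ^ 4 := by
    have h1 : (n : ℝ) * ((n : ℝ) ^ 10 * L) ≤ n * (N * (n : ℝ) ^ 4) := by
      calc (n : ℝ) * ((n : ℝ) ^ 10 * L) ≤ n * ((n : ℝ) ^ 10 * (2 ^ r * n)) := by gcongr
        _ = (n : ℝ) ^ 8 * 2 ^ r * (n : ℝ) ^ 4 := by ring
        _ ≤ 2 ^ r * 2 ^ r * (n : ℝ) ^ 4 := by gcongr
        _ = 4 ^ r * (n : ℝ) ^ 4 := by rw [h42]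
        _ ≤ (n * N) * (n : ℝ) ^ 4 := mul_le_mul_of_nonneg_right hfour (by positivity)
        _ = n * (N * (n : ℝ) ^ 4) := by ring
    exact le_of_mul_le_mul_left h1 hn0
  have hn8N : (n : ℝ) ^ 8 ≤ N * (n : ℝ) ^ 4 := by
    calc (n : ℝ) ^ 8 = (n : ℝ) ^ 4 * (n : ℝ) ^ 4 := by ring
      _ ≤ (n : ℝ) ^ 7 * (n : ℝ) ^ 4 := by
          apply mul_le_mul_of_nonneg_right _ (by positivity)
          exact pow_le_pow_right₀ (by linarith) (by norm_num)
      _ ≤ N * (n : ℝ) ^ 4 := mul_le_mul_of_nonneg_right hN7 (by positivity)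
  -- few small families
  have hlow := stables_lower (n := n) (r := r) (by omega) (by omega)
  rw [← hN, ← hs] at hlow
  have hspos : 0 < s := by
    have h1 : b ≤ s := by
      rw [hb, hs]
      exact_mod_cast Finset.card_le_card (Finset.filter_subset _ _)
    linarith
  have hNn : (n : ℝ) ≤ N / n := by
    rw [le_div_iff₀ hn0]
    calc (n : ℝ) * n = (n : ℝ) ^ 2 := by ring
      _ ≤ (n : ℝ) ^ 7 := pow_le_pow_right₀ (by linarith) (by norm_num)
      _ ≤ N := hN7
  have hsm : Real.exp (1 / 4 * (N / n)) ≤ δ / 2 * s := by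
    have h1 : Real.exp (1 / 2 * (N / n)) ≤ s := by
      rw [← Real.le_log_iff_exp_le hspos]
      refine le_trans ?_ hlow
      have h2 : (1 : ℝ) / 2 ≤ Real.log 2 := by
        have := Real.log_two_gt_d9
        linarith
      have h3 : 0 ≤ N / n := by positivity
      nlinarith
    have h2 : Real.exp (1 / 2 * (N / n)) =
        Real.exp (1 / 4 * (N / n)) * Real.exp (1 / 4 * (N / n)) := by
      rw [← Real.exp_add]; ring_nf
    have h3 : 2 / δ ≤ Real.exp (1 / 4 * (N / n)) := by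
      have h4 : 8 / δ ≤ n := by
        have h5 : ((⌈8 / δ⌉₊ + 1 : ℕ) : ℝ) ≤ n := by exact_mod_cast hn8
        have h6 := Nat.le_ceil (8 / δ)
        push_cast at h5
        linarith
      have h7 := Real.add_one_le_exp (1 / 4 * (N / n))
      have h8 : 8 / δ = 4 * (2 / δ) := by ring
      linarith
    rw [h2] at h1
    have h4 : 0 < Real.exp (1 / 4 * (N / n)) := Real.exp_pos _
    have h5 : 1 ≤ δ / 2 * Real.exp (1 / 4 * (N / n)) := by
      calc (1 : ℝ) = δ / 2 * (2 / δ) := by field_simp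
        _ ≤ _ := mul_le_mul_of_nonneg_left h3 (by positivity)
    calc Real.exp (1 / 4 * (N / n)) ≤
        (δ / 2 * Real.exp (1 / 4 * (N / n))) * Real.exp (1 / 4 * (N / n)) :=
          le_mul_of_one_le_left h4.le h5
      _ = δ / 2 * (Real.exp (1 / 4 * (N / n)) * Real.exp (1 / 4 * (N / n))) := by ring
      _ ≤ δ / 2 * s := mul_le_mul_of_nonneg_left h1 (by positivity)
  -- lower bound for the number of pairs
  have hlower : c1 * (N * (n : ℝ) ^ 5) * (b / 2) ≤
      ((∑ I ∈ free n r, (pth r I).card : ℕ) : ℝ) := by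
    set F1 := (free n r).filter fun I => κ * (N / n) ≤ (I.card : ℝ) with hF1
    have h1 : b / 2 ≤ (F1.card : ℝ) := by
      have h2 : (free n r).card ≤ F1.card +
          ((stables n r).filter fun I => (I.card : ℝ) ≤ κ * (N / n)).card := by
        rw [← Finset.card_filter_add_card_filter_not (s := free n r)
          (fun I => κ * (N / n) ≤ (I.card : ℝ))]
        refine add_le_add le_rfl (Finset.card_le_card ?_)
        intro I hI
        rw [Finset.mem_filter] at hI ⊢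
        exact ⟨(mem_free.mp hI.1).1, (not_le.mp hI.2).le⟩
      have h3 : b ≤ (F1.card : ℝ) +
          (((stables n r).filter fun I => (I.card : ℝ) ≤ κ * (N / n)).card : ℝ) := by
        rw [hb]
        exact_mod_cast h2
      have h4 : (((stables n r).filter fun I => (I.card : ℝ) ≤ κ * (N / n)).card : ℝ) ≤
          δ / 2 * s := hsmall.trans hsm
      linarith
    have hpos : 0 ≤ c1 * (N * (n : ℝ) ^ 5) := by positivity
    calc c1 * (N * (n : ℝ) ^ 5) * (b / 2) ≤ c1 * (N * (n : ℝ) ^ 5) * (F1.card : ℝ) :=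
          mul_le_mul_of_nonneg_left h1 hpos
      _ = ∑ _I ∈ F1, c1 * (N * (n : ℝ) ^ 5) := by
          rw [Finset.sum_const, nsmul_eq_mul, mul_comm]
      _ ≤ ∑ I ∈ F1, ((pth r I).card : ℝ) := by
          refine Finset.sum_le_sum fun I hI => ?_
          rw [hF1, Finset.mem_filter] at hI
          exact hpath I (mem_free.mp hI.1).1 hI.2
      _ ≤ ∑ I ∈ free n r, ((pth r I).card : ℝ) :=
          Finset.sum_le_sum_of_subset_of_nonneg (Finset.filter_subset _ _)
            fun _ _ _ => by positivity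
      _ = _ := by push_cast; rfl
  -- upper bound
  have hup := E5_total (n := n) (r := r) (L := L) hr4 hr2 hL1
  have hup' : ((∑ I ∈ free n r, (pth r I).card : ℕ) : ℝ) ≤
      2 * ((14400 * ((L : ℝ) ^ 2 * s) + 2 ^ 80 * ((n : ℝ) ^ 10 * (L * s))) +
      (b * (36 * (N * (n : ℝ) ^ 4)) +
      ((n : ℝ) ^ 5 * (δ * c1 / 16 * N * s) + (n : ℝ) ^ 5 * (δ * c1 / 16 * N * s)))) +
      70 * ((n : ℝ) ^ 8 * s) := by
    have h1 : ((∑ I ∈ free n r, (pth r I).card : ℕ) : ℝ) ≤ _ := Nat.cast_le.mpr hup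
    refine h1.trans ?_
    push_cast
    rw [← hs, ← hb, ← hN]
    have h2 : (n : ℝ) ^ 5 * (((stables n r ×ˢ Base n r).filter fun p =>
        p.2 ∉ p.1 ∧ L < Lam r p.1 p.2).card : ℝ) ≤ (n : ℝ) ^ 5 * (δ * c1 / 16 * N * s) :=
      mul_le_mul_of_nonneg_left hcost (by positivity)
    linarith
  have hnC' : 4 * C / (δ * c1) < n := by
    have h5 : ((⌈4 * C / (δ * c1)⌉₊ + 1 : ℕ) : ℝ) ≤ n := by exact_mod_cast hnC
    have h6 := Nat.le_ceil (4 * C / (δ * c1))
    push_cast at h5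
    linarith
  exact E5_num hδ hc1 (by linarith) hN0 hb0 (by positivity) hcon hLsq hLn hn8N hs0 hlower hup' hnC'

end Pool.Agent.H8.VM
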