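import Pool.Agent.H8.VM.E5_Labelled
import Pool.Agent.H8.VM.B6_Dual
import Pool.Agent.H28.V8

/-! MODULE F1 (part of F) (about 150 lines). Translation to matroids.

`hasV8_pat`: `mem_cells` and `Pool.Agent.H28.V8.hasV8_of_loc` (`Cell.at` is `loc` by definition).
`hasV8_pat_dual`: `Pool.Agent.H28.V8.hasV8_of_dual_pattern` with the identity permutation: for
`(Y, φ) = c`, `nb r (dual) cap T0 Y φ = P0 Y φ` is exactly `Pat`
(`T0 Y φ` = image of the 4-subsets of `Fin 8` under `loc Y φ`, `P0 Y φ` = image of `patt`, `loc` is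
injective, `Pool.Agent.H28.V8.loc_inj`; `wnd X 1 = X`).
`matroid_small`: if `2r <= n`: `Pool.Agent.H28.SPMatroid.card_SP_filter` with
`Q = not HasPat r` turns `free_small` into the statement for `not HasPat r (nb r M)`, and
`not HasV8 M` implies `not HasPat r (nb r M)` by `hasV8_pat`. If `2r > n` apply this to
`r' = n - r` (`n <= 13 r'`, `2 r' <= n`) and the bijection `M -> dual M` between `SP r` and
`SP (n-r)` (`Pool.Agent.H28.V8.SP.dual`, `Matroid.dual_dual`), with `hasV8_pat_dual`. See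
`Pool.Agent.H28.V8.card_noV8_le` and `card_noV8_le_dual` for the same computations. -/

open scoped BigOperators
open Filter

namespace Pool.Agent.H8.VM

open Pool.Agent.H28.Johnson Pool.Agent.H28.KW Pool.Agent.H28.Windows Pool.Agent.H28.SPMatroid
  Pool.Agent.H28.V8

theorem hasV8_pat {n r : ℕ} {M : Matroid (Fin n)} (hM : SP r M) (h : HasPat r (nb r M)) :
    HasV8 M := by
  obtain ⟨c, hc, hp⟩ := h
  rw [mem_cells] at hc
  exact hasV8_of_loc hM hc.2 hc.1 hp

theorem hasV8_pat_dual {n r : ℕ} {M : Matroid (Fin n)} (hM : SP (n - r) M) (hr4 : r + 4 ≤ n)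
    (h : HasPat r (nb r M✶)) : HasV8 M := by
  classical
  obtain ⟨c, hc, hp⟩ := h
  rw [mem_cells] at hc
  have hw : ∀ X : Finset (Finset (Fin n)), wnd X (1 : Equiv.Perm (Fin n)) = X := by
    intro X
    ext t
    have hone : act (1 : Equiv.Perm (Fin n)) t = t := by
      rw [act_apply]
      ext a
      simp only [Finset.mem_map, Equiv.coe_toEmbedding, Equiv.Perm.coe_one, id_eq,
        exists_eq_right]
    have := act_mem_wnd (X := X) (π := (1 : Equiv.Perm (Fin n))) (t := t)
    rw [hone] at this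
    exact this
  refine hasV8_of_dual_pattern hM hr4 hc.2 hc.1 1 ?_
  rw [hw, hw]
  ext S
  rw [Finset.mem_inter, T0, P0, Finset.mem_image, Finset.mem_image]
  constructor
  · rintro ⟨h1, Q, hQ, rfl⟩
    exact ⟨Q, (hp Q (Finset.mem_powersetCard.mp hQ).2).mp h1, rfl⟩
  · rintro ⟨Q, hQ, rfl⟩
    exact ⟨(hp Q (patt_card Q hQ)).mpr hQ, Q, Finset.mem_powersetCard.mpr
      ⟨Finset.subset_univ _, patt_card Q hQ⟩, rfl⟩

end Pool.Agent.H8.VM
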