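import Pool.Agent.H8.VM.E5_Labelled
import Pool.Agent.H8.VM.B6_Dual
import Pool.Agent.H28.V8
import Pool.Agent.H8.VM.F1_Pat

/-! MODULE F2 (part of F) (about 150 lines). Translation to matroids.

`hasV8_pat`: `mem_cells` and `Pool.Agent.H28.V8.hasV8_of_loc` (`Cell.at` is `loc` by definition).
`hasV8_pat_dual`: `Pool.Agent.H28.V8.hasV8_of_dual_pattern` with the identity permutation: for
`(Y, φ) = c`, `nb r (dual) cap T0 Y φ = P0 Y φ` is exactly `Pat`
(`T0 Y φ` = image of the 4-subsets of `Fin 8` under `loc Y φ`, `P0 Y φ` = image of `patt`, `loc` is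
injective, `Pool.Agent.H28.V8.loc_inj`; `wnd X 1 = X`).
`matroid_small`: if `2r <= n`: `Pool.Agent.H28.SPMatroid.card_SP_filter` with
`Q = not HasPat r` turns `free_small` into the statement for `not HasPat r (nb r M)`, and
`not HasV8 M` implies `not HasPat r (nb r M)` by `hasV8_pat`. If `2r > n` apply this to
`r' = n - r` (`n <= 13 r'`, `2 r' <= n`) and the bijection `M -> dual M` between `SP r` and
`SP (n-r)` (`Pool.Agent.H28.V8.SP.dual`, `Matroid.dual_dual`), with `hasV8_pat_dual`. See
`Pool.Agent.H28.V8.card_noV8_le` and `card_noV8_le_dual` for the same computations. -/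

open scoped BigOperators
open Filter

namespace Pool.Agent.H8.VM

open Pool.Agent.H28.Johnson Pool.Agent.H28.KW Pool.Agent.H28.Windows Pool.Agent.H28.SPMatroid
  Pool.Agent.H28.V8

private lemma card_noPat {n r : ℕ} (hr : 1 ≤ r) (hrn : r < n) :
    Nat.card {M : Matroid (Fin n) // SP r M ∧ ¬ HasPat r (nb r M)} = (free n r).card := by
  refine (card_SP_filter hr hrn (fun I => ¬ HasPat r I)).trans ?_
  congr 1
  ext I
  rw [mem_free, @Finset.mem_filter _ _ (_)]

private lemma card_all {n r : ℕ} (hr : 1 ≤ r) (hrn : r < n) :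
    Nat.card {M : Matroid (Fin n) // SP r M} = (stables n r).card := by
  classical
  have := card_SP_filter (n := n) (r := r) hr hrn (fun _ => True)
  simp only [and_true, Finset.filter_true] at this
  convert this using 1

theorem matroid_small (δ : ℝ) (hδ : 0 < δ) : ∀ᶠ n : ℕ in atTop, ∀ r : ℕ, n ≤ 13 * r →
    13 * r ≤ 12 * n →
    (Nat.card {M : Matroid (Fin n) // SP r M ∧ ¬ HasV8 M} : ℝ) ≤
      δ * (Nat.card {M : Matroid (Fin n) // SP r M} : ℝ) := by
  classical
  filter_upwards [free_small δ hδ, eventually_ge_atTop 100] with n hn hn100 r h1 h2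
  by_cases h : 2 * r ≤ n
  · have hr1 : 1 ≤ r := by omega
    have hrn : r < n := by omega
    rw [card_all hr1 hrn]
    refine le_trans ?_ (hn r h1 h)
    rw [← card_noPat hr1 hrn]
    have hle : Nat.card {M : Matroid (Fin n) // SP r M ∧ ¬ HasV8 M} ≤
        Nat.card {M : Matroid (Fin n) // SP r M ∧ ¬ HasPat r (nb r M)} := by
      apply Nat.card_le_card_of_injective
        (fun M : {M : Matroid (Fin n) // SP r M ∧ ¬ HasV8 M} =>
          (⟨M.1, M.2.1, fun hp => M.2.2 (hasV8_pat M.2.1 hp)⟩ :
            {M : Matroid (Fin n) // SP r M ∧ ¬ HasPat r (nb r M)}))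
      intro A B h
      simp only [Subtype.mk.injEq] at h
      exact Subtype.ext h
    exact Nat.cast_le.mpr hle
  · obtain ⟨r', hr'⟩ : ∃ r', r' = n - r := ⟨_, rfl⟩
    have hr1 : 1 ≤ r' := by omega
    have hrn : r' < n := by omega
    have hr4 : r' + 4 ≤ n := by omega
    have hrr : n - r' = r := by omega
    have hnr : n - r = r' := by omega
    have hdu : ∀ M : Matroid (Fin n), SP r M → SP r' M✶ := by
      intro M hM
      have := SP.dual hM
      rwa [hnr] at this
    have hdu' : ∀ M : Matroid (Fin n), SP r' M → SP r M✶ := by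
      intro M hM
      have := SP.dual hM
      rwa [hrr] at this
    have htot : Nat.card {M : Matroid (Fin n) // SP r M} =
        Nat.card {M : Matroid (Fin n) // SP r' M} := by
      refine Nat.card_congr ⟨fun M => ⟨M.1✶, hdu M.1 M.2⟩, fun M => ⟨M.1✶, hdu' M.1 M.2⟩, ?_, ?_⟩
      · intro M; exact Subtype.ext (Matroid.dual_dual _)
      · intro M; exact Subtype.ext (Matroid.dual_dual _)
    rw [htot, card_all hr1 hrn]
    refine le_trans ?_ (hn r' (by omega) (by omega))
    rw [← card_noPat hr1 hrn]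
    have hle : Nat.card {M : Matroid (Fin n) // SP r M ∧ ¬ HasV8 M} ≤
        Nat.card {M : Matroid (Fin n) // SP r' M ∧ ¬ HasPat r' (nb r' M)} := by
      apply Nat.card_le_card_of_injective
        (fun M : {M : Matroid (Fin n) // SP r M ∧ ¬ HasV8 M} =>
          (⟨M.1✶, hdu M.1 M.2.1, fun hp => M.2.2 (hasV8_pat_dual (r := r')
            (by rw [hrr]; exact M.2.1) hr4 hp)⟩ :
            {M : Matroid (Fin n) // SP r' M ∧ ¬ HasPat r' (nb r' M)}))
      intro A B h
      simp only [Subtype.mk.injEq] at h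
      exact Subtype.ext (Matroid.dual_injective h)
    exact Nat.cast_le.mpr hle

end Pool.Agent.H8.VM
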