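import Pool.Agent.H8.VM.F1_Pat
import Pool.Agent.H8.VM.F2_Small

/-! Collects the parts of F_Matroid. -/
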