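import Pool.Agent.H8.VM.GDefs

/-! MODULE G0 (about 100 lines). Twin families are pairs of stable families on `n - 2` points.

Choose an embedding `ι : Fin m ↪ Fin (m+2)` whose range is the complement of `{a, b}` (that
complement has `m` elements, e.g. `Finset.equivFinOfCardEq`). Map `I` to the pair
`J1 = {S in Base m k : S.map ι cup {a, b} in I}`, `J2 = {S in Base m (k+2) : S.map ι in I}`. Both
are stable (`map ι` preserves intersections; adding `a, b` to both sets adds 2 to the cardinality
of the intersection). The map is injective on twin families: every member of `I` contains both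
`a, b` or none of them, so it is `S.map ι cup {a, b}` or `S.map ι`. -/

open scoped BigOperators

namespace Pool.Agent.H8.VM

open Pool.Agent.H28.Johnson Pool.Agent.H28.KW Pool.Agent.H28.Windows

theorem card_twin {m k : ℕ} {a b : Fin (m + 2)} (hab : a ≠ b) :
    (twin (k + 2) a b).card ≤ (stables m k).card * (stables m (k + 2)).card := by
  classical
  have hC : (({a, b} : Finset (Fin (m + 2)))ᶜ).card = m := by
    rw [Finset.card_compl, Finset.card_pair hab, Fintype.card_fin]; omega
  obtain ⟨ι, hι⟩ : ∃ ι : Fin m ↪ Fin (m + 2), ∀ x, (∃ i, ι i = x) ↔ x ≠ a ∧ x ≠ b := by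
    refine ⟨((({a, b} : Finset (Fin (m + 2)))ᶜ).orderEmbOfFin hC).toEmbedding, ?_⟩
    intro x
    have h := Finset.range_orderEmbOfFin _ hC
    have h2 : x ∈ Set.range ((({a, b} : Finset (Fin (m + 2)))ᶜ).orderEmbOfFin hC) ↔
        x ∈ ((({a, b} : Finset (Fin (m + 2)))ᶜ : Finset (Fin (m + 2))) : Set (Fin (m + 2))) := by
      rw [h]
    rw [Set.mem_range] at h2
    simp only [Finset.coe_compl, Finset.coe_insert, Finset.coe_singleton, Set.mem_compl_iff,
      Set.mem_insert_iff, Set.mem_singleton_iff, not_or] at h2
    exact h2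
  have hιa : ∀ S : Finset (Fin m), a ∉ S.map ι := by
    intro S h
    obtain ⟨i, -, hi⟩ := Finset.mem_map.mp h
    exact ((hι a).mp ⟨i, hi⟩).1 rfl
  have hιb : ∀ S : Finset (Fin m), b ∉ S.map ι := by
    intro S h
    obtain ⟨i, -, hi⟩ := Finset.mem_map.mp h
    exact ((hι b).mp ⟨i, hi⟩).2 rfl
  -- the set `S.map ι ∪ {a, b}`
  have hbS : ∀ S : Finset (Fin m), a ∉ insert b (S.map ι) := by
    intro S h
    rcases Finset.mem_insert.mp h with h | h
    · exact hab h
    · exact hιa S h
  have hcard : ∀ S : Finset (Fin m), (insert a (insert b (S.map ι))).card = S.card + 2 := by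
    intro S
    rw [Finset.card_insert_of_notMem (hbS S), Finset.card_insert_of_notMem (hιb S),
      Finset.card_map]
  have hinter : ∀ S T : Finset (Fin m), insert a (insert b (S.map ι)) ∩
      insert a (insert b (T.map ι)) = insert a (insert b ((S ∩ T).map ι)) := by
    intro S T
    rw [Finset.map_inter]
    ext x
    simp only [Finset.mem_inter, Finset.mem_insert]
    tauto
  have hinj : ∀ S T : Finset (Fin m), insert a (insert b (S.map ι)) =
      insert a (insert b (T.map ι)) → S = T := by
    intro S T h
    have h1 : ∀ U : Finset (Fin m), ((insert a (insert b (U.map ι))).erase a).erase b =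
        U.map ι := by
      intro U
      rw [Finset.erase_insert (hbS U), Finset.erase_insert (hιb U)]
    have h2 : S.map ι = T.map ι := by rw [← h1 S, ← h1 T, h]
    exact Finset.map_injective ι h2
  have hpre : ∀ S : Finset (Fin (m + 2)), ((Finset.univ.filter fun i => ι i ∈ S).map ι) =
      (S.erase a).erase b := by
    intro S
    ext x
    simp only [Finset.mem_map, Finset.mem_filter, Finset.mem_univ, true_and, Finset.mem_erase]
    constructor
    · rintro ⟨i, hi, rfl⟩
      have := (hι (ι i)).mp ⟨i, rfl⟩
      exact ⟨this.2, this.1, hi⟩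
    · rintro ⟨hxb, hxa, hx⟩
      obtain ⟨i, hi⟩ := (hι x).mpr ⟨hxa, hxb⟩
      exact ⟨i, by rw [hi]; exact hx, hi⟩
  rw [← Finset.card_product]
  refine Finset.card_le_card_of_injOn (fun I =>
    ((Base m k).filter (fun S => insert a (insert b (S.map ι)) ∈ I),
      (Base m (k + 2)).filter (fun S => S.map ι ∈ I))) ?_ ?_
  · intro I hI
    obtain ⟨hI, -⟩ := mem_twin.mp (Finset.mem_coe.mp hI)
    rw [mem_stables] at hI
    simp only [Finset.coe_product, Set.mem_prod, Finset.mem_coe]
    constructor
    · rw [mem_stables]
      refine ⟨Finset.filter_subset _ _, ?_⟩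
      intro S hS T hT hadj
      rw [Finset.mem_filter] at hS hT
      refine hI.2 _ hS.2 _ hT.2 ⟨fun h => hadj.1 (hinj S T h), ?_⟩
      rw [hinter, hcard]
      have := hadj.2
      omega
    · rw [mem_stables]
      refine ⟨Finset.filter_subset _ _, ?_⟩
      intro S hS T hT hadj
      rw [Finset.mem_filter] at hS hT
      refine hI.2 _ hS.2 _ hT.2 ⟨fun h => hadj.1 (Finset.map_injective ι h), ?_⟩
      rw [← Finset.map_inter, Finset.card_map]
      exact hadj.2
  · -- injectivity
    have key : ∀ I ∈ twin (k + 2) a b, ∀ I' ∈ twin (k + 2) a b,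
        ((Base m k).filter (fun S => insert a (insert b (S.map ι)) ∈ I)) =
          ((Base m k).filter (fun S => insert a (insert b (S.map ι)) ∈ I')) →
        ((Base m (k + 2)).filter (fun S => S.map ι ∈ I)) =
          ((Base m (k + 2)).filter (fun S => S.map ι ∈ I')) → I ⊆ I' := by
      intro I hI I' _ h1 h2 S hS
      obtain ⟨hI, htw⟩ := mem_twin.mp hI
      rw [mem_stables] at hI
      have hSc : S.card = k + 2 := mem_Base.mp (hI.1 hS)
      by_cases ha : a ∈ S
      · have hb : b ∈ S := (htw S hS).mp ha
        have hb' : b ∈ S.erase a := Finset.mem_erase.mpr ⟨hab.symm, hb⟩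
        have e1 : insert a (insert b ((Finset.univ.filter fun i => ι i ∈ S).map ι)) = S := by
          rw [hpre, Finset.insert_erase hb', Finset.insert_erase ha]
        have e2 : (Finset.univ.filter fun i => ι i ∈ S) ∈
            (Base m k).filter (fun S => insert a (insert b (S.map ι)) ∈ I) := by
          rw [Finset.mem_filter, mem_Base, e1]
          refine ⟨?_, hS⟩
          have := hcard (Finset.univ.filter fun i => ι i ∈ S)
          rw [e1] at this
          omega
        rw [h1, Finset.mem_filter, e1] at e2
        exact e2.2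
      · have hb : b ∉ S := fun h => ha ((htw S hS).mpr h)
        have e1 : (Finset.univ.filter fun i => ι i ∈ S).map ι = S := by
          rw [hpre, Finset.erase_eq_of_notMem ha, Finset.erase_eq_of_notMem hb]
        have e2 : (Finset.univ.filter fun i => ι i ∈ S) ∈
            (Base m (k + 2)).filter (fun S => S.map ι ∈ I) := by
          rw [Finset.mem_filter, mem_Base, e1]
          refine ⟨?_, hS⟩
          rw [← Finset.card_map ι, e1, hSc]
        rw [h2, Finset.mem_filter, e1] at e2
        exact e2.2
    intro I hI I' hI' h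
    simp only [Prod.mk.injEq] at h
    exact Finset.Subset.antisymm (key I hI I' hI' h.1 h.2) (key I' hI' I hI h.1.symm h.2.symm)

end Pool.Agent.H8.VM
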