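import Pool.Agent.H8.VM.GDefs

/-! MODULE G1 (about 200 lines). Pairs with many available sets can be extended in many ways.

Let `ι = Fin.castAdd 2 : Fin m ↪ Fin (m+2)` (as an embedding), `a`, `b` the two last points. To
`(J1, J2)` and a set `X` of available `A` (elements of `availB k J1 cap availN k J2`) associate
`I = {S.map ι + a + b : S in J1} cup {S.map ι : S in J2} cup {A.map ι + a : A in X}`.
All members have `k + 2` elements. Two members of the three kinds are never adjacent
(adjacent iff the intersection has `k+1` elements), provided `X` is contained in one class of the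
colouring below:
* kind 1 / kind 1, kind 2 / kind 2: stability of `J1`, `J2`;
* kind 1 / kind 2: the intersection lies in `S'.map ι` and has at most `k` elements;
* kind 1 / kind 3: `|S cap A| + 1 <= k` as `S` is not contained in `A`;
* kind 2 / kind 3: `|S cap A| <= k` as `A` (with `k+1` elements) is not contained in `S`;
* kind 3 / kind 3: colour `A` by the sum of its elements in `ZMod (m+2)` (or `Fin (m+2)`); if
  `A <> A'` have the same colour then `|A cap A'| <= k - 1` (if `|A cap A'| = k` then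
  `A = C + x`, `A' = C + y`, so `x = y` mod `m + 2`), hence `|A.map ι + a cap ...| <= k`.
Some colour class of the available sets has at least `t/(m+2)` (natural number division) elements
(`Finset.exists_le_card_fiber_of_mul_le_card_of_maps_to`); choose one class `c(J1, J2)` for each
pair, and let `X` run over its subsets: at least `2^(t/(m+2))`. The map `(J1, J2, X) -> I` is
injective: `J1`, `J2`, `X` are read off from the members containing `a` and `b`, none of them,
`a` only. -/

open scoped BigOperators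

namespace Pool.Agent.H8.VM

open Pool.Agent.H28.Johnson Pool.Agent.H28.KW Pool.Agent.H28.Windows

private def g1A {m : ℕ} (ι : Fin m ↪ Fin (m + 2)) (a b : Fin (m + 2)) (S : Finset (Fin m)) :
    Finset (Fin (m + 2)) := insert a (insert b (S.map ι))

private def g1B {m : ℕ} (ι : Fin m ↪ Fin (m + 2)) (S : Finset (Fin m)) :
    Finset (Fin (m + 2)) := S.map ι

private def g1C {m : ℕ} (ι : Fin m ↪ Fin (m + 2)) (a : Fin (m + 2)) (S : Finset (Fin m)) :
    Finset (Fin (m + 2)) := insert a (S.map ι)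

open Classical in
private noncomputable def g1F {m : ℕ} (ι : Fin m ↪ Fin (m + 2)) (a b : Fin (m + 2))
    (J1 J2 X : Finset (Finset (Fin m))) : Finset (Finset (Fin (m + 2))) :=
  J1.image (g1A ι a b) ∪ J2.image (g1B ι) ∪ X.image (g1C ι a)

section

variable {m : ℕ} {ι : Fin m ↪ Fin (m + 2)} {a b : Fin (m + 2)}

private lemma g1_mem {J1 J2 X : Finset (Finset (Fin m))} {W : Finset (Fin (m + 2))} :
    W ∈ g1F ι a b J1 J2 X ↔ (∃ S ∈ J1, g1A ι a b S = W) ∨ (∃ S ∈ J2, g1B ι S = W) ∨
      (∃ S ∈ X, g1C ι a S = W) := by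
  classical
  rw [g1F, Finset.mem_union, Finset.mem_union, Finset.mem_image, Finset.mem_image,
    Finset.mem_image, or_assoc]

variable (ha : ∀ x, ι x ≠ a) (hb : ∀ x, ι x ≠ b) (hab : a ≠ b)

include ha

private lemma g1_a (S : Finset (Fin m)) : a ∉ S.map ι := by
  intro h
  obtain ⟨x, -, hx⟩ := Finset.mem_map.1 h
  exact ha x hx

include hb

private lemma g1A_mem (S : Finset (Fin m)) (x : Fin m) : ι x ∈ g1A ι a b S ↔ x ∈ S := by
  rw [g1A, Finset.mem_insert, Finset.mem_insert, Finset.mem_map']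
  constructor
  · rintro (h | h | h)
    · exact absurd h (ha x)
    · exact absurd h (hb x)
    · exact h
  · exact fun h => Or.inr (Or.inr h)

private lemma g1A_inj : Function.Injective (g1A ι a b) := by
  intro S T h
  ext x
  rw [← g1A_mem ha hb S x, h, g1A_mem ha hb T x]

omit hb in
private lemma g1C_mem (S : Finset (Fin m)) (x : Fin m) : ι x ∈ g1C ι a S ↔ x ∈ S := by
  rw [g1C, Finset.mem_insert, Finset.mem_map']
  constructor
  · rintro (h | h)
    · exact absurd h (ha x)
    · exact h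
  · exact fun h => Or.inr h

omit hb in
private lemma g1C_inj : Function.Injective (g1C ι a) := by
  intro S T h
  ext x
  rw [← g1C_mem ha S x, h, g1C_mem ha T x]

include hab

private lemma g1A_card (S : Finset (Fin m)) : (g1A ι a b S).card = S.card + 2 := by
  rw [g1A, Finset.card_insert_of_notMem, Finset.card_insert_of_notMem (g1_a hb S),
    Finset.card_map]
  rw [Finset.mem_insert]
  rintro (h | h)
  · exact hab h
  · exact g1_a ha S h

omit hb hab in
private lemma g1C_card (S : Finset (Fin m)) : (g1C ι a S).card = S.card + 1 := by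
  rw [g1C, Finset.card_insert_of_notMem (g1_a ha S), Finset.card_map]

private lemma g1AA (S T : Finset (Fin m)) :
    (g1A ι a b S ∩ g1A ι a b T).card = (S ∩ T).card + 2 := by
  rw [← g1A_card ha hb hab (S ∩ T)]
  congr 1
  simp only [g1A]
  rw [Finset.map_inter, Finset.insert_inter_distrib, Finset.insert_inter_distrib]

omit hab in
private lemma g1AB (S T : Finset (Fin m)) :
    (g1A ι a b S ∩ g1B ι T).card = (S ∩ T).card := by
  rw [← Finset.card_map ι]
  congr 1
  simp only [g1A, g1B]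
  rw [Finset.insert_inter_of_notMem (g1_a ha T), Finset.insert_inter_of_notMem (g1_a hb T),
    Finset.map_inter]

omit hab in
private lemma g1AC (S T : Finset (Fin m)) :
    (g1A ι a b S ∩ g1C ι a T).card = (S ∩ T).card + 1 := by
  rw [← g1C_card ha (S ∩ T)]
  congr 1
  simp only [g1A, g1C]
  rw [← Finset.insert_inter_distrib, Finset.insert_inter_of_notMem (g1_a hb T),
    Finset.map_inter]

omit hb hab in
private lemma g1BC (S T : Finset (Fin m)) :
    (g1B ι S ∩ g1C ι a T).card = (S ∩ T).card := by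
  rw [← Finset.card_map ι]
  congr 1
  simp only [g1B, g1C]
  rw [Finset.inter_insert_of_notMem (g1_a ha S), Finset.map_inter]

omit hb hab in
private lemma g1CC (S T : Finset (Fin m)) :
    (g1C ι a S ∩ g1C ι a T).card = (S ∩ T).card + 1 := by
  rw [← g1C_card ha (S ∩ T)]
  congr 1
  simp only [g1C]
  rw [Finset.map_inter, Finset.insert_inter_distrib]

omit ha hb hab in
private lemma g1BB (S T : Finset (Fin m)) :
    (g1B ι S ∩ g1B ι T).card = (S ∩ T).card := by
  rw [← Finset.card_map ι]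
  congr 1
  simp only [g1B]
  rw [Finset.map_inter]

private lemma g1_memA {J1 J2 X : Finset (Finset (Fin m))} {S : Finset (Fin m)} :
    g1A ι a b S ∈ g1F ι a b J1 J2 X ↔ S ∈ J1 := by
  have hbm : b ∈ g1A ι a b S := by simp [g1A]
  rw [g1_mem]
  constructor
  · rintro (⟨T, hT, h⟩ | ⟨T, hT, h⟩ | ⟨T, hT, h⟩)
    · rwa [← g1A_inj ha hb h]
    · rw [← h, g1B] at hbm
      exact absurd hbm (g1_a hb T)
    · rw [← h, g1C, Finset.mem_insert] at hbm
      rcases hbm with hbm | hbm
      · exact absurd hbm.symm hab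
      · exact absurd hbm (g1_a hb T)
  · exact fun h => Or.inl ⟨S, h, rfl⟩

omit hb hab in
private lemma g1_memB {J1 J2 X : Finset (Finset (Fin m))} {S : Finset (Fin m)} :
    g1B ι S ∈ g1F ι a b J1 J2 X ↔ S ∈ J2 := by
  have hbm : a ∉ g1B ι S := g1_a ha S
  rw [g1_mem]
  constructor
  · rintro (⟨T, hT, h⟩ | ⟨T, hT, h⟩ | ⟨T, hT, h⟩)
    · rw [← h, g1A] at hbm
      exact absurd (Finset.mem_insert_self _ _) hbm
    · rw [← Finset.map_injective ι h]
      exact hT
    · rw [← h, g1C] at hbm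
      exact absurd (Finset.mem_insert_self _ _) hbm
  · exact fun h => Or.inr (Or.inl ⟨S, h, rfl⟩)

private lemma g1_memC {J1 J2 X : Finset (Finset (Fin m))} {S : Finset (Fin m)} :
    g1C ι a S ∈ g1F ι a b J1 J2 X ↔ S ∈ X := by
  have h1 : a ∈ g1C ι a S := by simp [g1C]
  have h2 : b ∉ g1C ι a S := by
    rw [g1C, Finset.mem_insert]
    rintro (h | h)
    · exact hab h.symm
    · exact g1_a hb S h
  rw [g1_mem]
  constructor
  · rintro (⟨T, hT, h⟩ | ⟨T, hT, h⟩ | ⟨T, hT, h⟩)
    · rw [← h] at h2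
      exact absurd (by simp [g1A]) h2
    · rw [← h] at h1
      exact absurd h1 (g1_a ha T)
    · rw [← g1C_inj ha h]
      exact hT
  · exact fun h => Or.inr (Or.inr ⟨S, h, rfl⟩)

end

private lemma g1_colour {m k : ℕ} {A B : Finset (Fin m)} (hA : A.card = k + 1)
    (hB : B.card = k + 1) (hne : A ≠ B)
    (hc : (∑ x ∈ A, (x : ℕ)) % (m + 2) = (∑ x ∈ B, (x : ℕ)) % (m + 2)) : (A ∩ B).card < k := by
  by_contra hcon
  push Not at hcon
  have h1 : (A ∩ B).card = k := by
    by_contra h
    have h2 : (A ∩ B).card ≤ A.card := Finset.card_le_card Finset.inter_subset_left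
    have h3 : (A ∩ B).card = k + 1 := by omega
    have h4 : A ∩ B = A := Finset.eq_of_subset_of_card_le Finset.inter_subset_left (by omega)
    have h5 : A ∩ B = B := Finset.eq_of_subset_of_card_le Finset.inter_subset_right (by omega)
    exact hne (h4.symm.trans h5)
  have h2 : (A \ B).card = 1 := by
    have := Finset.card_sdiff_add_card_inter A B
    omega
  have h3 : (B \ A).card = 1 := by
    have := Finset.card_sdiff_add_card_inter B A
    rw [Finset.inter_comm] at this
    omega
  obtain ⟨x, hx⟩ := Finset.card_eq_one.mp h2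
  obtain ⟨y, hy⟩ := Finset.card_eq_one.mp h3
  have hxm : x ∈ A \ B := by rw [hx]; exact Finset.mem_singleton_self x
  have hym : y ∈ B \ A := by rw [hy]; exact Finset.mem_singleton_self y
  have e1 : (∑ z ∈ A, (z : ℕ)) = (x : ℕ) + ∑ z ∈ A ∩ B, (z : ℕ) := by
    rw [← Finset.sum_sdiff (Finset.inter_subset_left : A ∩ B ⊆ A), Finset.sdiff_inter_self_left,
      hx, Finset.sum_singleton]
  have e2 : (∑ z ∈ B, (z : ℕ)) = (y : ℕ) + ∑ z ∈ A ∩ B, (z : ℕ) := by
    rw [← Finset.sum_sdiff (Finset.inter_subset_right : A ∩ B ⊆ B), Finset.sdiff_inter_self_right,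
      hy, Finset.sum_singleton]
  rw [e1, e2] at hc
  have hmod : (x : ℕ) ≡ y [MOD (m + 2)] := Nat.ModEq.add_right_cancel' _ hc
  have hxy : (x : ℕ) = y := by
    have h6 := hmod
    rw [Nat.ModEq, Nat.mod_eq_of_lt (by omega), Nat.mod_eq_of_lt (by omega)] at h6
    exact h6
  have hxy' : x = y := Fin.ext hxy
  rw [Finset.mem_sdiff] at hxm hym
  rw [hxy'] at hxm
  exact hym.2 hxm.1

private lemma g1_stable {m k : ℕ} {ι : Fin m ↪ Fin (m + 2)} {a b : Fin (m + 2)}
    (ha : ∀ x, ι x ≠ a) (hb : ∀ x, ι x ≠ b) (hab : a ≠ b)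
    {J1 J2 X : Finset (Finset (Fin m))} (h1 : J1 ∈ stables m k) (h2 : J2 ∈ stables m (k + 2))
    (hX1 : X ⊆ availB k J1) (hX2 : X ⊆ availN k J2)
    (hX : ∀ A ∈ X, ∀ B ∈ X, A ≠ B → (A ∩ B).card < k) :
    g1F ι a b J1 J2 X ∈ stables (m + 2) (k + 2) := by
  rw [mem_stables] at h1 h2 ⊢
  have hc1 : ∀ S ∈ J1, S.card = k := fun S hS => mem_Base.1 (h1.1 hS)
  have hc2 : ∀ S ∈ J2, S.card = k + 2 := fun S hS => mem_Base.1 (h2.1 hS)
  have hc3 : ∀ S ∈ X, S.card = k + 1 := fun S hS => mem_Base.1 (mem_availB.1 (hX1 hS)).1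
  constructor
  · intro W hW
    rw [g1_mem] at hW
    rw [mem_Base]
    rcases hW with ⟨S, hS, rfl⟩ | ⟨S, hS, rfl⟩ | ⟨S, hS, rfl⟩
    · rw [g1A_card ha hb hab, hc1 S hS]
    · rw [g1B, Finset.card_map, hc2 S hS]
    · rw [g1C_card ha, hc3 S hS]
  -- the four asymmetric comparisons
  have cAB : ∀ S ∈ J1, ∀ T ∈ J2, ¬ adj (k + 2) (g1A ι a b S) (g1B ι T) := by
    rintro S hS T hT ⟨-, h⟩
    rw [g1AB ha hb] at h
    have h3 : (S ∩ T).card ≤ S.card := Finset.card_le_card Finset.inter_subset_left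
    have := hc1 S hS
    omega
  have cAC : ∀ S ∈ J1, ∀ T ∈ X, ¬ adj (k + 2) (g1A ι a b S) (g1C ι a T) := by
    rintro S hS T hT ⟨-, h⟩
    rw [g1AC ha hb] at h
    have h3 : (S ∩ T).card < S.card := by
      refine Finset.card_lt_card ⟨Finset.inter_subset_left, fun h4 => ?_⟩
      exact (mem_availB.1 (hX1 hT)).2 S hS (fun x hx => (Finset.mem_inter.1 (h4 hx)).2)
    have := hc1 S hS
    omega
  have cBC : ∀ S ∈ J2, ∀ T ∈ X, ¬ adj (k + 2) (g1B ι S) (g1C ι a T) := by
    rintro S hS T hT ⟨-, h⟩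
    rw [g1BC ha] at h
    have h3 : (S ∩ T).card < T.card := by
      refine Finset.card_lt_card ⟨Finset.inter_subset_right, fun h4 => ?_⟩
      exact (mem_availN.1 (hX2 hT)).2 S hS (fun x hx => (Finset.mem_inter.1 (h4 hx)).1)
    have := hc3 T hT
    omega
  intro U hU V hV
  rw [g1_mem] at hU hV
  rcases hU with ⟨S, hS, rfl⟩ | ⟨S, hS, rfl⟩ | ⟨S, hS, rfl⟩ <;>
    rcases hV with ⟨T, hT, rfl⟩ | ⟨T, hT, rfl⟩ | ⟨T, hT, rfl⟩
  · rintro ⟨hne, h⟩
    rw [g1AA ha hb hab] at h
    have hne' : S ≠ T := fun h' => hne (by rw [h'])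
    exact h1.2 S hS T hT ⟨hne', by omega⟩
  · exact cAB S hS T hT
  · exact cAC S hS T hT
  · exact fun h => cAB T hT S hS (adj_symm h)
  · rintro ⟨hne, h⟩
    rw [g1BB] at h
    have hne' : S ≠ T := fun h' => hne (by rw [h'])
    exact h2.2 S hS T hT ⟨hne', h⟩
  · exact cBC S hS T hT
  · exact fun h => cAC T hT S hS (adj_symm h)
  · exact fun h => cBC T hT S hS (adj_symm h)
  · rintro ⟨hne, h⟩
    rw [g1CC ha] at h
    have hne' : S ≠ T := fun h' => hne (by rw [h'])
    have := hX S hS T hT hne'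
    omega

open Classical in
theorem extend_pairs {m k t : ℕ} :
    ((stables m k ×ˢ stables m (k + 2)).filter fun p =>
      t ≤ (availB k p.1 ∩ availN k p.2).card).card * 2 ^ (t / (m + 2)) ≤
      (stables (m + 2) (k + 2)).card := by
  set P := ((stables m k ×ˢ stables m (k + 2)).filter fun p =>
      t ≤ (availB k p.1 ∩ availN k p.2).card) with hP
  let ι : Fin m ↪ Fin (m + 2) := Fin.castAddEmb 2
  let a : Fin (m + 2) := Fin.natAdd m 0
  let b : Fin (m + 2) := Fin.natAdd m 1
  have ha : ∀ x, ι x ≠ a := by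
    intro x h
    have := congrArg Fin.val h
    simp [ι, a] at this
    omega
  have hb : ∀ x, ι x ≠ b := by
    intro x h
    have := congrArg Fin.val h
    simp [ι, b] at this
    omega
  have hab : a ≠ b := by
    intro h
    have := congrArg Fin.val h
    simp [a, b] at this
  -- the colour classes
  have hcol : ∀ p ∈ P, ∃ Y : Finset (Finset (Fin m)), Y ⊆ availB k p.1 ∩ availN k p.2 ∧
      Y.card = t / (m + 2) ∧ ∀ A ∈ Y, ∀ B ∈ Y, A ≠ B → (A ∩ B).card < k := by
    intro p hp
    rw [hP, Finset.mem_filter] at hp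
    have hmap : ∀ A ∈ availB k p.1 ∩ availN k p.2,
        (∑ x ∈ A, (x : ℕ)) % (m + 2) ∈ Finset.range (m + 2) := by
      intro A _
      rw [Finset.mem_range]
      exact Nat.mod_lt _ (by omega)
    obtain ⟨c, -, hc⟩ := Finset.exists_le_card_fiber_of_mul_le_card_of_maps_to hmap
      ⟨0, by rw [Finset.mem_range]; omega⟩ (n := t / (m + 2)) (by
        rw [Finset.card_range]
        exact (Nat.mul_div_le t (m + 2)).trans hp.2)
    obtain ⟨Y, hY1, hY2⟩ := Finset.exists_subset_card_eq hc
    refine ⟨Y, hY1.trans (Finset.filter_subset _ _), hY2, ?_⟩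
    intro A hA B hB hne
    have hA' := Finset.mem_filter.1 (hY1 hA)
    have hB' := Finset.mem_filter.1 (hY1 hB)
    refine g1_colour ?_ ?_ hne (hA'.2.trans hB'.2.symm)
    · exact mem_Base.1 (mem_availB.1 (Finset.mem_inter.1 hA'.1).1).1
    · exact mem_Base.1 (mem_availB.1 (Finset.mem_inter.1 hB'.1).1).1
  choose! Y hY1 hY2 hY3 using hcol
  have hcard : P.card * 2 ^ (t / (m + 2)) = (P.sigma fun p => (Y p).powerset).card := by
    rw [Finset.card_sigma, Finset.sum_congr rfl (fun p hp => by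
      rw [Finset.card_powerset, hY2 p hp]), Finset.sum_const, smul_eq_mul]
  rw [hcard]
  refine Finset.card_le_card_of_injOn (fun q => g1F ι a b q.1.1 q.1.2 q.2) ?_ ?_
  · rintro ⟨p, X⟩ hq
    rw [Finset.mem_coe, Finset.mem_sigma, Finset.mem_powerset] at hq
    obtain ⟨hp, hX⟩ := hq
    simp only at hp hX
    have hp' := hp
    rw [hP, Finset.mem_filter, Finset.mem_product] at hp'
    rw [Finset.mem_coe]
    refine g1_stable ha hb hab hp'.1.1 hp'.1.2 ?_ ?_ ?_
    · exact fun A hA => (Finset.mem_inter.1 (hY1 p hp (hX hA))).1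
    · exact fun A hA => (Finset.mem_inter.1 (hY1 p hp (hX hA))).2
    · exact fun A hA B hB hne => hY3 p hp A (hX hA) B (hX hB) hne
  · rintro ⟨⟨J1, J2⟩, X⟩ _ ⟨⟨K1, K2⟩, Z⟩ _ h
    simp only at h
    have e1 : J1 = K1 := by
      ext S
      rw [← g1_memA ha hb hab (J1 := J1) (J2 := J2) (X := X), h, g1_memA ha hb hab]
    have e2 : J2 = K2 := by
      ext S
      rw [← g1_memB ha (b := b) (J1 := J1) (J2 := J2) (X := X), h, g1_memB ha]
    have e3 : X = Z := by
      ext S
      rw [← g1_memC ha hb hab (J1 := J1) (J2 := J2) (X := X), h, g1_memC ha hb hab]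
    subst e1 e2 e3
    rfl

end Pool.Agent.H8.VM
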