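import Pool.Agent.H8.VM.GDefs

/-! MODULE G2 (about 200 lines). Averaging over permutations.

`wnd (availN k J) π = availN k (wnd J π)` and `wnd` maps `stables m (k+2)` bijectively to itself
(`adj_act`). For `B, N'` contained in `Base m (k+1)`:
`sum_π |B cap wnd N' π| = |B| |N'| m! / C(m, k+1)` (`Pool.Agent.H28.Windows.card_cover` for
`X = N'`, summed over `t` in `B`). If `|B|, |N'| >= ε C` with `C = C(m, k+1)`, the average of
`|B cap wnd N' π|` is `>= ε^2 C`, and it is always `<= C`; so the number of `π` with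
`|B cap wnd N' π| >= (ε^2/2) C` is at least `(ε^2/2) m!`. Sum over the pairs `(J1, J2)` on the left
hand side with `B = availB k J1`, `N' = availN k J2`, exchange the sums; for fixed `π` the map
`(J1, J2) -> (J1, wnd J2 π)` is injective and lands in the pairs on the right hand side. -/

open scoped BigOperators

namespace Pool.Agent.H8.VM

open Pool.Agent.H28.Johnson Pool.Agent.H28.KW Pool.Agent.H28.Windows

private lemma g2_act_subset {m : ℕ} (π : Equiv.Perm (Fin m)) {A B : Finset (Fin m)} :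
    act π A ⊆ act π B ↔ A ⊆ B := by
  rw [act_apply, act_apply, Finset.map_subset_map]

private lemma g2_wnd_availN {m k : ℕ} (π : Equiv.Perm (Fin m)) (J : Finset (Finset (Fin m))) :
    wnd (availN k J) π = availN k (wnd J π) := by
  ext A
  rw [mem_wnd, mem_availN]
  constructor
  · rintro ⟨x, hx, rfl⟩
    rw [mem_availN] at hx
    refine ⟨act_mem_Base.mpr hx.1, ?_⟩
    intro u hu
    obtain ⟨v, hv, rfl⟩ := mem_wnd.mp hu
    rw [g2_act_subset]
    exact hx.2 v hv
  · rintro ⟨hA, hJ⟩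
    obtain ⟨x, rfl⟩ := (act π).surjective A
    refine ⟨x, ?_, rfl⟩
    rw [mem_availN]
    refine ⟨act_mem_Base.mp hA, ?_⟩
    intro u hu hxu
    exact hJ (act π u) (act_mem_wnd.mpr hu) ((g2_act_subset π).mpr hxu)

private lemma g2_wnd_stables {m r : ℕ} (π : Equiv.Perm (Fin m)) {J : Finset (Finset (Fin m))}
    (hJ : J ∈ stables m r) : wnd J π ∈ stables m r := by
  rw [mem_stables] at hJ ⊢
  refine ⟨wnd_subset_Base hJ.1 π, ?_⟩
  intro a ha b hb
  obtain ⟨a', ha', rfl⟩ := mem_wnd.mp ha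
  obtain ⟨b', hb', rfl⟩ := mem_wnd.mp hb
  rw [adj_act]
  exact hJ.2 a' ha' b' hb'

private lemma g2_sum {m r : ℕ} {B X : Finset (Finset (Fin m))} (hB : B ⊆ Base m r)
    (hX : X ⊆ Base m r) :
    (∑ π : Equiv.Perm (Fin m), (B ∩ wnd X π).card) * m.choose r =
      B.card * (X.card * Fintype.card (Equiv.Perm (Fin m))) := by
  classical
  have h1 : ∀ π : Equiv.Perm (Fin m), (B ∩ wnd X π).card =
      ∑ t ∈ B, if t ∈ wnd X π then 1 else 0 := by
    intro π
    rw [← Finset.card_filter, Finset.filter_mem_eq_inter]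
  rw [Finset.sum_congr rfl (fun π _ => h1 π), Finset.sum_comm, Finset.sum_mul]
  have h2 : ∀ t ∈ B, (∑ π : Equiv.Perm (Fin m), if t ∈ wnd X π then 1 else 0) * m.choose r =
      X.card * Fintype.card (Equiv.Perm (Fin m)) := by
    intro t ht
    rw [← Finset.card_filter]
    exact card_cover hX (hB ht)
  rw [Finset.sum_congr rfl h2, Finset.sum_const, smul_eq_mul]

private lemma g2_many {m k : ℕ} (hk : k + 1 ≤ m) (ε : ℝ) (hε : 0 < ε)
    {B X : Finset (Finset (Fin m))} (hB : B ⊆ Base m (k + 1)) (hX : X ⊆ Base m (k + 1))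
    (hBc : ε * (m.choose (k + 1) : ℝ) ≤ (B.card : ℝ))
    (hXc : ε * (m.choose (k + 1) : ℝ) ≤ (X.card : ℝ)) :
    ε ^ 2 / 2 * (Fintype.card (Equiv.Perm (Fin m)) : ℝ) ≤
      ((Finset.univ.filter fun π : Equiv.Perm (Fin m) =>
        ε ^ 2 / 2 * (m.choose (k + 1) : ℝ) ≤ ((B ∩ wnd X π).card : ℝ)).card : ℝ) := by
  classical
  set C : ℝ := (m.choose (k + 1) : ℝ) with hC
  have hCpos : 0 < C := by
    rw [hC]; exact_mod_cast Nat.choose_pos hk
  set F : ℝ := (Fintype.card (Equiv.Perm (Fin m)) : ℝ) with hF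
  have hFpos : 0 < F := by
    rw [hF]; exact_mod_cast Fintype.card_pos
  set G := Finset.univ.filter fun π : Equiv.Perm (Fin m) =>
        ε ^ 2 / 2 * C ≤ ((B ∩ wnd X π).card : ℝ) with hG
  have hs : (∑ π : Equiv.Perm (Fin m), ((B ∩ wnd X π).card : ℝ)) * C =
      (B.card : ℝ) * ((X.card : ℝ) * F) := by
    have := g2_sum hB hX
    rw [hC, hF]
    exact_mod_cast this
  have hle : ∀ π : Equiv.Perm (Fin m), ((B ∩ wnd X π).card : ℝ) ≤
      (if π ∈ G then C else 0) + ε ^ 2 / 2 * C := by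
    intro π
    by_cases hπ : π ∈ G
    · rw [if_pos hπ]
      have h1 : ((B ∩ wnd X π).card : ℝ) ≤ C := by
        rw [hC]
        have := Finset.card_le_card ((Finset.inter_subset_left (s₁ := B) (s₂ := wnd X π)).trans hB)
        rw [card_Base] at this
        exact_mod_cast this
      have h2 : 0 ≤ ε ^ 2 / 2 * C := by positivity
      linarith
    · rw [if_neg hπ]
      rw [hG, Finset.mem_filter] at hπ
      have h3 : ¬ ε ^ 2 / 2 * C ≤ ((B ∩ wnd X π).card : ℝ) := fun h => hπ ⟨Finset.mem_univ _, h⟩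
      push Not at h3
      linarith
  have hsum : (∑ π : Equiv.Perm (Fin m), ((B ∩ wnd X π).card : ℝ)) ≤
      (G.card : ℝ) * C + F * (ε ^ 2 / 2 * C) := by
    refine (Finset.sum_le_sum fun π _ => hle π).trans ?_
    rw [Finset.sum_add_distrib, Finset.sum_const, ← Finset.sum_filter, Finset.sum_const,
      Finset.filter_mem_eq_inter, Finset.univ_inter, Finset.card_univ, nsmul_eq_mul, nsmul_eq_mul]
  have hlow : ε ^ 2 * C * F * C ≤ (∑ π : Equiv.Perm (Fin m), ((B ∩ wnd X π).card : ℝ)) * C := by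
    rw [hs]
    have h4 : (ε * C) * (ε * C) ≤ (B.card : ℝ) * (X.card : ℝ) :=
      mul_le_mul hBc hXc (by positivity) (by positivity)
    nlinarith [mul_le_mul_of_nonneg_right h4 hFpos.le]
  have hlow2 : ε ^ 2 * C * F ≤ ∑ π : Equiv.Perm (Fin m), ((B ∩ wnd X π).card : ℝ) :=
    le_of_mul_le_mul_right hlow hCpos
  have hfin : (ε ^ 2 / 2 * F) * C ≤ (G.card : ℝ) * C := by
    have := hlow2.trans hsum
    nlinarith [this]
  exact le_of_mul_le_mul_right hfin hCpos

open Classical in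
theorem average_pairs {m k : ℕ} (hk : k + 1 ≤ m) (ε : ℝ) (hε : 0 < ε) (hε1 : ε ≤ 1) :
    ε ^ 2 / 2 * (((stables m k ×ˢ stables m (k + 2)).filter fun p =>
      ε * (m.choose (k + 1) : ℝ) ≤ ((availB k p.1).card : ℝ) ∧
      ε * (m.choose (k + 1) : ℝ) ≤ ((availN k p.2).card : ℝ)).card : ℝ) ≤
    (((stables m k ×ˢ stables m (k + 2)).filter fun p =>
      ε ^ 2 / 2 * (m.choose (k + 1) : ℝ) ≤
        ((availB k p.1 ∩ availN k p.2).card : ℝ)).card : ℝ) := by
  have _ := hε1
  set L := (stables m k ×ˢ stables m (k + 2)).filter fun p =>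
      ε * (m.choose (k + 1) : ℝ) ≤ ((availB k p.1).card : ℝ) ∧
      ε * (m.choose (k + 1) : ℝ) ≤ ((availN k p.2).card : ℝ) with hL
  set R := (stables m k ×ˢ stables m (k + 2)).filter fun p =>
      ε ^ 2 / 2 * (m.choose (k + 1) : ℝ) ≤
        ((availB k p.1 ∩ availN k p.2).card : ℝ) with hR
  set F : ℝ := (Fintype.card (Equiv.Perm (Fin m)) : ℝ) with hF
  have hFpos : 0 < F := by
    rw [hF]; exact_mod_cast Fintype.card_pos
  -- lower bound
  have hlow : ∀ p ∈ L, ε ^ 2 / 2 * F ≤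
      ((Finset.univ.filter fun π : Equiv.Perm (Fin m) => ε ^ 2 / 2 * (m.choose (k + 1) : ℝ) ≤
        ((availB k p.1 ∩ wnd (availN k p.2) π).card : ℝ)).card : ℝ) := by
    intro p hp
    rw [hL, Finset.mem_filter] at hp
    refine g2_many hk ε hε ?_ ?_ hp.2.1 hp.2.2
    · intro A hA
      exact (mem_availB.mp hA).1
    · intro A hA
      exact (mem_availN.mp hA).1
  have h1 : (L.card : ℝ) * (ε ^ 2 / 2 * F) ≤ ∑ p ∈ L,
      ((Finset.univ.filter fun π : Equiv.Perm (Fin m) => ε ^ 2 / 2 * (m.choose (k + 1) : ℝ) ≤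
        ((availB k p.1 ∩ wnd (availN k p.2) π).card : ℝ)).card : ℝ) := by
    have := Finset.card_nsmul_le_sum L _ _ hlow
    rwa [nsmul_eq_mul] at this
  have h2 : ∑ p ∈ L,
      ((Finset.univ.filter fun π : Equiv.Perm (Fin m) => ε ^ 2 / 2 * (m.choose (k + 1) : ℝ) ≤
        ((availB k p.1 ∩ wnd (availN k p.2) π).card : ℝ)).card : ℝ) =
      ∑ π : Equiv.Perm (Fin m), ((L.filter fun p => ε ^ 2 / 2 * (m.choose (k + 1) : ℝ) ≤
        ((availB k p.1 ∩ wnd (availN k p.2) π).card : ℝ)).card : ℝ) := by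
    have : ∀ p ∈ L, ((Finset.univ.filter fun π : Equiv.Perm (Fin m) =>
        ε ^ 2 / 2 * (m.choose (k + 1) : ℝ) ≤
        ((availB k p.1 ∩ wnd (availN k p.2) π).card : ℝ)).card : ℝ) =
        ∑ π : Equiv.Perm (Fin m), if ε ^ 2 / 2 * (m.choose (k + 1) : ℝ) ≤
        ((availB k p.1 ∩ wnd (availN k p.2) π).card : ℝ) then (1 : ℝ) else 0 := by
      intro p _
      rw [Finset.card_filter]
      push_cast
      rfl
    rw [Finset.sum_congr rfl this, Finset.sum_comm]
    refine Finset.sum_congr rfl fun π _ => ?_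
    rw [Finset.card_filter]
    push_cast
    rfl
  have h3 : ∀ π : Equiv.Perm (Fin m), ((L.filter fun p => ε ^ 2 / 2 * (m.choose (k + 1) : ℝ) ≤
        ((availB k p.1 ∩ wnd (availN k p.2) π).card : ℝ)).card : ℝ) ≤ (R.card : ℝ) := by
    intro π
    have : (L.filter fun p => ε ^ 2 / 2 * (m.choose (k + 1) : ℝ) ≤
        ((availB k p.1 ∩ wnd (availN k p.2) π).card : ℝ)).card ≤ R.card := by
      refine Finset.card_le_card_of_injOn (fun p => (p.1, wnd p.2 π)) ?_ ?_
      · intro p hp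
        rw [Finset.mem_coe, Finset.mem_filter, hL, Finset.mem_filter, Finset.mem_product] at hp
        rw [Finset.mem_coe, hR, Finset.mem_filter, Finset.mem_product]
        refine ⟨⟨hp.1.1.1, g2_wnd_stables π hp.1.1.2⟩, ?_⟩
        have h5 := hp.2
        rw [g2_wnd_availN] at h5
        exact h5
      · intro p _ q _ hpq
        simp only [Prod.mk.injEq] at hpq
        refine Prod.ext hpq.1 ?_
        exact Finset.map_injective _ hpq.2
    exact_mod_cast this
  have h4 : (L.card : ℝ) * (ε ^ 2 / 2 * F) ≤ F * (R.card : ℝ) := by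
    refine h1.trans ?_
    rw [h2]
    refine (Finset.sum_le_sum fun π _ => h3 π).trans ?_
    rw [Finset.sum_const, Finset.card_univ, nsmul_eq_mul]
  have h5 : (ε ^ 2 / 2 * (L.card : ℝ)) * F ≤ (R.card : ℝ) * F := by nlinarith [h4]
  exact le_of_mul_le_mul_right h5 hFpos

end Pool.Agent.H8.VM
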