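import Pool.Agent.H8.VM.GDefs

/-! MODULE G3 (about 120 lines). Shadows of stable families.

`availB`: the `(k+1)`-sets containing a member `u` of `J` are the sets `u + x`, `x` outside `u`;
`m - k` for each `u`, and they are different for different members (`u + x = w + y` with `u <> w`
gives `|u cap w| >= k - 1`, so `u`, `w` adjacent). `availN`: the `(k+1)`-sets contained in a member
`w` (a `(k+2)`-set) are the `k + 2` sets `w - x`, different for different members. -/

open scoped BigOperators

namespace Pool.Agent.H8.VM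

open Pool.Agent.H28.Johnson Pool.Agent.H28.KW Pool.Agent.H28.Windows

theorem card_availB {m k : ℕ} {J : Finset (Finset (Fin m))} (hJ : J ∈ stables m k)
    (hk : k ≤ m) : (availB k J).card + J.card * (m - k) = m.choose (k + 1) := by
  classical
  rw [mem_stables] at hJ
  obtain ⟨hsub, hst⟩ := hJ
  have hcard : ∀ u ∈ J, u.card = k := fun u hu => mem_Base.1 (hsub hu)
  have hC : ((Base m (k + 1)).filter fun A => ¬ ∀ u ∈ J, ¬ u ⊆ A)
      = J.biUnion (fun u => uᶜ.image (fun x => insert x u)) := by
    ext A
    rw [Finset.mem_filter, Finset.mem_biUnion, mem_Base]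
    constructor
    · rintro ⟨hA, hx⟩
      push Not at hx
      obtain ⟨u, hu, huA⟩ := hx
      refine ⟨u, hu, ?_⟩
      rw [Finset.mem_image]
      have h1 : (A \ u).card = 1 := by
        rw [Finset.card_sdiff_of_subset huA, hA, hcard u hu]; omega
      obtain ⟨x, hx⟩ := Finset.card_eq_one.1 h1
      have hxm : x ∈ A \ u := by rw [hx]; exact Finset.mem_singleton_self x
      rw [Finset.mem_sdiff] at hxm
      refine ⟨x, by rw [Finset.mem_compl]; exact hxm.2, ?_⟩
      rw [← Finset.sdiff_union_of_subset huA, hx]
      rfl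
    · rintro ⟨u, hu, hA⟩
      rw [Finset.mem_image] at hA
      obtain ⟨x, hx, rfl⟩ := hA
      rw [Finset.mem_compl] at hx
      refine ⟨by rw [Finset.card_insert_of_notMem hx, hcard u hu], ?_⟩
      push Not
      exact ⟨u, hu, Finset.subset_insert x u⟩
  have hdisj : ((J : Set (Finset (Fin m)))).PairwiseDisjoint
      (fun u => uᶜ.image (fun x => insert x u)) := by
    intro u hu w hw huw
    rw [Function.onFun, Finset.disjoint_left]
    intro A hA hA'
    rw [Finset.mem_image] at hA hA'
    obtain ⟨x, hx, rfl⟩ := hA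
    obtain ⟨y, hy, hyA⟩ := hA'
    apply hst u hu w hw
    refine ⟨huw, ?_⟩
    rw [Finset.mem_compl] at hx
    have h1 : u ∪ w ⊆ insert x u := by
      apply Finset.union_subset (Finset.subset_insert x u)
      rw [← hyA]
      exact Finset.subset_insert y w
    have h2 := Finset.card_le_card h1
    rw [Finset.card_insert_of_notMem hx, hcard u hu] at h2
    have h3 := Finset.card_union_add_card_inter u w
    rw [hcard u hu, hcard w hw] at h3
    omega
  have hcC : ((Base m (k + 1)).filter fun A => ¬ ∀ u ∈ J, ¬ u ⊆ A).card = J.card * (m - k) := by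
    rw [hC, Finset.card_biUnion hdisj]
    rw [Finset.sum_congr rfl (g := fun _ => m - k)]
    · rw [Finset.sum_const, smul_eq_mul]
    · intro u hu
      rw [Finset.card_image_of_injOn, Finset.card_compl, Fintype.card_fin, hcard u hu]
      intro x hx y hy hxy
      rw [Finset.coe_compl, Set.mem_compl_iff, Finset.mem_coe] at hx
      exact (Finset.insert_inj hx).1 hxy
  rw [← hcC, availB, Finset.card_filter_add_card_filter_not, card_Base]

theorem card_availN {m k : ℕ} {J : Finset (Finset (Fin m))} (hJ : J ∈ stables m (k + 2)) :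
    (availN k J).card + J.card * (k + 2) = m.choose (k + 1) := by
  classical
  rw [mem_stables] at hJ
  obtain ⟨hsub, hst⟩ := hJ
  have hcard : ∀ u ∈ J, u.card = k + 2 := fun u hu => mem_Base.1 (hsub hu)
  have hC : ((Base m (k + 1)).filter fun A => ¬ ∀ u ∈ J, ¬ A ⊆ u)
      = J.biUnion (fun u => u.powersetCard (k + 1)) := by
    ext A
    rw [Finset.mem_filter, Finset.mem_biUnion, mem_Base]
    constructor
    · rintro ⟨hA, hx⟩
      push Not at hx
      obtain ⟨u, hu, huA⟩ := hx
      exact ⟨u, hu, by rw [Finset.mem_powersetCard]; exact ⟨huA, hA⟩⟩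
    · rintro ⟨u, hu, hA⟩
      rw [Finset.mem_powersetCard] at hA
      refine ⟨hA.2, ?_⟩
      push Not
      exact ⟨u, hu, hA.1⟩
  have hdisj : ((J : Set (Finset (Fin m)))).PairwiseDisjoint
      (fun u => u.powersetCard (k + 1)) := by
    intro u hu w hw huw
    rw [Function.onFun, Finset.disjoint_left]
    intro A hA hA'
    rw [Finset.mem_powersetCard] at hA hA'
    apply hst u hu w hw
    refine ⟨huw, ?_⟩
    have h1 : A ⊆ u ∩ w := Finset.subset_inter hA.1 hA'.1
    have h2 := Finset.card_le_card h1
    rw [hA.2] at h2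
    omega
  have hcC : ((Base m (k + 1)).filter fun A => ¬ ∀ u ∈ J, ¬ A ⊆ u).card = J.card * (k + 2) := by
    rw [hC, Finset.card_biUnion hdisj]
    rw [Finset.sum_congr rfl (g := fun _ => k + 2)]
    · rw [Finset.sum_const, smul_eq_mul]
    · intro u hu
      rw [Finset.card_powersetCard, hcard u hu]
      exact Nat.choose_succ_self_right (k + 1)
  rw [← hcC, availN, Finset.card_filter_add_card_filter_not, card_Base]

end Pool.Agent.H8.VM
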