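import Pool.Agent.H8.VM.A3_Counts
import Pool.Agent.H8.VM.G3_Shadow

/-! MODULE G4 (about 250 lines, real arithmetic). Pairs with a nearly perfect component are rare.

Write `n = m + 2`, `r = k + 2`, `N = C(n, r)`, `C = C(m, k+1)`, `s = |stables n r|`,
`N1 = C(m, k)`, `N2 = C(m, k+2)`, `s1 = |stables m k|`, `s2 = |stables m (k+2)|`; `n <= 13 r`,
`2 r <= n`, so `m <= 14 k` for large `m` and `2 k <= m + 2`, `2 (k+2) <= m + 2`: `few_large` and
`log_stables_upper` apply to `(m, k)` and to `(m, k+2)`.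
`(k+1) C = (m-k) N1`, `(k+2) N2 = (m-k-1) C`.
(1) `|availB| < ε C`: by `card_availB` `|J1| (m-k) > (1-ε) C`, so
`|J1| > (1-ε) N1/(k+1) >= (1-ε) N1/(m-k+1)` because `k + 1 <= m - k + 1`. By `few_large` for
`(m, k)`: at most `exp(ξ N1/m)` such `J1`; times `s2 <= exp((1+δ) log 2 * N2/(m-k-1))`.
(2) `|availN| < ε C`: `|J2| (k+2) > (1-ε) C`, `|J2| > (1-ε) C/(k+2) = (1-ε) N2/(m-k-1)
= (1-ε) N2/(m - (k+2) + 1)`. By `few_large` for `(m, k+2)`: at most `exp(ξ N2/m)` such `J2`; times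
`s1 <= exp((1+δ) log 2 * N1/(m-k+1))`.
(3) `N1 = N r(r-1)/(n(n-1))`, `N2 = N (n-r)(n-r-1)/(n(n-1))`, so
`N1/m <= N/n`, `N2/m <= N/n`, `N2/(m-k-1) = N (n-r)/(n(n-1)) <= (N/n)(12/13) n/(n-1)`,
`N1/(m-k+1) = N r(r-1)/(n(n-1)(n-r+1)) <= (N/n) (1/2) n/(n-1)`, while
`log s >= log 2 * N/n` (`stables_lower`). With `δ = ξ = 1/100` both exponents are at most
`(log 2 * 1.01 * 0.93 + 0.01) N/n <= (log 2 - 0.02) N/n` for large `n`; so `c = 0.01` works
(`2 <= exp(0.01 N/n)` for large `n`, `N/n >= 2^(n/13)/n`). -/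

open scoped BigOperators
open Filter

namespace Pool.Agent.H8.VM

open Pool.Agent.H28.Johnson Pool.Agent.H28.KW Pool.Agent.H28.Windows

private lemma g4_pos (n r : ℕ) : (0 : ℝ) < ((stables n r).card : ℝ) := by
  have h : (∅ : Finset (Finset (Fin n))) ∈ stables n r := by
    rw [mem_stables]
    exact ⟨Finset.empty_subset _, fun a ha => absurd ha (Finset.notMem_empty a)⟩
  exact_mod_cast Finset.card_pos.2 ⟨_, h⟩

private lemma g4_choose {m k : ℕ} (h2 : 2 * (k + 2) ≤ m + 2) :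
    ((m + 2 : ℝ) + 2 - 1 - 2) / 2 ≤ ((m + 2).choose (k + 2) : ℝ) / (m + 2) := by
  have h1 : (m + 2).choose 2 ≤ (m + 2).choose (k + 2) := by
    have key : ∀ j : ℕ, 2 ≤ j → j ≤ (m + 2) / 2 → (m + 2).choose 2 ≤ (m + 2).choose j := by
      intro j hj
      induction j, hj using Nat.le_induction with
      | base => intro _; exact le_rfl
      | succ j hj ih =>
        intro hj'
        exact (ih (by omega)).trans (Nat.choose_le_succ_of_lt_half_left (by omega))
    exact key (k + 2) (by omega) (by omega)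
  have h3 : ((m + 2).choose 2 : ℝ) = (m + 2) * (m + 1) / 2 := by
    have := Nat.cast_choose_two ℝ (m + 2)
    rw [this]
    push_cast
    ring
  have h4 : ((m + 2).choose 2 : ℝ) ≤ ((m + 2).choose (k + 2) : ℝ) := by exact_mod_cast h1
  rw [h3] at h4
  rw [le_div_iff₀ (by positivity)]
  linarith

private lemma g4_real {M K N N1 N2 C : ℝ} (hK : 0 ≤ K) (hM : 200 ≤ M)
    (hK1 : M + 2 ≤ 13 * (K + 2)) (hK2 : 2 * (K + 2) ≤ M + 2) (hN : 0 ≤ N)
    (r1 : C * (K + 1) = N1 * (M - K)) (r2 : N2 * (K + 2) = C * (M - (K + 1)))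
    (r3 : (M + 2) * ((M + 1) * N1) = N * (K + 2) * (K + 1)) :
    N1 / M ≤ N / (M + 2) ∧ N2 / M ≤ N / (M + 2) ∧
      N2 / (M - (K + 2) + 1) ≤ 94 / 100 * (N / (M + 2)) ∧
      N1 / (M - K + 1) ≤ 94 / 100 * (N / (M + 2)) := by
  have hM2 : 0 < M + 2 := by linarith
  have hM1 : 0 < M + 1 := by linarith
  have hM0 : 0 < M := by linarith
  have r4 : (M + 2) * ((M + 1) * N2) = N * (M - K) * (M - K - 1) := by
    have h : ((M + 2) * ((M + 1) * N2)) * ((K + 2) * (K + 1)) =
        (N * (M - K) * (M - K - 1)) * ((K + 2) * (K + 1)) := by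
      calc ((M + 2) * ((M + 1) * N2)) * ((K + 2) * (K + 1))
          = (M + 2) * (M + 1) * (K + 1) * (N2 * (K + 2)) := by ring
        _ = (M + 2) * (M + 1) * (M - (K + 1)) * (C * (K + 1)) := by rw [r2]; ring
        _ = (M - (K + 1)) * (M - K) * ((M + 2) * ((M + 1) * N1)) := by rw [r1]; ring
        _ = (N * (M - K) * (M - K - 1)) * ((K + 2) * (K + 1)) := by rw [r3]; ring
    exact mul_right_cancel₀ (by positivity) h
  have e1 : N1 = N / (M + 2) * ((K + 2) * (K + 1) / (M + 1)) := by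
    field_simp
    linarith
  have e2 : N2 = N / (M + 2) * ((M - K) * (M - K - 1) / (M + 1)) := by
    field_simp
    linarith
  set Q := N / (M + 2) with hQ
  have hQ0 : 0 ≤ Q := by positivity
  refine ⟨?_, ?_, ?_, ?_⟩
  · rw [div_le_iff₀ hM0, e1]
    refine mul_le_mul_of_nonneg_left ?_ hQ0
    rw [div_le_iff₀ hM1]
    nlinarith
  · rw [div_le_iff₀ hM0, e2]
    refine mul_le_mul_of_nonneg_left ?_ hQ0
    rw [div_le_iff₀ hM1]
    nlinarith
  · have h1 : 0 < M - (K + 2) + 1 := by linarith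
    rw [div_le_iff₀ h1, e2]
    have h2 : (M - K) * (M - K - 1) / (M + 1) ≤ 94 / 100 * (M - (K + 2) + 1) := by
      rw [div_le_iff₀ hM1]
      have h3 : M - K ≤ 94 / 100 * (M + 1) := by linarith
      have h4 : 0 ≤ M - K - 1 := by linarith
      calc (M - K) * (M - K - 1) ≤ 94 / 100 * (M + 1) * (M - K - 1) :=
            mul_le_mul_of_nonneg_right h3 h4
        _ = 94 / 100 * (M - (K + 2) + 1) * (M + 1) := by ring
    calc Q * ((M - K) * (M - K - 1) / (M + 1)) ≤ Q * (94 / 100 * (M - (K + 2) + 1)) :=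
          mul_le_mul_of_nonneg_left h2 hQ0
      _ = 94 / 100 * Q * (M - (K + 2) + 1) := by ring
  · have h1 : 0 < M - K + 1 := by linarith
    rw [div_le_iff₀ h1, e1]
    have h2 : (K + 2) * (K + 1) / (M + 1) ≤ 94 / 100 * (M - K + 1) := by
      rw [div_le_iff₀ hM1]
      have h3 : K + 2 ≤ 94 / 100 * (M + 1) := by linarith
      have h4 : K + 1 ≤ M - K + 1 := by linarith
      calc (K + 2) * (K + 1) ≤ 94 / 100 * (M + 1) * (M - K + 1) :=
            mul_le_mul h3 h4 (by linarith) (by positivity)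
        _ = 94 / 100 * (M - K + 1) * (M + 1) := by ring
    calc Q * ((K + 2) * (K + 1) / (M + 1)) ≤ Q * (94 / 100 * (M - K + 1)) :=
          mul_le_mul_of_nonneg_left h2 hQ0
      _ = 94 / 100 * Q * (M - K + 1) := by ring

private lemma g4_final {Q x1 y1 x2 y2 s : ℝ} (hQ : 100 ≤ Q)
    (h1 : x1 ≤ Real.exp (1 / 100 * Q)) (h2 : y1 ≤ Real.exp (95 / 100 * Real.log 2 * Q))
    (h3 : x2 ≤ Real.exp (95 / 100 * Real.log 2 * Q)) (h4 : y2 ≤ Real.exp (1 / 100 * Q))
    (h5 : 0 ≤ x1) (h6 : 0 ≤ y1) (h7 : 0 ≤ x2) (h8 : 0 ≤ y2)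
    (hs : Real.exp (Q * Real.log 2) ≤ s) :
    x1 * y1 + x2 * y2 ≤ Real.exp (-(1 / 100 * Q)) * s := by
  have hL1 : 0.6931471803 < Real.log 2 := Real.log_two_gt_d9
  have hE : Real.exp (1 / 100 * Q) * Real.exp (95 / 100 * Real.log 2 * Q) ≤
      Real.exp ((Real.log 2 - 2 / 100) * Q) := by
    rw [← Real.exp_add]
    refine Real.exp_le_exp.2 ?_
    nlinarith
  have b1 : x1 * y1 ≤ Real.exp ((Real.log 2 - 2 / 100) * Q) :=
    (mul_le_mul h1 h2 h6 (Real.exp_pos _).le).trans hE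
  have b2 : x2 * y2 ≤ Real.exp ((Real.log 2 - 2 / 100) * Q) := by
    rw [mul_comm]
    exact (mul_le_mul h4 h3 h7 (Real.exp_pos _).le).trans hE
  have h2e : (2 : ℝ) ≤ Real.exp (1 / 100 * Q) := by
    have : (1 : ℝ) ≤ 1 / 100 * Q := by linarith
    calc (2 : ℝ) ≤ Real.exp 1 := by
          have := Real.exp_one_gt_d9
          linarith
      _ ≤ _ := Real.exp_le_exp.2 this
  calc x1 * y1 + x2 * y2
      ≤ 2 * Real.exp ((Real.log 2 - 2 / 100) * Q) := by linarith
    _ ≤ Real.exp (1 / 100 * Q) * Real.exp ((Real.log 2 - 2 / 100) * Q) :=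
        mul_le_mul_of_nonneg_right h2e (Real.exp_pos _).le
    _ = Real.exp (-(1 / 100 * Q)) * Real.exp (Q * Real.log 2) := by
        rw [← Real.exp_add, ← Real.exp_add]
        congr 1
        ring
    _ ≤ Real.exp (-(1 / 100 * Q)) * s :=
        mul_le_mul_of_nonneg_left hs (Real.exp_pos _).le

open Classical in
theorem near_small : ∃ ε c : ℝ, 0 < ε ∧ ε ≤ 1 ∧ 0 < c ∧ ∀ᶠ m : ℕ in atTop, ∀ k : ℕ,
    m + 2 ≤ 13 * (k + 2) → 2 * (k + 2) ≤ m + 2 →
    (((stables m k ×ˢ stables m (k + 2)).filter fun p =>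
      ((availB k p.1).card : ℝ) < ε * (m.choose (k + 1) : ℝ) ∨
      ((availN k p.2).card : ℝ) < ε * (m.choose (k + 1) : ℝ)).card : ℝ) ≤
      Real.exp (-(c * (((m + 2).choose (k + 2) : ℝ) / (m + 2)))) *
        ((stables (m + 2) (k + 2)).card : ℝ) := by
  obtain ⟨ε, hε0, hε1, hlarge⟩ := few_large (1 / 100) (by norm_num)
  refine ⟨ε, 1 / 100, hε0, hε1.le, by norm_num, ?_⟩
  filter_upwards [hlarge, log_stables_upper (1 / 100) (by norm_num),
    eventually_ge_atTop 1000] with m hl hu hm k hk1 hk2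
  have hkm : k ≤ m := by omega
  have hl1 := hl k (by omega) (by omega)
  have hl2 := hl (k + 2) (by omega) (by omega)
  have hu1 := hu k (by omega) (by omega)
  have hu2 := hu (k + 2) (by omega) (by omega)
  have hlow := stables_lower (n := m + 2) (r := k + 2) (by omega) (by omega)
  have hmR : (1000 : ℝ) ≤ m := by exact_mod_cast hm
  have hk1R : (m : ℝ) + 2 ≤ 13 * (k + 2) := by exact_mod_cast hk1
  have hk2R : 2 * ((k : ℝ) + 2) ≤ m + 2 := by exact_mod_cast hk2
  have hkR : (0 : ℝ) ≤ k := Nat.cast_nonneg k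
  have r1 : (m.choose (k + 1) : ℝ) * (k + 1) = (m.choose k : ℝ) * (m - k) := by
    have h := Nat.choose_succ_right_eq m k
    have h' : ((m.choose (k + 1) * (k + 1) : ℕ) : ℝ) = ((m.choose k * (m - k) : ℕ) : ℝ) := by
      rw [h]
    push_cast [Nat.cast_sub hkm] at h'
    exact h'
  have r2 : (m.choose (k + 2) : ℝ) * (k + 2) = (m.choose (k + 1) : ℝ) * (m - (k + 1)) := by
    have h := Nat.choose_succ_right_eq m (k + 1)
    have h' : ((m.choose (k + 1 + 1) * (k + 1 + 1) : ℕ) : ℝ) =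
        ((m.choose (k + 1) * (m - (k + 1)) : ℕ) : ℝ) := by
      rw [h]
    push_cast [Nat.cast_sub (show k + 1 ≤ m by omega)] at h'
    rw [show k + 2 = k + 1 + 1 from rfl]
    linarith
  have r3 : ((m : ℝ) + 2) * ((m + 1) * (m.choose k : ℝ)) =
      ((m + 2).choose (k + 2) : ℝ) * (k + 2) * (k + 1) := by
    have h1 := Nat.add_one_mul_choose_eq m k
    have h2 := Nat.add_one_mul_choose_eq (m + 1) (k + 1)
    have h1' : (((m + 1) * m.choose k : ℕ) : ℝ) = (((m + 1).choose (k + 1) * (k + 1) : ℕ) : ℝ) := by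
      rw [h1]
    have h2' : (((m + 1 + 1) * (m + 1).choose (k + 1) : ℕ) : ℝ) =
        (((m + 1 + 1).choose (k + 1 + 1) * (k + 1 + 1) : ℕ) : ℝ) := by
      rw [h2]
    push_cast at h1' h2'
    rw [show m + 2 = m + 1 + 1 from rfl, show k + 2 = k + 1 + 1 from rfl]
    calc ((m : ℝ) + 2) * ((m + 1) * (m.choose k : ℝ))
        = ((m : ℝ) + 1 + 1) * (((m + 1).choose (k + 1) : ℝ) * (k + 1)) := by rw [h1']; ring
      _ = (((m : ℝ) + 1 + 1) * ((m + 1).choose (k + 1) : ℝ)) * (k + 1) := by ring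
      _ = _ := by rw [h2']; ring
  obtain ⟨x1, x2, x3, x4⟩ := g4_real (M := m) (K := k) hkR (by linarith) hk1R hk2R
    (Nat.cast_nonneg ((m + 2).choose (k + 2))) r1 r2 r3
  have hQ := g4_choose hk2
  set Q : ℝ := ((m + 2).choose (k + 2) : ℝ) / (m + 2) with hQdef
  have hQ70 : 100 ≤ Q := by linarith
  have hL1 : 0.6931471803 < Real.log 2 := Real.log_two_gt_d9
  have hL2 : Real.log 2 < 0.6931471808 := Real.log_two_lt_d9
  push_cast at hlow hl2 hu2
  -- sizes
  have s0 := g4_pos (m + 2) (k + 2)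
  have s1 := g4_pos m k
  have s2 := g4_pos m (k + 2)
  have hs : Real.exp (Q * Real.log 2) ≤ ((stables (m + 2) (k + 2)).card : ℝ) := by
    rw [← Real.le_log_iff_exp_le s0]
    exact hlow
  have hs1 : ((stables m k).card : ℝ) ≤ Real.exp (95 / 100 * Real.log 2 * Q) := by
    rw [← Real.log_le_iff_le_exp s1]
    refine hu1.trans ?_
    have : (1 + 1 / 100) * Real.log 2 * ((m.choose k : ℝ) / (m - k + 1)) ≤
        (1 + 1 / 100) * Real.log 2 * (94 / 100 * Q) :=
      mul_le_mul_of_nonneg_left x4 (by positivity)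
    refine this.trans ?_
    nlinarith
  have hs2 : ((stables m (k + 2)).card : ℝ) ≤ Real.exp (95 / 100 * Real.log 2 * Q) := by
    rw [← Real.log_le_iff_le_exp s2]
    refine hu2.trans ?_
    have : (1 + 1 / 100) * Real.log 2 * ((m.choose (k + 2) : ℝ) / (m - (k + 2) + 1)) ≤
        (1 + 1 / 100) * Real.log 2 * (94 / 100 * Q) :=
      mul_le_mul_of_nonneg_left x3 (by positivity)
    refine this.trans ?_
    nlinarith
  set A1 := (stables m k).filter fun I =>
      (1 - ε) * ((m.choose k : ℝ) / (m - k + 1)) ≤ (I.card : ℝ) with hA1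
  set A2 := (stables m (k + 2)).filter fun I =>
      (1 - ε) * ((m.choose (k + 2) : ℝ) / (m - (k + 2) + 1)) ≤ (I.card : ℝ) with hA2
  have hA1c : (A1.card : ℝ) ≤ Real.exp (1 / 100 * Q) :=
    hl1.trans (Real.exp_le_exp.2 (mul_le_mul_of_nonneg_left x1 (by norm_num)))
  have hA2c : (A2.card : ℝ) ≤ Real.exp (1 / 100 * Q) :=
    hl2.trans (Real.exp_le_exp.2 (mul_le_mul_of_nonneg_left x2 (by norm_num)))
  have hC0 : (0 : ℝ) ≤ (m.choose (k + 1) : ℝ) := Nat.cast_nonneg _
  have hsub : ((stables m k ×ˢ stables m (k + 2)).filter fun p =>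
      ((availB k p.1).card : ℝ) < ε * (m.choose (k + 1) : ℝ) ∨
      ((availN k p.2).card : ℝ) < ε * (m.choose (k + 1) : ℝ)) ⊆
      (A1 ×ˢ stables m (k + 2)) ∪ (stables m k ×ˢ A2) := by
    rintro ⟨J1, J2⟩ hp
    rw [Finset.mem_filter, Finset.mem_product] at hp
    obtain ⟨⟨hJ1, hJ2⟩, hor⟩ := hp
    simp only at hJ1 hJ2 hor
    rw [Finset.mem_union, Finset.mem_product, Finset.mem_product]
    rcases hor with h | h
    · left
      refine ⟨?_, hJ2⟩
      rw [hA1, Finset.mem_filter]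
      refine ⟨hJ1, ?_⟩
      have hc := card_availB hJ1 hkm
      have hc' : ((availB k J1).card : ℝ) + (J1.card : ℝ) * (m - k) = (m.choose (k + 1) : ℝ) := by
        rw [← hc]
        push_cast [Nat.cast_sub hkm]
        ring
      have h1 : (1 - ε) * (m.choose (k + 1) : ℝ) ≤ (J1.card : ℝ) * (m - k) := by linarith
      have hmk : (0 : ℝ) < m - k := by linarith
      have h2 : (1 - ε) * (m.choose k : ℝ) ≤ (J1.card : ℝ) * (k + 1) := by
        have h3 : (1 - ε) * (m.choose k : ℝ) * (m - k) ≤ (J1.card : ℝ) * (k + 1) * (m - k) := by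
          calc (1 - ε) * (m.choose k : ℝ) * (m - k)
              = (1 - ε) * ((m.choose (k + 1) : ℝ) * (k + 1)) := by rw [r1]; ring
            _ = ((1 - ε) * (m.choose (k + 1) : ℝ)) * (k + 1) := by ring
            _ ≤ ((J1.card : ℝ) * (m - k)) * (k + 1) :=
                mul_le_mul_of_nonneg_right h1 (by linarith)
            _ = _ := by ring
        exact le_of_mul_le_mul_right h3 hmk
      have h4 : (0 : ℝ) < m - k + 1 := by linarith
      rw [← mul_div_assoc, div_le_iff₀ h4]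
      refine h2.trans (mul_le_mul_of_nonneg_left ?_ (Nat.cast_nonneg _))
      linarith
    · right
      refine ⟨hJ1, ?_⟩
      rw [hA2, Finset.mem_filter]
      refine ⟨hJ2, ?_⟩
      have hc := card_availN hJ2
      have hc' : ((availN k J2).card : ℝ) + (J2.card : ℝ) * (k + 2) = (m.choose (k + 1) : ℝ) := by
        rw [← hc]
        push_cast
        ring
      have h1 : (1 - ε) * (m.choose (k + 1) : ℝ) ≤ (J2.card : ℝ) * (k + 2) := by linarith
      have h4 : (0 : ℝ) < m - (k + 2) + 1 := by linarith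
      rw [← mul_div_assoc, div_le_iff₀ h4]
      have h5 : (0 : ℝ) < (k : ℝ) + 2 := by linarith
      have h3 : (1 - ε) * (m.choose (k + 2) : ℝ) * (k + 2) ≤
          (J2.card : ℝ) * (m - (k + 2) + 1) * (k + 2) := by
        calc (1 - ε) * (m.choose (k + 2) : ℝ) * (k + 2)
            = (1 - ε) * ((m.choose (k + 2) : ℝ) * (k + 2)) := by ring
          _ = ((1 - ε) * (m.choose (k + 1) : ℝ)) * (m - (k + 1)) := by rw [r2]; ring
          _ ≤ ((J2.card : ℝ) * (k + 2)) * (m - (k + 1)) :=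
              mul_le_mul_of_nonneg_right h1 (by linarith)
          _ = _ := by ring
      exact le_of_mul_le_mul_right h3 h5
  have hcard : (((stables m k ×ˢ stables m (k + 2)).filter fun p =>
      ((availB k p.1).card : ℝ) < ε * (m.choose (k + 1) : ℝ) ∨
      ((availN k p.2).card : ℝ) < ε * (m.choose (k + 1) : ℝ)).card : ℝ) ≤
      (A1.card : ℝ) * ((stables m (k + 2)).card : ℝ) + ((stables m k).card : ℝ) * (A2.card : ℝ) := by
    have h1 := (Finset.card_le_card hsub).trans (Finset.card_union_le _ _)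
    rw [Finset.card_product, Finset.card_product] at h1
    exact_mod_cast h1
  refine hcard.trans ?_
  have hlow' : Real.exp (Q * Real.log 2) ≤ ((stables (m + 2) (k + 2)).card : ℝ) := hs
  clear_value Q A1 A2
  exact g4_final hQ70 hA1c hs2 hs1 hA2c (Nat.cast_nonneg _) (Nat.cast_nonneg _)
    (Nat.cast_nonneg _) (Nat.cast_nonneg _) hlow'

end Pool.Agent.H8.VM
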