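import Pool.Agent.H8.VM.G0_Pairs
import Pool.Agent.H8.VM.G1_Extend
import Pool.Agent.H8.VM.G2_Average
import Pool.Agent.H8.VM.G4_Near

/-! MODULE G5 (about 150 lines). Twin families are rare.

`n = m + 2`, `r = k + 2`. `card_twin` bounds the number of twin families by the number of pairs.
Take `ε`, `c` of `near_small`. The pairs with `|availB| < ε C` or `|availN| < ε C` are at most
`exp(-c N/n) s`. The others are by `average_pairs` at most `(2/ε^2)` times the number of pairs with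
`|availB cap availN| >= (ε^2/2) C`, which is by `extend_pairs` with `t = ceil ((ε^2/2) C)` at most
`2^(-(t/(m+2))) s <= 2 * 2^(-(ε^2/2) C/n) s`. Finally `C = C(n-2, r-1) = N r(n-r)/(n(n-1)) >=
N/26`, and all constants are absorbed for large `n` (`N/n >= 2^(n/13)/n`). -/

open scoped BigOperators
open Filter

namespace Pool.Agent.H8.VM

open Pool.Agent.H28.Johnson Pool.Agent.H28.KW Pool.Agent.H28.Windows

/-- `C(n, r) >= C(n, 2)` for `2 <= r <= n/2` -/
lemma G5_choose_two_le {n r : ℕ} (hr : 2 ≤ r) (hrn : 2 * r ≤ n) : n.choose 2 ≤ n.choose r := by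
  induction r, hr using Nat.le_induction with
  | base => exact le_rfl
  | succ k hk ih =>
    exact (ih (by omega)).trans (Nat.choose_le_succ_of_lt_half_left (by omega))

/-- the average line degree `N/n` is at least `(n-1)/2` -/
lemma G5_x_large {n r : ℕ} (hr : 2 ≤ r) (hrn : 2 * r ≤ n) :
    ((n : ℝ) - 1) / 2 ≤ (n.choose r : ℝ) / n := by
  have hn : (0 : ℝ) < n := by
    have : 0 < n := by omega
    exact_mod_cast this
  have h1 : ((n.choose 2 : ℕ) : ℝ) ≤ (n.choose r : ℝ) := by exact_mod_cast G5_choose_two_le hr hrn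
  rw [Nat.cast_choose_two] at h1
  rw [le_div_iff₀ hn]
  linarith

/-- `26 C(n-2, r-1) >= C(n, r)` for `n <= 13 r`, `2 r <= n` -/
lemma G5_C_large {m k : ℕ} (h13 : m + 2 ≤ 13 * (k + 2)) (h2 : 2 * (k + 2) ≤ m + 2) :
    ((m + 2).choose (k + 2) : ℝ) ≤ 26 * (m.choose (k + 1) : ℝ) := by
  have e1 := Nat.add_one_mul_choose_eq (m + 1) (k + 1)
  have e2 := Nat.choose_mul_succ_eq m (k + 1)
  have e1' : ((m : ℝ) + 2) * ((m + 1).choose (k + 1) : ℝ) =
      ((m + 2).choose (k + 2) : ℝ) * ((k : ℝ) + 2) := by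
    have := congrArg (Nat.cast (R := ℝ)) e1
    push_cast at this
    convert this using 2 <;> ring
  have hsub : m + 1 - (k + 1) = m - k := by omega
  have e2' : (m.choose (k + 1) : ℝ) * ((m : ℝ) + 1) =
      ((m + 1).choose (k + 1) : ℝ) * ((m : ℝ) - k) := by
    have := congrArg (Nat.cast (R := ℝ)) e2
    rw [hsub] at this
    push_cast [Nat.cast_sub (show k ≤ m by omega)] at this
    exact this
  have h13' : (m : ℝ) + 2 ≤ 13 * ((k : ℝ) + 2) := by exact_mod_cast h13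
  have h2' : 2 * ((k : ℝ) + 2) ≤ (m : ℝ) + 2 := by exact_mod_cast h2
  have hk0 : (0 : ℝ) ≤ k := Nat.cast_nonneg k
  set N : ℝ := ((m + 2).choose (k + 2) : ℝ)
  set C1 : ℝ := ((m + 1).choose (k + 1) : ℝ) with hC1
  set C : ℝ := (m.choose (k + 1) : ℝ)
  have hC1pos : (0 : ℝ) ≤ C1 := by rw [hC1]; exact Nat.cast_nonneg _
  -- N (k+2) = (m+2) C1 <= 13 (k+2) C1
  have a1 : N ≤ 13 * C1 := by
    have : N * ((k : ℝ) + 2) ≤ 13 * C1 * ((k : ℝ) + 2) := by
      rw [← e1']; nlinarith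
    exact le_of_mul_le_mul_right this (by linarith)
  have a2 : C1 ≤ 2 * C := by
    have h3 : C1 * ((m : ℝ) + 1) ≤ 2 * (C1 * ((m : ℝ) - k)) := by nlinarith
    rw [← e2'] at h3
    have : C1 * ((m : ℝ) + 1) ≤ 2 * C * ((m : ℝ) + 1) := by linarith
    exact le_of_mul_le_mul_right this (by linarith)
  linarith

/-- constants are absorbed -/
lemma G5_absorb {A c0 c1 x : ℝ} (hA : 0 ≤ A) (hc0 : 0 < c0) (hc1 : 0 < c1)
    (hx : Real.log (1 + A) / (min c0 c1 / 2) ≤ x) :
    Real.exp (-(c0 * x)) + A * Real.exp (-(c1 * x)) ≤ Real.exp (-(min c0 c1 / 2 * x)) := by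
  set c := min c0 c1 / 2 with hc
  have hcpos : 0 < c := by rw [hc]; have := lt_min hc0 hc1; linarith
  have hx0 : 0 ≤ x := le_trans (div_nonneg (Real.log_nonneg (by linarith)) hcpos.le) hx
  have h0 : 2 * c ≤ c0 := by rw [hc]; have := min_le_left c0 c1; linarith
  have h1 : 2 * c ≤ c1 := by rw [hc]; have := min_le_right c0 c1; linarith
  have e0 : Real.exp (-(c0 * x)) ≤ Real.exp (-(2 * c * x)) :=
    Real.exp_le_exp.mpr (neg_le_neg (mul_le_mul_of_nonneg_right h0 hx0))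
  have e1 : Real.exp (-(c1 * x)) ≤ Real.exp (-(2 * c * x)) :=
    Real.exp_le_exp.mpr (neg_le_neg (mul_le_mul_of_nonneg_right h1 hx0))
  have e2 : 1 + A ≤ Real.exp (c * x) := by
    rw [div_le_iff₀ hcpos] at hx
    calc 1 + A = Real.exp (Real.log (1 + A)) := (Real.exp_log (by linarith)).symm
      _ ≤ Real.exp (c * x) := Real.exp_le_exp.mpr (by linarith)
  have e3 : Real.exp (-(c * x)) = Real.exp (c * x) * Real.exp (-(2 * c * x)) := by
    rw [← Real.exp_add]; congr 1; ring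
  have hp := Real.exp_pos (-(2 * c * x))
  calc Real.exp (-(c0 * x)) + A * Real.exp (-(c1 * x))
      ≤ Real.exp (-(2 * c * x)) + A * Real.exp (-(2 * c * x)) :=
        add_le_add e0 (mul_le_mul_of_nonneg_left e1 hA)
    _ = (1 + A) * Real.exp (-(2 * c * x)) := by ring
    _ ≤ Real.exp (c * x) * Real.exp (-(2 * c * x)) := mul_le_mul_of_nonneg_right e2 hp.le
    _ = Real.exp (-(c * x)) := e3.symm

theorem twin_small : ∃ c : ℝ, 0 < c ∧ ∀ᶠ n : ℕ in atTop, ∀ r : ℕ, n ≤ 13 * r → 2 * r ≤ n →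
    ∀ a b : Fin n, a ≠ b → ((twin r a b).card : ℝ) ≤
      Real.exp (-(c * ((n.choose r : ℝ) / n))) * ((stables n r).card : ℝ) := by
  classical
  obtain ⟨ε, c0, hε, hε1, hc0, hnear⟩ := near_small
  set c1 : ℝ := Real.log 2 * (ε ^ 2 / 52) with hc1def
  have hc1 : 0 < c1 := by rw [hc1def]; have := Real.log_pos (by norm_num : (1:ℝ) < 2); positivity
  set A : ℝ := 4 / ε ^ 2 with hA
  have hA0 : 0 ≤ A := by rw [hA]; positivity
  refine ⟨min c0 c1 / 2, by have := lt_min hc0 hc1; linarith, ?_⟩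
  obtain ⟨m0, hm0⟩ := eventually_atTop.mp hnear
  obtain ⟨n1, hn1⟩ := exists_nat_ge (2 * (Real.log (1 + A) / (min c0 c1 / 2)) + 1)
  filter_upwards [eventually_ge_atTop (m0 + 2), eventually_ge_atTop n1,
    eventually_ge_atTop 27] with n hn hnn1 hn27
  intro r h13 h2 a b hab
  obtain ⟨m, rfl⟩ : ∃ m, n = m + 2 := ⟨n - 2, by omega⟩
  obtain ⟨k, rfl⟩ : ∃ k, r = k + 2 := ⟨r - 2, by omega⟩
  have hx : Real.log (1 + A) / (min c0 c1 / 2) ≤ ((m + 2).choose (k + 2) : ℝ) / ((m + 2 : ℕ) : ℝ) := by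
    refine le_trans ?_ (G5_x_large (by omega) h2)
    have : (n1 : ℝ) ≤ ((m + 2 : ℕ) : ℝ) := by exact_mod_cast hnn1
    linarith
  have hN := hm0 m (by omega) k h13 h2
  set s : ℝ := ((stables (m + 2) (k + 2)).card : ℝ) with hs
  have hs0 : 0 ≤ s := by rw [hs]; positivity
  set x : ℝ := ((m + 2).choose (k + 2) : ℝ) / ((m + 2 : ℕ) : ℝ) with hxdef
  have hxe : ((m + 2).choose (k + 2) : ℝ) / ((m : ℝ) + 2) = x := by
    rw [hxdef]; push_cast; rfl
  rw [hxe] at hN
  set C : ℝ := (m.choose (k + 1) : ℝ) with hC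
  -- the good pairs
  have havg := average_pairs (m := m) (k := k) (by omega) ε hε hε1
  rw [← hC] at havg
  set t : ℕ := ⌈ε ^ 2 / 2 * C⌉₊ with ht
  have hext := extend_pairs (m := m) (k := k) (t := t)
  set P := stables m k ×ˢ stables m (k + 2) with hP
  set Bad := P.filter fun p => ((availB k p.1).card : ℝ) < ε * C ∨
      ((availN k p.2).card : ℝ) < ε * C with hBad
  set Gd := P.filter fun p => ε * C ≤ ((availB k p.1).card : ℝ) ∧
      ε * C ≤ ((availN k p.2).card : ℝ) with hGd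
  set L := P.filter fun p => ε ^ 2 / 2 * C ≤ ((availB k p.1 ∩ availN k p.2).card : ℝ) with hL
  have hL' : (P.filter fun p => t ≤ (availB k p.1 ∩ availN k p.2).card) = L := by
    rw [hL]
    apply Finset.filter_congr
    intro p _
    rw [ht, Nat.ceil_le]
  rw [hL'] at hext
  have hsplit : P.card ≤ Bad.card + Gd.card := by
    have : P ⊆ Bad ∪ Gd := by
      intro p hp
      rw [Finset.mem_union, hBad, hGd, Finset.mem_filter, Finset.mem_filter]
      by_cases h : ((availB k p.1).card : ℝ) < ε * C ∨ ((availN k p.2).card : ℝ) < ε * C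
      · exact Or.inl ⟨hp, h⟩
      · push Not at h
        exact Or.inr ⟨hp, h⟩
    exact (Finset.card_le_card this).trans (Finset.card_union_le _ _)
  have htw : ((twin (k + 2) a b).card : ℝ) ≤ (Bad.card : ℝ) + (Gd.card : ℝ) := by
    have h1 := card_twin (m := m) (k := k) hab
    rw [← Finset.card_product] at h1
    exact_mod_cast h1.trans hsplit
  -- the bound for L
  have hLb : (L.card : ℝ) ≤ 2 * Real.exp (-(c1 * x)) * s := by
    have h2pow : ((L.card : ℕ) : ℝ) * 2 ^ (t / (m + 2)) ≤ s := by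
      rw [hs]; exact_mod_cast hext
    have hdiv : ε ^ 2 / 52 * x - 1 ≤ ((t / (m + 2) : ℕ) : ℝ) := by
      have h3 : (t : ℝ) / ((m + 2 : ℕ) : ℝ) - 1 ≤ ((t / (m + 2) : ℕ) : ℝ) := by
        have := Nat.lt_floor_add_one ((t : ℝ) / ((m + 2 : ℕ) : ℝ))
        rw [Nat.floor_div_eq_div] at this
        linarith
      have h4 : ε ^ 2 / 52 * x ≤ (t : ℝ) / ((m + 2 : ℕ) : ℝ) := by
        rw [hxdef, ← mul_div_assoc]
        apply div_le_div_of_nonneg_right _ (by positivity)
        have h5 : ε ^ 2 / 2 * C ≤ (t : ℝ) := Nat.le_ceil _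
        have h6 := G5_C_large h13 h2
        have h7 : ε ^ 2 / 52 * ((m + 2).choose (k + 2) : ℝ) ≤ ε ^ 2 / 52 * (26 * C) :=
          mul_le_mul_of_nonneg_left h6 (by positivity)
        linarith
      linarith
    have hpow : Real.exp (c1 * x) / 2 ≤ (2 : ℝ) ^ (t / (m + 2)) := by
      have : (2 : ℝ) ^ (t / (m + 2)) = Real.exp (Real.log 2 * ((t / (m + 2) : ℕ) : ℝ)) := by
        rw [Real.exp_mul, Real.exp_log (by norm_num), Real.rpow_natCast]
      rw [this]
      have h2e : Real.exp (c1 * x) / 2 = Real.exp (Real.log 2 * (ε ^ 2 / 52 * x - 1)) := by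
        rw [mul_sub, mul_one, Real.exp_sub, Real.exp_log (by norm_num), hc1def]
        congr 2; ring
      rw [h2e]
      exact Real.exp_le_exp.mpr (mul_le_mul_of_nonneg_left hdiv
        (Real.log_pos (by norm_num)).le)
    have h8 : (L.card : ℝ) * (Real.exp (c1 * x) / 2) ≤ s :=
      le_trans (mul_le_mul_of_nonneg_left hpow (Nat.cast_nonneg _)) h2pow
    have hE : Real.exp (c1 * x) * Real.exp (-(c1 * x)) = 1 := by
      rw [← Real.exp_add, add_neg_cancel, Real.exp_zero]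
    have h9 := mul_le_mul_of_nonneg_right h8 (show (0:ℝ) ≤ 2 * Real.exp (-(c1 * x)) by positivity)
    have h10 : (L.card : ℝ) * (Real.exp (c1 * x) / 2) * (2 * Real.exp (-(c1 * x))) = L.card := by
      calc (L.card : ℝ) * (Real.exp (c1 * x) / 2) * (2 * Real.exp (-(c1 * x)))
          = L.card * (Real.exp (c1 * x) * Real.exp (-(c1 * x))) := by ring
        _ = L.card := by rw [hE, mul_one]
    rw [h10] at h9
    linarith
  have hGb : (Gd.card : ℝ) ≤ A * Real.exp (-(c1 * x)) * s := by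
    have h1 : ε ^ 2 / 2 * (Gd.card : ℝ) ≤ 2 * Real.exp (-(c1 * x)) * s := havg.trans hLb
    have h3 : (Gd.card : ℝ) = 2 / ε ^ 2 * (ε ^ 2 / 2 * (Gd.card : ℝ)) := by
      field_simp
    rw [h3]
    calc 2 / ε ^ 2 * (ε ^ 2 / 2 * (Gd.card : ℝ)) ≤ 2 / ε ^ 2 * (2 * Real.exp (-(c1 * x)) * s) :=
          mul_le_mul_of_nonneg_left h1 (by positivity)
      _ = A * Real.exp (-(c1 * x)) * s := by rw [hA]; ring
  calc ((twin (k + 2) a b).card : ℝ) ≤ (Bad.card : ℝ) + (Gd.card : ℝ) := htw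
    _ ≤ Real.exp (-(c0 * x)) * s + A * Real.exp (-(c1 * x)) * s := add_le_add hN hGb
    _ = (Real.exp (-(c0 * x)) + A * Real.exp (-(c1 * x))) * s := by ring
    _ ≤ Real.exp (-(min c0 c1 / 2 * x)) * s :=
        mul_le_mul_of_nonneg_right (G5_absorb hA0 hc0 hc1 hx) hs0

end Pool.Agent.H8.VM
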