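import Pool.Agent.H8.VM.Defs

/-! # Stable families with a symmetry are rare: definitions

A stable family `I` of `r`-sets of `Fin n` is invariant under the permutation `π` if
`wnd I π = I` (`wnd` is the image of the family). The families all of whose members contain both
or none of two given points `a, b` are called twin families. With `m = n - 2`, `k = r - 2` such a
family is a pair of a stable family of `k`-sets of `Fin m` and a stable family of `(k+2)`-sets of
`Fin m`. -/

open scoped BigOperators

namespace Pool.Agent.H8.VM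

open Pool.Agent.H28.Johnson Pool.Agent.H28.KW Pool.Agent.H28.Windows

variable {n : ℕ}

open Classical in
/-- the stable families invariant under `π` -/
noncomputable def inv (r : ℕ) (π : Equiv.Perm (Fin n)) : Finset (Finset (Finset (Fin n))) :=
  (stables n r).filter fun I => wnd I π = I

open Classical in
/-- the members of `I` moved by `π` -/
noncomputable def moved (π : Equiv.Perm (Fin n)) (I : Finset (Finset (Fin n))) :
    Finset (Finset (Fin n)) := I.filter fun S => act π S ≠ S

open Classical in
/-- twin families for the points `a, b` -/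
noncomputable def twin (r : ℕ) (a b : Fin n) : Finset (Finset (Finset (Fin n))) :=
  (stables n r).filter fun I => ∀ S ∈ I, (a ∈ S ↔ b ∈ S)

open Classical in
/-- the `(k+1)`-sets containing no member of `J` -/
noncomputable def availB (k : ℕ) (J : Finset (Finset (Fin n))) : Finset (Finset (Fin n)) :=
  (Base n (k + 1)).filter fun A => ∀ u ∈ J, ¬ u ⊆ A

open Classical in
/-- the `(k+1)`-sets contained in no member of `J` -/
noncomputable def availN (k : ℕ) (J : Finset (Finset (Fin n))) : Finset (Finset (Fin n)) :=
  (Base n (k + 1)).filter fun A => ∀ u ∈ J, ¬ A ⊆ u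

lemma mem_inv {r : ℕ} {π : Equiv.Perm (Fin n)} {I : Finset (Finset (Fin n))} :
    I ∈ inv r π ↔ I ∈ stables n r ∧ wnd I π = I := by
  classical
  rw [inv, Finset.mem_filter]

lemma mem_moved {π : Equiv.Perm (Fin n)} {I : Finset (Finset (Fin n))} {S : Finset (Fin n)} :
    S ∈ moved π I ↔ S ∈ I ∧ act π S ≠ S := by
  classical
  rw [moved, Finset.mem_filter]

lemma mem_twin {r : ℕ} {a b : Fin n} {I : Finset (Finset (Fin n))} :
    I ∈ twin r a b ↔ I ∈ stables n r ∧ ∀ S ∈ I, (a ∈ S ↔ b ∈ S) := by
  classical
  rw [twin, Finset.mem_filter]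

lemma mem_availB {k : ℕ} {J : Finset (Finset (Fin n))} {A : Finset (Fin n)} :
    A ∈ availB k J ↔ A ∈ Base n (k + 1) ∧ ∀ u ∈ J, ¬ u ⊆ A := by
  classical
  rw [availB, Finset.mem_filter]

lemma mem_availN {k : ℕ} {J : Finset (Finset (Fin n))} {A : Finset (Fin n)} :
    A ∈ availN k J ↔ A ∈ Base n (k + 1) ∧ ∀ u ∈ J, ¬ A ⊆ u := by
  classical
  rw [availN, Finset.mem_filter]

end Pool.Agent.H8.VM
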