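import Pool.Agent.H8.VM.HDefs

/-! MODULE H1a (part of H1) (about 250 lines; may be split). Isomorphisms preserve everything.

`iso_exists`: `M.mapEquiv e` (`Matroid.mapEquiv`), or `Matroid.map`, or `Matroid.ofExistsMatroid`.
`iso_eRank`, `iso_sparsePaving`: bases correspond to bases (maximal independent sets), dependent
sets to dependent sets, circuits to circuits (minimal dependent sets), `encard (e '' C) =
encard C`; the independent sets of the dual are the sets disjoint from some base
(`Matroid.dual_indep_iff_exists`), so `Iso e M N` implies `Iso e (dual M) (dual N)`. It may be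
simplest to show `N = M.mapEquiv e` (`Matroid.ext_indep`) and to use the `Matroid.mapEquiv` API
(`Matroid.mapEquiv_dual`, ...).
`iso_hasV8`: if `C, D, φ` witness `HasV8 M` then `e '' C, e '' D, e ∘ φ` witness `HasV8 N`;
contraction: `(M / C).Indep J` iff there is a basis `I0` of `C` with `J cup I0` independent and
`J` disjoint from `C` (`Matroid.IsBasis.contract_indep_iff`, ...), all transported by `e`. -/

open scoped BigOperators

namespace Pool.Agent.H8.VM

open Pool.Agent.H28.Johnson Pool.Agent.H28.KW Pool.Agent.H28.Windows Pool.Agent.H28.SPMatroid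
  Pool.Agent.H28.V8

variable {n : ℕ}

theorem iso_exists (e : Equiv.Perm (Fin n)) {M : Matroid (Fin n)} (hM : M.E = Set.univ) :
    ∃ N : Matroid (Fin n), N.E = Set.univ ∧ Iso e M N := by
  refine ⟨M.mapEquiv e, ?_, ?_⟩
  · rw [Matroid.mapEquiv_ground_eq, hM, Set.image_univ, Equiv.range_eq_univ]
  · intro I
    rw [Matroid.mapEquiv_indep_iff, Equiv.symm_image_image]

theorem iso_refl (M : Matroid (Fin n)) : Iso 1 M M := by
  intro I
  have h : (⇑(1 : Equiv.Perm (Fin n))) '' I = I := by
    rw [Equiv.Perm.coe_one, Set.image_id]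
  rw [h]

theorem iso_symm {e : Equiv.Perm (Fin n)} {M N : Matroid (Fin n)} (h : Iso e M N) :
    Iso e⁻¹ N M := by
  intro I
  rw [h]
  have h2 : (⇑e) '' ((⇑e⁻¹) '' I) = I := by
    rw [← Set.image_comp, ← Equiv.Perm.coe_mul, mul_inv_cancel, Equiv.Perm.coe_one, Set.image_id]
  rw [h2]

theorem iso_trans {e f : Equiv.Perm (Fin n)} {M N K : Matroid (Fin n)} (h : Iso e M N)
    (h' : Iso f N K) : Iso (f * e) M K := by
  intro I
  rw [h, h', Equiv.Perm.coe_mul, Set.image_comp]

/-- the target is determined by the source and the permutation -/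
theorem iso_unique {e : Equiv.Perm (Fin n)} {M N N' : Matroid (Fin n)} (hN : N.E = Set.univ)
    (hN' : N'.E = Set.univ) (h : Iso e M N) (h' : Iso e M N') : N = N' := by
  refine Matroid.ext_indep (hN.trans hN'.symm) ?_
  intro I _
  have h1 := iso_symm h I
  have h2 := iso_symm h' I
  exact h1.trans h2.symm

end Pool.Agent.H8.VM
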