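import Pool.Agent.H8.VM.HDefs
import Pool.Agent.H8.VM.H1a_Basic

/-! MODULE H1b (part of H1) (about 250 lines; may be split). Isomorphisms preserve everything.

`iso_exists`: `M.mapEquiv e` (`Matroid.mapEquiv`), or `Matroid.map`, or `Matroid.ofExistsMatroid`.
`iso_eRank`, `iso_sparsePaving`: bases correspond to bases (maximal independent sets), dependent
sets to dependent sets, circuits to circuits (minimal dependent sets), `encard (e '' C) =
encard C`; the independent sets of the dual are the sets disjoint from some base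
(`Matroid.dual_indep_iff_exists`), so `Iso e M N` implies `Iso e (dual M) (dual N)`. It may be
simplest to show `N = M.mapEquiv e` (`Matroid.ext_indep`) and to use the `Matroid.mapEquiv` API
(`Matroid.mapEquiv_dual`, ...).
`iso_hasV8`: if `C, D, φ` witness `HasV8 M` then `e '' C, e '' D, e ∘ φ` witness `HasV8 N`;
contraction: `(M / C).Indep J` iff there is a basis `I0` of `C` with `J cup I0` independent and
`J` disjoint from `C` (`Matroid.IsBasis.contract_indep_iff`, ...), all transported by `e`. -/

open scoped BigOperators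

namespace Pool.Agent.H8.VM

open Pool.Agent.H28.Johnson Pool.Agent.H28.KW Pool.Agent.H28.Windows Pool.Agent.H28.SPMatroid
  Pool.Agent.H28.V8

variable {n : ℕ}

private lemma H1b_eq_map {e : Equiv.Perm (Fin n)} {M N : Matroid (Fin n)} (hM : M.E = Set.univ)
    (hN : N.E = Set.univ) (h : Iso e M N) : N = M.map e e.injective.injOn := by
  refine Matroid.ext_indep ?_ ?_
  · rw [Matroid.map_ground, hM, hN, Set.image_univ, e.range_eq_univ]
  · intro I _
    rw [Matroid.map_indep_iff]
    constructor
    · intro hI
      refine ⟨e.symm '' I, ?_, ?_⟩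
      · rw [h, Equiv.image_symm_image]
        exact hI
      · rw [Equiv.image_symm_image]
    · rintro ⟨I0, h0, rfl⟩
      exact (h I0).1 h0

private lemma H1b_circuit {e : Equiv.Perm (Fin n)} {M N : Matroid (Fin n)} (hM : M.E = Set.univ)
    (hN : N.E = Set.univ) (h : Iso e M N) {C : Set (Fin n)} (hC : N.IsCircuit C) :
    M.IsCircuit (e.symm '' C) := by
  have hdep : ∀ X : Set (Fin n), M.Dep X ↔ N.Dep (e '' X) := by
    intro X
    rw [Matroid.dep_iff, Matroid.dep_iff, h X, hM, hN]
    simp
  constructor
  · rw [hdep, Equiv.image_symm_image]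
    exact hC.1
  · intro D hD hDC
    have h1 : e '' D ⊆ C := by
      have := Set.image_mono (f := e) hDC
      rwa [Equiv.image_symm_image] at this
    have h2 := hC.2 ((hdep D).1 hD) h1
    have h3 := Set.image_mono (f := e.symm) h2
    rwa [Equiv.symm_image_image] at h3

private lemma H1b_paving {e : Equiv.Perm (Fin n)} {M N : Matroid (Fin n)} (hM : M.E = Set.univ)
    (hN : N.E = Set.univ) (h : Iso e M N) (hs : Paving M) : Paving N := by
  intro C hC
  have h1 := hs _ (H1b_circuit hM hN h hC)
  rw [e.symm.injective.encard_image] at h1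
  rw [H1b_eq_map hM hN h, Matroid.eRank_map]
  exact h1

theorem iso_dual {e : Equiv.Perm (Fin n)} {M N : Matroid (Fin n)} (hM : M.E = Set.univ)
    (hN : N.E = Set.univ) (h : Iso e M N) : Iso e M✶ N✶ := by
  intro I
  have h1 : N✶ = M✶.map e e.injective.injOn := by
    rw [H1b_eq_map hM hN h]
    exact Matroid.map_dual
  rw [h1]
  refine (Matroid.map_image_indep_iff ?_).symm
  rw [Matroid.dual_ground, hM]
  exact Set.subset_univ _

theorem iso_eRank {e : Equiv.Perm (Fin n)} {M N : Matroid (Fin n)} (hM : M.E = Set.univ)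
    (hN : N.E = Set.univ) (h : Iso e M N) : N.eRank = M.eRank := by
  rw [H1b_eq_map hM hN h, Matroid.eRank_map]

theorem iso_sparsePaving {e : Equiv.Perm (Fin n)} {M N : Matroid (Fin n)} (hM : M.E = Set.univ)
    (hN : N.E = Set.univ) (h : Iso e M N) (hs : SparsePaving M) : SparsePaving N :=
  ⟨H1b_paving hM hN h hs.1, H1b_paving (by rw [Matroid.dual_ground, hM])
    (by rw [Matroid.dual_ground, hN]) (iso_dual hM hN h) hs.2⟩

theorem iso_SP {r : ℕ} {e : Equiv.Perm (Fin n)} {M N : Matroid (Fin n)} (hM : SP r M)
    (hN : N.E = Set.univ) (h : Iso e M N) : SP r N :=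
  ⟨hN, iso_sparsePaving hM.1 hN h hM.2.1, (iso_eRank hM.1 hN h).trans hM.2.2⟩

end Pool.Agent.H8.VM
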