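import Pool.Agent.H8.VM.HDefs
import Pool.Agent.H8.VM.H1a_Basic

/-! MODULE H1c (part of H1) (about 250 lines; may be split). Isomorphisms preserve everything.

`iso_exists`: `M.mapEquiv e` (`Matroid.mapEquiv`), or `Matroid.map`, or `Matroid.ofExistsMatroid`.
`iso_eRank`, `iso_sparsePaving`: bases correspond to bases (maximal independent sets), dependent
sets to dependent sets, circuits to circuits (minimal dependent sets), `encard (e '' C) =
encard C`; the independent sets of the dual are the sets disjoint from some base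
(`Matroid.dual_indep_iff_exists`), so `Iso e M N` implies `Iso e (dual M) (dual N)`. It may be
simplest to show `N = M.mapEquiv e` (`Matroid.ext_indep`) and to use the `Matroid.mapEquiv` API
(`Matroid.mapEquiv_dual`, ...).
`iso_hasV8`: if `C, D, φ` witness `HasV8 M` then `e '' C, e '' D, e ∘ φ` witness `HasV8 N`;
contraction: `(M / C).Indep J` iff there is a basis `I0` of `C` with `J cup I0` independent and
`J` disjoint from `C` (`Matroid.IsBasis.contract_indep_iff`, ...), all transported by `e`. -/

open scoped BigOperators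

namespace Pool.Agent.H8.VM

open Pool.Agent.H28.Johnson Pool.Agent.H28.KW Pool.Agent.H28.Windows Pool.Agent.H28.SPMatroid
  Pool.Agent.H28.V8

variable {n : ℕ}

private lemma H1c_basis {e : Equiv.Perm (Fin n)} {M N : Matroid (Fin n)} (hM : M.E = Set.univ)
    (hN : N.E = Set.univ) (h : Iso e M N) {I0 C : Set (Fin n)} (hI : M.IsBasis I0 C) :
    N.IsBasis (e '' I0) (e '' C) := by
  rw [Matroid.isBasis_iff (by rw [hN]; exact Set.subset_univ _)]
  rw [Matroid.isBasis_iff (by rw [hM]; exact Set.subset_univ _)] at hI
  obtain ⟨h1, h2, h3⟩ := hI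
  refine ⟨(h I0).mp h1, Set.image_mono h2, ?_⟩
  intro J hJ hIJ hJC
  have hJe : e '' (e ⁻¹' J) = J := Set.image_preimage_eq J e.surjective
  have h4 : M.Indep (e ⁻¹' J) := by
    rw [h, hJe]
    exact hJ
  have h5 := h3 (e ⁻¹' J) h4 (Set.image_subset_iff.mp hIJ)
    (by
      intro x hx
      obtain ⟨y, hy, hyx⟩ := hJC hx
      rwa [← e.injective hyx])
  rw [h5, hJe]

private lemma H1c_contract {e : Equiv.Perm (Fin n)} {M N : Matroid (Fin n)} (hM : M.E = Set.univ)
    (hN : N.E = Set.univ) (h : Iso e M N) (C J : Set (Fin n)) :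
    (M.contract C).Indep J ↔ (N.contract (e '' C)).Indep (e '' J) := by
  obtain ⟨I0, hI0⟩ := M.exists_isBasis C (by rw [hM]; exact Set.subset_univ _)
  rw [hI0.contract_indep_iff, (H1c_basis hM hN h hI0).contract_indep_iff, ← Set.image_union, ← h,
    Set.disjoint_image_iff e.injective]

theorem iso_hasV8 {e : Equiv.Perm (Fin n)} {M N : Matroid (Fin n)} (hM : M.E = Set.univ)
    (hN : N.E = Set.univ) (h : Iso e M N) (hV : HasV8 M) : HasV8 N := by
  obtain ⟨C, D, φ, hφ, hr, hI⟩ := hV
  refine ⟨e '' C, e '' D, e ∘ φ, e.injective.comp hφ, ?_, ?_⟩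
  · rw [Set.range_comp, hr, Matroid.delete_ground, Matroid.contract_ground,
      Matroid.delete_ground, Matroid.contract_ground, hM, hN, Set.image_sdiff e.injective,
      Set.image_sdiff e.injective, Set.image_univ_of_surjective e.surjective]
  · intro I
    rw [← hI I, Set.image_comp, Matroid.delete_indep_iff, Matroid.delete_indep_iff,
      ← H1c_contract hM hN h, Set.disjoint_image_iff e.injective]

end Pool.Agent.H8.VM
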