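import Pool.Agent.H8.VM.H1a_Basic
import Pool.Agent.H8.VM.H1b_Paving
import Pool.Agent.H8.VM.H1c_V8

/-! Collects the parts of H1_Iso. -/
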