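import Pool.Agent.H8.VM.H1_Iso

/-! MODULE H2b (part of H2) (about 250 lines). From labelled to unlabelled counts.

(Model: the lemma `ratios` of `Pool/Agent/Results/MP_3ce63d_co/SparsePavingLowRank.lean`.)
Let `t, b, sy` be the numbers of `M` with `P`, with `P` and not `Q`, with `P` and a nontrivial
automorphism; `T, A` the numbers of classes of members of `P`, of members of `P` and `Q`.
* `t <= n! T`: the matroids of a class are images of one of them under `n!` permutations.
* a class of a member of `P` which is not the class of a member of `P` and `Q` consists of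
  matroids with `P` and not `Q` (`P`, `Q` are invariant). If it has a member `M` without nontrivial
  automorphism, it has exactly `n!` members (`e -> image of M under e` is injective: `Iso e M N`
  and `Iso f M N` give `Iso (f⁻¹ * e) M M`, so `e = f`); the classes are disjoint, so there are at
  most `b/n!` of those. Otherwise it contains a member with a nontrivial automorphism: at most
  `sy` of those.
So `T - A <= b/n! + sy <= (δ t)/n! + δ t/n! <= 2 δ T`. -/

open scoped BigOperators

namespace Pool.Agent.H8.VM

open Pool.Agent.H28.Johnson Pool.Agent.H28.KW Pool.Agent.H28.Windows Pool.Agent.H28.SPMatroid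
  Pool.Agent.H28.V8

/-- the labelled ratio -/
theorem labelled_ratio {n : ℕ} (P Q : Matroid (Fin n) → Prop) (hne : ∃ M, P M)
    (δ : ℝ) (hb : (Nat.card {M : Matroid (Fin n) // P M ∧ ¬ Q M} : ℝ) ≤
      δ * (Nat.card {M : Matroid (Fin n) // P M} : ℝ)) :
    1 - δ ≤ (Nat.card {M : Matroid (Fin n) // P M ∧ Q M} : ℝ) /
        (Nat.card {M : Matroid (Fin n) // P M} : ℝ) ∧
      (Nat.card {M : Matroid (Fin n) // P M ∧ Q M} : ℝ) /
        (Nat.card {M : Matroid (Fin n) // P M} : ℝ) ≤ 1 := by
  classical
  have key : ∀ R : Matroid (Fin n) → Prop, Nat.card {M : Matroid (Fin n) // R M} =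
      (Set.toFinite {M : Matroid (Fin n) | R M}).toFinset.card := by
    intro R
    rw [← Set.ncard_eq_toFinset_card]
    rfl
  have hsplit : (Set.toFinite {M : Matroid (Fin n) | P M}).toFinset.card =
      (Set.toFinite {M : Matroid (Fin n) | P M ∧ Q M}).toFinset.card +
        (Set.toFinite {M : Matroid (Fin n) | P M ∧ ¬ Q M}).toFinset.card := by
    rw [← Finset.card_union_of_disjoint]
    · congr 1
      ext M
      simp only [Set.Finite.mem_toFinset, Set.mem_ofPred_eq, Finset.mem_union]
      tauto
    · rw [Finset.disjoint_left]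
      intro M h1 h2
      simp only [Set.Finite.mem_toFinset, Set.mem_ofPred_eq] at h1 h2
      exact h2.2 h1.2
  have hpos : 0 < (Set.toFinite {M : Matroid (Fin n) | P M}).toFinset.card := by
    obtain ⟨M, hM⟩ := hne
    refine Finset.card_pos.mpr ⟨M, ?_⟩
    simpa using hM
  rw [key P, key (fun M => P M ∧ ¬ Q M)] at hb
  rw [key P, key (fun M => P M ∧ Q M)]
  have hposR : (0 : ℝ) < ((Set.toFinite {M : Matroid (Fin n) | P M}).toFinset.card : ℝ) := by
    exact_mod_cast hpos
  have hsplitR : ((Set.toFinite {M : Matroid (Fin n) | P M}).toFinset.card : ℝ) =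
      ((Set.toFinite {M : Matroid (Fin n) | P M ∧ Q M}).toFinset.card : ℝ) +
        ((Set.toFinite {M : Matroid (Fin n) | P M ∧ ¬ Q M}).toFinset.card : ℝ) := by
    exact_mod_cast hsplit
  have hnn : (0 : ℝ) ≤ ((Set.toFinite {M : Matroid (Fin n) | P M ∧ ¬ Q M}).toFinset.card : ℝ) :=
    Nat.cast_nonneg _
  constructor
  · rw [le_div_iff₀ hposR]
    nlinarith
  · rw [div_le_one hposR]
    linarith

end Pool.Agent.H8.VM
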