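import Pool.Agent.H8.VM.H2a_Ratio
import Pool.Agent.H8.VM.H2b_Lab

/-! Collects the parts of H2_Classes. -/
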