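import Pool.Agent.H8.VM.H1_Iso

/-! MODULE H2a (part of H2) (about 250 lines). From labelled to unlabelled counts.

(Model: the lemma `ratios` of `Pool/Agent/Results/MP_3ce63d_co/SparsePavingLowRank.lean`.)
Let `t, b, sy` be the numbers of `M` with `P`, with `P` and not `Q`, with `P` and a nontrivial
automorphism; `T, A` the numbers of classes of members of `P`, of members of `P` and `Q`.
* `t <= n! T`: the matroids of a class are images of one of them under `n!` permutations.
* a class of a member of `P` which is not the class of a member of `P` and `Q` consists of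
  matroids with `P` and not `Q` (`P`, `Q` are invariant). If it has a member `M` without nontrivial
  automorphism, it has exactly `n!` members (`e -> image of M under e` is injective: `Iso e M N`
  and `Iso f M N` give `Iso (f⁻¹ * e) M M`, so `e = f`); the classes are disjoint, so there are at
  most `b/n!` of those. Otherwise it contains a member with a nontrivial automorphism: at most
  `sy` of those.
So `T - A <= b/n! + sy <= (δ t)/n! + δ t/n! <= 2 δ T`. -/

open scoped BigOperators

namespace Pool.Agent.H8.VM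

open Pool.Agent.H28.Johnson Pool.Agent.H28.KW Pool.Agent.H28.Windows Pool.Agent.H28.SPMatroid
  Pool.Agent.H28.V8

private lemma h2a_class_eq {n : ℕ} {e : Equiv.Perm (Fin n)} {M N : Matroid (Fin n)}
    (h : Iso e M N) : isoClass M = isoClass N := by
  ext K
  constructor
  · rintro ⟨h1, f, hf⟩
    exact ⟨h1, f * e⁻¹, iso_trans (iso_symm h) hf⟩
  · rintro ⟨h1, f, hf⟩
    exact ⟨h1, f * e, iso_trans h hf⟩

theorem class_ratio {n : ℕ} (P Q : Matroid (Fin n) → Prop) (hPE : ∀ M, P M → M.E = Set.univ)
    (hne : ∃ M, P M)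
    (hP : ∀ (e : Equiv.Perm (Fin n)) (M N : Matroid (Fin n)), P M → N.E = Set.univ →
      Iso e M N → P N)
    (hQ : ∀ (e : Equiv.Perm (Fin n)) (M N : Matroid (Fin n)), P M → N.E = Set.univ →
      Iso e M N → Q M → Q N)
    (δ : ℝ) (hδ : 0 ≤ δ)
    (hb : (Nat.card {M : Matroid (Fin n) // P M ∧ ¬ Q M} : ℝ) ≤
      δ * (Nat.card {M : Matroid (Fin n) // P M} : ℝ))
    (hs : (n.factorial : ℝ) * (Nat.card {M : Matroid (Fin n) // P M ∧ Sym M} : ℝ) ≤
      δ * (Nat.card {M : Matroid (Fin n) // P M} : ℝ)) :
    1 - 2 * δ ≤ (Nat.card {S : Set (Matroid (Fin n)) // ∃ M : Matroid (Fin n),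
          P M ∧ Q M ∧ S = isoClass M} : ℝ) /
        (Nat.card {S : Set (Matroid (Fin n)) // ∃ M : Matroid (Fin n), P M ∧ S = isoClass M} : ℝ) ∧
      (Nat.card {S : Set (Matroid (Fin n)) // ∃ M : Matroid (Fin n),
          P M ∧ Q M ∧ S = isoClass M} : ℝ) /
        (Nat.card {S : Set (Matroid (Fin n)) // ∃ M : Matroid (Fin n), P M ∧ S = isoClass M} : ℝ)
        ≤ 1 := by
  classical
  have : Fintype (Matroid (Fin n)) := Fintype.ofFinite _
  set U : Finset (Matroid (Fin n)) := Finset.univ with hU
  have c1 : ∀ R : Matroid (Fin n) → Prop, Nat.card {M : Matroid (Fin n) // R M} =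
      (U.filter R).card := by
    intro R
    rw [Nat.card_eq_fintype_card, Fintype.card_subtype]
  have c2 : ∀ R : Matroid (Fin n) → Prop, Nat.card {S : Set (Matroid (Fin n)) //
      ∃ M : Matroid (Fin n), R M ∧ S = isoClass M} = ((U.filter R).image isoClass).card := by
    intro R
    rw [← Nat.card_eq_finsetCard]
    refine Nat.card_congr (Equiv.subtypeEquivRight ?_)
    intro S
    rw [Finset.mem_image]
    constructor
    · rintro ⟨M, hM, rfl⟩
      exact ⟨M, Finset.mem_filter.mpr ⟨Finset.mem_univ _, hM⟩, rfl⟩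
    · rintro ⟨M, hM, rfl⟩
      exact ⟨M, (Finset.mem_filter.mp hM).2, rfl⟩
  obtain ⟨PQ, hPQ⟩ : ∃ R : Matroid (Fin n) → Prop, ∀ M, R M ↔ P M ∧ Q M := ⟨_, fun _ => Iff.rfl⟩
  obtain ⟨PN, hPN⟩ : ∃ R : Matroid (Fin n) → Prop, ∀ M, R M ↔ P M ∧ ¬ Q M := ⟨_, fun _ => Iff.rfl⟩
  obtain ⟨PS, hPS⟩ : ∃ R : Matroid (Fin n) → Prop, ∀ M, R M ↔ P M ∧ Sym M := ⟨_, fun _ => Iff.rfl⟩
  have c2' : Nat.card {S : Set (Matroid (Fin n)) //
      ∃ M : Matroid (Fin n), P M ∧ Q M ∧ S = isoClass M} =
      ((U.filter PQ).image isoClass).card := by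
    rw [← c2 PQ]
    simp only [hPQ, and_assoc]
  have c1n : Nat.card {M : Matroid (Fin n) // P M ∧ ¬ Q M} = (U.filter PN).card := by
    rw [← c1 PN]
    simp only [hPN]
  have c1s : Nat.card {M : Matroid (Fin n) // P M ∧ Sym M} = (U.filter PS).card := by
    rw [← c1 PS]
    simp only [hPS]
  rw [c2', c2 P]
  rw [c1 P, c1n] at hb
  rw [c1 P, c1s] at hs
  have hTpos : 0 < ((U.filter P).image isoClass).card := by
    obtain ⟨M, hM⟩ := hne
    exact Finset.card_pos.mpr ⟨_, Finset.mem_image_of_mem _
      (Finset.mem_filter.mpr ⟨Finset.mem_univ _, hM⟩)⟩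
  have hperm : Fintype.card (Equiv.Perm (Fin n)) = n.factorial := by
    rw [Fintype.card_perm, Fintype.card_fin]
  have hself : ∀ M : Matroid (Fin n), M.E = Set.univ → M ∈ isoClass M :=
    fun M hM => ⟨hM, 1, iso_refl M⟩
  have hfib : (U.filter P).card ≤ n.factorial * ((U.filter P).image isoClass).card := by
    refine Finset.card_le_mul_card_image (U.filter P) n.factorial ?_
    intro S hS
    rw [Finset.mem_image] at hS
    obtain ⟨M0, _, rfl⟩ := hS
    have hmem : ∀ N ∈ (U.filter P).filter (fun M => isoClass M = isoClass M0),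
        ∃ e : Equiv.Perm (Fin n), N.E = Set.univ ∧ Iso e M0 N := by
      intro N hN
      rw [Finset.mem_filter, Finset.mem_filter] at hN
      have h1 := hself N (hPE N hN.1.2)
      rw [hN.2] at h1
      obtain ⟨h2, e, he⟩ := h1
      exact ⟨e, h2, he⟩
    choose! g hg using hmem
    rw [← hperm, ← Finset.card_univ]
    refine Finset.card_le_card_of_injOn g (fun _ _ => Finset.mem_coe.2 (Finset.mem_univ _)) ?_
    intro N hN N' hN' hgg
    have h1 := hg N hN
    have h2 := hg N' hN'
    rw [← hgg] at h2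
    exact iso_unique h1.1 h2.1 h1.2 h2.2
  set D : Finset (Set (Matroid (Fin n))) :=
    (U.filter P).image isoClass \ (U.filter PQ).image isoClass with hD
  set D2 : Finset (Set (Matroid (Fin n))) := (U.filter PS).image isoClass with hD2
  have hsub : (U.filter PQ).image isoClass ⊆ (U.filter P).image isoClass := by
    apply Finset.image_subset_image
    intro M hM
    rw [Finset.mem_filter, hPQ] at hM
    rw [Finset.mem_filter]
    exact ⟨hM.1, hM.2.1⟩
  have hDcard : D.card + ((U.filter PQ).image isoClass).card =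
      ((U.filter P).image isoClass).card := by
    rw [hD, Finset.card_sdiff_of_subset hsub]
    have := Finset.card_le_card hsub
    omega
  have hD2card : D2.card ≤ (U.filter PS).card := Finset.card_image_le
  have hD1 : n.factorial * (D \ D2).card ≤ (U.filter PN).card := by
    have h1 : ∀ S ∈ D \ D2, n.factorial ≤ ((U.filter PN).filter fun M => isoClass M = S).card := by
      intro S hS
      rw [Finset.mem_sdiff, hD, Finset.mem_sdiff] at hS
      obtain ⟨⟨h1, h2⟩, h3⟩ := hS
      obtain ⟨M0, hM0, rfl⟩ := Finset.mem_image.1 h1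
      have hPM0 : P M0 := (Finset.mem_filter.1 hM0).2
      have hns : ¬ Sym M0 := by
        intro hsym
        apply h3
        rw [hD2, Finset.mem_image]
        exact ⟨M0, Finset.mem_filter.2 ⟨Finset.mem_univ _, (hPS M0).2 ⟨hPM0, hsym⟩⟩, rfl⟩
      have hex : ∀ e : Equiv.Perm (Fin n), ∃ N : Matroid (Fin n), N.E = Set.univ ∧ Iso e M0 N :=
        fun e => iso_exists e (hPE M0 hPM0)
      choose F hF1 hF2 using hex
      rw [← hperm, ← Finset.card_univ]
      refine Finset.card_le_card_of_injOn F ?_ ?_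
      · intro e _
        have h4 : P (F e) := hP e M0 (F e) hPM0 (hF1 e) (hF2 e)
        have h5 : isoClass (F e) = isoClass M0 := (h2a_class_eq (hF2 e)).symm
        rw [Finset.mem_coe, Finset.mem_filter, Finset.mem_filter, hPN]
        refine ⟨⟨Finset.mem_univ _, h4, ?_⟩, h5⟩
        intro hq
        apply h2
        rw [Finset.mem_image]
        exact ⟨F e, Finset.mem_filter.2 ⟨Finset.mem_univ _, (hPQ _).2 ⟨h4, hq⟩⟩, h5⟩
      · intro e _ f _ hef
        have h4 := hF2 e
        have h5 := hF2 f
        rw [← hef] at h5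
        have h6 : Iso (f⁻¹ * e) M0 M0 := iso_trans h4 (iso_symm h5)
        by_contra hne'
        apply hns
        refine ⟨f⁻¹ * e, ?_, h6⟩
        intro h7
        apply hne'
        rw [inv_mul_eq_one] at h7
        exact h7.symm
    have h2 := Finset.sum_card_fiberwise_eq_card_filter (U.filter PN) (D \ D2) isoClass
    calc n.factorial * (D \ D2).card = ∑ _S ∈ D \ D2, n.factorial := by
          rw [Finset.sum_const, smul_eq_mul, mul_comm]
      _ ≤ ∑ S ∈ D \ D2, ((U.filter PN).filter fun M => isoClass M = S).card :=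
          Finset.sum_le_sum h1
      _ = ((U.filter PN).filter fun M => isoClass M ∈ D \ D2).card := h2
      _ ≤ (U.filter PN).card := Finset.card_filter_le _ _
  have hDle : D.card ≤ (D \ D2).card + D2.card := by
    have := Finset.card_le_card_sdiff_add_card (s := D) (t := D2)
    exact this
  have hfac : (0 : ℝ) < (n.factorial : ℝ) := by exact_mod_cast n.factorial_pos
  set T : ℝ := (((U.filter P).image isoClass).card : ℝ) with hTdef
  have hTpos' : (0 : ℝ) < T := by rw [hTdef]; exact_mod_cast hTpos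
  have e1 : (D.card : ℝ) + (((U.filter PQ).image isoClass).card : ℝ) = T := by
    rw [hTdef]; exact_mod_cast hDcard
  have e2 : (n.factorial : ℝ) * ((D \ D2).card : ℝ) ≤ ((U.filter PN).card : ℝ) := by
    exact_mod_cast hD1
  have e3 : (D.card : ℝ) ≤ ((D \ D2).card : ℝ) + (D2.card : ℝ) := by exact_mod_cast hDle
  have e4 : (D2.card : ℝ) ≤ ((U.filter PS).card : ℝ) := by exact_mod_cast hD2card
  have e5 : ((U.filter P).card : ℝ) ≤ n.factorial * T := by
    rw [hTdef]; exact_mod_cast hfib
  have e6 : (n.factorial : ℝ) * D.card ≤ (n.factorial : ℝ) * (2 * δ * T) := by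
    calc (n.factorial : ℝ) * D.card
        ≤ n.factorial * ((D \ D2).card + (D2.card : ℝ)) := by gcongr
      _ = n.factorial * ((D \ D2).card : ℝ) + n.factorial * (D2.card : ℝ) := by ring
      _ ≤ ((U.filter PN).card : ℝ) + n.factorial * ((U.filter PS).card : ℝ) := by gcongr
      _ ≤ δ * ((U.filter P).card : ℝ) + δ * ((U.filter P).card : ℝ) := add_le_add hb hs
      _ = 2 * δ * ((U.filter P).card : ℝ) := by ring
      _ ≤ 2 * δ * (n.factorial * T) := by gcongr
      _ = _ := by ring
  have e7 : (D.card : ℝ) ≤ 2 * δ * T := le_of_mul_le_mul_left e6 hfac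
  constructor
  · rw [le_div_iff₀ hTpos']
    linarith
  · rw [div_le_one hTpos']
    have : (0 : ℝ) ≤ (D.card : ℝ) := Nat.cast_nonneg _
    linarith

end Pool.Agent.H8.VM
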