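import Pool.Agent.H8.VM.G7_Sym
import Pool.Agent.H8.VM.H1_Iso

/-! MODULE H3a (part of H3) (about 150 lines). Sparse paving matroids with a symmetry are rare.

If `SP r M` and `Iso e M M` then `wnd (nb r M) e = nb r M` (`act e S` has the same cardinality,
and is independent iff `S` is). For `2r <= n`: `Pool.Agent.H28.SPMatroid.card_SP_filter` with
`Q I = (exists e <> 1, wnd I e = I)`, and `sym_small` summed over the `n!` permutations. For
`2r > n`: the bijection `M -> dual M` onto `SP (n-r)` (`Pool.Agent.H28.V8.SP.dual`,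
`Matroid.dual_dual`) and `iso_dual`; `C(n, n-r) = C(n, r)`. -/

open scoped BigOperators
open Filter

namespace Pool.Agent.H8.VM

open Pool.Agent.H28.Johnson Pool.Agent.H28.KW Pool.Agent.H28.Windows Pool.Agent.H28.SPMatroid
  Pool.Agent.H28.V8

private lemma H3a_wnd {n r : ℕ} {M : Matroid (Fin n)} {e : Equiv.Perm (Fin n)}
    (h : Iso e M M) : wnd (nb r M) e = nb r M := by
  have hc : ∀ S : Finset (Fin n),
      ((act e S : Finset (Fin n)) : Set (Fin n)) = e '' (S : Set (Fin n)) := by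
    intro S
    rw [act_apply, Finset.coe_map]
    rfl
  have hi : ∀ S : Finset (Fin n), act e S ∈ nb r M ↔ S ∈ nb r M := by
    intro S
    rw [mem_nb, mem_nb, card_act, hc, ← h (S : Set (Fin n))]
  ext t
  rw [mem_wnd]
  constructor
  · rintro ⟨x, hx, rfl⟩
    exact (hi x).mpr hx
  · intro ht
    refine ⟨(act e).symm t, ?_, (act e).apply_symm_apply t⟩
    rw [← hi, (act e).apply_symm_apply]
    exact ht

private lemma H3a_half {n r : ℕ} (hr : 1 ≤ r) (hrn : r < n) {x : ℝ} (hx : 0 ≤ x)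
    (h : ∀ π : Equiv.Perm (Fin n), π ≠ 1 →
      ((inv r π).card : ℝ) ≤ x * ((stables n r).card : ℝ)) :
    (Nat.card {M : Matroid (Fin n) // SP r M ∧ Sym M} : ℝ) ≤
      (n.factorial : ℝ) * x * (Nat.card {M : Matroid (Fin n) // SP r M} : ℝ) := by
  classical
  have hs : Nat.card {M : Matroid (Fin n) // SP r M} = (stables n r).card := by
    have h1 := card_SP_filter hr hrn (fun _ => True)
    simpa using h1
  rw [hs]
  have h2 : Nat.card {M : Matroid (Fin n) // SP r M ∧ Sym M} ≤
      Nat.card {M : Matroid (Fin n) // SP r M ∧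
        ∃ e : Equiv.Perm (Fin n), e ≠ 1 ∧ wnd (nb r M) e = nb r M} := by
    apply Nat.card_le_card_of_injective
      (fun M : {M : Matroid (Fin n) // SP r M ∧ Sym M} =>
        (⟨M.1, M.2.1, by
          obtain ⟨e, he, hiso⟩ := M.2.2
          exact ⟨e, he, H3a_wnd hiso⟩⟩ : {M : Matroid (Fin n) // SP r M ∧
            ∃ e : Equiv.Perm (Fin n), e ≠ 1 ∧ wnd (nb r M) e = nb r M}))
    intro A B hAB
    simp only [Subtype.mk.injEq] at hAB
    exact Subtype.ext hAB
  have h3 := card_SP_filter hr hrn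
    (fun I => ∃ e : Equiv.Perm (Fin n), e ≠ 1 ∧ wnd I e = I)
  have h4 : ((stables n r).filter
      (fun I => ∃ e : Equiv.Perm (Fin n), e ≠ 1 ∧ wnd I e = I)).card ≤
      ∑ e ∈ (Finset.univ : Finset (Equiv.Perm (Fin n))).filter (fun e => e ≠ 1),
        (inv r e).card := by
    refine le_trans (Finset.card_le_card ?_) Finset.card_biUnion_le
    intro I hI
    rw [Finset.mem_filter] at hI
    obtain ⟨hI, e, he, hw⟩ := hI
    rw [Finset.mem_biUnion]
    exact ⟨e, Finset.mem_filter.mpr ⟨Finset.mem_univ _, he⟩, mem_inv.mpr ⟨hI, hw⟩⟩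
  have h5 : (Nat.card {M : Matroid (Fin n) // SP r M ∧ Sym M} : ℝ) ≤
      ∑ e ∈ (Finset.univ : Finset (Equiv.Perm (Fin n))).filter (fun e => e ≠ 1),
        ((inv r e).card : ℝ) := by
    have h6 : Nat.card {M : Matroid (Fin n) // SP r M ∧ Sym M} ≤
        ∑ e ∈ (Finset.univ : Finset (Equiv.Perm (Fin n))).filter (fun e => e ≠ 1),
        (inv r e).card := by
      refine h2.trans (le_trans (le_of_eq ?_) h4)
      convert h3
    exact_mod_cast h6
  refine h5.trans ?_
  have h7 : ∑ e ∈ (Finset.univ : Finset (Equiv.Perm (Fin n))).filter (fun e => e ≠ 1),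
        ((inv r e).card : ℝ) ≤
      ∑ e ∈ (Finset.univ : Finset (Equiv.Perm (Fin n))).filter (fun e => e ≠ 1),
        (x * ((stables n r).card : ℝ)) :=
    Finset.sum_le_sum fun e he => h e (Finset.mem_filter.mp he).2
  refine h7.trans ?_
  rw [Finset.sum_const, nsmul_eq_mul]
  have h8 : ((((Finset.univ : Finset (Equiv.Perm (Fin n))).filter (fun e => e ≠ 1)).card : ℕ) : ℝ)
      ≤ (n.factorial : ℝ) := by
    have h9 := Finset.card_filter_le (Finset.univ : Finset (Equiv.Perm (Fin n))) (fun e => e ≠ 1)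
    rw [Finset.card_univ, Fintype.card_perm, Fintype.card_fin] at h9
    exact_mod_cast h9
  calc _ ≤ (n.factorial : ℝ) * (x * ((stables n r).card : ℝ)) := by
        refine mul_le_mul_of_nonneg_right h8 ?_
        positivity
    _ = _ := by ring

private lemma H3a_dual_sym {n : ℕ} {M : Matroid (Fin n)} (hM : M.E = Set.univ) (h : Sym M) :
    Sym M✶ := by
  obtain ⟨e, he, hiso⟩ := h
  exact ⟨e, he, iso_dual hM hM hiso⟩

theorem matroid_sym : ∃ c : ℝ, 0 < c ∧ ∀ᶠ n : ℕ in atTop, ∀ r : ℕ, n ≤ 13 * r →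
    13 * r ≤ 12 * n →
    (Nat.card {M : Matroid (Fin n) // SP r M ∧ Sym M} : ℝ) ≤
      (n.factorial : ℝ) * Real.exp (-(c * ((n.choose r : ℝ) / n))) *
        (Nat.card {M : Matroid (Fin n) // SP r M} : ℝ) := by
  obtain ⟨c, hc, hsym⟩ := sym_small
  refine ⟨c, hc, ?_⟩
  filter_upwards [hsym, eventually_ge_atTop 1] with n hsym hn r h13 h12
  by_cases h2 : 2 * r ≤ n
  · exact H3a_half (by omega) (by omega) (Real.exp_pos _).le (hsym r h13 h2)
  · have hrn : r ≤ n := by omega
    obtain ⟨r', hr'⟩ : ∃ r' : ℕ, r' = n - r := ⟨_, rfl⟩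
    have hrr : n - r' = r := by omega
    have hch : n.choose r = n.choose r' := by rw [hr', Nat.choose_symm hrn]
    have hdu : ∀ M : Matroid (Fin n), SP r M → SP r' M✶ := by
      intro M hM
      have := SP.dual hM
      rwa [← hr'] at this
    have hdu' : ∀ M : Matroid (Fin n), SP r' M → SP r M✶ := by
      intro M hM
      have := SP.dual hM
      rwa [hrr] at this
    have e1 : Nat.card {M : Matroid (Fin n) // SP r M} =
        Nat.card {M : Matroid (Fin n) // SP r' M} := by
      refine Nat.card_congr ⟨fun M => ⟨M.1✶, hdu M.1 M.2⟩, fun M => ⟨M.1✶, hdu' M.1 M.2⟩, ?_, ?_⟩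
      · intro M; exact Subtype.ext (Matroid.dual_dual _)
      · intro M; exact Subtype.ext (Matroid.dual_dual _)
    have e2 : Nat.card {M : Matroid (Fin n) // SP r M ∧ Sym M} =
        Nat.card {M : Matroid (Fin n) // SP r' M ∧ Sym M} := by
      refine Nat.card_congr
        ⟨fun M => ⟨M.1✶, hdu M.1 M.2.1, H3a_dual_sym M.2.1.1 M.2.2⟩,
        fun M => ⟨M.1✶, hdu' M.1 M.2.1, H3a_dual_sym M.2.1.1 M.2.2⟩, ?_, ?_⟩
      · intro M; exact Subtype.ext (Matroid.dual_dual _)
      · intro M; exact Subtype.ext (Matroid.dual_dual _)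
    rw [e1, e2, hch]
    exact H3a_half (by omega) (by omega) (Real.exp_pos _).le
      (hsym r' (by omega) (by omega))

end Pool.Agent.H8.VM
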