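import Pool.Agent.H8.VM.G7_Sym
import Pool.Agent.H8.VM.H1_Iso
import Pool.Agent.H8.VM.H3a_Sym

/-! MODULE H3b (part of H3) (about 150 lines). Sparse paving matroids with a symmetry are rare.

If `SP r M` and `Iso e M M` then `wnd (nb r M) e = nb r M` (`act e S` has the same cardinality,
and is independent iff `S` is). For `2r <= n`: `Pool.Agent.H28.SPMatroid.card_SP_filter` with
`Q I = (exists e <> 1, wnd I e = I)`, and `sym_small` summed over the `n!` permutations. For
`2r > n`: the bijection `M -> dual M` onto `SP (n-r)` (`Pool.Agent.H28.V8.SP.dual`,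
`Matroid.dual_dual`) and `iso_dual`; `C(n, n-r) = C(n, r)`. -/

open scoped BigOperators
open Filter

namespace Pool.Agent.H8.VM

open Pool.Agent.H28.Johnson Pool.Agent.H28.KW Pool.Agent.H28.Windows Pool.Agent.H28.SPMatroid
  Pool.Agent.H28.V8

/-- binomial coefficients increase up to the middle -/
lemma H3b_choose_mono {n k r : ℕ} (hkr : k ≤ r) (hr : r ≤ n / 2) : n.choose k ≤ n.choose r := by
  induction r, hkr using Nat.le_induction with
  | base => exact le_rfl
  | succ m hm ih =>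
    exact (ih (by omega)).trans (Nat.choose_le_succ_of_lt_half_left (by omega))

/-- crude lower bound for the binomial coefficient -/
lemma H3b_choose_lower {n r : ℕ} (hn : 39 ≤ n) (h1 : n ≤ 13 * r) (h2 : 13 * r ≤ 12 * n) :
    (n : ℝ) ^ 2 / 48 ≤ (n.choose r : ℝ) / n := by
  have hn0 : (0 : ℝ) < n := by
    have : 0 < n := by omega
    exact_mod_cast this
  have h3 : n.choose 3 ≤ n.choose r := by
    rcases le_or_gt r (n / 2) with h | h
    · exact H3b_choose_mono (by omega) h
    · have h4 : n.choose 3 ≤ n.choose (n - r) := H3b_choose_mono (by omega) (by omega)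
      rwa [Nat.choose_symm (by omega)] at h4
  have h4 : (((n + 1 - 3 : ℕ) : ℝ) ^ 3) / ((Nat.factorial 3 : ℕ) : ℝ) ≤ (n.choose 3 : ℝ) :=
    Nat.pow_le_choose (α := ℝ) 3 n
  have h5 : ((n + 1 - 3 : ℕ) : ℝ) = (n : ℝ) - 2 := by
    rw [Nat.cast_sub (by omega)]
    push_cast
    ring
  have h6 : ((Nat.factorial 3 : ℕ) : ℝ) = 6 := by norm_num [Nat.factorial]
  rw [h5, h6] at h4
  have h7 : (n : ℝ) / 2 ≤ (n : ℝ) - 2 := by
    have : (39 : ℝ) ≤ n := by exact_mod_cast hn
    linarith
  have h8 : ((n : ℝ) / 2) ^ 3 ≤ ((n : ℝ) - 2) ^ 3 := pow_le_pow_left₀ (by positivity) h7 3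
  have h9 : (n.choose 3 : ℝ) ≤ (n.choose r : ℝ) := by exact_mod_cast h3
  rw [le_div_iff₀ hn0]
  have h10 : (n : ℝ) ^ 2 / 48 * n = ((n : ℝ) / 2) ^ 3 / 6 := by ring
  rw [h10]
  linarith

/-- with the factor needed for isomorphism classes: `n! n! exp (- c N / n)` tends to zero
(`N/n >= 2^(n/13)/n`, `n! <= n^n`) -/
theorem matroid_sym' (δ : ℝ) (hδ : 0 < δ) : ∀ᶠ n : ℕ in atTop, ∀ r : ℕ, n ≤ 13 * r →
    13 * r ≤ 12 * n →
    (n.factorial : ℝ) * (Nat.card {M : Matroid (Fin n) // SP r M ∧ Sym M} : ℝ) ≤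
      δ * (Nat.card {M : Matroid (Fin n) // SP r M} : ℝ) := by
  obtain ⟨c, hc, hev⟩ := matroid_sym
  have hlog : ∀ᶠ n : ℕ in atTop, Real.log (n : ℝ) ≤ c / 192 * n := by
    have h := (Real.isLittleO_log_id_atTop.bound (show (0 : ℝ) < c / 192 by positivity))
    have h2 := tendsto_natCast_atTop_atTop (R := ℝ) |>.eventually h
    filter_upwards [h2, eventually_ge_atTop 1] with n hn hn1
    have h3 : ‖Real.log (n : ℝ)‖ ≤ c / 192 * ‖id (n : ℝ)‖ := hn
    rw [id, Real.norm_of_nonneg (Nat.cast_nonneg n)] at h3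
    exact (le_abs_self _).trans h3
  filter_upwards [hev, hlog, eventually_ge_atTop 39,
    eventually_ge_atTop ⌈96 * (-Real.log δ) / c⌉₊] with n hn hln hn39 hbig r h1 h2
  have hn0 : (0 : ℝ) < n := by
    have : 0 < n := by omega
    exact_mod_cast this
  have hn1 : (1 : ℝ) ≤ n := by
    have : 1 ≤ n := by omega
    exact_mod_cast this
  have h3 := hn r h1 h2
  have h4 := H3b_choose_lower hn39 h1 h2
  set a : ℝ := (Nat.card {M : Matroid (Fin n) // SP r M ∧ Sym M} : ℝ) with ha
  set b : ℝ := (Nat.card {M : Matroid (Fin n) // SP r M} : ℝ) with hb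
  have hb0 : 0 ≤ b := Nat.cast_nonneg _
  set F : ℝ := (n.factorial : ℝ) with hF
  have hF0 : 0 ≤ F := Nat.cast_nonneg _
  have hF1 : F ≤ Real.exp (n * Real.log n) := by
    have h5 : F ≤ (n : ℝ) ^ n := by
      rw [hF]
      exact_mod_cast Nat.factorial_le_pow n
    have h6 : Real.exp (n * Real.log n) = (n : ℝ) ^ n := by
      rw [← Real.log_pow, Real.exp_log (by positivity)]
    rw [h6]
    exact h5
  have h7 : F * F ≤ Real.exp (2 * (n * Real.log n)) := by
    have h8 : Real.exp (2 * (n * Real.log n)) =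
        Real.exp (n * Real.log n) * Real.exp (n * Real.log n) := by
      rw [← Real.exp_add]
      ring_nf
    rw [h8]
    exact mul_le_mul hF1 hF1 hF0 (Real.exp_nonneg _)
  have h9 : 2 * (n * Real.log n) + -(c * ((n.choose r : ℝ) / n)) ≤ Real.log δ := by
    have h10 : c * ((n : ℝ) ^ 2 / 48) ≤ c * ((n.choose r : ℝ) / n) :=
      mul_le_mul_of_nonneg_left h4 hc.le
    have h11 : (n : ℝ) * Real.log n ≤ n * (c / 192 * n) := mul_le_mul_of_nonneg_left hln hn0.le
    have h12 : 96 * (-Real.log δ) / c ≤ n := (Nat.le_ceil _).trans (by exact_mod_cast hbig)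
    rw [div_le_iff₀ hc] at h12
    have h14 : (n : ℝ) ≤ (n : ℝ) ^ 2 := by nlinarith
    have h13 : (n : ℝ) * c ≤ (n : ℝ) ^ 2 * c := mul_le_mul_of_nonneg_right h14 hc.le
    nlinarith
  calc F * a ≤ F * (F * Real.exp (-(c * ((n.choose r : ℝ) / n))) * b) :=
        mul_le_mul_of_nonneg_left h3 hF0
    _ = F * F * Real.exp (-(c * ((n.choose r : ℝ) / n))) * b := by ring
    _ ≤ Real.exp (2 * (n * Real.log n)) * Real.exp (-(c * ((n.choose r : ℝ) / n))) * b := by
        refine mul_le_mul_of_nonneg_right ?_ hb0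
        exact mul_le_mul_of_nonneg_right h7 (Real.exp_nonneg _)
    _ = Real.exp (2 * (n * Real.log n) + -(c * ((n.choose r : ℝ) / n))) * b := by
        rw [Real.exp_add]
    _ ≤ δ * b := by
        refine mul_le_mul_of_nonneg_right ?_ hb0
        calc Real.exp (2 * (n * Real.log n) + -(c * ((n.choose r : ℝ) / n)))
            ≤ Real.exp (Real.log δ) := Real.exp_le_exp.mpr h9
          _ = δ := Real.exp_log hδ

end Pool.Agent.H8.VM
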