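import Pool.Agent.H8.VM.H3a_Sym
import Pool.Agent.H8.VM.H3b_Sym

/-! Collects the parts of H3_MatSym. -/
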