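import Pool.Agent.H8.VM.A3_Counts
import Pool.Agent.H8.VM.HDefs

/-! MODULE H4b (part of H4) (about 250 lines). The extreme ranks do not matter.

`card_split`: a matroid with ground set `Fin n` has a rank `r` in `{0, ..., n}`; the sets
`{SP r}` are disjoint with union `{AllSP}` (with the property `Q`).
`card_SP_le`: `M -> nb r M` is injective on `SP r` (`Pool.Agent.H28.SPMatroid.SP.ext`) with values
in the powerset of `Base n r`.
`choose_extreme`: for `13 r <= n`: `C(n, r) * 12^(n-r) <= 13^n` (binomial theorem for `(1+12)^n`),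
`12^(n-r) >= 12^(12n/13)`, and `(13^13/12^12)^5 <= 4^13`; so `C(n, r)^5 <= 4^n`. For
`12 n <= 13 r` use `C(n, r) = C(n, n-r)`.
`extreme_small`: `t = |AllSP| >= |SP (n/2)| = |stables n (n/2)| >= 2^(C(n, n/2)/n)`
(`stables_lower`), `C(n, n/2) >= 2^n/(n+1)`; and
`n! (n+1) 2^(4^(n/5)) <= δ 2^(2^n/(n (n+1)))` for large `n`. -/

open scoped BigOperators
open Filter

namespace Pool.Agent.H8.VM

open Pool.Agent.H28.Johnson Pool.Agent.H28.KW Pool.Agent.H28.Windows Pool.Agent.H28.SPMatroid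
  Pool.Agent.H28.V8

private lemma choose_extreme_aux {n r : ℕ} (hrn : r ≤ n) (h : 13 * r ≤ n) :
    (n.choose r) ^ 5 ≤ 4 ^ n := by
  have h1 : n.choose r * 12 ^ (n - r) ≤ 13 ^ n := by
    have h2 := add_pow 1 12 n
    simp only [one_pow, one_mul] at h2
    have h3 : (1 + 12) ^ n = 13 ^ n := by norm_num
    rw [← h3, h2]
    have h4 := Finset.single_le_sum (f := fun m => 12 ^ (n - m) * n.choose m)
      (s := Finset.range (n + 1)) (fun i _ => Nat.zero_le _) (Finset.mem_range.mpr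
        (by omega : r < n + 1))
    rw [mul_comm]
    exact h4
  have h2 : n.choose r ^ 65 * (12 ^ 60) ^ n ≤ (4 ^ 13 * 12 ^ 60) ^ n := by
    calc n.choose r ^ 65 * (12 ^ 60) ^ n ≤ n.choose r ^ 65 * (12 ^ (n - r)) ^ 65 := by
          apply Nat.mul_le_mul_left
          rw [← pow_mul, ← pow_mul]
          exact Nat.pow_le_pow_right (by norm_num) (by omega)
      _ = (n.choose r * 12 ^ (n - r)) ^ 65 := by rw [mul_pow]
      _ ≤ (13 ^ n) ^ 65 := Nat.pow_le_pow_left h1 65
      _ = (13 ^ 65) ^ n := by rw [← pow_mul, ← pow_mul, mul_comm]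
      _ ≤ (4 ^ 13 * 12 ^ 60) ^ n := Nat.pow_le_pow_left (by norm_num) n
  have h3 : n.choose r ^ 65 ≤ (4 ^ n) ^ 13 := by
    rw [mul_pow] at h2
    have h4 := Nat.le_of_mul_le_mul_right h2 (by positivity)
    rwa [← pow_mul, mul_comm 13 n, pow_mul] at h4
  have h4 : (n.choose r ^ 5) ^ 13 ≤ (4 ^ n) ^ 13 := by
    rw [← pow_mul]
    exact h3
  exact (Nat.pow_le_pow_iff_left (by norm_num)).mp h4

theorem choose_extreme {n r : ℕ} (hrn : r ≤ n) (h : 13 * r ≤ n ∨ 12 * n ≤ 13 * r) :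
    (n.choose r) ^ 5 ≤ 4 ^ n := by
  rcases h with h | h
  · exact choose_extreme_aux hrn h
  · rw [← Nat.choose_symm hrn]
    exact choose_extreme_aux (Nat.sub_le _ _) (by omega)

end Pool.Agent.H8.VM
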