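import Pool.Agent.H8.VM.A3_Counts
import Pool.Agent.H8.VM.HDefs

/-! MODULE H4a (part of H4) (about 250 lines). The extreme ranks do not matter.

`card_split`: a matroid with ground set `Fin n` has a rank `r` in `{0, ..., n}`; the sets
`{SP r}` are disjoint with union `{AllSP}` (with the property `Q`).
`card_SP_le`: `M -> nb r M` is injective on `SP r` (`Pool.Agent.H28.SPMatroid.SP.ext`) with values
in the powerset of `Base n r`.
`choose_extreme`: for `13 r <= n`: `C(n, r) * 12^(n-r) <= 13^n` (binomial theorem for `(1+12)^n`),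
`12^(n-r) >= 12^(12n/13)`, and `(13^13/12^12)^5 <= 4^13`; so `C(n, r)^5 <= 4^n`. For
`12 n <= 13 r` use `C(n, r) = C(n, n-r)`.
`extreme_small`: `t = |AllSP| >= |SP (n/2)| = |stables n (n/2)| >= 2^(C(n, n/2)/n)`
(`stables_lower`), `C(n, n/2) >= 2^n/(n+1)`; and
`n! (n+1) 2^(4^(n/5)) <= δ 2^(2^n/(n (n+1)))` for large `n`. -/

open scoped BigOperators
open Filter

namespace Pool.Agent.H8.VM

open Pool.Agent.H28.Johnson Pool.Agent.H28.KW Pool.Agent.H28.Windows Pool.Agent.H28.SPMatroid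
  Pool.Agent.H28.V8

theorem card_split {n : ℕ} (Q : Matroid (Fin n) → Prop) :
    Nat.card {M : Matroid (Fin n) // AllSP M ∧ Q M} =
      ∑ r ∈ Finset.range (n + 1), Nat.card {M : Matroid (Fin n) // SP r M ∧ Q M} := by
  classical
  have hfin : ∀ r : Fin (n + 1), Finite {M : Matroid (Fin n) // SP r M ∧ Q M} := by
    intro r
    refine Finite.of_injective
      (fun M : {M : Matroid (Fin n) // SP r M ∧ Q M} => nb (r : ℕ) M.1) ?_
    intro M N h
    exact Subtype.ext (SP.ext M.2.1 N.2.1 h)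
  have hrank : ∀ M : Matroid (Fin n), AllSP M → ∃ r : ℕ, r < n + 1 ∧ M.eRank = (r : ℕ∞) := by
    intro M hM
    have h1 := M.eRank_le_encard_ground
    rw [hM.1, Set.encard_univ, ENat.card_eq_coe_fintype_card, Fintype.card_fin] at h1
    have h2 : M.eRank ≠ ⊤ := fun h => by
      rw [h] at h1
      exact absurd h1 (by simp)
    refine ⟨M.eRank.toNat, ?_, (ENat.natCast_toNat h2).symm⟩
    rw [← ENat.natCast_toNat h2] at h1
    have h3 : M.eRank.toNat ≤ n := by exact_mod_cast h1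
    omega
  rw [Finset.sum_range (fun r => Nat.card {M : Matroid (Fin n) // SP r M ∧ Q M}),
    ← Nat.card_sigma]
  refine (Nat.card_congr (Equiv.ofBijective
    (fun x : (Σ r : Fin (n + 1), {M : Matroid (Fin n) // SP r M ∧ Q M}) =>
      (⟨x.2.1, ⟨⟨x.2.2.1.1, x.2.2.1.2.1⟩, x.2.2.2⟩⟩ :
        {M : Matroid (Fin n) // AllSP M ∧ Q M})) ⟨?_, ?_⟩)).symm
  · rintro ⟨r, M, hM⟩ ⟨r', M', hM'⟩ h
    have hMM : M = M' := congrArg Subtype.val h
    subst hMM
    have hr : r = r' := by
      have h1 := hM.1.2.2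
      rw [hM'.1.2.2] at h1
      have h2 : (r' : ℕ) = (r : ℕ) := by exact_mod_cast h1
      exact Fin.ext h2.symm
    subst hr
    rfl
  · rintro ⟨M, hM, hQ⟩
    obtain ⟨r, hr, hr2⟩ := hrank M hM
    exact ⟨⟨⟨r, hr⟩, ⟨M, ⟨hM.1, hM.2, hr2⟩, hQ⟩⟩, rfl⟩

theorem card_SP_le {n r : ℕ} : Nat.card {M : Matroid (Fin n) // SP r M} ≤ 2 ^ (n.choose r) := by
  classical
  have h : Nat.card {M : Matroid (Fin n) // SP r M} ≤
      Nat.card {I : Finset (Finset (Fin n)) // I ∈ (Base n r).powerset} := by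
    refine Nat.card_le_card_of_injective (fun M => ⟨nb r M.1, ?_⟩) ?_
    · rw [Finset.mem_powerset]
      exact Finset.filter_subset _ _
    · intro M N h
      exact Subtype.ext (SP.ext M.2 N.2 (congrArg Subtype.val h))
  refine h.trans (le_of_eq ?_)
  rw [Nat.card_eq_finsetCard, Finset.card_powerset, card_Base]

end Pool.Agent.H8.VM
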