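import Pool.Agent.H8.VM.A3_Counts
import Pool.Agent.H8.VM.HDefs
import Pool.Agent.H8.VM.H4a_Split
import Pool.Agent.H8.VM.H4b_Choose

/-! MODULE H4c (part of H4) (about 250 lines). The extreme ranks do not matter.

`card_split`: a matroid with ground set `Fin n` has a rank `r` in `{0, ..., n}`; the sets
`{SP r}` are disjoint with union `{AllSP}` (with the property `Q`).
`card_SP_le`: `M -> nb r M` is injective on `SP r` (`Pool.Agent.H28.SPMatroid.SP.ext`) with values
in the powerset of `Base n r`.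
`choose_extreme`: for `13 r <= n`: `C(n, r) * 12^(n-r) <= 13^n` (binomial theorem for `(1+12)^n`),
`12^(n-r) >= 12^(12n/13)`, and `(13^13/12^12)^5 <= 4^13`; so `C(n, r)^5 <= 4^n`. For
`12 n <= 13 r` use `C(n, r) = C(n, n-r)`.
`extreme_small`: `t = |AllSP| >= |SP (n/2)| = |stables n (n/2)| >= 2^(C(n, n/2)/n)`
(`stables_lower`), `C(n, n/2) >= 2^n/(n+1)`; and
`n! (n+1) 2^(4^(n/5)) <= δ 2^(2^n/(n (n+1)))` for large `n`. -/

open scoped BigOperators
open Filter

namespace Pool.Agent.H8.VM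

open Pool.Agent.H28.Johnson Pool.Agent.H28.KW Pool.Agent.H28.Windows Pool.Agent.H28.SPMatroid
  Pool.Agent.H28.V8

/-- numerical part -/
private lemma extreme_num (δ : ℝ) (hδ : 0 < δ) : ∀ᶠ n : ℕ in atTop,
    ∀ c : ℕ, c ^ 5 ≤ 4 ^ n →
      (n.factorial : ℝ) * (((n : ℝ) + 1) * 2 ^ c) ≤
        δ * Real.exp ((2 : ℝ) ^ n / (n * (n + 1)) * Real.log 2) := by
  obtain ⟨K, hK⟩ : ∃ K : ℕ, (1 : ℝ) / 2 ^ K ≤ δ := by
    obtain ⟨K, hK⟩ := exists_pow_lt_of_lt_one hδ (by norm_num : (1 / 2 : ℝ) < 1)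
    refine ⟨K, ?_⟩
    rw [one_div, ← inv_pow, ← one_div]
    exact hK.le
  have e1 : ∀ᶠ n : ℕ in atTop, ((n : ℝ) ^ 10) / (8 : ℝ) ^ n < 1 / 4 ^ 10 :=
    (tendsto_pow_const_div_const_pow_of_one_lt 10 (by norm_num : (1 : ℝ) < 8)).eventually
      (gt_mem_nhds (by positivity))
  have e2 : ∀ᶠ n : ℕ in atTop, ((n : ℝ) ^ 4) / (2 : ℝ) ^ n < 1 / (4 * (K + 3)) :=
    (tendsto_pow_const_div_const_pow_of_one_lt 4 (by norm_num : (1 : ℝ) < 2)).eventually
      (gt_mem_nhds (by positivity))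
  filter_upwards [e1, e2, eventually_ge_atTop 1] with n h1 h2 hn c hc
  have hn' : (1 : ℝ) ≤ n := by exact_mod_cast hn
  set P : ℝ := (2 : ℝ) ^ n / (n * (n + 1)) with hP
  have hden : (0 : ℝ) < n * (n + 1) := by positivity
  -- `c ≤ P / 2`
  have hc1 : (c : ℝ) ≤ P / 2 := by
    have hc' : (c : ℝ) ^ 5 ≤ 4 ^ n := by exact_mod_cast hc
    have h3 : (2 * (n * (n + 1) : ℝ)) ^ 5 ≤ 8 ^ n := by
      have h4 : (2 * (n * (n + 1) : ℝ)) ≤ 4 * n ^ 2 := by nlinarith
      have h5 : (2 * (n * (n + 1) : ℝ)) ^ 5 ≤ (4 * n ^ 2) ^ 5 :=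
        pow_le_pow_left₀ (by positivity) h4 5
      have h6 : ((4 : ℝ) * n ^ 2) ^ 5 = 4 ^ 5 * n ^ 10 := by ring
      rw [div_lt_iff₀ (by positivity)] at h1
      have h7 : (0 : ℝ) ≤ (n : ℝ) ^ 10 := by positivity
      have h8 : (n : ℝ) ^ 10 * 4 ^ 10 ≤ 8 ^ n := by
        have := h1.le
        rw [div_mul_eq_mul_div, one_mul, le_div_iff₀ (by positivity)] at this
        exact this
      nlinarith
    have h4 : (c * (2 * (n * (n + 1) : ℝ))) ^ 5 ≤ ((2 : ℝ) ^ n) ^ 5 := by
      rw [mul_pow]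
      calc (c : ℝ) ^ 5 * (2 * (n * (n + 1) : ℝ)) ^ 5 ≤ 4 ^ n * 8 ^ n := by gcongr
        _ = ((2 : ℝ) ^ n) ^ 5 := by
          rw [← mul_pow, ← pow_mul, mul_comm n 5, pow_mul]
          norm_num
    have h5 := le_of_pow_le_pow_left₀ (by norm_num) (by positivity) h4
    rw [hP, div_div, le_div_iff₀ (by positivity)]
    nlinarith
  -- `n ^ 2 + n + K ≤ P / 2`
  have hc2 : (n : ℝ) ^ 2 + n + K ≤ P / 2 := by
    rw [hP, div_div, le_div_iff₀ (by positivity)]
    rw [div_lt_iff₀ (by positivity), div_mul_eq_mul_div, one_mul, lt_div_iff₀ (by positivity)] at h2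
    have hK0 : (0 : ℝ) ≤ K := Nat.cast_nonneg K
    have h5 : (1 : ℝ) ≤ (n : ℝ) ^ 2 := by nlinarith
    have h6 : (K : ℝ) ≤ K * (n : ℝ) ^ 2 := by nlinarith
    have h3 : (n : ℝ) ^ 2 + n + K ≤ (K + 3) * n ^ 2 := by nlinarith
    have h4 : (n : ℝ) * (n + 1) * 2 ≤ 4 * n ^ 2 := by nlinarith
    calc ((n : ℝ) ^ 2 + n + K) * (n * (n + 1) * 2) ≤ ((K + 3) * n ^ 2) * (4 * n ^ 2) := by
          gcongr
      _ = (n : ℝ) ^ 4 * (4 * (K + 3)) := by ring
      _ ≤ 2 ^ n := h2.le
  -- the left side is at most a power of two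
  have hf : (n.factorial : ℝ) ≤ 2 ^ (n ^ 2) := by
    have h3 : n.factorial ≤ n ^ n := Nat.factorial_le_pow n
    have h4 : n ^ n ≤ (2 ^ n) ^ n := Nat.pow_le_pow_left (Nat.lt_two_pow_self).le n
    have h5 : n.factorial ≤ 2 ^ (n ^ 2) := by
      rw [pow_two, pow_mul]
      exact h3.trans h4
    exact_mod_cast h5
  have hg : ((n : ℝ) + 1) ≤ 2 ^ n := by
    have : n + 1 ≤ 2 ^ n := Nat.lt_two_pow_self
    exact_mod_cast this
  have hexp : Real.exp (P * Real.log 2) = (2 : ℝ) ^ P := by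
    rw [Real.rpow_def_of_pos (by norm_num), mul_comm]
  rw [hexp]
  calc (n.factorial : ℝ) * (((n : ℝ) + 1) * 2 ^ c) ≤ 2 ^ (n ^ 2) * (2 ^ n * 2 ^ c) := by gcongr
    _ = (1 / 2 ^ K) * (2 : ℝ) ^ (n ^ 2 + n + K + c) := by
      rw [pow_add, pow_add, pow_add]
      field_simp
    _ ≤ δ * (2 : ℝ) ^ P := by
      refine mul_le_mul hK ?_ (by positivity) hδ.le
      rw [← Real.rpow_natCast]
      refine Real.rpow_le_rpow_of_exponent_le (by norm_num) ?_
      push_cast
      linarith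

open Classical in
theorem extreme_small (δ : ℝ) (hδ : 0 < δ) : ∀ᶠ n : ℕ in atTop,
    (n.factorial : ℝ) * ((∑ r ∈ (Finset.range (n + 1)).filter
      (fun r => ¬ (n ≤ 13 * r ∧ 13 * r ≤ 12 * n)),
      Nat.card {M : Matroid (Fin n) // SP r M} : ℕ) : ℝ) ≤
      δ * (Nat.card {M : Matroid (Fin n) // AllSP M} : ℝ) := by
  filter_upwards [extreme_num δ hδ, eventually_ge_atTop 2] with n hnum hn
  -- lower bound for the number of all sparse paving matroids
  have hlow : Real.exp ((2 : ℝ) ^ n / (n * (n + 1)) * Real.log 2) ≤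
      (Nat.card {M : Matroid (Fin n) // AllSP M} : ℝ) := by
    have h1 := stables_lower (n := n) (r := n / 2) (by omega) (by omega)
    have h2 : Nat.card {M : Matroid (Fin n) // SP (n / 2) M ∧ True} =
        (stables n (n / 2)).card := by
      have := card_SP_filter (n := n) (r := n / 2) (by omega) (by omega) (fun _ => True)
      rw [this, Finset.filter_true]
    have h3 : Nat.card {M : Matroid (Fin n) // SP (n / 2) M ∧ True} ≤
        Nat.card {M : Matroid (Fin n) // AllSP M ∧ True} := by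
      rw [card_split (fun _ => True)]
      exact Finset.single_le_sum (f := fun r => Nat.card {M : Matroid (Fin n) // SP r M ∧ True})
        (fun _ _ => Nat.zero_le _) (Finset.mem_range.mpr (by omega))
    have h4 : Nat.card {M : Matroid (Fin n) // AllSP M ∧ True} =
        Nat.card {M : Matroid (Fin n) // AllSP M} := by simp
    have hpos : (0 : ℝ) < ((stables n (n / 2)).card : ℝ) := by
      have : (stables n (n / 2)).Nonempty := ⟨∅, by rw [mem_stables]; simp [Indep]⟩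
      exact_mod_cast Finset.card_pos.mpr this
    have h5 : (2 : ℝ) ^ n / (n * (n + 1)) ≤ (n.choose (n / 2) : ℝ) / n := by
      have h6 : 2 ^ n ≤ (n + 1) * n.choose (n / 2) := by
        rw [← Nat.sum_range_choose]
        calc ∑ m ∈ Finset.range (n + 1), n.choose m
            ≤ ∑ m ∈ Finset.range (n + 1), n.choose (n / 2) :=
              Finset.sum_le_sum fun m _ => Nat.choose_le_middle m n
          _ = (n + 1) * n.choose (n / 2) := by simp
      have h7 : (2 : ℝ) ^ n ≤ (n + 1) * n.choose (n / 2) := by exact_mod_cast h6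
      have hn0 : (0 : ℝ) < n := by positivity
      rw [div_le_div_iff₀ (by positivity) hn0]
      nlinarith
    calc Real.exp ((2 : ℝ) ^ n / (n * (n + 1)) * Real.log 2)
        ≤ Real.exp ((n.choose (n / 2) : ℝ) / n * Real.log 2) := by
          apply Real.exp_le_exp.mpr
          exact mul_le_mul_of_nonneg_right h5 (Real.log_nonneg (by norm_num))
      _ ≤ Real.exp (Real.log (stables n (n / 2)).card) := Real.exp_le_exp.mpr h1
      _ = (stables n (n / 2)).card := Real.exp_log hpos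
      _ ≤ (Nat.card {M : Matroid (Fin n) // AllSP M} : ℝ) := by
          rw [← h4, ← h2]; exact_mod_cast h3
  -- upper bound for the sum
  set F := (Finset.range (n + 1)).filter (fun r => ¬ (n ≤ 13 * r ∧ 13 * r ≤ 12 * n)) with hF
  rcases F.eq_empty_or_nonempty with hE | hNE
  · rw [hE]
    simp only [Finset.sum_empty, Nat.cast_zero, mul_zero]
    positivity
  obtain ⟨r0, hr0, hmax⟩ := Finset.exists_max_image F (fun r => n.choose r) hNE
  have hr0' := Finset.mem_filter.mp hr0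
  have hc := choose_extreme (n := n) (r := r0) (by have := Finset.mem_range.mp hr0'.1; omega)
    (by have := hr0'.2; omega)
  have hsum : (∑ r ∈ F, Nat.card {M : Matroid (Fin n) // SP r M}) ≤
      (n + 1) * 2 ^ (n.choose r0) := by
    calc (∑ r ∈ F, Nat.card {M : Matroid (Fin n) // SP r M})
        ≤ ∑ r ∈ F, 2 ^ (n.choose r0) := Finset.sum_le_sum fun r hr =>
          card_SP_le.trans (Nat.pow_le_pow_right (by norm_num) (hmax r hr))
      _ = F.card * 2 ^ (n.choose r0) := by simp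
      _ ≤ (n + 1) * 2 ^ (n.choose r0) := by
          apply Nat.mul_le_mul_right
          calc F.card ≤ (Finset.range (n + 1)).card := Finset.card_filter_le _ _
            _ = n + 1 := Finset.card_range _
  have hsum' : ((∑ r ∈ F, Nat.card {M : Matroid (Fin n) // SP r M} : ℕ) : ℝ) ≤
      ((n : ℝ) + 1) * 2 ^ (n.choose r0) := by exact_mod_cast hsum
  calc (n.factorial : ℝ) * ((∑ r ∈ F, Nat.card {M : Matroid (Fin n) // SP r M} : ℕ) : ℝ)
      ≤ (n.factorial : ℝ) * (((n : ℝ) + 1) * 2 ^ (n.choose r0)) := by gcongr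
    _ ≤ δ * Real.exp ((2 : ℝ) ^ n / (n * (n + 1)) * Real.log 2) := hnum _ hc
    _ ≤ δ * (Nat.card {M : Matroid (Fin n) // AllSP M} : ℝ) := by gcongr

end Pool.Agent.H8.VM
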