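import Pool.Agent.H8.VM.F_Matroid
import Pool.Agent.H8.VM.H2_Classes
import Pool.Agent.H8.VM.H3_MatSym
import Pool.Agent.H8.VM.H4_Total

/-! MODULE H5 (about 150 lines). All ranks together.

`card_split` for `Q = not HasV8` and for `Q = Sym`; for the central ranks `n <= 13 r`,
`13 r <= 12 n` use `matroid_small (δ/2)` and `matroid_sym' (δ/2)`, for the other ranks
`Nat.card {SP r, Q} <= Nat.card {SP r}` and `extreme_small (δ/2)` (`n! >= 1`). Then
`labelled_ratio` and `class_ratio` with `P = AllSP`, `Q = HasV8` (invariance: `iso_sparsePaving`,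
`iso_hasV8`; a member: the matroid of `Pool.Agent.H28.SPMatroid.mk` of the empty family of rank
1). -/

open scoped BigOperators
open Filter

namespace Pool.Agent.H8.VM

open Pool.Agent.H28.Johnson Pool.Agent.H28.KW Pool.Agent.H28.Windows Pool.Agent.H28.SPMatroid
  Pool.Agent.H28.V8

/-- squeeze to the limit one -/
private lemma H5_tendsto {f : ℕ → ℝ}
    (h : ∀ δ : ℝ, 0 < δ → ∀ᶠ n : ℕ in atTop, 1 - δ ≤ f n ∧ f n ≤ 1) :
    Tendsto f atTop (nhds 1) := by
  rw [Metric.tendsto_nhds]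
  intro ε hε
  filter_upwards [h (ε / 2) (by positivity)] with n hn
  rw [Real.dist_eq, abs_lt]
  constructor <;> linarith [hn.1, hn.2]

private lemma H5_card_le {n : ℕ} (P Q : Matroid (Fin n) → Prop) :
    Nat.card {M : Matroid (Fin n) // P M ∧ Q M} ≤ Nat.card {M : Matroid (Fin n) // P M} := by
  apply Nat.card_le_card_of_injective
    (fun M : {M : Matroid (Fin n) // P M ∧ Q M} => (⟨M.1, M.2.1⟩ : {M : Matroid (Fin n) // P M}))
  intro A B h
  simp only [Subtype.mk.injEq] at h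
  exact Subtype.ext h

private lemma H5_total (n : ℕ) :
    Nat.card {M : Matroid (Fin n) // AllSP M} =
      ∑ r ∈ Finset.range (n + 1), Nat.card {M : Matroid (Fin n) // SP r M} := by
  have h := card_split (n := n) (fun _ => True)
  simpa using h

open Classical in
/-- summation over the ranks: `w` is the weight (`1` or `n!`) -/
private lemma H5_sum {n : ℕ} (Q : Matroid (Fin n) → Prop) {δ w : ℝ} (hδ : 0 ≤ δ)
    (hw0 : 0 ≤ w) (hw : w ≤ (n.factorial : ℝ))
    (hc : ∀ r : ℕ, n ≤ 13 * r → 13 * r ≤ 12 * n →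
      w * (Nat.card {M : Matroid (Fin n) // SP r M ∧ Q M} : ℝ) ≤
        δ * (Nat.card {M : Matroid (Fin n) // SP r M} : ℝ))
    (he : (n.factorial : ℝ) * ((∑ r ∈ (Finset.range (n + 1)).filter
      (fun r => ¬ (n ≤ 13 * r ∧ 13 * r ≤ 12 * n)),
      Nat.card {M : Matroid (Fin n) // SP r M} : ℕ) : ℝ) ≤
      δ * (Nat.card {M : Matroid (Fin n) // AllSP M} : ℝ)) :
    w * (Nat.card {M : Matroid (Fin n) // AllSP M ∧ Q M} : ℝ) ≤
      2 * δ * (Nat.card {M : Matroid (Fin n) // AllSP M} : ℝ) := by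
  rw [card_split Q]
  push_cast
  rw [← Finset.sum_filter_add_sum_filter_not (Finset.range (n + 1))
    (fun r => n ≤ 13 * r ∧ 13 * r ≤ 12 * n), mul_add]
  have h1 : w * ∑ r ∈ (Finset.range (n + 1)).filter (fun r => n ≤ 13 * r ∧ 13 * r ≤ 12 * n),
      (Nat.card {M : Matroid (Fin n) // SP r M ∧ Q M} : ℝ) ≤
      δ * (Nat.card {M : Matroid (Fin n) // AllSP M} : ℝ) := by
    rw [H5_total n]
    push_cast
    rw [Finset.mul_sum, Finset.mul_sum]
    calc ∑ r ∈ (Finset.range (n + 1)).filter (fun r => n ≤ 13 * r ∧ 13 * r ≤ 12 * n),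
          w * (Nat.card {M : Matroid (Fin n) // SP r M ∧ Q M} : ℝ)
        ≤ ∑ r ∈ (Finset.range (n + 1)).filter (fun r => n ≤ 13 * r ∧ 13 * r ≤ 12 * n),
          δ * (Nat.card {M : Matroid (Fin n) // SP r M} : ℝ) := by
          refine Finset.sum_le_sum fun r hr => ?_
          rw [Finset.mem_filter] at hr
          exact hc r hr.2.1 hr.2.2
      _ ≤ _ := Finset.sum_le_sum_of_subset_of_nonneg (Finset.filter_subset _ _)
          fun r _ _ => by positivity
  have h2 : w * ∑ r ∈ (Finset.range (n + 1)).filter (fun r => ¬ (n ≤ 13 * r ∧ 13 * r ≤ 12 * n)),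
      (Nat.card {M : Matroid (Fin n) // SP r M ∧ Q M} : ℝ) ≤
      δ * (Nat.card {M : Matroid (Fin n) // AllSP M} : ℝ) := by
    refine le_trans ?_ he
    push_cast
    refine mul_le_mul hw ?_ (Finset.sum_nonneg fun _ _ => by positivity) (by positivity)
    exact Finset.sum_le_sum fun r _ => by exact_mod_cast H5_card_le (SP r) Q
  calc _ ≤ δ * (Nat.card {M : Matroid (Fin n) // AllSP M} : ℝ) +
        δ * (Nat.card {M : Matroid (Fin n) // AllSP M} : ℝ) := add_le_add h1 h2
    _ = _ := by ring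

private lemma H5_nonempty {n : ℕ} (hn : 2 ≤ n) : ∃ M : Matroid (Fin n), AllSP M := by
  have hst : (∅ : Finset (Finset (Fin n))) ∈ stables n 1 :=
    mem_stables.mpr ⟨Finset.empty_subset _, fun a ha => by simp at ha⟩
  have h := mk_SP hst le_rfl (by omega)
  exact ⟨_, h.1, h.2.1⟩

private lemma H5_main (δ : ℝ) (hδ : 0 < δ) : ∀ᶠ n : ℕ in atTop,
    (1 - δ ≤ (Nat.card {M : Matroid (Fin n) // AllSP M ∧ HasV8 M} : ℝ) /
        (Nat.card {M : Matroid (Fin n) // AllSP M} : ℝ) ∧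
      (Nat.card {M : Matroid (Fin n) // AllSP M ∧ HasV8 M} : ℝ) /
        (Nat.card {M : Matroid (Fin n) // AllSP M} : ℝ) ≤ 1) ∧
    (1 - δ ≤ (Nat.card {S : Set (Matroid (Fin n)) // ∃ M : Matroid (Fin n),
          AllSP M ∧ HasV8 M ∧ S = isoClass M} : ℝ) /
        (Nat.card {S : Set (Matroid (Fin n)) // ∃ M : Matroid (Fin n),
          AllSP M ∧ S = isoClass M} : ℝ) ∧
      (Nat.card {S : Set (Matroid (Fin n)) // ∃ M : Matroid (Fin n),
          AllSP M ∧ HasV8 M ∧ S = isoClass M} : ℝ) /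
        (Nat.card {S : Set (Matroid (Fin n)) // ∃ M : Matroid (Fin n),
          AllSP M ∧ S = isoClass M} : ℝ) ≤ 1) := by
  filter_upwards [matroid_small (δ / 4) (by positivity), matroid_sym' (δ / 4) (by positivity),
    extreme_small (δ / 4) (by positivity), eventually_ge_atTop 2] with n hsm hsy hex hn
  have hf1 : (1 : ℝ) ≤ (n.factorial : ℝ) := by exact_mod_cast Nat.factorial_pos n
  have hb : (Nat.card {M : Matroid (Fin n) // AllSP M ∧ ¬ HasV8 M} : ℝ) ≤
      δ / 2 * (Nat.card {M : Matroid (Fin n) // AllSP M} : ℝ) := by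
    have h1 := H5_sum (n := n) (fun M => ¬ HasV8 M) (δ := δ / 4) (w := 1) (by positivity)
      zero_le_one hf1 (fun r h1 h2 => by rw [one_mul]; exact hsm r h1 h2) hex
    rw [one_mul] at h1
    refine h1.trans (le_of_eq (by ring))
  have hs : (n.factorial : ℝ) * (Nat.card {M : Matroid (Fin n) // AllSP M ∧ Sym M} : ℝ) ≤
      δ / 2 * (Nat.card {M : Matroid (Fin n) // AllSP M} : ℝ) := by
    have h1 := H5_sum (n := n) Sym (δ := δ / 4) (w := (n.factorial : ℝ)) (by positivity)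
      (by positivity) le_rfl (fun r h1 h2 => hsy r h1 h2) hex
    refine h1.trans (le_of_eq (by ring))
  have hl := labelled_ratio (n := n) AllSP HasV8 (H5_nonempty hn) (δ / 2) hb
  have hc := class_ratio (n := n) AllSP HasV8 (fun M hM => hM.1) (H5_nonempty hn)
    (fun e M N hM hN hiso => ⟨hN, iso_sparsePaving hM.1 hN hiso hM.2⟩)
    (fun e M N hM hN hiso hV => iso_hasV8 hM.1 hN hiso hV) (δ / 2) (by positivity) hb hs
  exact ⟨⟨by linarith [hl.1], hl.2⟩, ⟨by linarith [hc.1], hc.2⟩⟩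

theorem all_ranks :
    Tendsto (fun n : ℕ =>
      (Nat.card {M : Matroid (Fin n) // AllSP M ∧ HasV8 M} : ℝ) /
        (Nat.card {M : Matroid (Fin n) // AllSP M} : ℝ)) atTop (nhds 1) ∧
    Tendsto (fun n : ℕ =>
      (Nat.card {S : Set (Matroid (Fin n)) // ∃ M : Matroid (Fin n),
          AllSP M ∧ HasV8 M ∧ S = isoClass M} : ℝ) /
        (Nat.card {S : Set (Matroid (Fin n)) // ∃ M : Matroid (Fin n),
          AllSP M ∧ S = isoClass M} : ℝ)) atTop (nhds 1) :=
  ⟨H5_tendsto fun δ hδ => (H5_main δ hδ).mono fun _ h => h.1,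
    H5_tendsto fun δ hδ => (H5_main δ hδ).mono fun _ h => h.2⟩

end Pool.Agent.H8.VM
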