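import Pool.Agent.H28.V8Asymp
import Pool.Agent.H8.VM.F_Matroid
import Pool.Agent.H8.VM.H2_Classes
import Pool.Agent.H8.VM.H3_MatSym

/-! MODULE H6 (about 250 lines). Prescribed ranks.

Let `δ > 0`; show that for large `n` both ratios for `r = r n` are in `[1 - δ, 1]`.
* if `13 min (r, n-r) <= n`: `Pool.Agent.H28.V8Asymp.labelled` and the lemma `ratios` (copy it from
  `Pool/Agent/Results/MP_3ce63d_co/SparsePavingLowRank.lean`; the definitions are the same).
* otherwise `n < 13 r` and `13 r < 12 n`: `matroid_small (δ/2)`, `matroid_sym' (δ/2)`,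
  `labelled_ratio`, `class_ratio` with `P = SP r`, `Q = HasV8` (`iso_SP`, `iso_hasV8`). -/

open scoped BigOperators
open Filter

namespace Pool.Agent.H8.VM

open Pool.Agent.H28.Johnson Pool.Agent.H28.KW Pool.Agent.H28.Windows Pool.Agent.H28.SPMatroid
  Pool.Agent.H28.V8

private lemma H6_factorial_pow (n : ℕ) (hn : 1 ≤ n) :
    (n.factorial : ℝ) * (1 / 2) ^ (n ^ 2) ≤ (1 / 2) ^ n := by
  have h1 : (n.factorial : ℝ) ≤ (n : ℝ) ^ n := by exact_mod_cast Nat.factorial_le_pow n
  have h2 : (n : ℝ) ≤ 2 ^ (n - 1) := by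
    have : n ≤ 2 ^ (n - 1) := by
      have := Nat.lt_two_pow_self (n := n - 1)
      omega
    exact_mod_cast this
  have h3 : (n : ℝ) * (1 / 2) ^ n ≤ 1 / 2 := by
    have e : (1 / 2 : ℝ) ^ n = (1 / 2) ^ (n - 1) * (1 / 2) := by
      rw [← pow_succ]; congr 1; omega
    rw [e]
    have h4 : (2 : ℝ) ^ (n - 1) * (1 / 2) ^ (n - 1) = 1 := by
      rw [← mul_pow]; norm_num
    have h5 : (0 : ℝ) < (1 / 2) ^ (n - 1) := by positivity
    nlinarith
  calc (n.factorial : ℝ) * (1 / 2) ^ (n ^ 2) ≤ (n : ℝ) ^ n * (1 / 2) ^ (n ^ 2) :=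
        mul_le_mul_of_nonneg_right h1 (by positivity)
    _ = ((n : ℝ) * (1 / 2) ^ n) ^ n := by rw [mul_pow, sq, pow_mul]
    _ ≤ (1 / 2) ^ n := pow_le_pow_left₀ (by positivity) h3 n

/-- general passage from a labelled estimate to both ratios -/
private lemma H6_ratios {n : ℕ} (hn : 1 ≤ n) (P Q : Matroid (Fin n) → Prop) (hPE : ∀ M, P M → M.E = Set.univ)
    (hne : ∃ M, P M)
    (h : (Nat.card {M : Matroid (Fin n) // P M ∧ ¬ Q M} : ℝ) ≤
      (1 / 2) ^ (n ^ 2) * Nat.card {M : Matroid (Fin n) // P M}) :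
    (1 - (1 / 2 : ℝ) ^ n ≤ (Nat.card {M : Matroid (Fin n) // P M ∧ Q M} : ℝ) /
        (Nat.card {M : Matroid (Fin n) // P M} : ℝ) ∧
      (Nat.card {M : Matroid (Fin n) // P M ∧ Q M} : ℝ) /
        (Nat.card {M : Matroid (Fin n) // P M} : ℝ) ≤ 1) ∧
    (1 - (1 / 2 : ℝ) ^ n ≤ (Nat.card {S : Set (Matroid (Fin n)) // ∃ M : Matroid (Fin n),
          P M ∧ Q M ∧ S = isoClass M} : ℝ) /
        (Nat.card {S : Set (Matroid (Fin n)) // ∃ M : Matroid (Fin n), P M ∧ S = isoClass M} : ℝ) ∧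
      (Nat.card {S : Set (Matroid (Fin n)) // ∃ M : Matroid (Fin n),
          P M ∧ Q M ∧ S = isoClass M} : ℝ) /
        (Nat.card {S : Set (Matroid (Fin n)) // ∃ M : Matroid (Fin n), P M ∧ S = isoClass M} : ℝ)
        ≤ 1) := by
  classical
  have : Fintype (Matroid (Fin n)) := Fintype.ofFinite _
  set U : Finset (Matroid (Fin n)) := Finset.univ with hU
  have c1 : ∀ R : Matroid (Fin n) → Prop, Nat.card {M : Matroid (Fin n) // R M} =
      (U.filter R).card := by
    intro R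
    rw [Nat.card_eq_fintype_card, Fintype.card_subtype]
  have c2 : ∀ R : Matroid (Fin n) → Prop, Nat.card {S : Set (Matroid (Fin n)) //
      ∃ M : Matroid (Fin n), R M ∧ S = isoClass M} = ((U.filter R).image isoClass).card := by
    intro R
    rw [← Nat.card_eq_finsetCard]
    refine Nat.card_congr (Equiv.subtypeEquivRight ?_)
    intro S
    rw [Finset.mem_image]
    constructor
    · rintro ⟨M, hM, rfl⟩
      exact ⟨M, Finset.mem_filter.mpr ⟨Finset.mem_univ _, hM⟩, rfl⟩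
    · rintro ⟨M, hM, rfl⟩
      exact ⟨M, (Finset.mem_filter.mp hM).2, rfl⟩
  obtain ⟨PQ, hPQ⟩ : ∃ R : Matroid (Fin n) → Prop, ∀ M, R M ↔ P M ∧ Q M := ⟨_, fun _ => Iff.rfl⟩
  obtain ⟨PN, hPN⟩ : ∃ R : Matroid (Fin n) → Prop, ∀ M, R M ↔ P M ∧ ¬ Q M := ⟨_, fun _ => Iff.rfl⟩
  have c2' : Nat.card {S : Set (Matroid (Fin n)) //
      ∃ M : Matroid (Fin n), P M ∧ Q M ∧ S = isoClass M} =
      ((U.filter PQ).image isoClass).card := by
    rw [← c2 PQ]
    simp only [hPQ, and_assoc]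
  have c1' : Nat.card {M : Matroid (Fin n) // P M ∧ Q M} = (U.filter PQ).card := by
    rw [← c1 PQ]
    simp only [hPQ]
  have c1'' : Nat.card {M : Matroid (Fin n) // P M ∧ ¬ Q M} = (U.filter PN).card := by
    rw [← c1 PN]
    simp only [hPN]
  rw [c2', c2 P, c1 P, c1']
  rw [c1 P, c1''] at h
  set t := (U.filter P).card with ht
  set a := (U.filter PQ).card with ha
  set b := (U.filter PN).card with hb
  set T := ((U.filter P).image isoClass).card with hT
  set A := ((U.filter PQ).image isoClass).card with hA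
  have hab : a + b = t := by
    rw [ha, hb, ht, ← Finset.card_union_of_disjoint]
    · congr 1
      ext M
      simp only [Finset.mem_union, Finset.mem_filter, hPQ, hPN]
      tauto
    · rw [Finset.disjoint_left]
      intro M h1 h2
      rw [Finset.mem_filter, hPQ] at h1
      rw [Finset.mem_filter, hPN] at h2
      exact h2.2.2 h1.2.2
  have htpos : 0 < t := by
    obtain ⟨M, hM⟩ := hne
    exact Finset.card_pos.mpr ⟨M, Finset.mem_filter.mpr ⟨Finset.mem_univ _, hM⟩⟩
  have hTpos : 0 < T := by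
    obtain ⟨M, hM⟩ := hne
    exact Finset.card_pos.mpr ⟨_, Finset.mem_image_of_mem _
      (Finset.mem_filter.mpr ⟨Finset.mem_univ _, hM⟩)⟩
  have hfib : t ≤ n.factorial * T := by
    rw [ht, hT]
    refine Finset.card_le_mul_card_image (U.filter P) n.factorial ?_
    intro S hS
    rw [Finset.mem_image] at hS
    obtain ⟨M0, _, rfl⟩ := hS
    have hperm : Fintype.card (Equiv.Perm (Fin n)) = n.factorial := by
      rw [Fintype.card_perm, Fintype.card_fin]
    have hmem : ∀ N ∈ (U.filter P).filter (fun M => isoClass M = isoClass M0),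
        N.E = Set.univ ∧ ∃ e : Equiv.Perm (Fin n), ∀ I : Set (Fin n), M0.Indep I ↔
          N.Indep (e '' I) := by
      intro N hN
      rw [Finset.mem_filter, Finset.mem_filter] at hN
      have hself : N ∈ isoClass N := by
        refine ⟨hPE N hN.1.2, 1, fun I => ?_⟩
        simp
      rw [hN.2] at hself
      exact hself
    rw [← hperm, ← Finset.card_univ]
    let f : Matroid (Fin n) → Equiv.Perm (Fin n) := fun N =>
      if hN : ∃ e : Equiv.Perm (Fin n), ∀ I : Set (Fin n), M0.Indep I ↔ N.Indep (e '' I) then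
        hN.choose else 1
    apply Finset.card_le_card_of_injOn f (fun _ _ => Finset.mem_coe.mpr (Finset.mem_univ _))
    intro N hN N' hN' hff
    obtain ⟨hE, hex⟩ := hmem N hN
    obtain ⟨hE', hex'⟩ := hmem N' hN'
    have h1 := hex.choose_spec
    have h2 := hex'.choose_spec
    have e1 : f N = hex.choose := dif_pos hex
    have e2 : f N' = hex'.choose := dif_pos hex'
    rw [← e1] at h1
    rw [← e2, ← hff] at h2
    refine Matroid.ext_indep (hE.trans hE'.symm) (fun I _ => ?_)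
    have h3 := h1 ((f N).symm '' I)
    have h4 := h2 ((f N).symm '' I)
    have e3 : (f N) '' ((f N).symm '' I) = I := by
      rw [← Set.image_comp]; simp
    rw [e3] at h3 h4
    exact h3.symm.trans h4
  have hTA : T ≤ A + b := by
    have hsub : (U.filter P).image isoClass ⊆
        (U.filter PQ).image isoClass ∪ (U.filter PN).image isoClass := by
      intro S hS
      rw [Finset.mem_image] at hS
      obtain ⟨M, hM, rfl⟩ := hS
      rw [Finset.mem_filter] at hM
      rw [Finset.mem_union]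
      by_cases hQ : Q M
      · exact Or.inl (Finset.mem_image_of_mem _
          (Finset.mem_filter.mpr ⟨hM.1, (hPQ M).mpr ⟨hM.2, hQ⟩⟩))
      · exact Or.inr (Finset.mem_image_of_mem _
          (Finset.mem_filter.mpr ⟨hM.1, (hPN M).mpr ⟨hM.2, hQ⟩⟩))
    calc T ≤ _ := Finset.card_le_card hsub
      _ ≤ _ := Finset.card_union_le _ _
      _ ≤ A + b := Nat.add_le_add_left Finset.card_image_le _
  have hAT : A ≤ T := by
    apply Finset.card_le_card
    apply Finset.image_subset_image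
    intro M hM
    rw [Finset.mem_filter] at hM ⊢
    exact ⟨hM.1, ((hPQ M).mp hM.2).1⟩
  have htr : (0 : ℝ) < t := by exact_mod_cast htpos
  have hTr : (0 : ℝ) < T := by exact_mod_cast hTpos
  have hfac := H6_factorial_pow n hn
  have hf1 : (1 : ℝ) ≤ n.factorial := by exact_mod_cast Nat.factorial_pos n
  have hp : (0 : ℝ) < (1 / 2) ^ (n ^ 2) := by positivity
  have hsmall : (1 / 2 : ℝ) ^ (n ^ 2) ≤ (1 / 2) ^ n := by
    refine le_trans ?_ hfac
    nlinarith
  have habr : (a : ℝ) + b = t := by exact_mod_cast hab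
  have hTAr : (T : ℝ) ≤ A + b := by exact_mod_cast hTA
  have hATr : (A : ℝ) ≤ T := by exact_mod_cast hAT
  have hfibr : (t : ℝ) ≤ n.factorial * T := by exact_mod_cast hfib
  have hb0 : (0 : ℝ) ≤ b := Nat.cast_nonneg _
  refine ⟨⟨?_, ?_⟩, ⟨?_, ?_⟩⟩
  · rw [le_div_iff₀ htr]
    nlinarith
  · rw [div_le_one htr]
    linarith
  · rw [le_div_iff₀ hTr]
    have h1 : (b : ℝ) ≤ (1 / 2) ^ n * T := by
      calc (b : ℝ) ≤ (1 / 2) ^ (n ^ 2) * t := h
        _ ≤ (1 / 2) ^ (n ^ 2) * (n.factorial * T) := mul_le_mul_of_nonneg_left hfibr hp.le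
        _ = (n.factorial * (1 / 2) ^ (n ^ 2)) * T := by ring
        _ ≤ _ := mul_le_mul_of_nonneg_right hfac hTr.le
    nlinarith
  · rw [div_le_one hTr]
    exact hATr

/-- squeeze to the limit one -/
private lemma H6_tendsto {f : ℕ → ℝ}
    (h : ∀ δ : ℝ, 0 < δ → ∀ᶠ n : ℕ in atTop, 1 - δ ≤ f n ∧ f n ≤ 1) :
    Tendsto f atTop (nhds 1) := by
  rw [Metric.tendsto_nhds]
  intro ε hε
  filter_upwards [h (ε / 2) (by positivity)] with n hn
  rw [Real.dist_eq, abs_lt]
  constructor <;> linarith [hn.1, hn.2]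

private lemma H6_nonempty {n r : ℕ} (hr : 1 ≤ r) (hrn : r < n) :
    ∃ M : Matroid (Fin n), SP r M := by
  have hst : (∅ : Finset (Finset (Fin n))) ∈ stables n r :=
    mem_stables.mpr ⟨Finset.empty_subset _, fun a ha => by simp at ha⟩
  exact ⟨_, mk_SP hst hr hrn⟩

private lemma H6_main (r : ℕ → ℕ)
    (hr : ∀ᶠ n : ℕ in atTop, 10000 * Real.log n ≤ min (r n) (n - r n : ℕ)) (δ : ℝ) (hδ : 0 < δ) :
    ∀ᶠ n : ℕ in atTop,
    (1 - δ ≤ (Nat.card {M : Matroid (Fin n) // SP (r n) M ∧ HasV8 M} : ℝ) /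
        (Nat.card {M : Matroid (Fin n) // SP (r n) M} : ℝ) ∧
      (Nat.card {M : Matroid (Fin n) // SP (r n) M ∧ HasV8 M} : ℝ) /
        (Nat.card {M : Matroid (Fin n) // SP (r n) M} : ℝ) ≤ 1) ∧
    (1 - δ ≤ (Nat.card {S : Set (Matroid (Fin n)) // ∃ M : Matroid (Fin n),
          SP (r n) M ∧ HasV8 M ∧ S = isoClass M} : ℝ) /
        (Nat.card {S : Set (Matroid (Fin n)) // ∃ M : Matroid (Fin n),
          SP (r n) M ∧ S = isoClass M} : ℝ) ∧
      (Nat.card {S : Set (Matroid (Fin n)) // ∃ M : Matroid (Fin n),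
          SP (r n) M ∧ HasV8 M ∧ S = isoClass M} : ℝ) /
        (Nat.card {S : Set (Matroid (Fin n)) // ∃ M : Matroid (Fin n),
          SP (r n) M ∧ S = isoClass M} : ℝ) ≤ 1) := by
  have hpow : ∀ᶠ n : ℕ in atTop, (1 / 2 : ℝ) ^ n ≤ δ := by
    have h1 : Tendsto (fun n : ℕ => (1 / 2 : ℝ) ^ n) atTop (nhds 0) :=
      tendsto_pow_atTop_nhds_zero_of_lt_one (by norm_num) (by norm_num)
    exact (h1.eventually (gt_mem_nhds hδ)).mono fun n h => h.le
  filter_upwards [hr, H28.V8Asymp.labelled, matroid_small (δ / 2) (by positivity),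
    matroid_sym' (δ / 2) (by positivity), hpow, eventually_ge_atTop 1]
    with n hr hlab hsm hsy hpow hn
  by_cases h13 : 13 * min (r n) (n - r n) ≤ n
  · obtain ⟨h4, h4n, h⟩ := hlab (r n) hr h13
    have h2 := H6_ratios hn (fun M => SP (r n) M) HasV8 (fun M hM => hM.1)
      (H6_nonempty (by omega) (by omega)) h
    exact ⟨⟨by linarith [h2.1.1], h2.1.2⟩, ⟨by linarith [h2.2.1], h2.2.2⟩⟩
  · have hc1 : n ≤ 13 * r n := by omega
    have hc2 : 13 * r n ≤ 12 * n := by omega
    have hb := hsm (r n) hc1 hc2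
    have hs := hsy (r n) hc1 hc2
    have hne : ∃ M : Matroid (Fin n), SP (r n) M := H6_nonempty (by omega) (by omega)
    have hl := labelled_ratio (n := n) (SP (r n)) HasV8 hne (δ / 2) hb
    have hc := class_ratio (n := n) (SP (r n)) HasV8 (fun M hM => hM.1) hne
      (fun e M N hM hN hiso => iso_SP hM hN hiso)
      (fun e M N hM hN hiso hV => iso_hasV8 hM.1 hN hiso hV) (δ / 2) (by positivity) hb hs
    exact ⟨⟨by linarith [hl.1], hl.2⟩, ⟨by linarith [hc.1], hc.2⟩⟩

theorem given_ranks (r : ℕ → ℕ)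
    (hr : ∀ᶠ n : ℕ in atTop, 10000 * Real.log n ≤ min (r n) (n - r n : ℕ)) :
    Tendsto (fun n : ℕ =>
      (Nat.card {M : Matroid (Fin n) // SP (r n) M ∧ HasV8 M} : ℝ) /
        (Nat.card {M : Matroid (Fin n) // SP (r n) M} : ℝ)) atTop (nhds 1) ∧
    Tendsto (fun n : ℕ =>
      (Nat.card {S : Set (Matroid (Fin n)) // ∃ M : Matroid (Fin n),
          SP (r n) M ∧ HasV8 M ∧ S = isoClass M} : ℝ) /
        (Nat.card {S : Set (Matroid (Fin n)) // ∃ M : Matroid (Fin n),
          SP (r n) M ∧ S = isoClass M} : ℝ)) atTop (nhds 1) :=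
  ⟨H6_tendsto fun δ hδ => (H6_main r hr δ hδ).mono fun _ h => h.1,
    H6_tendsto fun δ hδ => (H6_main r hr δ hδ).mono fun _ h => h.2⟩

end Pool.Agent.H8.VM
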